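import Pool.Agent.Work.MP_02e829_pg.Interface

open Set Filter Manifold Matrix MeasureTheory Metric
open scoped Topology ContDiff Manifold Real

set_option autoImplicit false

namespace Pool.PGR

open Pool
open Pool.FR (pd ee gg WW DD NN II Ga Gb Imm SO3)
open Pool.SXB (E3 L3 Proper PosCurv TC)
open Pool.TRG (E2 V3 IC St pt px PerR Iso Per)

/-- differentiable with a given partial derivative -/
def CID_PD (i : Fin 2) (f : E2 → ℝ) (x : E2) (v : ℝ) : Prop :=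
  DifferentiableAt ℝ f x ∧ pd i f x = v

theorem CID_mul {i : Fin 2} {f g : E2 → ℝ} {x : E2} {v w : ℝ} (hf : CID_PD i f x v)
    (hg : CID_PD i g x w) : CID_PD i (fun y => f y * g y) x (v * g x + f x * w) :=
  ⟨hf.1.mul hg.1, by rw [Pool.FR.pd_mul i hf.1 hg.1, hf.2, hg.2]⟩

theorem CID_add {i : Fin 2} {f g : E2 → ℝ} {x : E2} {v w : ℝ} (hf : CID_PD i f x v)
    (hg : CID_PD i g x w) : CID_PD i (fun y => f y + g y) x (v + w) :=
  ⟨hf.1.add hg.1, by rw [Pool.FR.pd_add i hf.1 hg.1, hf.2, hg.2]⟩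

theorem CID_sub {i : Fin 2} {f g : E2 → ℝ} {x : E2} {v w : ℝ} (hf : CID_PD i f x v)
    (hg : CID_PD i g x w) : CID_PD i (fun y => f y - g y) x (v - w) :=
  ⟨hf.1.sub hg.1, by rw [Pool.FR.pd_sub i hf.1 hg.1, hf.2, hg.2]⟩

theorem CID_neg {i : Fin 2} {f : E2 → ℝ} {x : E2} {v : ℝ} (hf : CID_PD i f x v) :
    CID_PD i (fun y => -f y) x (-v) :=
  ⟨hf.1.neg, by rw [Pool.FR.pd_neg i, hf.2]⟩

theorem CID_sq {i : Fin 2} {f : E2 → ℝ} {x : E2} {v : ℝ} (hf : CID_PD i f x v) :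
    CID_PD i (fun y => f y ^ 2) x (v * f x + f x * v) := by
  have e : (fun y => f y ^ 2) = fun y => f y * f y := by
    funext y
    ring
  rw [e]
  exact CID_mul hf hf

theorem CID_fun {x : E2} {w : ℝ → ℝ} {w' : ℝ} (hw : HasDerivAt w w' (x 1)) (i : Fin 2) :
    CID_PD i (fun y => w (y 1)) x (w' * (ee i : E2) 1) := by
  have h1 : HasFDerivAt (fun y : E2 => y 1) (EuclideanSpace.proj (𝕜 := ℝ) (1 : Fin 2) : E2 →L[ℝ] ℝ) x :=
    (EuclideanSpace.proj (𝕜 := ℝ) (1 : Fin 2) : E2 →L[ℝ] ℝ).hasFDerivAt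
  have h2 : HasFDerivAt (fun y : E2 => w (y 1))
      (w' • (EuclideanSpace.proj (𝕜 := ℝ) (1 : Fin 2) : E2 →L[ℝ] ℝ)) x :=
    hw.comp_hasFDerivAt x h1
  refine ⟨h2.differentiableAt, ?_⟩
  rw [pd, h2.fderiv]
  rfl

theorem CID_fun0 {x : E2} {w : ℝ → ℝ} {w' : ℝ} (hw : HasDerivAt w w' (x 1)) :
    CID_PD 0 (fun y => w (y 1)) x 0 := by
  have h := CID_fun hw 0
  have e : (ee 0 : E2) 1 = 0 := by simp [ee]
  rw [e, mul_zero] at h
  exact h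

theorem CID_fun1 {x : E2} {w : ℝ → ℝ} {w' : ℝ} (hw : HasDerivAt w w' (x 1)) :
    CID_PD 1 (fun y => w (y 1)) x w' := by
  have h := CID_fun hw 1
  have e : (ee 1 : E2) 1 = 1 := by simp [ee]
  rw [e, mul_one] at h
  exact h

theorem CID_open (r : ℝ) : IsOpen (VS r) := by
  have h1 : Continuous fun y : E2 => y 1 := by fun_prop
  exact (isOpen_lt continuous_const h1).inter (isOpen_lt h1 continuous_const)

theorem CID_alg (y c g g' h a0 s0 Q P e f s al Q0 P0 Q1 P1 s1 Q01 P01 W : ℝ)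
    (hs : s1 = h * s + al * s0) (hQ : Q1 = al * Q0 - s * P0 + e)
    (hP : P1 = al * P0 + (s * Q0 + c / y * P) + f) :
    (-(2 * (g * W)) * (-(s * P0) * Q + (s * Q0 + c / y * P) * P - g * (P ^ 2 + Q ^ 2)) +
      W * (-(s1 * P0 + s * P01) * Q + -(s * P0) * Q1 +
        ((s1 * Q0 + s * Q01 + (c * -(y ^ 2)⁻¹ * P + c / y * P1)) * P +
          (s * Q0 + c / y * P) * P1) -
        (g' * (P ^ 2 + Q ^ 2) + g * (P1 * P + P * P1 + (Q1 * Q + Q * Q1))))) -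
    (0 * (-(s * (Q * P1)) + s * (P * Q1) + c / y * (al * P ^ 2) - g * (al * (P ^ 2 + Q ^ 2))) +
      W * (-(s0 * (Q * P1) + s * (Q0 * P1 + Q * P01)) + (s0 * (P * Q1) + s * (P0 * Q1 + P * Q01)) +
        (0 * (al * P ^ 2) + c / y * (a0 * P ^ 2 + al * (P0 * P + P * P0))) -
        (0 * (al * (P ^ 2 + Q ^ 2)) + g * (a0 * (P ^ 2 + Q ^ 2) +
          al * (P0 * P + P * P0 + (Q0 * Q + Q * Q0)))))) =
    W * CI y c g g' h a0 s0 Q P (-(s * P0)) (s * Q0 + c / y * P) e f := by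
  subst hs hQ hP
  rw [CI]
  ring

theorem p_CID : Stmt_CID := by
  intro c η κ r al s P Q q1 q2 p1 p2 hS W g g' x hx hW hg
  have hU := CID_open r
  have h12 : (1 : WithTop ℕ∞) ≤ 2 := by norm_num
  have h11 : (1 : WithTop ℕ∞) + 1 ≤ 2 := by norm_num
  have hy : x 1 ≠ 0 := hx.1.ne'
  have fP : ∀ i, CID_PD i P x (pd i P x) := fun i => ⟨Pool.FR.diff_at hU hS.sP h12 hx, rfl⟩
  have fQ : ∀ i, CID_PD i Q x (pd i Q x) := fun i => ⟨Pool.FR.diff_at hU hS.sQ h12 hx, rfl⟩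
  have fs : ∀ i, CID_PD i s x (pd i s x) := fun i => ⟨Pool.FR.diff_at hU hS.ss h12 hx, rfl⟩
  have fa : ∀ i, CID_PD i al x (pd i al x) := fun i => ⟨Pool.FR.diff_at hU hS.sal h12 hx, rfl⟩
  have fPP : ∀ i j, CID_PD i (pd j P) x (pd i (pd j P) x) := fun i j =>
    ⟨Pool.FR.diff_at hU (Pool.FR.pd_contDiffOn hU hS.sP h11 j) le_rfl hx, rfl⟩
  have fQQ : ∀ i j, CID_PD i (pd j Q) x (pd i (pd j Q) x) := fun i j =>
    ⟨Pool.FR.diff_at hU (Pool.FR.pd_contDiffOn hU hS.sQ h11 j) le_rfl hx, rfl⟩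
  have cP : pd 0 (pd 1 P) x = pd 1 (pd 0 P) x := Pool.FR.pd_comm hU hS.sP le_rfl 0 1 hx
  have cQ : pd 0 (pd 1 Q) x = pd 1 (pd 0 Q) x := Pool.FR.pd_comm hU hS.sQ le_rfl 0 1 hx
  have hdi : HasDerivAt (fun t : ℝ => c / t) (c * -(x 1 ^ 2)⁻¹) (x 1) := by
    have := (hasDerivAt_inv hy).const_mul c
    exact this
  have hH := CID_mul (CID_fun1 hW) (CID_sub (CID_add (CID_mul (CID_neg (CID_mul (fs 1) (fPP 1 0)))
    (fQ 1)) (CID_mul (CID_add (CID_mul (fs 1) (fQQ 1 0)) (CID_mul (CID_fun1 hdi) (fP 1))) (fP 1)))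
    (CID_mul (CID_fun1 hg) (CID_add (CID_sq (fP 1)) (CID_sq (fQ 1)))))
  have hJ := CID_mul (CID_fun0 hW) (CID_sub (CID_add (CID_add (CID_neg (CID_mul (fs 0)
    (CID_mul (fQ 0) (fPP 0 1)))) (CID_mul (fs 0) (CID_mul (fP 0) (fQQ 0 1))))
    (CID_mul (CID_fun0 hdi) (CID_mul (fa 0) (CID_sq (fP 0)))))
    (CID_mul (CID_fun0 hg) (CID_mul (fa 0) (CID_add (CID_sq (fP 0)) (CID_sq (fQ 0))))))
  have eH : pd 1 (cH W g c s P Q) x = _ := hH.2
  have eJ : pd 0 (cJ W g c al s P Q) x = _ := hJ.2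
  rw [eH, eJ, cP, cQ]
  have hs0 : s x ≠ 0 := (hS.pos x hx).ne'
  have es : pd 1 s x = (pd 1 s x - al x * pd 0 s x) / s x * s x + al x * pd 0 s x := by
    rw [div_mul_cancel₀ _ hs0]
    ring
  have eQ1 : pd 1 Q x = al x * pd 0 Q x - s x * pd 0 P x + (q1 x * Q x + q2 x * P x) := by
    rw [hS.eQ x hx]
    ring
  have eP1 : pd 1 P x = al x * pd 0 P x + (s x * pd 0 Q x + c / x 1 * P x) +
      (p1 x * Q x + p2 x * P x) := by
    rw [hS.eP x hx]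
    ring
  exact CID_alg (x 1) c (g (x 1)) g' ((pd 1 s x - al x * pd 0 s x) / s x) (pd 0 al x) (pd 0 s x)
    (Q x) (P x) (q1 x * Q x + q2 x * P x) (p1 x * Q x + p2 x * P x) (s x) (al x) (pd 0 Q x)
    (pd 0 P x) (pd 1 Q x) (pd 1 P x) (pd 1 s x) (pd 1 (pd 0 Q) x) (pd 1 (pd 0 P) x) (W (x 1))
    es eQ1 eP1

end Pool.PGR
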