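import Pool.Agent.Work.MP_02e829_pg.Interface

open Set Filter Manifold Matrix MeasureTheory Metric
open scoped Topology ContDiff Manifold Real

set_option autoImplicit false

namespace Pool.PGR

theorem CIN_sq (X u : ℝ) : -(u ^ 2 / 8) ≤ 2 * X ^ 2 + X * u := by
  nlinarith [sq_nonneg (4 * X + u)]

theorem CIN_abs (Q P : ℝ) : (|Q| + |P|) ^ 2 ≤ 2 * (P ^ 2 + Q ^ 2) := by
  have h1 := sq_abs Q
  have h2 := sq_abs P
  nlinarith [sq_nonneg (|Q| - |P|)]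

theorem CIN_u (a k Q P r : ℝ) (hr : |r| ≤ 3 * k * (|Q| + |P|)) :
    (a * Q + r) ^ 2 ≤ 2 * (a ^ 2 * Q ^ 2) + 36 * k ^ 2 * (P ^ 2 + Q ^ 2) := by
  have h1 : r ^ 2 ≤ (3 * k * (|Q| + |P|)) ^ 2 := sq_le_sq' (abs_le.1 hr).1 (abs_le.1 hr).2
  have h2 := CIN_abs Q P
  have h3 : 0 ≤ k ^ 2 := sq_nonneg k
  have h4 : k ^ 2 * (|Q| + |P|) ^ 2 ≤ k ^ 2 * (2 * (P ^ 2 + Q ^ 2)) :=
    mul_le_mul_of_nonneg_left h2 h3
  nlinarith [sq_nonneg (a * Q - r)]

set_option maxHeartbeats 4000000 in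
theorem CIN_core (i κ τ E E0 δ c η a0 s0 h Q P X Y e f G : ℝ) (hi : 0 < i) (hκ : 0 ≤ κ)
    (hτ : 0 ≤ τ) (hE0 : 0 < E0) (hE : E0 ≤ E) (hη : -(1 / 2) ≤ η) (hδ : 0 < δ)
    (hG : 0 ≤ G) (h1 : δ ≤ (1 + η) * G - η ^ 2 / 4) (h2 : δ ≤ (1 + η) * (G - c) - η ^ 2 / 4)
    (h3 : 11 * κ ^ 2 + (2 * κ * (G + |c|)) ^ 2 / (4 * δ) ≤ τ * E0)
    (ha : |a0| ≤ κ * i) (hs : |s0| ≤ κ * i) (hh : |h - η * i ^ 2| ≤ κ * i)
    (he : |e| ≤ κ * i * (|Q| + |P|)) (hf : |f| ≤ κ * i * (|Q| + |P|))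
    (g g' : ℝ) (hg : g = G * i ^ 2 + τ * (E * i))
    (hg' : g' = -(G * i ^ 4) - τ * (E * i * (i ^ 2 / 2 + (2 * κ + 1) * i))) :
    0 ≤ 2 * ((X - g * Q) ^ 2 + (Y - g * P) ^ 2) + (X - g * Q) * (2 * e + h * Q - s0 * P) +
      (Y - g * P) * (2 * f + h * P + s0 * Q) + (h * g - g' + g * a0) * (P ^ 2 + Q ^ 2) -
      c * i ^ 2 * (h + i ^ 2 + a0) * P ^ 2 + s0 * (Q * f - P * e) := by
  obtain ⟨R, hR⟩ : ∃ R, R = P ^ 2 + Q ^ 2 := ⟨_, rfl⟩
  have hR0 : 0 ≤ R := by rw [hR]; positivity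
  have hki : 0 ≤ κ * i := by positivity
  have hQP : 0 ≤ |Q| + |P| := by positivity
  have habs := CIN_abs Q P
  rw [← hR] at habs
  have hQ := abs_nonneg Q
  have hP := abs_nonneg P
  -- squares
  have A1 := CIN_sq (X - g * Q) (2 * e + h * Q - s0 * P)
  have A2 := CIN_sq (Y - g * P) (2 * f + h * P + s0 * Q)
  have B1 : (2 * e + h * Q - s0 * P) ^ 2 ≤
      2 * ((η * i ^ 2) ^ 2 * Q ^ 2) + 36 * (κ * i) ^ 2 * R := by
    have h5 : 2 * e + h * Q - s0 * P = η * i ^ 2 * Q + (2 * e + (h - η * i ^ 2) * Q - s0 * P) := by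
      ring
    rw [h5, hR]
    refine CIN_u _ _ _ _ _ ?_
    have h6 : |2 * e + (h - η * i ^ 2) * Q - s0 * P| ≤
        2 * |e| + |h - η * i ^ 2| * |Q| + |s0| * |P| := by
      refine (abs_sub _ _).trans ?_
      rw [abs_mul s0 P]
      refine add_le_add ((abs_add_le _ _).trans ?_) le_rfl
      rw [abs_mul, abs_mul, abs_two]
    refine h6.trans ?_
    have h7 := mul_le_mul_of_nonneg_right hh hQ
    have h8 := mul_le_mul_of_nonneg_right hs hP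
    linarith
  have B2 : (2 * f + h * P + s0 * Q) ^ 2 ≤
      2 * ((η * i ^ 2) ^ 2 * P ^ 2) + 36 * (κ * i) ^ 2 * R := by
    have h5 : 2 * f + h * P + s0 * Q = η * i ^ 2 * P + (2 * f + (h - η * i ^ 2) * P + s0 * Q) := by
      ring
    have h9 : R = Q ^ 2 + P ^ 2 := by rw [hR]; ring
    rw [h5, h9]
    refine CIN_u _ _ _ _ _ ?_
    have h6 : |2 * f + (h - η * i ^ 2) * P + s0 * Q| ≤
        2 * |f| + |h - η * i ^ 2| * |P| + |s0| * |Q| := by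
      refine (abs_add_le _ _).trans ?_
      rw [abs_mul s0 Q]
      refine add_le_add ((abs_add_le _ _).trans ?_) le_rfl
      rw [abs_mul, abs_mul, abs_two]
    refine h6.trans ?_
    have h7 := mul_le_mul_of_nonneg_right hh hP
    have h8 := mul_le_mul_of_nonneg_right hs hQ
    linarith
  -- the weight
  have hE1 : 0 ≤ τ * (E * i) := by
    have : 0 < E := lt_of_lt_of_le hE0 hE
    positivity
  have hg0 : 0 ≤ g := by rw [hg]; positivity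
  have C1 : (1 + η) * G * i ^ 4 + τ * E0 * i ^ 2 - 2 * κ * G * i ^ 3 ≤ h * g - g' + g * a0 := by
    have h5 : -(2 * (κ * i)) ≤ (h - η * i ^ 2) + a0 := by
      have := (abs_le.1 hh).1
      have := (abs_le.1 ha).1
      linarith
    have h6 := mul_le_mul_of_nonneg_right h5 hg0
    have h7 : h * g - g' + g * a0 = ((h - η * i ^ 2) + a0) * g + (η * i ^ 2 * g - g') := by ring
    have h8 : η * i ^ 2 * g - g' - 2 * (κ * i) * g =
        (1 + η) * G * i ^ 4 + τ * E * i ^ 2 - 2 * κ * G * i ^ 3 +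
          (η + 1 / 2) * (i ^ 2 * (τ * (E * i))) := by
      rw [hg, hg']
      ring
    have h9 : 0 ≤ (η + 1 / 2) * (i ^ 2 * (τ * (E * i))) := by
      have : 0 ≤ η + 1 / 2 := by linarith
      positivity
    have h10 : τ * E0 * i ^ 2 ≤ τ * E * i ^ 2 := by
      have := mul_le_mul_of_nonneg_left hE hτ
      exact mul_le_mul_of_nonneg_right this (by positivity)
    rw [h7]
    linarith
  have C2 := mul_le_mul_of_nonneg_right C1 hR0
  -- the term with `c`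
  have D1 : -(c * (1 + η) * i ^ 4 * P ^ 2) - 2 * |c| * κ * i ^ 3 * R ≤
      -(c * i ^ 2 * (h + i ^ 2 + a0) * P ^ 2) := by
    have h5 : |(h - η * i ^ 2) + a0| ≤ 2 * (κ * i) := by
      refine (abs_add_le _ _).trans ?_
      linarith
    have h6 : c * ((h - η * i ^ 2) + a0) ≤ |c| * (2 * (κ * i)) := by
      refine (le_abs_self _).trans ?_
      rw [abs_mul]
      exact mul_le_mul_of_nonneg_left h5 (abs_nonneg c)
    have h7 : 0 ≤ i ^ 2 * P ^ 2 := by positivity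
    have h8 := mul_le_mul_of_nonneg_right h6 h7
    have h9 : P ^ 2 ≤ R := by rw [hR]; nlinarith [sq_nonneg Q]
    have h10 : |c| * (2 * (κ * i)) * (i ^ 2 * P ^ 2) ≤ 2 * |c| * κ * i ^ 3 * R := by
      have : 0 ≤ 2 * |c| * κ * i ^ 3 := by positivity
      calc |c| * (2 * (κ * i)) * (i ^ 2 * P ^ 2) = 2 * |c| * κ * i ^ 3 * P ^ 2 := by ring
        _ ≤ _ := mul_le_mul_of_nonneg_left h9 this
    linarith
  -- the last term
  have F1 : -(2 * (κ * i) ^ 2 * R) ≤ s0 * (Q * f - P * e) := by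
    have h5 : |Q * f - P * e| ≤ κ * i * (|Q| + |P|) ^ 2 := by
      refine (abs_sub _ _).trans ?_
      rw [abs_mul, abs_mul]
      have h6 := mul_le_mul_of_nonneg_left hf hQ
      have h7 := mul_le_mul_of_nonneg_left he hP
      linarith
    have h6 : |s0 * (Q * f - P * e)| ≤ κ * i * (κ * i * (|Q| + |P|) ^ 2) := by
      rw [abs_mul]
      exact mul_le_mul hs h5 (abs_nonneg _) hki
    have h7 : κ * i * (κ * i * (|Q| + |P|) ^ 2) ≤ (κ * i) ^ 2 * (2 * R) := by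
      have := mul_le_mul_of_nonneg_left habs (sq_nonneg (κ * i))
      linarith
    have h8 := (abs_le.1 (h6.trans h7)).1
    linarith
  -- sum
  have S1 : i ^ 4 * (δ * R) ≤ i ^ 4 * (((1 + η) * G - η ^ 2 / 4) * Q ^ 2 +
      ((1 + η) * (G - c) - η ^ 2 / 4) * P ^ 2) := by
    refine mul_le_mul_of_nonneg_left ?_ (by positivity)
    have h5 := mul_le_mul_of_nonneg_right h1 (sq_nonneg Q)
    have h6 := mul_le_mul_of_nonneg_right h2 (sq_nonneg P)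
    rw [hR]
    linarith
  have S2 : 0 ≤ i ^ 4 * (δ * R) + R * (τ * E0 * i ^ 2 - 2 * κ * (G + |c|) * i ^ 3 -
      11 * κ ^ 2 * i ^ 2) := by
    obtain ⟨K, hK⟩ : ∃ K, K = 2 * κ * (G + |c|) := ⟨_, rfl⟩
    rw [← hK] at h3 ⊢
    have h5 : 0 ≤ δ * i ^ 2 - K * i + K ^ 2 / (4 * δ) := by
      have : δ * i ^ 2 - K * i + K ^ 2 / (4 * δ) = (2 * δ * i - K) ^ 2 / (4 * δ) := by
        field_simp
        ring
      rw [this]
      positivity
    have h6 : K ^ 2 / (4 * δ) ≤ τ * E0 - 11 * κ ^ 2 := by linarith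
    have h7 : 0 ≤ δ * i ^ 2 - K * i + (τ * E0 - 11 * κ ^ 2) := by linarith
    have h8 : 0 ≤ R * i ^ 2 * (δ * i ^ 2 - K * i + (τ * E0 - 11 * κ ^ 2)) := by positivity
    calc (0 : ℝ) ≤ _ := h8
      _ = _ := by ring
  have hfin : 2 * ((X - g * Q) ^ 2 + (Y - g * P) ^ 2) + (X - g * Q) * (2 * e + h * Q - s0 * P) +
      (Y - g * P) * (2 * f + h * P + s0 * Q) + (h * g - g' + g * a0) * (P ^ 2 + Q ^ 2) -
      c * i ^ 2 * (h + i ^ 2 + a0) * P ^ 2 + s0 * (Q * f - P * e) =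
      (2 * (X - g * Q) ^ 2 + (X - g * Q) * (2 * e + h * Q - s0 * P)) +
      (2 * (Y - g * P) ^ 2 + (Y - g * P) * (2 * f + h * P + s0 * Q)) +
      (h * g - g' + g * a0) * R + -(c * i ^ 2 * (h + i ^ 2 + a0) * P ^ 2) +
      s0 * (Q * f - P * e) := by
    rw [hR]
    ring
  rw [hfin]
  have T : i ^ 4 * (((1 + η) * G - η ^ 2 / 4) * Q ^ 2 +
      ((1 + η) * (G - c) - η ^ 2 / 4) * P ^ 2) + R * (τ * E0 * i ^ 2 - 2 * κ * (G + |c|) * i ^ 3 -
      11 * κ ^ 2 * i ^ 2) =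
      -((2 * ((η * i ^ 2) ^ 2 * Q ^ 2) + 36 * (κ * i) ^ 2 * R) / 8) -
      (2 * ((η * i ^ 2) ^ 2 * P ^ 2) + 36 * (κ * i) ^ 2 * R) / 8 +
      ((1 + η) * G * i ^ 4 + τ * E0 * i ^ 2 - 2 * κ * G * i ^ 3) * R +
      (-(c * (1 + η) * i ^ 4 * P ^ 2) - 2 * |c| * κ * i ^ 3 * R) - 2 * (κ * i) ^ 2 * R := by
    rw [hR]
    ring
  linarith

theorem p_CIN : Stmt_CIN := by
  intro n y κ τ δ c η a0 s0 h Q P X Y e f hy hy1 hκ hτ hη hδ h1 h2 h3 ha hs hh he hf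
  have h0 : (0 : ℝ) < √y := Real.sqrt_pos.2 hy
  obtain ⟨i, hi⟩ : ∃ i, i = (√y)⁻¹ := ⟨_, rfl⟩
  have hi0 : 0 < i := by rw [hi]; positivity
  have hiy : i ^ 2 = 1 / y := by
    rw [hi, inv_pow, Real.sq_sqrt hy.le, one_div]
  have hk : κ / √y = κ * i := by rw [hi, div_eq_mul_inv]
  have hs1 : √y ≤ 1 := by
    rw [Real.sqrt_le_one]
    exact hy1
  have hE : Real.exp (-(4 * κ + 2)) ≤ Real.exp (-((4 * κ + 2) * √y)) := by
    rw [Real.exp_le_exp]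
    have : 0 ≤ 4 * κ + 2 := by positivity
    nlinarith
  rw [hk] at ha hs hh he hf
  have hh' : |h - η * i ^ 2| ≤ κ * i := by
    rw [hiy, mul_one_div]
    exact hh
  have key := CIN_core i κ τ (Real.exp (-((4 * κ + 2) * √y))) (Real.exp (-(4 * κ + 2))) δ c η a0 s0
    h Q P X Y e f (n / 2) hi0 hκ hτ (Real.exp_pos _) hE hη hδ (by positivity) h1 h2 h3 ha hs hh'
    he hf (gw n κ τ y) (gd n κ τ y) ?_ ?_
  · rw [CI]
    have h4 : c / y = c * i ^ 2 := by rw [hiy, mul_one_div]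
    rw [h4, ← hiy]
    exact key
  · rw [gw, ph, hiy, hi]
    field_simp
  · rw [gd, ph]
    have h4 : i ^ 4 = 1 / y ^ 2 := by
      have : i ^ 4 = (i ^ 2) ^ 2 := by ring
      rw [this, hiy]
      ring
    rw [h4, hiy, hi]
    field_simp

end Pool.PGR
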