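import Pool.Agent.Work.MP_02e829_pg.Interface

/-!
# MP_02e829_gt, propagation of rigidity, block CLM: the size of the Carleman density
-/

open Set Filter Manifold Matrix MeasureTheory Metric
open scoped Topology ContDiff Manifold Real

set_option autoImplicit false

namespace Pool.PGR

open Pool
open Pool.FR (pd ee gg WW DD NN II Ga Gb Imm SO3)
open Pool.TRG (E2 V3 IC St pt px PerR Iso Per)

theorem CLM_ph {κ y : ℝ} (hκ : 0 ≤ κ) (h0 : 0 < y) (h1 : y ≤ 1) :
    0 ≤ ph κ y ∧ ph κ y * y ≤ 1 := by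
  have hs : 0 < √y := Real.sqrt_pos.2 h0
  have hs1 : √y ≤ 1 := Real.sqrt_le_one.2 h1
  have he : Real.exp (-((4 * κ + 2) * √y)) ≤ 1 := by
    rw [Real.exp_le_one_iff]
    have : 0 ≤ (4 * κ + 2) * √y := by positivity
    linarith
  have he0 : 0 < Real.exp (-((4 * κ + 2) * √y)) := Real.exp_pos _
  refine ⟨by unfold ph; positivity, ?_⟩
  have h2 : ph κ y * y = Real.exp (-((4 * κ + 2) * √y)) * √y := by
    unfold ph
    have h3 : √y * √y = y := Real.mul_self_sqrt h0.le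
    rw [div_mul_eq_mul_div, div_eq_iff hs.ne']
    rw [mul_assoc, h3]
  rw [h2]
  calc Real.exp (-((4 * κ + 2) * √y)) * √y ≤ 1 * 1 :=
        mul_le_mul he hs1 hs.le zero_le_one
    _ = 1 := one_mul 1

theorem CLM_g {n : ℕ} {κ τ y : ℝ} (hκ : 0 ≤ κ) (hτ : 0 ≤ τ) (h0 : 0 < y) (h1 : y ≤ 1) :
    0 ≤ gw n κ τ y ∧ gw n κ τ y ≤ (n / 2 + τ) / y := by
  obtain ⟨hp0, hp1⟩ := CLM_ph hκ h0 h1
  unfold gw
  refine ⟨by positivity, ?_⟩
  rw [le_div_iff₀ h0, add_mul]
  have h2 : (n : ℝ) / (2 * y) * y = n / 2 := by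
    field_simp
  have h3 : τ * ph κ y * y ≤ τ := by
    rw [mul_assoc]
    calc τ * (ph κ y * y) ≤ τ * 1 := mul_le_mul_of_nonneg_left hp1 hτ
      _ = τ := mul_one τ
  linarith

theorem p_CLM (hWGT : Stmt_WGT) : Stmt_CLM := by
  intro c η κ r M al s P Q q1 q2 p1 p2 hS hM n n' hn hb τ hτ x hx
  have hx0 : 0 < x 1 := hx.1
  have hx1 : x 1 ≤ 1 := (hx.2.le).trans hS.r1
  have hs : 0 < s x := hS.pos x hx
  obtain ⟨-, -, hW0, hW1⟩ := hWGT n κ τ (x 1) hS.k0 hτ hx0
  obtain ⟨hg0, hg1⟩ := CLM_g (n := n) hS.k0 hτ hx0 hx1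
  set R := (P x ^ 2 + Q x ^ 2) / x 1 with hR
  have hR0 : 0 ≤ R := by positivity
  set S := s x * |pd 0 P x| * |Q x| + s x * |pd 0 Q x| * |P x| with hSd
  have hS0 : 0 ≤ S := by positivity
  have hSR : S + R ≤ M * x 1 ^ n' := hb x hx
  have e1 : |cX s P x * Q x + cY c s P Q x * P x - gw n κ τ (x 1) * (P x ^ 2 + Q x ^ 2)| ≤
      (1 + |c| + n / 2 + τ) * (S + R) := by
    have a1 : |cX s P x * Q x| = s x * |pd 0 P x| * |Q x| := by
      unfold cX
      rw [abs_mul, abs_neg, abs_mul, abs_of_pos hs]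
    have a2 : |cY c s P Q x * P x| ≤ s x * |pd 0 Q x| * |P x| + |c| * R := by
      unfold cY
      have : (s x * pd 0 Q x + c / x 1 * P x) * P x =
          s x * pd 0 Q x * P x + c * (P x ^ 2 / x 1) := by
        field_simp
      rw [this]
      refine (abs_add_le _ _).trans ?_
      rw [abs_mul, abs_mul, abs_of_pos hs, abs_mul]
      refine add_le_add le_rfl (mul_le_mul_of_nonneg_left ?_ (abs_nonneg c))
      rw [abs_of_nonneg (by positivity), hR]
      exact div_le_div_of_nonneg_right (by nlinarith [sq_nonneg (Q x)]) hx0.le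
    have a3 : |gw n κ τ (x 1) * (P x ^ 2 + Q x ^ 2)| ≤ (n / 2 + τ) * R := by
      rw [abs_of_nonneg (by positivity)]
      calc gw n κ τ (x 1) * (P x ^ 2 + Q x ^ 2) ≤ (n / 2 + τ) / x 1 * (P x ^ 2 + Q x ^ 2) :=
            mul_le_mul_of_nonneg_right hg1 (by positivity)
        _ = (n / 2 + τ) * R := by
          rw [hR]
          ring
    have a4 : |cX s P x * Q x + cY c s P Q x * P x - gw n κ τ (x 1) * (P x ^ 2 + Q x ^ 2)| ≤
        S + |c| * R + (n / 2 + τ) * R := by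
      refine (abs_sub _ _).trans ?_
      have := abs_add_le (cX s P x * Q x) (cY c s P Q x * P x)
      rw [a1] at this
      linarith
    refine a4.trans ?_
    have h0c : 0 ≤ |c| := abs_nonneg c
    have h0n : (0 : ℝ) ≤ n / 2 := by positivity
    nlinarith [mul_nonneg h0c hS0, mul_nonneg h0n hS0, mul_nonneg hτ hS0]
  have hpow : x 1 ^ n' ≤ x 1 ^ n * x 1 := by
    rw [← pow_succ]
    exact pow_le_pow_of_le_one hx0.le hx1 (by omega)
  have hK0 : 0 ≤ 1 + |c| + n / 2 + τ := by positivity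
  have hxn : 0 < x 1 ^ n := by positivity
  unfold cH
  rw [abs_mul, abs_of_pos hW0]
  calc Ww n κ τ (x 1) *
        |cX s P x * Q x + cY c s P Q x * P x - gw n κ τ (x 1) * (P x ^ 2 + Q x ^ 2)|
      ≤ Real.exp (4 * τ / (4 * κ + 2)) / x 1 ^ n *
        ((1 + |c| + n / 2 + τ) * (M * (x 1 ^ n * x 1))) := by
        refine mul_le_mul hW1 (e1.trans ?_) (abs_nonneg _) (by positivity)
        exact mul_le_mul_of_nonneg_left (hSR.trans (mul_le_mul_of_nonneg_left hpow hM)) hK0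
    _ = Real.exp (4 * τ / (4 * κ + 2)) * (1 + |c| + n / 2 + τ) * M * x 1 := by
        field_simp

end Pool.PGR
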