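import Pool.Agent.Work.MP_02e829_pg.Interface

/-!
# MP_02e829_gt, propagation of rigidity, block CPT: compactness on the strip
-/

open Set Filter Manifold Matrix MeasureTheory Metric
open scoped Topology ContDiff Manifold Real

set_option autoImplicit false

namespace Pool.PGR

open Pool
open Pool.FR (pd ee gg WW DD NN II Ga Gb Imm SO3)
open Pool.TRG (E2 V3 IC St pt px PerR Iso Per)

theorem CPT_px_one (x s : ℝ) : (px x s) 1 = s := by
  simp [px, ee]

theorem CPT_eta (x : E2) : px (x 0) (x 1) = x := by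
  ext i
  fin_cases i <;> simp [px, ee]

theorem CPT_pt (x : ℝ) : pt x = px x 0 := by
  simp [px, pt]

theorem CPT_shift (x s : ℝ) : px (x + 2 * π) s = px x s + (2 * π) • ee 0 := by
  unfold px
  rw [add_smul]
  abel

theorem CPT_px_cont : Continuous fun q : ℝ × ℝ => px q.1 q.2 := by
  unfold px
  exact (continuous_fst.smul continuous_const).add (continuous_snd.smul continuous_const)

theorem CPT_w_cont {u : E2 → ℝ} (hu : ContinuousOn u St) :
    ContinuousOn (fun q : ℝ × ℝ => u (px q.1 q.2)) (univ ×ˢ Ioo (-1 : ℝ) 1) := by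
  refine hu.comp CPT_px_cont.continuousOn ?_
  rintro ⟨x, s⟩ ⟨-, h⟩
  change |(px x s) 1| < 1
  rw [CPT_px_one]
  exact abs_lt.2 h

/-- periodicity on the closed strip, in the coordinates -/
theorem CPT_per {u : E2 → ℝ} {r : ℝ} (hr0 : 0 < r) (hr1 : r < 1) (hu : ContinuousOn u St)
    (hp : ∀ x ∈ VS r, u (x + (2 * π) • ee 0) = u x) (s : ℝ) (hs : s ∈ Icc 0 r) :
    Function.Periodic (fun x => u (px x s)) (2 * π) := by
  intro x
  have hw := CPT_w_cont hu
  have hsub : Icc 0 r ⊆ Ioo (-1 : ℝ) 1 := fun y hy => ⟨by linarith [hy.1], by linarith [hy.2]⟩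
  have hc : ∀ z : ℝ, ContinuousOn (fun y => u (px z y)) (Icc 0 r) := by
    intro z
    refine hw.comp (f := fun y : ℝ => ((z, y) : ℝ × ℝ)) (by fun_prop) ?_
    intro y hy
    exact ⟨mem_univ _, hsub hy⟩
  have heq : EqOn (fun y => u (px (x + 2 * π) y)) (fun y => u (px x y)) (Ioo 0 r) := by
    intro y hy
    change u (px (x + 2 * π) y) = u (px x y)
    rw [CPT_shift]
    refine hp _ ?_
    change 0 < (px x y) 1 ∧ (px x y) 1 < r
    rw [CPT_px_one]
    exact hy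
  have h2 := heq.of_subset_closure (hc _) (hc _) Ioo_subset_Icc_self
    (by rw [closure_Ioo hr0.ne])
  exact h2 hs

/-- every value is a value over the period -/
theorem CPT_red {u : E2 → ℝ} {r : ℝ} (hr0 : 0 < r) (hr1 : r < 1) (hu : ContinuousOn u St)
    (hp : ∀ x ∈ VS r, u (x + (2 * π) • ee 0) = u x) (x : E2) (h0 : 0 ≤ x 1) (h1 : x 1 ≤ r) :
    ∃ y ∈ Icc (0 : ℝ) (2 * π), u x = u (px y (x 1)) := by
  obtain ⟨y, hy, hxy⟩ := (CPT_per hr0 hr1 hu hp (x 1) ⟨h0, h1⟩).exists_mem_Ico₀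
    (by positivity) (x 0)
  refine ⟨y, ⟨hy.1, hy.2.le⟩, ?_⟩
  rw [← hxy, CPT_eta]

theorem p_CPT : Stmt_CPT := by
  intro u r hr0 hr1 hu hp
  have hw := CPT_w_cont hu
  have hK : ∀ δ : ℝ, IsCompact (Icc (0 : ℝ) (2 * π) ×ˢ Icc δ r) := fun δ =>
    isCompact_Icc.prod isCompact_Icc
  have hsub : ∀ δ : ℝ, 0 ≤ δ → Icc (0 : ℝ) (2 * π) ×ˢ Icc δ r ⊆ univ ×ˢ Ioo (-1 : ℝ) 1 := by
    rintro δ hδ ⟨x, s⟩ ⟨-, h⟩
    exact ⟨mem_univ _, by linarith [h.1], by linarith [h.2]⟩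
  refine ⟨?_, ?_, ?_⟩
  · obtain ⟨M, hM⟩ := (hK 0).exists_bound_of_continuousOn (hw.mono (hsub 0 le_rfl))
    refine ⟨max M 0, le_max_right _ _, fun x h0 h1 => ?_⟩
    obtain ⟨y, hy, hxy⟩ := CPT_red hr0 hr1 hu hp x h0 h1
    have := hM (y, x 1) ⟨hy, h0, h1⟩
    rw [Real.norm_eq_abs] at this
    rw [hxy]
    exact this.trans (le_max_left _ _)
  · intro δ hδ hne
    by_cases hδr : r < δ
    · exact ⟨1, one_pos, fun x h0 h1 => absurd (hδr.trans_le h0) (not_lt.2 h1)⟩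
    have hδr' : δ ≤ r := not_lt.1 hδr
    have hnon : (Icc (0 : ℝ) (2 * π) ×ˢ Icc δ r).Nonempty :=
      ⟨(0, δ), ⟨le_rfl, by positivity⟩, le_rfl, hδr'⟩
    have hcabs : ContinuousOn (fun q : ℝ × ℝ => |u (px q.1 q.2)|)
        (Icc (0 : ℝ) (2 * π) ×ˢ Icc δ r) := (hw.mono (hsub δ hδ)).abs
    obtain ⟨q, hq, hmin⟩ := (hK δ).exists_isMinOn hnon hcabs
    refine ⟨|u (px q.1 q.2)|, abs_pos.2 (hne _ ?_ ?_), fun x h0 h1 => ?_⟩
    · rw [CPT_px_one]
      exact hq.2.1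
    · rw [CPT_px_one]
      exact hq.2.2
    · obtain ⟨y, hy, hxy⟩ := CPT_red hr0 hr1 hu hp x (hδ.trans h0) h1
      rw [hxy]
      exact hmin (show (y, x 1) ∈ Icc (0 : ℝ) (2 * π) ×ˢ Icc δ r from ⟨hy, h0, h1⟩)
  · intro hne
    have hc0 : ContinuousOn (fun x : ℝ => |u (px x 0)|) (Icc 0 (2 * π)) := by
      refine (hw.comp (f := fun x : ℝ => ((x, 0) : ℝ × ℝ)) (by fun_prop) ?_).abs
      intro y _
      exact ⟨mem_univ _, by norm_num, by norm_num⟩
    obtain ⟨x0, hx0, hmin⟩ := isCompact_Icc.exists_isMinOn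
      (nonempty_Icc.2 (by positivity : (0 : ℝ) ≤ 2 * π)) hc0
    set c0 := |u (px x0 0)| with hc0d
    have hc0p : 0 < c0 := by
      rw [hc0d]
      have := hne x0
      rw [CPT_pt] at this
      exact abs_pos.2 this
    have huc := (hK 0).uniformContinuousOn_of_continuous (hw.mono (hsub 0 le_rfl))
    rw [Metric.uniformContinuousOn_iff] at huc
    obtain ⟨δ, hδ, hδ'⟩ := huc (c0 / 2) (by linarith)
    refine ⟨c0 / 2, min (δ / 2) r, by linarith, lt_min (by linarith) hr0, min_le_right _ _,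
      fun x h0 h1 => ?_⟩
    have h1r : x 1 ≤ r := h1.trans (min_le_right _ _)
    obtain ⟨y, hy, hxy⟩ := CPT_red hr0 hr1 hu hp x h0 h1r
    have h3 := hδ' (y, x 1) ⟨hy, h0, h1r⟩ (y, 0) ⟨hy, le_rfl, hr0.le⟩ (by
      rw [Prod.dist_eq, dist_self]
      refine max_lt hδ ?_
      rw [Real.dist_eq, sub_zero, abs_of_nonneg h0]
      have := h1.trans (min_le_left _ _)
      linarith)
    rw [Real.dist_eq] at h3
    have h4 : c0 ≤ |u (px y 0)| := hmin hy
    have h5 : |u (px y 0)| - |u (px y (x 1))| ≤ |u (px y (x 1)) - u (px y 0)| := by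
      rw [abs_sub_comm]
      exact abs_sub_abs_le_abs_sub _ _
    rw [hxy]
    linarith

end Pool.PGR
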