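import Pool.Agent.Work.MP_02e829_pg.Interface2

/-!
# MP_02e829_gt, PROPAGATION OF RIGIDITY, block DFM: the family in the coordinates of an annulus
-/

open Set Filter Manifold Matrix MeasureTheory Metric
open scoped Topology ContDiff Manifold Real

set_option autoImplicit false

universe w

namespace Pool.PGR

open Pool
open Pool.FR (pd ee gg WW DD NN II Ga Gb Imm SO3)
open Pool.SXB (E3 L3 Proper PosCurv TC)
open Pool.TRG (E2 V3 IC St pt px PerR Iso Per Ann)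

theorem DFM_open : IsOpen St := by
  have h : Continuous fun x : E2 => |x 1| := by fun_prop
  exact isOpen_lt h continuous_const

theorem DFM_cast {m : ℕ} (hm : 4 ≤ m) : (4 : WithTop ℕ∞) ≤ ((m : ℕ) : WithTop ℕ∞) := by
  have h : ((4 : ℕ) : WithTop ℕ∞) ≤ ((m : ℕ) : WithTop ℕ∞) := by exact_mod_cast hm
  exact h

/-- a local lift in the coordinates of a chart -/
theorem DFM_lcc {S : Type w} [TopologicalSpace S] [ChartedSpace E2 S] {m : ℕ}
    [IsManifold (𝓡 2) m S] {Φ : E2 → S} (hΦ : Ann m Φ) {x0 : E2} (hx0 : x0 ∈ St) :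
    ∃ (p : S) (O : Set E2) (ψ : E2 → E2), IsOpen O ∧ x0 ∈ O ∧ O ⊆ St ∧ ContDiffOn ℝ m ψ O ∧
      MapsTo ψ O (extChartAt (𝓡 2) p).target ∧
      ∀ x ∈ O, (extChartAt (𝓡 2) p).symm (ψ x) = Φ x := by
  have hcont : ContinuousOn Φ St := hΦ.smooth.continuousOn
  refine ⟨Φ x0, St ∩ Φ ⁻¹' (chartAt E2 (Φ x0)).source, fun x => extChartAt (𝓡 2) (Φ x0) (Φ x),
    hcont.isOpen_inter_preimage DFM_open (chartAt E2 (Φ x0)).open_source,
    ⟨hx0, mem_chart_source E2 (Φ x0)⟩, inter_subset_left, ?_, ?_, ?_⟩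
  · have h1 : ContMDiffOn (𝓡 2) 𝓘(ℝ, E2) m (extChartAt (𝓡 2) (Φ x0))
        (chartAt E2 (Φ x0)).source := contMDiffOn_extChartAt
    have h2 : ContMDiffOn (𝓡 2) 𝓘(ℝ, E2) m (fun x => extChartAt (𝓡 2) (Φ x0) (Φ x))
        (St ∩ Φ ⁻¹' (chartAt E2 (Φ x0)).source) :=
      h1.comp (hΦ.smooth.mono inter_subset_left) inter_subset_right
    exact contMDiffOn_iff_contDiffOn.1 h2
  · intro x hx
    exact (extChartAt (𝓡 2) (Φ x0)).map_source (by rw [extChartAt_source]; exact hx.2)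
  · intro x hx
    exact (extChartAt (𝓡 2) (Φ x0)).left_inv (by rw [extChartAt_source]; exact hx.2)

/-- local bounds -/
theorem DFM_lb (hLBC : TRG.Stmt_LBC) {S : Type w} [TopologicalSpace S] [ChartedSpace E2 S] {m : ℕ}
    [IsManifold (𝓡 2) m S] {f : ℝ → S → E3} (hf : DfM m f) {Φ : E2 → S} (hΦ : Ann m Φ) :
    TRG.LB m St fun t x => L3 (f t (Φ x)) := by
  intro x0 hx0
  obtain ⟨p, O, ψ, hO, hxO, hOS, hψ, hmaps, hψΦ⟩ := DFM_lcc hΦ hx0
  set V : Set E2 := (extChartAt (𝓡 2) p).target with hV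
  have hVo : IsOpen V := isOpen_extChartAt_target p
  have hsm : ∀ t ∈ Icc (0 : ℝ) 1,
      ContDiffOn ℝ m (fun z => f t ((extChartAt (𝓡 2) p).symm z)) V := by
    intro t ht
    have h1 : ContMDiffOn (𝓡 2) (𝓡 3) m (fun z => f t ((extChartAt (𝓡 2) p).symm z)) V :=
      (hf.smooth t ht).comp_contMDiffOn (contMDiffOn_extChartAt_symm p)
    exact contMDiffOn_iff_contDiffOn.1 h1
  have hG : ∀ t ∈ Icc (0 : ℝ) 1,
      ContDiffOn ℝ ((m : ℕ) : WithTop ℕ∞) (fun z => L3 (f t ((extChartAt (𝓡 2) p).symm z))) V :=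
    fun t ht => L3.contDiff.comp_contDiffOn (hsm t ht)
  have hLB : TRG.LB m V (fun t z => L3 (f t ((extChartAt (𝓡 2) p).symm z))) := by
    intro x hx
    obtain ⟨M, hM⟩ := hf.bdd p x hx
    refine ⟨‖L3‖ * M, ?_⟩
    filter_upwards [hM, hVo.mem_nhds hx] with y hy hyV t ht k hk
    have hc : ContDiffAt ℝ m (fun z => f t ((extChartAt (𝓡 2) p).symm z)) y :=
      (hsm t ht).contDiffAt (hVo.mem_nhds hyV)
    have hk' : ((k : ℕ) : WithTop ℕ∞) ≤ m := by exact_mod_cast hk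
    have h1 := L3.iteratedFDeriv_comp_left hc hk'
    have h2 : iteratedFDeriv ℝ k (fun z => L3 (f t ((extChartAt (𝓡 2) p).symm z))) y =
        L3.compContinuousMultilinearMap
          (iteratedFDeriv ℝ k (fun z => f t ((extChartAt (𝓡 2) p).symm z)) y) := h1
    rw [h2]
    exact (L3.norm_compContinuousMultilinearMap_le _).trans
      (mul_le_mul_of_nonneg_left (hy t ht k hk) (norm_nonneg _))
  obtain ⟨M, hM⟩ := hLBC m O V hO hVo _ hG hLB ψ hψ hmaps x0 hxO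
  refine ⟨M, ?_⟩
  filter_upwards [hM, hO.mem_nhds hxO] with y hy hyO t ht k hk
  have h1 : (fun x => L3 (f t (Φ x))) =ᶠ[𝓝 y]
      fun x => L3 (f t ((extChartAt (𝓡 2) p).symm (ψ x))) := by
    filter_upwards [hO.mem_nhds hyO] with z hz
    rw [hψΦ z hz]
  rw [h1.iteratedFDeriv ℝ k |>.eq_of_nhds]
  exact hy t ht k hk

/-- block DFM -/
theorem p_DFM (hLBC : TRG.Stmt_LBC) (hRD0 : TRG.Stmt_RD0.{w}) (hRD1 : TRG.Stmt_RD1.{w}) :
    Stmt_DFM.{w} := by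
  intro S _ _ m _ f hm hf Φ hΦ
  have hm4 : (4 : WithTop ℕ∞) ≤ ((m : ℕ) : WithTop ℕ∞) := DFM_cast hm
  haveI : IsManifold (𝓡 2) 4 S := IsManifold.of_le (n := ((m : ℕ) : WithTop ℕ∞)) hm4
  have hf4 : TRG.Dfm f := by
    refine ⟨fun t ht => (hf.smooth t ht).of_le hm4, hf.imm, hf.iso, hf.cont, ?_⟩
    intro p x hx
    obtain ⟨M, hM⟩ := hf.bdd p x hx
    refine ⟨M, ?_⟩
    filter_upwards [hM] with y hy t ht k hk
    exact hy t ht k (hk.trans hm)
  have hΦ4 : Ann 4 Φ := ⟨hΦ.smooth.of_le hm4, hΦ.reg, hΦ.per⟩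
  obtain ⟨h1, h2, h3⟩ := hRD0 S f hf4 Φ hΦ4
  refine ⟨h1, ?_, h2, h3, hRD1 S f hf4 Φ hΦ4, DFM_lb hLBC hf hΦ⟩
  intro t ht
  have h4 : ContMDiffOn (𝓡 2) (𝓡 3) m (fun x => f t (Φ x)) St :=
    (hf.smooth t ht).comp_contMDiffOn hΦ.smooth
  exact L3.contDiff.comp_contDiffOn (contMDiffOn_iff_contDiffOn.1 h4)

end Pool.PGR
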