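import Pool.Agent.Work.MP_02e829_pg.Interface

/-!
# Block ELL: the elliptic case (Carleman inequality)
-/

open Set Filter Manifold Matrix MeasureTheory Metric
open scoped Topology ContDiff Manifold Real

set_option autoImplicit false

namespace Pool.PGR

open Pool
open Pool.FR (pd ee gg WW DD NN II Ga Gb Imm SO3)
open Pool.SXB (E3 L3 Proper PosCurv TC)
open Pool.TRG (E2 V3 IC St pt px PerR Iso Per)

theorem ELL_px1 (x s : ℝ) : (px x s) 1 = s := by simp [px, ee]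

theorem ELL_px_eta (x : E2) : px (x 0) (x 1) = x := by
  ext i
  fin_cases i <;> simp [px, ee]

theorem ELL_px_add (x s : ℝ) : px (x + 2 * π) s = px x s + (2 * π) • ee 0 := by
  simp only [px, add_smul]
  abel

theorem ELL_px_mem {r x s : ℝ} (h0 : 0 < s) (h1 : s < r) : px x s ∈ VS r := by
  change 0 < (px x s) 1 ∧ (px x s) 1 < r
  rw [ELL_px1]
  exact ⟨h0, h1⟩

theorem ELL_c1 : ContDiff ℝ 2 (fun x : E2 => x 1) :=
  (EuclideanSpace.proj (1 : Fin 2) : E2 →L[ℝ] ℝ).contDiff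

theorem ELL_open (r : ℝ) : IsOpen (VS r) := by
  have h : Continuous (fun x : E2 => x 1) := ELL_c1.continuous
  exact (isOpen_lt continuous_const h).inter (isOpen_lt h continuous_const)

theorem ELL_pxc (s : ℝ) : Continuous fun x => px x s := by
  unfold px
  fun_prop

theorem ELL_cont {r s : ℝ} (h0 : 0 < s) (h1 : s < r) {u : E2 → ℝ} (hu : ContinuousOn u (VS r)) :
    Continuous fun x => u (px x s) :=
  hu.comp_continuous (ELL_pxc s) fun _ => ELL_px_mem h0 h1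

theorem ELL_per {r : ℝ} {u : E2 → ℝ} (hu : ∀ x ∈ VS r, u (x + (2 * π) • ee 0) = u x) (i : Fin 2)
    {x : E2} (hx : x ∈ VS r) : pd i u (x + (2 * π) • ee 0) = pd i u x := by
  have h1 : fderiv ℝ (fun y => u (y + (2 * π) • ee 0)) x = fderiv ℝ u (x + (2 * π) • ee 0) :=
    fderiv_comp_add_right _
  have h2 : (fun y => u (y + (2 * π) • ee 0)) =ᶠ[𝓝 x] u :=
    Filter.eventuallyEq_of_mem ((ELL_open r).mem_nhds hx) hu
  rw [pd, pd, ← h1, h2.fderiv_eq]

theorem ELL_gw {r : ℝ} (n : ℕ) (κ τ : ℝ) :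
    ContDiffOn ℝ 1 (fun x : E2 => gw n κ τ (x 1)) (VS r) := by
  have h1 : ContDiffOn ℝ 1 (fun x : E2 => x 1) (VS r) := (ELL_c1.of_le one_le_two).contDiffOn
  have hne : ∀ x ∈ VS r, x 1 ≠ 0 := fun x hx => hx.1.ne'
  have h2 : ContDiffOn ℝ 1 (fun x : E2 => √(x 1)) (VS r) := h1.sqrt hne
  have hne2 : ∀ x ∈ VS r, √(x 1) ≠ 0 := fun x hx => (Real.sqrt_pos.mpr hx.1).ne'
  have hne3 : ∀ x ∈ VS r, 2 * x 1 ≠ 0 := fun x hx => mul_ne_zero two_ne_zero (hne x hx)
  have h3 : ContDiffOn ℝ 1 (fun x : E2 => Real.exp (-((4 * κ + 2) * √(x 1)))) (VS r) :=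
    ((contDiffOn_const.mul h2).neg).exp
  exact (contDiffOn_const.div (contDiffOn_const.mul h1) hne3).add
    (contDiffOn_const.mul (h3.div h2 hne2))

theorem ELL_Ww {r : ℝ} (n : ℕ) (κ τ : ℝ) :
    ContDiffOn ℝ 1 (fun x : E2 => Ww n κ τ (x 1)) (VS r) := by
  have h1 : ContDiffOn ℝ 1 (fun x : E2 => x 1) (VS r) := (ELL_c1.of_le one_le_two).contDiffOn
  have hne : ∀ x ∈ VS r, x 1 ≠ 0 := fun x hx => hx.1.ne'
  have h2 : ContDiffOn ℝ 1 (fun x : E2 => √(x 1)) (VS r) := h1.sqrt hne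
  have h3 : ContDiffOn ℝ 1 (fun x : E2 => Real.exp (-((4 * κ + 2) * √(x 1)))) (VS r) :=
    ((contDiffOn_const.mul h2).neg).exp
  exact ((contDiffOn_const.mul h3).exp).div (h1.pow n) fun x hx => pow_ne_zero _ (hne x hx)

/-- a nonnegative monotone limit argument -/
theorem ELL_mono {r D : ℝ} {T : ℝ → ℝ} {T' : ℝ → ℝ} (hD : 0 ≤ D)
    (hT : ∀ y ∈ Ioo 0 r, HasDerivAt T (T' y) y) (hT' : ∀ y ∈ Ioo 0 r, 0 ≤ T' y)
    (hb : ∀ y ∈ Ioo 0 r, |T y| ≤ D * y) : ∀ y ∈ Ioo 0 r, 0 ≤ T y := by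
  intro y hy
  have hm : MonotoneOn T (Ioo 0 r) := by
    refine monotoneOn_of_deriv_nonneg (convex_Ioo 0 r)
      (fun z hz => (hT z hz).continuousAt.continuousWithinAt) ?_ ?_
    · rw [interior_Ioo]
      exact fun z hz => (hT z hz).differentiableAt.differentiableWithinAt
    · rw [interior_Ioo]
      intro z hz
      rw [(hT z hz).deriv]
      exact hT' z hz
  by_contra hneg
  push Not at hneg
  set z := min (y / 2) (-T y / (2 * (D + 1))) with hz
  have hD1 : 0 < D + 1 := by linarith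
  have hz0 : 0 < z := lt_min (by linarith [hy.1]) (by
    apply div_pos <;> linarith)
  have hzy : z ≤ y := (min_le_left _ _).trans (by linarith [hy.1])
  have hzr : z ∈ Ioo 0 r := ⟨hz0, hzy.trans_lt hy.2⟩
  have h1 := hm hzr hy hzy
  have h2 := (abs_le.mp (hb z hzr)).1
  have h3 : D * z < -T y := by
    have h4 : z ≤ -T y / (2 * (D + 1)) := min_le_right _ _
    have h5 : D * z ≤ D * (-T y / (2 * (D + 1))) := by gcongr
    have h6 : D * (-T y / (2 * (D + 1))) ≤ -T y / 2 := by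
      rw [mul_div_assoc', div_le_div_iff₀ (by positivity) (by norm_num)]
      nlinarith
    linarith
  linarith

theorem p_ELL (hHDE : TRG.Stmt_HDE) (hWGT : Stmt_WGT) (hCIN : Stmt_CIN) (hCID : Stmt_CID)
    (hCLM : Stmt_CLM) : Stmt_ELL := by
  intro c η κ r M δ al s P Q q1 q2 p1 p2 S hM n n' hη hδ hδ1 hδ2 hnn hbd
  have hV := ELL_open r
  have hκ := S.k0
  -- smoothness
  have c2 : ∀ {u : E2 → ℝ}, ContDiffOn ℝ 2 u (VS r) → ContDiffOn ℝ 1 u (VS r) :=
    fun hu => hu.of_le one_le_two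
  have cd : ∀ {u : E2 → ℝ} (i : Fin 2), ContDiffOn ℝ 2 u (VS r) → ContDiffOn ℝ 1 (pd i u) (VS r) :=
    fun i hu => FR.pd_contDiffOn hV hu (by norm_num) i
  have h1 : ContDiffOn ℝ 1 (fun x : E2 => x 1) (VS r) := (ELL_c1.of_le one_le_two).contDiffOn
  have hc : ContDiffOn ℝ 1 (fun x : E2 => c / x 1) (VS r) :=
    contDiffOn_const.div h1 fun x hx => hx.1.ne'
  have hX : ContDiffOn ℝ 1 (cX s P) (VS r) := ((c2 S.ss).mul (cd 0 S.sP)).neg
  have hY : ContDiffOn ℝ 1 (cY c s P Q) (VS r) :=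
    ((c2 S.ss).mul (cd 0 S.sQ)).add (hc.mul (c2 S.sP))
  set U : ℝ → ℝ := fun y => IC fun x =>
    cX s P (px x y) * Q (px x y) + cY c s P Q (px x y) * P (px x y) with hU
  set N : ℝ → ℝ := fun y => IC fun x => P (px x y) ^ 2 + Q (px x y) ^ 2 with hN
  set τ0 : ℝ := (11 * κ ^ 2 + (2 * κ * (n / 2 + |c|)) ^ 2 / (4 * δ)) / Real.exp (-(4 * κ + 2))
    with hτ0
  have hτ00 : 0 ≤ τ0 := by positivity
  have hpi : (0 : ℝ) ≤ 2 * π := by positivity
  -- the main inequality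
  have key : ∀ τ, τ0 ≤ τ → ∀ y ∈ Ioo 0 r, (n / (2 * y) + τ * ph κ y) * N y ≤ U y := by
    intro τ hτ y hy
    have hτp : 0 ≤ τ := hτ00.trans hτ
    have hH : ContDiffOn ℝ 1 (cH (Ww n κ τ) (gw n κ τ) c s P Q) (VS r) :=
      (ELL_Ww n κ τ).mul (((hX.mul (c2 S.sQ)).add (hY.mul (c2 S.sP))).sub
        ((ELL_gw n κ τ).mul (((c2 S.sP).pow 2).add ((c2 S.sQ).pow 2))))
    have hJ : ContDiffOn ℝ 1 (cJ (Ww n κ τ) (gw n κ τ) c al s P Q) (VS r) :=
      (ELL_Ww n κ τ).mul ((((((c2 S.ss).mul ((c2 S.sQ).mul (cd 1 S.sP))).neg).add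
        ((c2 S.ss).mul ((c2 S.sP).mul (cd 1 S.sQ)))).add
          (hc.mul ((c2 S.sal).mul ((c2 S.sP).pow 2)))).sub
        ((ELL_gw n κ τ).mul ((c2 S.sal).mul (((c2 S.sP).pow 2).add ((c2 S.sQ).pow 2)))))
    have hJp : ∀ x t : ℝ, 0 < t → t < r → cJ (Ww n κ τ) (gw n κ τ) c al s P Q (px (x + 2 * π) t) =
        cJ (Ww n κ τ) (gw n κ τ) c al s P Q (px x t) := by
      intro x t ht0 htr
      have hx : px x t ∈ VS r := ELL_px_mem ht0 htr
      have e1 : (px x t + (2 * π) • ee 0) 1 = (px x t) 1 := by simp [ee]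
      rw [ELL_px_add]
      simp only [cJ, e1, S.pal _ hx, S.ps _ hx, S.pP _ hx, S.pQ _ hx, ELL_per S.pP 1 hx,
        ELL_per S.pQ 1 hx]
    set T : ℝ → ℝ := fun σ => IC fun x => cH (Ww n κ τ) (gw n κ τ) c s P Q (px x σ) with hT
    have hder : ∀ t ∈ Ioo 0 r, HasDerivAt T (IC fun x =>
        pd 1 (cH (Ww n κ τ) (gw n κ τ) c s P Q) (px x t) -
          pd 0 (cJ (Ww n κ τ) (gw n κ τ) c al s P Q) (px x t)) t :=
      hHDE 0 r (VS r) _ _ hV (fun x t h0 h1 => ELL_px_mem h0 h1) hH hJ hJp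
    have hpos : ∀ x ∈ VS r, 0 ≤ pd 1 (cH (Ww n κ τ) (gw n κ τ) c s P Q) x -
        pd 0 (cJ (Ww n κ τ) (gw n κ τ) c al s P Q) x := by
      intro x hx
      have hx1 : 0 < x 1 := hx.1
      have hx2 : x 1 ≤ 1 := hx.2.le.trans S.r1
      obtain ⟨w1, w2, w3, _⟩ := hWGT n κ τ (x 1) hκ hτp hx1
      rw [hCID c η κ r al s P Q q1 q2 p1 p2 S (Ww n κ τ) (gw n κ τ) _ x hx w2 w1]
      refine mul_nonneg w3.le ?_
      have hk : 0 ≤ κ / √(x 1) := by positivity
      have hlin : ∀ u v : ℝ, |u| ≤ κ / √(x 1) → |v| ≤ κ / √(x 1) →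
          |u * Q x + v * P x| ≤ κ / √(x 1) * (|Q x| + |P x|) := by
        intro u v hu hv
        calc |u * Q x + v * P x| ≤ |u * Q x| + |v * P x| := abs_add_le _ _
          _ = |u| * |Q x| + |v| * |P x| := by rw [abs_mul, abs_mul]
          _ ≤ κ / √(x 1) * |Q x| + κ / √(x 1) * |P x| := by gcongr
          _ = κ / √(x 1) * (|Q x| + |P x|) := by ring
      refine hCIN n (x 1) κ τ δ c η _ _ _ _ _ _ _ _ _ hx1 hx2 hκ hτp hη hδ hδ1 hδ2 ?_
        (S.bal x hx) (S.bs x hx) (S.bh x hx) (hlin _ _ (S.bq1 x hx) (S.bq2 x hx))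
        (hlin _ _ (S.bp1 x hx) (S.bp2 x hx))
      rw [← div_le_iff₀ (Real.exp_pos _)]
      exact hτ
    set D : ℝ := Real.exp (4 * τ / (4 * κ + 2)) * (1 + |c| + n / 2 + τ) * M * (2 * π) with hDdef
    have hD : 0 ≤ D := by positivity
    have hb : ∀ t ∈ Ioo 0 r, |T t| ≤ D * t := by
      intro t ht
      have h3 := intervalIntegral.norm_integral_le_of_norm_le_const (a := 0) (b := 2 * π)
        (f := fun x => cH (Ww n κ τ) (gw n κ τ) c s P Q (px x t))
        (C := Real.exp (4 * τ / (4 * κ + 2)) * (1 + |c| + n / 2 + τ) * M * t) (fun x _ => by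
          have h4 := hCLM c η κ r M al s P Q q1 q2 p1 p2 S hM n n' hnn hbd τ hτp (px x t)
            (ELL_px_mem ht.1 ht.2)
          rw [ELL_px1] at h4
          exact h4)
      rw [sub_zero, abs_of_nonneg hpi, Real.norm_eq_abs] at h3
      refine h3.trans (le_of_eq ?_)
      rw [hDdef]
      ring
    have hTy := ELL_mono hD hder (fun t ht => by
      refine intervalIntegral.integral_nonneg hpi fun x _ => ?_
      exact hpos _ (ELL_px_mem ht.1 ht.2)) hb y hy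
    have e2 : T y = Ww n κ τ y * (U y - gw n κ τ y * N y) := by
      have cU : Continuous fun x => cX s P (px x y) * Q (px x y) + cY c s P Q (px x y) * P (px x y) :=
        ((ELL_cont hy.1 hy.2 hX.continuousOn).mul (ELL_cont hy.1 hy.2 S.sQ.continuousOn)).add
          ((ELL_cont hy.1 hy.2 hY.continuousOn).mul (ELL_cont hy.1 hy.2 S.sP.continuousOn))
      have cN : Continuous fun x => gw n κ τ y * (P (px x y) ^ 2 + Q (px x y) ^ 2) :=
        continuous_const.mul (((ELL_cont hy.1 hy.2 S.sP.continuousOn).pow 2).add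
          ((ELL_cont hy.1 hy.2 S.sQ.continuousOn).pow 2))
      simp only [hT, hU, hN, IC, cH, ELL_px1]
      rw [intervalIntegral.integral_const_mul,
        intervalIntegral.integral_sub (cU.intervalIntegrable _ _) (cN.intervalIntegrable _ _),
        intervalIntegral.integral_const_mul]
    obtain ⟨_, _, w3, _⟩ := hWGT n κ τ y hκ hτp hy.1
    rw [e2] at hTy
    have h5 := nonneg_of_mul_nonneg_right hTy w3
    have h6 : gw n κ τ y = n / (2 * y) + τ * ph κ y := rfl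
    rw [h6] at h5
    linarith
  -- conclusion
  have hzero : ∀ y ∈ Ioo 0 r, N y = 0 := by
    intro y hy
    have hN0 : 0 ≤ N y := intervalIntegral.integral_nonneg hpi fun x _ => by positivity
    by_contra hne
    have hNp : 0 < N y := lt_of_le_of_ne hN0 (Ne.symm hne)
    have hph : 0 < ph κ y := by
      have := hy.1
      unfold ph
      positivity
    have h3 := key (τ0 + (|U y| + 1) / (ph κ y * N y)) (by
      have : 0 ≤ (|U y| + 1) / (ph κ y * N y) := by positivity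
      linarith) y hy
    have h4 : (|U y| + 1) / (ph κ y * N y) * ph κ y * N y = |U y| + 1 := by
      field_simp
    have h5 : 0 ≤ (n : ℝ) / (2 * y) * N y := by
      have := hy.1
      positivity
    have h6 : 0 ≤ τ0 * ph κ y * N y := by positivity
    have h7 := le_abs_self (U y)
    nlinarith
  intro x hx
  have hx1 : x 1 ∈ Ioo 0 r := hx
  have hper : Function.Periodic (fun t => P (px t (x 1)) ^ 2 + Q (px t (x 1)) ^ 2) (2 * π) := by
    intro t
    have hm : px t (x 1) ∈ VS r := ELL_px_mem hx1.1 hx1.2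
    simp only [ELL_px_add, S.pP _ hm, S.pQ _ hm]
  have hcont : Continuous (fun t => P (px t (x 1)) ^ 2 + Q (px t (x 1)) ^ 2) :=
    ((ELL_cont hx1.1 hx1.2 S.sP.continuousOn).pow 2).add
      ((ELL_cont hx1.1 hx1.2 S.sQ.continuousOn).pow 2)
  have h3 : ∫ t in (x 0)..(x 0 + 2 * π), P (px t (x 1)) ^ 2 + Q (px t (x 1)) ^ 2 = 0 := by
    rw [hper.intervalIntegral_add_eq (x 0) 0, zero_add]
    exact hzero _ hx1
  have h4 : P x ^ 2 + Q x ^ 2 = 0 := by
    by_contra hne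
    have hp : 0 < P x ^ 2 + Q x ^ 2 := lt_of_le_of_ne (by positivity) (Ne.symm hne)
    have h5 := intervalIntegral.integral_pos (a := x 0) (b := x 0 + 2 * π)
      (f := fun t => P (px t (x 1)) ^ 2 + Q (px t (x 1)) ^ 2)
      (by linarith [Real.pi_pos]) hcont.continuousOn (fun t _ => by positivity)
      ⟨x 0, ⟨le_refl _, by linarith⟩, by simpa only [ELL_px_eta] using hp⟩
    linarith
  constructor <;> nlinarith [sq_nonneg (P x), sq_nonneg (Q x)]

end Pool.PGR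

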