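import Pool.Agent.Work.MP_02e829_pg.Interface2

/-! # Block ELS: elliptic tubes -/

open Set Filter Manifold Matrix MeasureTheory Metric
open scoped Topology ContDiff Manifold Real

set_option autoImplicit false

universe w

namespace Pool.PGR

open Pool
open Pool.FR (pd ee gg WW DD NN II Ga Gb Imm SO3)
open Pool.SXB (E3 L3 Proper PosCurv TC)
open Pool.TRG (E2 V3 IC St pt px PerR Iso Per Ann)

theorem ELS_open : IsOpen St := by
  have : St = (fun x : E2 => |x 1|) ⁻¹' Iio 1 := rfl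
  rw [this]
  exact isOpen_Iio.preimage (by fun_prop)

theorem ELS_px0 (a b : ℝ) : (px a b) 0 = a := by simp [px, ee]

theorem ELS_px1 (a b : ℝ) : (px a b) 1 = b := by simp [px, ee]

theorem ELS_pxe (x : E2) : px (x 0) (x 1) = x := by
  ext i
  fin_cases i
  · exact ELS_px0 _ _
  · exact ELS_px1 _ _

theorem ELS_pxc (a : ℝ) : Continuous fun s : ℝ => px a s := by
  unfold px
  fun_prop

theorem ELS_px_zero (a : ℝ) : px a 0 = pt a := by
  simp [px, pt]

/-- continuity of the second form at a fixed time -/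
theorem ELS_IIc (F : ℝ → E2 → V3) (himm : ∀ t ∈ Icc (0 : ℝ) 1, Imm (F t) St)
    (hF : TRG.J2 St F) (t : ℝ) (ht : t ∈ Icc (0 : ℝ) 1) (i j : Fin 2) :
    ContinuousOn (II (F t) i j) St := by
  have h1 : ∀ k, ContinuousOn (pd k (F t)) St := fun k =>
    (hF.1 k).comp (f := fun z : E2 => (t, z)) (continuous_const.prodMk continuous_id).continuousOn
      (fun z hz => ⟨ht, hz⟩)
  have h2 : ∀ k l, ContinuousOn (pd k (pd l (F t))) St := fun k l =>
    (hF.2 k l).comp (f := fun z : E2 => (t, z)) (continuous_const.prodMk continuous_id).continuousOn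
      (fun z hz => ⟨ht, hz⟩)
  have hg : ∀ k l, ContinuousOn (gg (F t) k l) St := by
    intro k l
    unfold gg
    simp only [dotProduct]
    refine continuousOn_finsetSum _ fun m _ => ?_
    exact ((continuousOn_pi.1 (h1 k)) m).mul ((continuousOn_pi.1 (h1 l)) m)
  have hD : ContinuousOn (DD (F t)) St := by
    unfold DD
    exact ((hg 0 0).mul (hg 1 1)).sub ((hg 0 1).pow 2)
  have hDp : ∀ z ∈ St, 0 < DD (F t) z := fun z hz => (himm t ht).pos z hz
  have hW : ContinuousOn (WW (F t)) St := by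
    have h10 := fun m => (continuousOn_pi.1 (h1 0)) m
    have h11 := fun m => (continuousOn_pi.1 (h1 1)) m
    rw [continuousOn_pi]
    intro m
    unfold WW
    simp only [cross_apply]
    fin_cases m
    · exact ((h10 1).mul (h11 2)).sub ((h10 2).mul (h11 1))
    · exact ((h10 2).mul (h11 0)).sub ((h10 0).mul (h11 2))
    · exact ((h10 0).mul (h11 1)).sub ((h10 1).mul (h11 0))
  have hN : ContinuousOn (NN (F t)) St := by
    unfold NN
    refine ContinuousOn.smul (ContinuousOn.inv₀ (Real.continuous_sqrt.comp_continuousOn hD) ?_) hW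
    intro z hz
    exact (Real.sqrt_pos.2 (hDp z hz)).ne'
  unfold II
  simp only [dotProduct]
  refine continuousOn_finsetSum _ fun m _ => ?_
  exact ((continuousOn_pi.1 (h2 i j)) m).mul ((continuousOn_pi.1 hN) m)

/-- the sum of two definite forms of the same sign -/
theorem ELS_alg {A B C A' B' C' : ℝ} (h : 0 < A * A') (h1 : 0 < A * C - B ^ 2)
    (h2 : 0 < A' * C' - B' ^ 2) :
    A + A' ≠ 0 ∧ 0 < (A + A') * (C + C') - (B + B') ^ 2 := by
  constructor
  · intro h3
    have : A' = -A := by linarith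
    rw [this] at h
    nlinarith [sq_nonneg A]
  · have hA : A ≠ 0 := by
      rintro rfl
      simp at h
    have hA2 : 0 < A ^ 2 := by positivity
    have hA' : A' ≠ 0 := by
      rintro rfl
      simp at h
    have hA'2 : 0 < A' ^ 2 := by positivity
    have h3 : 0 < A ^ 2 * (A' * C' - B' ^ 2) := mul_pos hA2 h2
    have h4 : 0 < A' ^ 2 * (A * C - B ^ 2) := mul_pos hA'2 h1
    have h5 : 0 < A * A' * (A * C' + A' * C - 2 * B * B') := by
      nlinarith [sq_nonneg (A * B' - A' * B)]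
    have h6 : 0 < A * C' + A' * C - 2 * B * B' := by
      by_contra hcon
      rw [not_lt] at hcon
      have := mul_nonpos_of_nonneg_of_nonpos h.le hcon
      linarith
    nlinarith

theorem ELS_same {A A' : ℝ} (h : |A' - A| < |A|) : 0 < A * A' := by
  have h1 : A * A' = |A| ^ 2 + A * (A' - A) := by rw [sq_abs]; ring
  have h2 : -(|A| * |A' - A|) ≤ A * (A' - A) := by
    rw [← abs_mul]
    exact neg_abs_le _
  have h3 : 0 < |A| := lt_of_le_of_lt (abs_nonneg _) h
  nlinarith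

theorem ELS_sign (f : ℝ → ℝ) (hf : ContinuousOn f (Ioo 0 1)) (h0 : ∀ s ∈ Ioo (0 : ℝ) 1, f s ≠ 0)
    (s0 : ℝ) (hs0 : s0 ∈ Ioo (0 : ℝ) 1) (h1 : 0 < f s0) : ∀ s ∈ Ioo (0 : ℝ) 1, 0 < f s := by
  intro s hs
  by_contra hcon
  rw [not_lt] at hcon
  have hneg : f s < 0 := lt_of_le_of_ne hcon (h0 s hs)
  obtain ⟨c, hc, hc0⟩ := isPreconnected_Ioo.intermediate_value hs hs0 hf
    (show (0 : ℝ) ∈ Icc (f s) (f s0) from ⟨hneg.le, h1.le⟩)
  exact h0 c hc hc0

theorem p_ELS (hCHR : Pool.FR.Stmt_CHR) (hEGG : Pool.TRG.Stmt_EGG) (hVNF : Stmt_VNF)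
    (hPVN : Stmt_PVN) : Stmt_ELS := by
  intro m F p q u v z hm hF hneg hp hq hpq hL hyp t ht x hx
  have h00 : (0 : ℝ) ∈ Icc (0 : ℝ) 1 := ⟨le_rfl, zero_le_one⟩
  obtain ⟨hx0, hx1⟩ : 0 ≤ x 1 ∧ x 1 < 1 := hx
  set r : ℝ := (x 1 + 1) / 2 with hr
  have hr0 : 0 < r := by rw [hr]; linarith
  have hr1 : r < 1 := by rw [hr]; linarith
  have hxr : x 1 ≤ r := by rw [hr]; linarith
  have hmemr : ∀ y : E2, 0 ≤ y 1 → y 1 ≤ r → y ∈ St := fun y h1 h2 => by
    show |y 1| < 1
    rw [abs_of_nonneg h1]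
    linarith
  have hmem1 : ∀ y : E2, 0 < y 1 → y 1 < 1 → y ∈ St := fun y h1 h2 => by
    show |y 1| < 1
    rw [abs_of_pos h1]
    exact h2
  obtain ⟨M, hM0, hM⟩ := hVNF m F hm hF hneg r hr0 hr1
  have hdet : ∀ y ∈ St, dII (F t) y = dII (F 0) y := fun y hy =>
    hEGG St ELS_open (F 0) (F t) (hF.imm 0 h00) (hF.imm t ht) (hF.iso t ht) y hy
  -- the same sign
  have hsame : ∀ y : E2, 0 < y 1 → y 1 < 1 → 0 < II (F 0) 0 0 y * II (F t) 0 0 y := by
    intro y hy0 hy1
    have hmaps : MapsTo (fun s : ℝ => px (y 0) s) (Ioo (0 : ℝ) 1) St := by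
      intro s hs
      exact hmem1 _ (by rw [ELS_px1]; exact hs.1) (by rw [ELS_px1]; exact hs.2)
    have hcont : ContinuousOn (fun s : ℝ => II (F 0) 0 0 (px (y 0) s) * II (F t) 0 0 (px (y 0) s))
        (Ioo 0 1) :=
      ((ELS_IIc F hF.imm hF.j2 0 h00 0 0).comp (ELS_pxc (y 0)).continuousOn hmaps).mul
        ((ELS_IIc F hF.imm hF.j2 t ht 0 0).comp (ELS_pxc (y 0)).continuousOn hmaps)
    have hne : ∀ s ∈ Ioo (0 : ℝ) 1,
        II (F 0) 0 0 (px (y 0) s) * II (F t) 0 0 (px (y 0) s) ≠ 0 := by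
      intro s hs
      have hS := hmaps hs
      have h1 := hyp _ hS (by rw [ELS_px1]; exact hs.1)
      refine mul_ne_zero h1.1 ?_
      intro h2
      have h3 := hdet _ hS
      rw [dII, h2] at h3
      have h4 := h1.2
      rw [← h3] at h4
      nlinarith [sq_nonneg (II (F t) 0 1 (px (y 0) s))]
    -- near the line
    have hu : ContinuousAt u (pt (y 0)) := by
      have hpt : pt (y 0) ∈ St := by
        rw [← ELS_px_zero]
        exact hmemr _ (by rw [ELS_px1]) (by rw [ELS_px1]; exact hr0.le)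
      exact hL.su.continuousOn.continuousAt (ELS_open.mem_nhds hpt)
    set c : ℝ := |u (pt (y 0))| / 2 with hc
    have hc0 : 0 < c := by
      rw [hc]
      have := abs_pos.2 (hL.u0 (y 0))
      linarith
    have hev : ∀ᶠ s : ℝ in 𝓝 (0 : ℝ), c < |u (px (y 0) s)| := by
      have h1 : Tendsto (fun s : ℝ => px (y 0) s) (𝓝 0) (𝓝 (pt (y 0))) := by
        rw [← ELS_px_zero]
        exact (ELS_pxc (y 0)).tendsto 0
      have h2 : Tendsto (fun s : ℝ => |u (px (y 0) s)|) (𝓝 0) (𝓝 |u (pt (y 0))|) :=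
        ((hu.tendsto).comp h1).abs
      exact h2.eventually_const_lt (by rw [hc]; linarith [abs_pos.2 (hL.u0 (y 0))])
    obtain ⟨δ, hδ0, hδ⟩ := Metric.eventually_nhds_iff.1 hev
    -- choose `s`
    obtain ⟨s, hs0, hs1, hs2, hs3⟩ : ∃ s : ℝ, 0 < s ∧ s < δ ∧ s ≤ r ∧ M * s < c := by
      refine ⟨min (min (δ / 2) r) (c / (2 * (M + 1))), ?_, ?_, ?_, ?_⟩
      · refine lt_min (lt_min (by linarith) hr0) (by positivity)
      · exact lt_of_le_of_lt ((min_le_left _ _).trans (min_le_left _ _)) (by linarith)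
      · exact (min_le_left _ _).trans (min_le_right _ _)
      · have h1 : min (min (δ / 2) r) (c / (2 * (M + 1))) ≤ c / (2 * (M + 1)) := min_le_right _ _
        have h2 : M * min (min (δ / 2) r) (c / (2 * (M + 1))) ≤ M * (c / (2 * (M + 1))) :=
          mul_le_mul_of_nonneg_left h1 hM0
        have h3 : M * (c / (2 * (M + 1))) < c := by
          rw [← mul_div_assoc, div_lt_iff₀ (by positivity)]
          nlinarith
        linarith
    have hs4 : s < 1 := lt_of_le_of_lt hs2 hr1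
    have hu' : c < |u (px (y 0) s)| := hδ (by
      rw [Real.dist_eq, sub_zero, abs_of_pos hs0]
      exact hs1)
    have hb := (hM t ht (px (y 0) s) ⟨by rw [ELS_px1]; exact hs0.le, by rw [ELS_px1]; exact hs2⟩
      0 0).1
    have hl := hL.l0 (px (y 0) s) ⟨by rw [ELS_px1]; exact hs0.le, by rw [ELS_px1]; exact hs4⟩
    rw [ELS_px1] at hb hl
    have hpow : s ^ (m - 2) ≤ s ^ p * s := by
      rw [← pow_succ]
      exact pow_le_pow_of_le_one hs0.le hs4.le (by omega)
    have hlt : |II (F t) 0 0 (px (y 0) s) - II (F 0) 0 0 (px (y 0) s)| <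
        |II (F 0) 0 0 (px (y 0) s)| := by
      rw [hl, abs_mul, abs_of_pos (pow_pos hs0 p)]
      rw [hl] at hb
      calc _ ≤ M * s ^ (m - 2) := hb
        _ ≤ M * (s ^ p * s) := mul_le_mul_of_nonneg_left hpow hM0
        _ = s ^ p * (M * s) := by ring
        _ < s ^ p * |u (px (y 0) s)| := mul_lt_mul_of_pos_left (by linarith) (pow_pos hs0 p)
    have := ELS_sign _ hcont hne s ⟨hs0, hs4⟩ (ELS_same hlt) (y 1) ⟨hy0, hy1⟩
    rw [ELS_pxe] at this
    exact this
  have hIso : Iso (F 0) (F t) := hF.iso t ht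
  have hLr : LinC (F 0) p q (HS r) u v z :=
    { su := hL.su
      sv := hL.sv
      sz := hL.sz
      u0 := hL.u0
      z0 := hL.z0
      l0 := fun y hy => hL.l0 y ⟨hy.1, lt_of_le_of_lt hy.2 hr1⟩
      l1 := fun y hy => hL.l1 y ⟨hy.1, lt_of_le_of_lt hy.2 hr1⟩
      l2 := fun y hy => hL.l2 y ⟨hy.1, lt_of_le_of_lt hy.2 hr1⟩ }
  refine hPVN (F 0) (F t) p q (m - 2) 1 r M u v z (hF.imm 0 h00) (hF.imm t ht) hIso
    (hF.per 0 h00) (hF.per t ht) (by omega) (by omega) hpq (by omega) hr0 hr1 hM0 (Or.inl rfl)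
    hLr ?_ ?_ x ⟨hx0, hxr⟩
  · intro y hy0 hyr
    have hy1 : y 1 < 1 := lt_of_le_of_lt hyr hr1
    have hS := hmem1 y hy0 hy1
    have h1 := hsame y hy0 hy1
    have h2 := (hyp y hS hy0).2
    have h3 : 0 < dII (F t) y := by rw [hdet y hS]; exact h2
    rw [dII] at h2 h3
    obtain ⟨h4, h5⟩ := ELS_alg h1 h2 h3
    refine ⟨h4, ?_⟩
    rw [one_mul]
    exact h5
  · intro y hy i j
    obtain ⟨h1, h2⟩ := hM t ht y hy i j
    refine ⟨h1, fun k => ?_⟩
    have h3 : m - 2 - 1 = m - 3 := by omega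
    rw [h3]
    exact h2 k

end Pool.PGR
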