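import Pool.Agent.Work.MP_02e829_pg.Interface

open Set Filter Manifold Matrix MeasureTheory Metric
open scoped Topology ContDiff Manifold Real

set_option autoImplicit false

namespace Pool.PGR

theorem HYG_weight (κ y : ℝ) (k : ℕ) (hy : 0 < y) :
    HasDerivAt (fun y : ℝ => Real.exp (-(12 * κ * √y)) / y ^ k)
      (-(Real.exp (-(12 * κ * √y)) / y ^ k * (k / y + 6 * κ / √y))) y := by
  have h0 : (0 : ℝ) < √y := Real.sqrt_pos.2 hy
  have h1 : HasDerivAt (fun y : ℝ => -(12 * κ * √y)) (-(12 * κ * (1 / (2 * √y)))) y :=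
    ((Real.hasDerivAt_sqrt hy.ne').const_mul (12 * κ)).neg
  have h2 : HasDerivAt (fun y : ℝ => y ^ k) (k * y ^ (k - 1)) y := by
    simpa using hasDerivAt_pow k y
  have hyk : y ^ k ≠ 0 := (pow_pos hy k).ne'
  have h3 := h1.exp.div h2 hyk
  refine h3.congr_deriv ?_
  have h7 : (k : ℝ) * y ^ (k - 1) = k * y ^ k / y := by
    rcases Nat.eq_zero_or_pos k with rfl | hn
    · simp
    · obtain ⟨j, rfl⟩ := Nat.exists_eq_succ_of_ne_zero hn.ne'
      simp only [Nat.succ_eq_add_one, Nat.add_sub_cancel]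
      rw [pow_succ]
      field_simp
  rw [h7]
  field_simp
  ring

theorem p_HYG : Stmt_HYG := by
  intro r κ M k n E E' hκ hkn h y hy
  obtain ⟨Z, hZ⟩ : ∃ Z : ℝ → ℝ, Z = fun y => Real.exp (-(12 * κ * √y)) / y ^ k * E y := ⟨_, rfl⟩
  have hd : ∀ s ∈ Ioo 0 r, HasDerivAt Z
      (-(Real.exp (-(12 * κ * √s)) / s ^ k * (k / s + 6 * κ / √s)) * E s +
        Real.exp (-(12 * κ * √s)) / s ^ k * E' s) s := by
    intro s hs
    rw [hZ]
    exact (HYG_weight κ s k hs.1).mul (h s hs).1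
  have hneg : ∀ s ∈ Ioo 0 r, deriv Z s ≤ 0 := by
    intro s hs
    rw [(hd s hs).deriv]
    have h1 : 0 < Real.exp (-(12 * κ * √s)) / s ^ k :=
      div_pos (Real.exp_pos _) (pow_pos hs.1 k)
    have h2 := (h s hs).2.1
    nlinarith
  have hanti : AntitoneOn Z (Ioo 0 r) := by
    refine antitoneOn_of_deriv_nonpos (convex_Ioo 0 r)
      (fun s hs => (hd s hs).continuousAt.continuousWithinAt) ?_ ?_
    · intro s hs
      rw [interior_Ioo] at hs
      exact (hd s hs).differentiableAt.differentiableWithinAt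
    · intro s hs
      rw [interior_Ioo] at hs
      exact hneg s hs
  have hlim : Tendsto (fun s : ℝ => M * s ^ (n - k)) (𝓝[>] 0) (𝓝 0) := by
    have h1 : Continuous fun s : ℝ => M * s ^ (n - k) := by fun_prop
    have h2 := (h1.tendsto 0).mono_left (nhdsWithin_le_nhds (s := Ioi (0 : ℝ)))
    have h3 : n - k ≠ 0 := by omega
    simpa [h3] using h2
  have hle : Z y ≤ 0 := by
    refine ge_of_tendsto hlim ?_
    have h1 : ∀ᶠ s in 𝓝[>] (0 : ℝ), s ∈ Ioo 0 y := Ioo_mem_nhdsGT hy.1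
    filter_upwards [h1] with s hs
    have hs' : s ∈ Ioo 0 r := ⟨hs.1, hs.2.trans hy.2⟩
    refine (hanti hs' hy hs.2.le).trans ?_
    rw [hZ]
    have h2 := (h s hs').2.2.2
    have h3 := (h s hs').2.2.1
    have h4 : Real.exp (-(12 * κ * √s)) ≤ 1 := by
      rw [Real.exp_le_one_iff]
      have : 0 ≤ 12 * κ * √s := by positivity
      linarith
    have h5 : 0 < s ^ k := pow_pos hs.1 k
    have h6 : s ^ n = s ^ k * s ^ (n - k) := by
      rw [← pow_add]
      congr 1
      omega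
    have h7 : Real.exp (-(12 * κ * √s)) / s ^ k * E s ≤ 1 / s ^ k * (M * s ^ n) := by
      refine mul_le_mul ((div_le_div_iff_of_pos_right h5).2 h4) h2 h3 (by positivity)
    refine h7.trans (le_of_eq ?_)
    rw [h6]
    field_simp
  rw [hZ] at hle
  have h1 : 0 < Real.exp (-(12 * κ * √y)) / y ^ k := div_pos (Real.exp_pos _) (pow_pos hy.1 k)
  have h2 := (h y hy).2.2.1
  have h3 : E y ≤ 0 := by
    by_contra hcon
    push Not at hcon
    have : 0 < Real.exp (-(12 * κ * √y)) / y ^ k * E y := mul_pos h1 hcon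
    linarith
  exact le_antisymm h3 h2

end Pool.PGR
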