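import Pool.Agent.Work.MP_02e829_pg.Interface

/-!
# Block HYI (helper12): the hyperbolic energy, pointwise
-/

open Set Filter Manifold Matrix MeasureTheory Metric
open scoped Topology ContDiff Manifold Real

set_option autoImplicit false

namespace Pool.PGR

open Pool
open Pool.FR (pd ee gg WW DD NN II Ga Gb Imm SO3)
open Pool.TRG (E2 V3 IC St pt px PerR Iso Per)

theorem HYI_open (r : ℝ) : IsOpen (VS r) := by
  have h1 : Continuous fun x : E2 => x 1 := by fun_prop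
  exact (isOpen_lt continuous_const h1).inter (isOpen_lt h1 continuous_const)

theorem HYI_diff {r : ℝ} {f : E2 → ℝ} (hf : ContDiffOn ℝ 2 f (VS r)) {x : E2} (hx : x ∈ VS r) :
    DifferentiableAt ℝ f x :=
  (hf.contDiffAt ((HYI_open r).mem_nhds hx)).differentiableAt (by norm_num)

theorem HYI_real (c k A X P Q P0 Q0 al s al0 s0 q1 q2 p1 p2 : ℝ) (hX : 0 < X) (hc : 2 * c ≤ k)
    (hq1 : |q1| ≤ A) (hq2 : |q2| ≤ A) (hp1 : |p1| ≤ A) (hp2 : |p2| ≤ A) (hal : |al0| ≤ A)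
    (hs : |s0| ≤ A) (hk : 0 ≤ k) :
    (2 * P * (s * Q0 + al * P0 + p1 * Q + (c / X + p2) * P) +
      2 * Q * (al * Q0 - -1 * s * P0 + q1 * Q + q2 * P)) -
      (al0 * (P ^ 2 + Q ^ 2) + al * (2 * P * P0 + 2 * Q * Q0) +
        2 * (s0 * (P * Q) + s * (P0 * Q + P * Q0))) ≤
      (k / X + 6 * A) * (P ^ 2 + Q ^ 2) := by
  have hA : 0 ≤ A := (abs_nonneg _).trans hq1
  have e : (2 * P * (s * Q0 + al * P0 + p1 * Q + (c / X + p2) * P) +
      2 * Q * (al * Q0 - -1 * s * P0 + q1 * Q + q2 * P)) -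
      (al0 * (P ^ 2 + Q ^ 2) + al * (2 * P * P0 + 2 * Q * Q0) +
        2 * (s0 * (P * Q) + s * (P0 * Q + P * Q0))) =
      (p1 + q2) * (2 * (P * Q)) + 2 * c / X * P ^ 2 + 2 * p2 * P ^ 2 + 2 * q1 * Q ^ 2 -
        al0 * (P ^ 2 + Q ^ 2) - s0 * (2 * (P * Q)) := by
    ring
  rw [e]
  have hE : 0 ≤ P ^ 2 + Q ^ 2 := by positivity
  have hPQ : |2 * (P * Q)| ≤ P ^ 2 + Q ^ 2 := by
    rw [abs_le]
    constructor <;> nlinarith [sq_nonneg (P + Q), sq_nonneg (P - Q)]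
  have b1 : (p1 + q2) * (2 * (P * Q)) ≤ 2 * A * (P ^ 2 + Q ^ 2) := by
    calc (p1 + q2) * (2 * (P * Q)) ≤ |(p1 + q2) * (2 * (P * Q))| := le_abs_self _
      _ = |p1 + q2| * |2 * (P * Q)| := abs_mul _ _
      _ ≤ 2 * A * (P ^ 2 + Q ^ 2) := by
        refine mul_le_mul ?_ hPQ (abs_nonneg _) (by linarith)
        have := abs_add_le p1 q2
        linarith
  have b2 : -(s0 * (2 * (P * Q))) ≤ A * (P ^ 2 + Q ^ 2) := by
    calc -(s0 * (2 * (P * Q))) ≤ |s0 * (2 * (P * Q))| := neg_le_abs _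
      _ = |s0| * |2 * (P * Q)| := abs_mul _ _
      _ ≤ A * (P ^ 2 + Q ^ 2) := mul_le_mul hs hPQ (abs_nonneg _) hA
  have b3 : -(al0 * (P ^ 2 + Q ^ 2)) ≤ A * (P ^ 2 + Q ^ 2) := by
    have := (abs_le.mp hal).1
    nlinarith
  have b4 : 2 * p2 * P ^ 2 ≤ 2 * A * P ^ 2 := by
    have := (abs_le.mp hp2).2
    nlinarith [sq_nonneg P]
  have b5 : 2 * q1 * Q ^ 2 ≤ 2 * A * Q ^ 2 := by
    have := (abs_le.mp hq1).2
    nlinarith [sq_nonneg Q]
  have b6 : 2 * c / X * P ^ 2 ≤ k / X * (P ^ 2 + Q ^ 2) := by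
    have h1 : 2 * c / X ≤ k / X := by gcongr
    have h2 : 0 ≤ k / X := div_nonneg hk hX.le
    nlinarith [sq_nonneg P, sq_nonneg Q]
  nlinarith

theorem p_HYI : Stmt_HYI := by
  intro c η κ r al s P Q q1 q2 p1 p2 h k hk x hx
  have dal := HYI_diff h.sal hx
  have ds := HYI_diff h.ss hx
  have dP := HYI_diff h.sP hx
  have dQ := HYI_diff h.sQ hx
  have dE : DifferentiableAt ℝ (fun y => P y ^ 2 + Q y ^ 2) x := (dP.pow 2).add (dQ.pow 2)
  have dPP : DifferentiableAt ℝ (fun y => P y * P y) x := dP.mul dP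
  have dQQ : DifferentiableAt ℝ (fun y => Q y * Q y) x := dQ.mul dQ
  have dPQ : DifferentiableAt ℝ (fun y => P y * Q y) x := dP.mul dQ
  have dsPQ : DifferentiableAt ℝ (fun y => s y * (P y * Q y)) x := ds.mul dPQ
  have dalE : DifferentiableAt ℝ (fun y => al y * (P y ^ 2 + Q y ^ 2)) x := dal.mul dE
  have d2 : DifferentiableAt ℝ (fun y => 2 * (s y * (P y * Q y))) x := dsPQ.const_mul 2
  have hE : ∀ i, pd i (fun y => P y ^ 2 + Q y ^ 2) x =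
      2 * P x * pd i P x + 2 * Q x * pd i Q x := by
    intro i
    have e1 : (fun y => P y ^ 2 + Q y ^ 2) = fun y => P y * P y + Q y * Q y := by
      funext y
      ring
    rw [e1, Pool.FR.pd_add i dPP dQQ, Pool.FR.pd_mul i dP dP,
      Pool.FR.pd_mul i dQ dQ]
    ring
  have hF : pd 0 (fun y => al y * (P y ^ 2 + Q y ^ 2) + 2 * (s y * (P y * Q y))) x =
      pd 0 al x * (P x ^ 2 + Q x ^ 2) + al x * (2 * P x * pd 0 P x + 2 * Q x * pd 0 Q x) +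
        2 * (pd 0 s x * (P x * Q x) + s x * (pd 0 P x * Q x + P x * pd 0 Q x)) := by
    rw [Pool.FR.pd_add 0 dalE d2, Pool.FR.pd_mul 0 dal dE, hE 0,
      Pool.FR.pd_mul 0 (differentiableAt_const (2 : ℝ)) dsPQ,
      Pool.FR.pd_const, Pool.FR.pd_mul 0 ds dPQ, Pool.FR.pd_mul 0 dP dQ]
    ring
  rw [hE 1, hF, h.eQ x hx, h.eP x hx]
  have hreal := HYI_real c k (κ / √(x 1)) (x 1) (P x) (Q x) (pd 0 P x) (pd 0 Q x) (al x) (s x)
    (pd 0 al x) (pd 0 s x) (q1 x) (q2 x) (p1 x) (p2 x) hx.1 hk (h.bq1 x hx) (h.bq2 x hx)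
    (h.bp1 x hx) (h.bp2 x hx) (h.bal x hx) (h.bs x hx) (Nat.cast_nonneg k)
  have e6 : 6 * κ / √(x 1) = 6 * (κ / √(x 1)) := by ring
  rw [e6]
  linarith

end Pool.PGR
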