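import Pool.Agent.Work.MP_02e829_pg.B_ELL

open Set Filter Manifold Matrix MeasureTheory Metric
open scoped Topology ContDiff Manifold Real

set_option autoImplicit false

namespace Pool.PGR

open Pool
open Pool.FR (pd ee)
open Pool.TRG (E2 V3 IC St pt px PerR)

theorem p_HYP (hHDE : TRG.Stmt_HDE) (hHYI : Stmt_HYI) (hHYG : Stmt_HYG) : Stmt_HYP := by
  intro c η κ r M al s P Q q1 q2 p1 p2 S k n hk hkn hbd
  have hV := ELL_open r
  have hpi : (0 : ℝ) ≤ 2 * π := by positivity
  have c2 : ∀ {u : E2 → ℝ}, ContDiffOn ℝ 2 u (VS r) → ContDiffOn ℝ 1 u (VS r) :=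
    fun hu => hu.of_le one_le_two
  have hH : ContDiffOn ℝ 1 (fun y => P y ^ 2 + Q y ^ 2) (VS r) :=
    ((c2 S.sP).pow 2).add ((c2 S.sQ).pow 2)
  have hJ : ContDiffOn ℝ 1 (fun y => al y * (P y ^ 2 + Q y ^ 2) + 2 * (s y * (P y * Q y)))
      (VS r) :=
    ((c2 S.sal).mul hH).add (contDiffOn_const.mul ((c2 S.ss).mul ((c2 S.sP).mul (c2 S.sQ))))
  have hJp : ∀ x t : ℝ, 0 < t → t < r →
      (fun y => al y * (P y ^ 2 + Q y ^ 2) + 2 * (s y * (P y * Q y))) (px (x + 2 * π) t) =
      (fun y => al y * (P y ^ 2 + Q y ^ 2) + 2 * (s y * (P y * Q y))) (px x t) := by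
    intro x t ht0 htr
    have hx : px x t ∈ VS r := ELL_px_mem ht0 htr
    rw [ELL_px_add]
    simp only [S.pal _ hx, S.ps _ hx, S.pP _ hx, S.pQ _ hx]
  have hder : ∀ t ∈ Ioo 0 r, HasDerivAt (fun σ => IC fun x => P (px x σ) ^ 2 + Q (px x σ) ^ 2)
      (IC fun x => pd 1 (fun y => P y ^ 2 + Q y ^ 2) (px x t) -
        pd 0 (fun y => al y * (P y ^ 2 + Q y ^ 2) + 2 * (s y * (P y * Q y))) (px x t)) t :=
    hHDE 0 r (VS r) _ _ hV (fun x t h0 h1 => ELL_px_mem h0 h1) hH hJ hJp
  have hzero : ∀ y ∈ Ioo 0 r, (IC fun x => P (px x y) ^ 2 + Q (px x y) ^ 2) = 0 := by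
    refine hHYG r κ (2 * π * M) k n _ _ S.k0 hkn fun y hy => ⟨hder y hy, ?_, ?_, ?_⟩
    · have hc1 : Continuous fun x => pd 1 (fun y => P y ^ 2 + Q y ^ 2) (px x y) -
          pd 0 (fun y => al y * (P y ^ 2 + Q y ^ 2) + 2 * (s y * (P y * Q y))) (px x y) := by
        have h1 : ContinuousOn (pd 1 fun y => P y ^ 2 + Q y ^ 2) (VS r) :=
          (FR.pd_contDiffOn (m := 0) hV hH (by norm_num) 1).continuousOn
        have h2 : ContinuousOn
            (pd 0 fun y => al y * (P y ^ 2 + Q y ^ 2) + 2 * (s y * (P y * Q y))) (VS r) :=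
          (FR.pd_contDiffOn (m := 0) hV hJ (by norm_num) 0).continuousOn
        exact (ELL_cont hy.1 hy.2 h1).sub (ELL_cont hy.1 hy.2 h2)
      have hc2 : Continuous fun x => (k / y + 6 * κ / √y) * (P (px x y) ^ 2 + Q (px x y) ^ 2) :=
        continuous_const.mul (ELL_cont hy.1 hy.2 hH.continuousOn)
      have h3 : (IC fun x => (k / y + 6 * κ / √y) * (P (px x y) ^ 2 + Q (px x y) ^ 2)) =
          (k / y + 6 * κ / √y) * IC fun x => P (px x y) ^ 2 + Q (px x y) ^ 2 := by
        simp only [IC]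
        rw [intervalIntegral.integral_const_mul]
      rw [← h3]
      refine intervalIntegral.integral_mono_on hpi (hc1.intervalIntegrable _ _)
        (hc2.intervalIntegrable _ _) fun x _ => ?_
      have h4 := hHYI c η κ r al s P Q q1 q2 p1 p2 S k hk (px x y) (ELL_px_mem hy.1 hy.2)
      rw [ELL_px1] at h4
      exact h4
    · exact intervalIntegral.integral_nonneg hpi fun x _ => by positivity
    · have hc : Continuous fun x => P (px x y) ^ 2 + Q (px x y) ^ 2 :=
        ELL_cont hy.1 hy.2 hH.continuousOn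
      have h3 : (IC fun x => P (px x y) ^ 2 + Q (px x y) ^ 2) ≤ IC fun _ => M * y ^ n := by
        refine intervalIntegral.integral_mono_on hpi (hc.intervalIntegrable _ _)
          (continuous_const.intervalIntegrable _ _) fun x _ => ?_
        have h4 := hbd (px x y) (ELL_px_mem hy.1 hy.2)
        rw [ELL_px1] at h4
        exact h4
      refine h3.trans (le_of_eq ?_)
      simp only [IC, intervalIntegral.integral_const, smul_eq_mul]
      ring
  intro x hx
  have hx1 : x 1 ∈ Ioo 0 r := hx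
  have hper : Function.Periodic (fun t => P (px t (x 1)) ^ 2 + Q (px t (x 1)) ^ 2) (2 * π) := by
    intro t
    have hm : px t (x 1) ∈ VS r := ELL_px_mem hx1.1 hx1.2
    simp only [ELL_px_add, S.pP _ hm, S.pQ _ hm]
  have hcont : Continuous (fun t => P (px t (x 1)) ^ 2 + Q (px t (x 1)) ^ 2) :=
    ELL_cont hx1.1 hx1.2 hH.continuousOn
  have h3 : ∫ t in (x 0)..(x 0 + 2 * π), P (px t (x 1)) ^ 2 + Q (px t (x 1)) ^ 2 = 0 := by
    rw [hper.intervalIntegral_add_eq (x 0) 0, zero_add]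
    exact hzero _ hx1
  have h4 : P x ^ 2 + Q x ^ 2 = 0 := by
    by_contra hne
    have hp : 0 < P x ^ 2 + Q x ^ 2 := lt_of_le_of_ne (by positivity) (Ne.symm hne)
    have h5 := intervalIntegral.integral_pos (a := x 0) (b := x 0 + 2 * π)
      (f := fun t => P (px t (x 1)) ^ 2 + Q (px t (x 1)) ^ 2)
      (by linarith [Real.pi_pos]) hcont.continuousOn (fun t _ => by positivity)
      ⟨x 0, ⟨le_refl _, by linarith⟩, by simpa only [ELL_px_eta] using hp⟩
    linarith
  constructor <;> nlinarith [sq_nonneg (P x), sq_nonneg (Q x)]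

end Pool.PGR
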