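import Pool.Agent.Work.MP_02e829_pg.Interface2
import Pool.Agent.Work.MP_02e829_tr.B_HTF
import Pool.Agent.Work.MP_02e829_fr.FRM

/-! # Block HYS: hyperbolic tubes keep their second form -/

open Set Filter Manifold Matrix MeasureTheory Metric
open scoped Topology ContDiff Manifold Real

set_option autoImplicit false

universe w

namespace Pool.PGR

open Pool
open Pool.FR (pd ee gg WW DD NN II Ga Gb Imm SO3)
open Pool.SXB (E3 L3 Proper PosCurv TC)
open Pool.TRG (E2 V3 IC St pt px PerR Iso Per Ann)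

/-- joint continuity of the second form -/
theorem HYS_IIc (F : ℝ → E2 → V3) (hI : ∀ t ∈ Icc (0 : ℝ) 1, Imm (F t) St) (hJ : TRG.J2 St F)
    (i j : Fin 2) :
    ContinuousOn (fun z : ℝ × E2 => II (F z.1) i j z.2) (Icc (0 : ℝ) 1 ×ˢ St) := by
  have h1 := hJ.1
  have h2 := hJ.2
  have hg : ∀ k l, ContinuousOn (fun z : ℝ × E2 => gg (F z.1) k l z.2) (Icc (0 : ℝ) 1 ×ˢ St) := by
    intro k l
    unfold gg
    simp only [dotProduct]
    refine continuousOn_finsetSum _ fun m _ => ?_
    exact ((continuousOn_pi.1 (h1 k)) m).mul ((continuousOn_pi.1 (h1 l)) m)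
  have hD : ContinuousOn (fun z : ℝ × E2 => DD (F z.1) z.2) (Icc (0 : ℝ) 1 ×ˢ St) := by
    unfold DD
    exact ((hg 0 0).mul (hg 1 1)).sub ((hg 0 1).pow 2)
  have hDp : ∀ z ∈ Icc (0 : ℝ) 1 ×ˢ St, 0 < DD (F z.1) z.2 := fun z hz =>
    (hI z.1 hz.1).pos z.2 hz.2
  have hW : ContinuousOn (fun z : ℝ × E2 => WW (F z.1) z.2) (Icc (0 : ℝ) 1 ×ˢ St) := by
    have h10 := fun m => (continuousOn_pi.1 (h1 0)) m
    have h11 := fun m => (continuousOn_pi.1 (h1 1)) m
    rw [continuousOn_pi]
    intro m
    unfold WW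
    simp only [cross_apply]
    fin_cases m
    · exact ((h10 1).mul (h11 2)).sub ((h10 2).mul (h11 1))
    · exact ((h10 2).mul (h11 0)).sub ((h10 0).mul (h11 2))
    · exact ((h10 0).mul (h11 1)).sub ((h10 1).mul (h11 0))
  have hN : ContinuousOn (fun z : ℝ × E2 => NN (F z.1) z.2) (Icc (0 : ℝ) 1 ×ˢ St) := by
    unfold NN
    refine ContinuousOn.smul (ContinuousOn.inv₀ (Real.continuous_sqrt.comp_continuousOn hD) ?_) hW
    intro z hz
    exact (Real.sqrt_pos.2 (hDp z hz)).ne'
  unfold II
  simp only [dotProduct]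
  refine continuousOn_finsetSum _ fun m _ => ?_
  exact ((continuousOn_pi.1 (h2 i j)) m).mul ((continuousOn_pi.1 hN) m)

theorem HYS_pd (f g h : E2 → ℝ) (x : E2) (k : Fin 2) (hf : DifferentiableAt ℝ f x)
    (hg : DifferentiableAt ℝ g x) (hh : DifferentiableAt ℝ h x) :
    pd k (fun y => f y - g y) x = pd k (fun y => f y - h y) x - pd k (fun y => g y - h y) x := by
  have e1 : fderiv ℝ (fun y => f y - g y) x = fderiv ℝ f x - fderiv ℝ g x :=
    (hf.hasFDerivAt.fun_sub hg.hasFDerivAt).fderiv
  have e2 : fderiv ℝ (fun y => f y - h y) x = fderiv ℝ f x - fderiv ℝ h x :=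
    (hf.hasFDerivAt.fun_sub hh.hasFDerivAt).fderiv
  have e3 : fderiv ℝ (fun y => g y - h y) x = fderiv ℝ g x - fderiv ℝ h x :=
    (hg.hasFDerivAt.fun_sub hh.hasFDerivAt).fderiv
  unfold pd
  rw [e1, e2, e3]
  simp only [ContinuousLinearMap.sub_apply, ContinuousLinearMap.coe_sub', Pi.sub_apply]
  ring

theorem p_HYS (_hCHR : Pool.FR.Stmt_CHR) (hVNF : Stmt_VNF) (hPVN : Stmt_PVN)
    (hNLN : Stmt_NLN) : Stmt_HYS := by
  intro m F p q u v z hm hS hagr hpm hqm hpq hL hyp
  obtain ⟨δ, hδ0, hδ1, hδ⟩ := hNLN m F p q u v z hm hS hagr hpm hqm hpq hL hyp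
  have h0 : (0 : ℝ) ∈ Icc (0 : ℝ) 1 := ⟨le_rfl, zero_le_one⟩
  have hII := HYS_IIc F hS.imm hS.j2
  -- for every `r < 1`
  have main : ∀ r : ℝ, 0 < r → r < 1 → ∀ t ∈ Icc (0 : ℝ) 1, ∀ x : E2, 0 ≤ x 1 → x 1 ≤ r →
      ∀ i j, II (F t) i j x = II (F 0) i j x := by
    intro r hr0 hr1
    have hmem : ∀ x : E2, 0 ≤ x 1 → x 1 ≤ r → x ∈ St := fun x h1 h2 => by
      show |x 1| < 1
      rw [abs_of_nonneg h1]
      linarith
    set T : Set ℝ := {t | ∀ x : E2, 0 ≤ x 1 → x 1 ≤ r → ∀ i j, II (F t) i j x = II (F 0) i j x}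
      with hTdef
    have hclosed : IsClosed (T ∩ Icc (0 : ℝ) 1) := by
      have : T ∩ Icc (0 : ℝ) 1 = ⋂ (x : E2) (_ : 0 ≤ x 1) (_ : x 1 ≤ r) (i : Fin 2) (j : Fin 2),
          {t ∈ Icc (0 : ℝ) 1 | II (F t) i j x = II (F 0) i j x} := by
        ext t
        constructor
        · rintro ⟨h1, h2⟩
          simp only [mem_iInter]
          intro x hx1 hx2 i j
          exact ⟨h2, h1 x hx1 hx2 i j⟩
        · intro h
          simp only [mem_iInter] at h
          refine ⟨fun x hx1 hx2 i j => (h x hx1 hx2 i j).2, ?_⟩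
          have := h 0 (by simp) (by simpa using hr0.le) 0 0
          exact this.1
      rw [this]
      refine isClosed_iInter fun x => isClosed_iInter fun hx1 => isClosed_iInter fun hx2 =>
        isClosed_iInter fun i => isClosed_iInter fun j => ?_
      have hcx : ContinuousOn (fun t : ℝ => II (F t) i j x) (Icc 0 1) := by
        have := (hII i j).comp (f := fun t : ℝ => (t, x))
          (continuous_id.prodMk continuous_const).continuousOn
          (fun t ht => ⟨ht, hmem x hx1 hx2⟩)
        exact this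
      exact hcx.preimage_isClosed_of_isClosed isClosed_Icc isClosed_singleton
    obtain ⟨M, hM0, hM⟩ := hVNF m F hm hS hagr r hr0 hr1
    have hop : ∀ s ∈ T ∩ Icc (0 : ℝ) 1, ∀ᶠ t in 𝓝[Icc (0 : ℝ) 1] s, t ∈ T := by
      rintro s ⟨hsT, hs⟩
      have hfix : ∀ i j, ContinuousOn (fun z : ℝ × E2 => II (F s) i j z.2)
          (Icc (0 : ℝ) 1 ×ˢ St) := by
        intro i j
        have := (hII i j).comp (f := fun z : ℝ × E2 => (s, z.2))
          (continuous_const.prodMk continuous_snd).continuousOn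
          (s := Icc (0 : ℝ) 1 ×ˢ St) (fun z hz => ⟨hs, hz.2⟩)
        exact this
      have hper : ∀ t ∈ Icc (0 : ℝ) 1, ∀ i j, ∀ x ∈ St,
          II (F t) i j (x + (2 * π) • ee 0) = II (F t) i j x := fun t ht i j =>
        TRG.HTF_IIp _ (hS.per t ht) i j
      -- signs away from the line
      have haway1 : ∀ᶠ t in 𝓝[Icc (0 : ℝ) 1] s, ∀ x ∈ St, δ ≤ x 1 → x 1 ≤ r →
          -(sA (F s) (F t) x) ^ 2 < 0 := by
        apply TRG.HTF_tube (fun t x => -(sA (F s) (F t) x) ^ 2) _ _ s hs δ r hδ0 hr1
        · intro x hx hx1 hx2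
          have e : ∀ i j, II (F s) i j x = II (F 0) i j x := hsT x (by linarith) hx2
          have h1 := (hyp x hx (by linarith)).1
          show -(sA (F s) (F s) x) ^ 2 < 0
          have h2 : sA (F s) (F s) x ≠ 0 := by
            unfold sA
            rw [e, ← two_mul]
            exact mul_ne_zero two_ne_zero h1
          have h3 : 0 < (sA (F s) (F s) x) ^ 2 := by positivity
          linarith
        · show ContinuousOn (fun z : ℝ × E2 => -(sA (F s) (F z.1) z.2) ^ 2)
            (Icc (0 : ℝ) 1 ×ˢ St)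
          unfold sA
          exact (((hfix 0 0).add (hII 0 0)).pow 2).neg
        · intro t ht x hx
          show -(sA (F s) (F t) (x + (2 * π) • ee 0)) ^ 2 = -(sA (F s) (F t) x) ^ 2
          unfold sA
          rw [hper s hs 0 0 x hx, hper t ht 0 0 x hx]
      have haway2 : ∀ᶠ t in 𝓝[Icc (0 : ℝ) 1] s, ∀ x ∈ St, δ ≤ x 1 → x 1 ≤ r →
          sD (F s) (F t) x < 0 := by
        apply TRG.HTF_tube (fun t x => sD (F s) (F t) x) _ _ s hs δ r hδ0 hr1
        · intro x hx hx1 hx2
          have e : ∀ i j, II (F s) i j x = II (F 0) i j x := hsT x (by linarith) hx2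
          have h1 := (hyp x hx (by linarith)).2
          show sD (F s) (F s) x < 0
          have h2 : sD (F s) (F s) x = 4 * dII (F 0) x := by
            unfold sD sA dII
            rw [e, e, e]
            ring
          rw [h2]
          linarith
        · show ContinuousOn (fun z : ℝ × E2 => sD (F s) (F z.1) z.2) (Icc (0 : ℝ) 1 ×ˢ St)
          unfold sD sA
          exact (((hfix 0 0).add (hII 0 0)).mul ((hfix 1 1).add (hII 1 1))).sub
            (((hfix 0 1).add (hII 0 1)).pow 2)
        · intro t ht x hx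
          show sD (F s) (F t) (x + (2 * π) • ee 0) = sD (F s) (F t) x
          unfold sD sA
          rw [hper s hs 0 0 x hx, hper t ht 0 0 x hx, hper s hs 1 1 x hx, hper t ht 1 1 x hx,
            hper s hs 0 1 x hx, hper t ht 0 1 x hx]
      filter_upwards [haway1, haway2, self_mem_nhdsWithin] with t ht1 ht2 ht01
      have hIso : Iso (F s) (F t) := by
        intro x hx i j
        rw [hS.iso t ht01 x hx i j, hS.iso s hs x hx i j]
      have hLin : LinC (F s) p q (HS r) u v z := by
        refine ⟨hL.su, hL.sv, hL.sz, hL.u0, hL.z0, ?_, ?_, ?_⟩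
        · intro x hx
          have hx' : x ∈ HT := ⟨hx.1, lt_of_le_of_lt hx.2 hr1⟩
          rw [hsT x hx.1 hx.2]
          exact hL.l0 x hx'
        · intro x hx
          have hx' : x ∈ HT := ⟨hx.1, lt_of_le_of_lt hx.2 hr1⟩
          rw [hsT x hx.1 hx.2]
          exact hL.l1 x hx'
        · intro x hx
          have hx' : x ∈ HT := ⟨hx.1, lt_of_le_of_lt hx.2 hr1⟩
          have h1 : dII (F s) x = dII (F 0) x := by
            unfold dII
            rw [hsT x hx.1 hx.2, hsT x hx.1 hx.2, hsT x hx.1 hx.2]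
          rw [h1]
          exact hL.l2 x hx'
      have key := hPVN (F s) (F t) p q (m - 2) (-1) r (2 * M) u v z (hS.imm s hs)
        (hS.imm t ht01) hIso (hS.per s hs) (hS.per t ht01) (by omega) (by omega) hpq (by omega)
        hr0 hr1 (by positivity) (Or.inr rfl) hLin
        (fun x hx1 hx2 => by
          have hxSt : x ∈ St := hmem x hx1.le hx2
          rcases le_total (x 1) δ with h | h
          · obtain ⟨a1, a2⟩ := hδ s hs t ht01 x hx1 h
            exact ⟨a1, by linarith⟩
          · have a1 := ht1 x hxSt h hx2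
            have a2 := ht2 x hxSt h hx2
            refine ⟨?_, by linarith⟩
            intro h3
            rw [h3] at a1
            norm_num at a1)
        (fun x hx i j => by
          have hxSt : x ∈ St := hmem x hx.1 hx.2
          obtain ⟨b1, b2⟩ := hM t ht01 x hx i j
          obtain ⟨c1, c2⟩ := hM s hs x hx i j
          constructor
          · have h1 : II (F t) i j x - II (F s) i j x =
                (II (F t) i j x - II (F 0) i j x) - (II (F s) i j x - II (F 0) i j x) := by ring
            rw [h1]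
            refine (abs_sub _ _).trans ?_
            linarith
          · intro k
            have hd : ∀ τ ∈ Icc (0 : ℝ) 1, DifferentiableAt ℝ (II (F τ) i j) x := fun τ hτ =>
              ((FR.FRMAux.ii_contDiffOn TRG.HTF_open (hS.imm τ hτ) i j).contDiffAt
                (TRG.HTF_open.mem_nhds hxSt)).differentiableAt (by norm_num)
            rw [HYS_pd (II (F t) i j) (II (F s) i j) (II (F 0) i j) x k (hd t ht01) (hd s hs)
              (hd 0 h0)]
            refine (abs_sub _ _).trans ?_
            have h2 : m - 2 - 1 = m - 3 := by omega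
            rw [h2]
            have := b2 k
            have := c2 k
            linarith)
      intro x hx1 hx2 i j
      rw [key x ⟨hx1, hx2⟩ i j, hsT x hx1 hx2 i j]
    have hsub : Icc (0 : ℝ) 1 ⊆ T := by
      apply IsClosed.Icc_subset_of_forall_mem_nhdsWithin hclosed
      · intro x _ _ i j
        rfl
      · rintro s ⟨hsT, hs⟩
        have h1 := hop s ⟨hsT, hs.1, hs.2.le⟩
        have h2 : 𝓝[>] s ≤ 𝓝[Icc (0 : ℝ) 1] s := by
          rw [← nhdsWithin_Ioo_eq_nhdsGT hs.2]
          exact nhdsWithin_mono _ fun y hy => ⟨by linarith [hs.1, hy.1], hy.2.le⟩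
        exact h2 h1
    exact fun t ht => hsub ht
  intro t ht x hx i j
  have hx1 : x 1 < 1 := hx.2
  have hx0 : 0 ≤ x 1 := hx.1
  exact main ((x 1 + 1) / 2) (by linarith) (by linarith) t ht x hx0 (by linarith) i j

end Pool.PGR
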