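import Pool.Agent.Work.MP_02e829_pg.Interface2

/-! # Block NLN: signs near the line (MP_02e829, PROPAGATION OF RIGIDITY) -/

open Set Filter Manifold Matrix MeasureTheory Metric
open scoped Topology ContDiff Manifold Real

set_option autoImplicit false

universe w

namespace Pool.PGR

open Pool
open Pool.FR (pd ee gg WW DD NN II Ga Gb Imm SO3)
open Pool.SXB (E3 L3 Proper PosCurv TC)
open Pool.TRG (E2 V3 IC St pt px PerR Iso Per Ann)

theorem NLN_open : IsOpen St := by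
  have h1 : Continuous fun x : E2 => |x 1| := by fun_prop
  exact isOpen_lt h1 continuous_const

theorem NLN_St {x : E2} (h0 : 0 ≤ x 1) (h1 : x 1 < 1) : x ∈ St := by
  show |x 1| < 1
  rw [abs_of_nonneg h0]
  exact h1

theorem NLN_shift (x : E2) : (x + (2 * π) • ee 0) 1 = x 1 := by
  simp [ee]

theorem NLN_per {X : Type*} [NormedAddCommGroup X] [NormedSpace ℝ X] {H : E2 → X}
    (hH : ∀ y ∈ St, H (y + (2 * π) • ee 0) = H y) (i : Fin 2) :
    ∀ y ∈ St, pd i H (y + (2 * π) • ee 0) = pd i H y := by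
  intro y hy
  have h1 : pd i (fun z => H (z + (2 * π) • ee 0)) y = pd i H y :=
    Pool.FR.pd_congr NLN_open hH i hy
  rw [← h1]
  unfold pd
  rw [fderiv_comp_add_right]

theorem NLN_II_per {G : E2 → V3} (hG : Per G) (i j : Fin 2) :
    ∀ y ∈ St, II G i j (y + (2 * π) • ee 0) = II G i j y := by
  intro y hy
  have h := NLN_per hG
  have hN : NN G (y + (2 * π) • ee 0) = NN G y := by
    unfold NN DD WW gg
    rw [h 0 y hy, h 1 y hy]
  unfold II
  rw [hN, NLN_per (NLN_per hG j) i y hy]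

/-- the factor of a periodic function is periodic -/
theorem NLN_fac {f w : E2 → ℝ} {p : ℕ} {r : ℝ} (hr : r < 1)
    (hf : ∀ y ∈ St, f (y + (2 * π) • ee 0) = f y) (h : ∀ x ∈ HT, f x = x 1 ^ p * w x) :
    ∀ x ∈ VS r, w (x + (2 * π) • ee 0) = w x := by
  intro x hx
  have h1 : x ∈ HT := ⟨hx.1.le, hx.2.trans hr⟩
  have h2 : x + (2 * π) • ee 0 ∈ HT := by
    show 0 ≤ (x + (2 * π) • ee 0) 1 ∧ (x + (2 * π) • ee 0) 1 < 1
    rw [NLN_shift]
    exact h1
  have h3 := hf x (NLN_St h1.1 h1.2)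
  rw [h _ h1, h _ h2, NLN_shift] at h3
  exact mul_left_cancel₀ (pow_pos hx.1 p).ne' h3

theorem p_NLN (hCPT : Stmt_CPT) (hEGG : Pool.TRG.Stmt_EGG) (hVNF : Stmt_VNF) : Stmt_NLN := by
  intro m F p q u v z hm hS hneg hpm hqm hpq hL hreg
  have h00 : (0 : ℝ) ∈ Icc (0 : ℝ) 1 := ⟨le_rfl, zero_le_one⟩
  obtain ⟨M, hM0, hM⟩ := hVNF m F hm hS hneg (1 / 2) (by norm_num) (by norm_num)
  have hII := NLN_II_per (hS.per 0 h00)
  have hdP : ∀ y ∈ St, dII (F 0) (y + (2 * π) • ee 0) = dII (F 0) y := by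
    intro y hy
    unfold dII
    rw [hII 0 0 y hy, hII 1 1 y hy, hII 0 1 y hy]
  obtain ⟨-, -, hu3⟩ := hCPT u (1 / 2) (by norm_num) (by norm_num) hL.su.continuousOn
    (NLN_fac (by norm_num) (hII 0 0) hL.l0)
  obtain ⟨-, -, hz3⟩ := hCPT z (1 / 2) (by norm_num) (by norm_num) hL.sz.continuousOn
    (NLN_fac (by norm_num) hdP hL.l2)
  obtain ⟨c, δ1, hc, hδ1, hδ1', hcb⟩ := hu3 hL.u0
  obtain ⟨c', δ2, hc', hδ2, hδ2', hcb'⟩ := hz3 hL.z0
  set δ := min (min δ1 δ2) (min (c / (2 * (M + 1))) (c' / (4 * (M ^ 2 + 1)))) with hδ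
  have hδ0 : 0 < δ := lt_min (lt_min hδ1 hδ2) (lt_min (by positivity) (by positivity))
  have e1 : δ ≤ δ1 := (min_le_left _ _).trans (min_le_left _ _)
  have e2 : δ ≤ δ2 := (min_le_left _ _).trans (min_le_right _ _)
  have e3 : δ ≤ c / (2 * (M + 1)) := (min_le_right _ _).trans (min_le_left _ _)
  have e4 : δ ≤ c' / (4 * (M ^ 2 + 1)) := (min_le_right _ _).trans (min_le_right _ _)
  refine ⟨δ, hδ0, by linarith, ?_⟩
  intro s hs t ht x hx0 hx1
  have hx2 : x 1 ≤ 1 / 2 := by linarith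
  have hx3 : x 1 ≤ 1 := by linarith
  have hHT : x ∈ HT := ⟨hx0.le, by linarith⟩
  have hHS : x ∈ HS (1 / 2) := ⟨hx0.le, hx2⟩
  have hxS : x ∈ St := NLN_St hx0.le (by linarith)
  have hb := fun (τ : ℝ) (hτ : τ ∈ Icc (0 : ℝ) 1) (i j : Fin 2) => (hM τ hτ x hHS i j).1
  set N := m - 2 with hN
  have hP : 0 < x 1 ^ p := pow_pos hx0 p
  have hQ : 0 < x 1 ^ q := pow_pos hx0 q
  have hXN : 0 ≤ x 1 ^ N := by positivity
  have hpw1 : x 1 ^ N ≤ x 1 ^ p * x 1 := by
    rw [← pow_succ]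
    exact pow_le_pow_of_le_one hx0.le hx3 (by omega)
  have hpw2 : (x 1 ^ N) ^ 2 ≤ x 1 ^ q * x 1 := by
    rw [← pow_succ, ← pow_mul]
    exact pow_le_pow_of_le_one hx0.le hx3 (by omega)
  have hMx : M * x 1 < c := by
    have h1 : x 1 * (2 * (M + 1)) ≤ c := by
      rw [← le_div_iff₀ (by positivity)]
      exact hx1.trans e3
    have h2 : 0 ≤ M * x 1 := by positivity
    nlinarith
  have hMx2 : 2 * (M ^ 2 * x 1) < c' := by
    have h1 : x 1 * (4 * (M ^ 2 + 1)) ≤ c' := by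
      rw [← le_div_iff₀ (by positivity)]
      exact hx1.trans e4
    have h2 : 0 ≤ M ^ 2 * x 1 := by positivity
    nlinarith
  constructor
  · intro h0
    unfold sA at h0
    have h1 : 2 * (x 1 ^ p * u x) =
        -((II (F s) 0 0 x - II (F 0) 0 0 x) + (II (F t) 0 0 x - II (F 0) 0 0 x)) := by
      have h2 := hL.l0 x hHT
      linarith
    have h2 : |2 * (x 1 ^ p * u x)| ≤ 2 * (M * x 1 ^ N) := by
      rw [h1, abs_neg]
      refine (abs_add_le _ _).trans ?_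
      linarith [hb s hs 0 0, hb t ht 0 0]
    have h3 : 2 * (x 1 ^ p * c) ≤ |2 * (x 1 ^ p * u x)| := by
      rw [abs_mul, abs_mul, abs_of_pos hP, abs_two]
      have h4 := hcb x hx0.le (hx1.trans e1)
      have h5 := mul_le_mul_of_nonneg_left h4 hP.le
      linarith
    have h4 : M * x 1 ^ N ≤ x 1 ^ p * (M * x 1) := by
      calc M * x 1 ^ N ≤ M * (x 1 ^ p * x 1) := mul_le_mul_of_nonneg_left hpw1 hM0
        _ = x 1 ^ p * (M * x 1) := by ring
    have h5 : x 1 ^ p * (M * x 1) < x 1 ^ p * c := mul_lt_mul_of_pos_left hMx hP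
    linarith
  · have hd := hL.l2 x hHT
    have hdn := (hreg x hxS hx0).2
    have hzn : z x < 0 := by
      rw [hd] at hdn
      by_contra h1
      exact absurd hdn (not_lt.2 (mul_nonneg hQ.le (not_lt.1 h1)))
    have hzc : z x ≤ -c' := by
      have h1 := hcb' x hx0.le (hx1.trans e2)
      rw [abs_of_neg hzn] at h1
      linarith
    have hEs := hEGG St NLN_open (F 0) (F s) (hS.imm 0 h00) (hS.imm s hs) (hS.iso s hs) x hxS
    have hEt := hEGG St NLN_open (F 0) (F t) (hS.imm 0 h00) (hS.imm t ht) (hS.iso t ht) x hxS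
    have hd' : II (F 0) 0 0 x * II (F 0) 1 1 x - II (F 0) 0 1 x ^ 2 = x 1 ^ q * z x := hd
    rw [hd'] at hEs hEt
    have hdiff : ∀ i j, |II (F t) i j x - II (F s) i j x| ≤ 2 * (M * x 1 ^ N) := by
      intro i j
      have h1 : II (F t) i j x - II (F s) i j x =
          (II (F t) i j x - II (F 0) i j x) - (II (F s) i j x - II (F 0) i j x) := by ring
      rw [h1]
      refine (abs_sub _ _).trans ?_
      linarith [hb s hs i j, hb t ht i j]
    have hY : 0 ≤ 2 * (M * x 1 ^ N) := by positivity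
    have k1 : |(II (F t) 0 0 x - II (F s) 0 0 x) * (II (F t) 1 1 x - II (F s) 1 1 x)| ≤
        (2 * (M * x 1 ^ N)) * (2 * (M * x 1 ^ N)) := by
      rw [abs_mul]
      exact mul_le_mul (hdiff 0 0) (hdiff 1 1) (abs_nonneg _) hY
    have k2 : (II (F t) 0 1 x - II (F s) 0 1 x) ^ 2 ≤ (2 * (M * x 1 ^ N)) ^ 2 := by
      rw [← sq_abs]
      exact pow_le_pow_left₀ (abs_nonneg _) (hdiff 0 1) 2
    have k3 : sD (F s) (F t) x = 4 * (x 1 ^ q * z x) -
        (II (F t) 0 0 x - II (F s) 0 0 x) * (II (F t) 1 1 x - II (F s) 1 1 x) +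
        (II (F t) 0 1 x - II (F s) 0 1 x) ^ 2 := by
      unfold sD sA
      linear_combination 2 * hEs + 2 * hEt
    have k4 : x 1 ^ q * z x ≤ x 1 ^ q * -c' := mul_le_mul_of_nonneg_left hzc hQ.le
    have k5 : M ^ 2 * (x 1 ^ N) ^ 2 ≤ x 1 ^ q * (M ^ 2 * x 1) := by
      calc M ^ 2 * (x 1 ^ N) ^ 2 ≤ M ^ 2 * (x 1 ^ q * x 1) :=
            mul_le_mul_of_nonneg_left hpw2 (by positivity)
        _ = x 1 ^ q * (M ^ 2 * x 1) := by ring
    have k6 : x 1 ^ q * (2 * (M ^ 2 * x 1)) < x 1 ^ q * c' := mul_lt_mul_of_pos_left hMx2 hQ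
    have k7 := (abs_le.1 k1).1
    rw [k3]
    nlinarith
end Pool.PGR
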