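import Pool.Agent.Work.MP_02e829_pg.Interface

/-! # Block ORD (MP_02e829_gt, propagation of rigidity), helper52 -/

open Set Filter Manifold Matrix MeasureTheory Metric
open scoped Topology ContDiff Manifold Real

set_option autoImplicit false

universe w

namespace Pool.PGR

open Pool
open Pool.FR (pd ee gg WW DD NN II Ga Gb Imm SO3)
open Pool.SXB (E3 L3 Proper PosCurv TC)
open Pool.TRG (E2 V3 IC St pt px PerR Iso Per)

theorem ORD_open : IsOpen St := by
  have : Continuous fun x : E2 => |x 1| := by fun_prop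
  exact isOpen_lt this continuous_const

theorem ORD_mem {r : ℝ} (hr : r < 1) {x : E2} (h0 : 0 ≤ x 1) (h1 : x 1 ≤ r) : x ∈ St := by
  show |x 1| < 1
  rw [abs_of_nonneg h0]
  linarith

theorem ORD_shift (x : E2) : (x + (2 * π) • ee 0) 1 = x 1 := by
  simp [ee]

theorem ORD_lin (i : Fin 2) (c : ℝ) {f g : E2 → ℝ} {x : E2} (hf : DifferentiableAt ℝ f x)
    (hg : DifferentiableAt ℝ g x) :
    pd i (fun y => c * f y + g y) x = c * pd i f x + pd i g x := by
  have h1 : pd i (fun y => c * f y) x = c * pd i f x := by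
    rw [Pool.FR.pd_mul i (differentiableAt_const c) hf, Pool.FR.pd_const]
    ring
  rw [Pool.FR.pd_add i (hf.const_mul c) hg, h1]

theorem ORD_a {al al0 A A0 B0 K : ℝ} (hA : A ≠ 0) (hK : 0 ≤ K) (h1 : |al| ≤ K)
    (h2 : |A0| ≤ K * |A|) (h3 : |B0| ≤ K * |A|) (h : al0 * A + al * A0 = B0) :
    |al0| ≤ K + K * K := by
  have hA' : 0 < |A| := abs_pos.2 hA
  have h4 : |al0| * |A| ≤ (K + K * K) * |A| := by
    rw [← abs_mul]
    have : al0 * A = B0 - al * A0 := by linarith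
    rw [this]
    calc |B0 - al * A0| ≤ |B0| + |al * A0| := abs_sub _ _
      _ = |B0| + |al| * |A0| := by rw [abs_mul]
      _ ≤ K * |A| + K * (K * |A|) := by gcongr
      _ = (K + K * K) * |A| := by ring
  exact le_of_mul_le_mul_right h4 hA'

theorem ORD_s {se si A Ai D Di ε : ℝ} (he : ε = 1 ∨ ε = -1)
    (h1 : se ^ 2 * A ^ 2 = ε * D)
    (h2 : 2 * se * si * A ^ 2 + se ^ 2 * (2 * A * Ai) = ε * Di) :
    2 * A * D * si = se * (A * Di - 2 * D * Ai) := by
  rcases he with rfl | rfl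
  · have e1 : D = se ^ 2 * A ^ 2 := by linarith
    have e2 : Di = 2 * se * si * A ^ 2 + se ^ 2 * (2 * A * Ai) := by linarith
    rw [e1, e2]
    ring
  · have e1 : D = -(se ^ 2 * A ^ 2) := by linarith
    have e2 : Di = -(2 * se * si * A ^ 2 + se ^ 2 * (2 * A * Ai)) := by linarith
    rw [e1, e2]
    ring

theorem ORD_s0 {se s0 A A0 D D0 K : ℝ} (hse : 0 ≤ se) (hA : A ≠ 0) (hD : D ≠ 0)
    (h1 : |A0| ≤ K * |A|) (h2 : |D0| ≤ K * |D|)
    (h : 2 * A * D * s0 = se * (A * D0 - 2 * D * A0)) : |s0| ≤ 2 * K * se := by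
  have hA' : 0 < |A| := abs_pos.2 hA
  have hD' : 0 < |D| := abs_pos.2 hD
  have hK : 0 ≤ K := by
    by_contra hK
    push Not at hK
    have : K * |A| < 0 := mul_neg_of_neg_of_pos hK hA'
    linarith [abs_nonneg A0]
  have h3 : 2 * (|A| * |D|) * |s0| ≤ 2 * (|A| * |D|) * (2 * K * se) := by
    have e1 : 2 * (|A| * |D|) * |s0| = |2 * A * D * s0| := by
      rw [abs_mul, abs_mul, abs_mul, abs_two]
      ring
    rw [e1, h, abs_mul, abs_of_nonneg hse]
    have h4 : |A * D0 - 2 * D * A0| ≤ 3 * K * (|A| * |D|) := by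
      calc |A * D0 - 2 * D * A0| ≤ |A * D0| + |2 * D * A0| := abs_sub _ _
        _ = |A| * |D0| + 2 * |D| * |A0| := by rw [abs_mul, abs_mul, abs_mul, abs_two]
        _ ≤ |A| * (K * |D|) + 2 * |D| * (K * |A|) := by gcongr
        _ = 3 * K * (|A| * |D|) := by ring
    have h5 : se * |A * D0 - 2 * D * A0| ≤ se * (3 * K * (|A| * |D|)) :=
      mul_le_mul_of_nonneg_left h4 hse
    have h6 : 0 ≤ K * (|A| * |D|) * se := by positivity
    nlinarith
  exact le_of_mul_le_mul_left h3 (by positivity)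

theorem ORD_s1 {se s1 A A1 D D1 K y p q : ℝ} (hse : 0 ≤ se) (hy : 0 < y) (hA : A ≠ 0)
    (hD : D ≠ 0) (h1 : |y * A1 - p * A| ≤ K * y * |A|) (h2 : |y * D1 - q * D| ≤ K * y * |D|)
    (h : 2 * A * D * s1 = se * (A * D1 - 2 * D * A1)) :
    |s1 - (q / 2 - p) / y * se| ≤ 2 * K * se := by
  have hA' : 0 < |A| := abs_pos.2 hA
  have hD' : 0 < |D| := abs_pos.2 hD
  have hK : 0 ≤ K := by
    by_contra hK
    push Not at hK
    have : K * y * |A| < 0 := mul_neg_of_neg_of_pos (mul_neg_of_neg_of_pos hK hy) hA'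
    linarith [abs_nonneg (y * A1 - p * A)]
  have h3 : 2 * (|A| * |D|) * y * |s1 - (q / 2 - p) / y * se| ≤
      2 * (|A| * |D|) * y * (2 * K * se) := by
    have e1 : 2 * (|A| * |D|) * y * |s1 - (q / 2 - p) / y * se| =
        |2 * A * D * y * (s1 - (q / 2 - p) / y * se)| := by
      rw [abs_mul, abs_mul, abs_mul, abs_mul, abs_two, abs_of_pos hy]
      ring
    have e2 : 2 * A * D * y * (s1 - (q / 2 - p) / y * se) =
        se * (A * (y * D1 - q * D) - 2 * D * (y * A1 - p * A)) := by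
      have e3 : 2 * A * D * y * (s1 - (q / 2 - p) / y * se) =
          y * (2 * A * D * s1) - 2 * A * D * (q / 2 - p) * se := by
        field_simp
      rw [e3, h]
      ring
    rw [e1, e2, abs_mul, abs_of_nonneg hse]
    have h4 : |A * (y * D1 - q * D) - 2 * D * (y * A1 - p * A)| ≤
        3 * K * y * (|A| * |D|) := by
      calc |A * (y * D1 - q * D) - 2 * D * (y * A1 - p * A)|
          ≤ |A * (y * D1 - q * D)| + |2 * D * (y * A1 - p * A)| := abs_sub _ _
        _ = |A| * |y * D1 - q * D| + 2 * |D| * |y * A1 - p * A| := by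
            rw [abs_mul, abs_mul, abs_mul, abs_two]
        _ ≤ |A| * (K * y * |D|) + 2 * |D| * (K * y * |A|) := by gcongr
        _ = 3 * K * y * (|A| * |D|) := by ring
    have h5 : se * |A * (y * D1 - q * D) - 2 * D * (y * A1 - p * A)| ≤
        se * (3 * K * y * (|A| * |D|)) := mul_le_mul_of_nonneg_left h4 hse
    have h6 : 0 ≤ K * y * (|A| * |D|) * se := by positivity
    nlinarith
  exact le_of_mul_le_mul_left h3 (by positivity)

theorem ORD_l {se A A1 B B0 C D K y p ε al l0 l1 l2 Ml : ℝ} (he : ε = 1 ∨ ε = -1)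
    (hy : 0 < y) (hA : A ≠ 0) (hK : 0 ≤ K) (hM : 0 ≤ Ml)
    (hal : al * A = B) (hDD : D = A * C - B ^ 2) (hs : se ^ 2 * A ^ 2 = ε * D)
    (hal1 : |al| ≤ K) (hB0 : |B0| ≤ K * |A|) (h1 : |y * A1 - p * A| ≤ K * y * |A|)
    (hl0 : |l0| ≤ Ml) (hl1 : |l1| ≤ Ml) (hl2 : |l2| ≤ Ml)
    (hc : A1 = B0 + l0 * A + l1 * B + l2 * C) :
    |l2 * (ε * se ^ 2) - p / y| ≤ 2 * K + Ml + Ml * K + Ml * K ^ 2 := by
  have hA' : 0 < |A| := abs_pos.2 hA
  have e0 : A * (ε * se ^ 2) = C - al ^ 2 * A := by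
    have h2 : A ^ 2 * (ε * se ^ 2) = D := by
      have : ε * (se ^ 2 * A ^ 2) = D := by
        rw [hs]
        rcases he with rfl | rfl <;> ring
      linarith
    have h3 : A * (A * (ε * se ^ 2)) = A * (C - al ^ 2 * A) := by
      have : A * (A * (ε * se ^ 2)) = A ^ 2 * (ε * se ^ 2) := by ring
      rw [this, h2, hDD, ← hal]
      ring
    exact mul_left_cancel₀ hA h3
  have e1 : A * y * (l2 * (ε * se ^ 2) - p / y) =
      (y * A1 - p * A) - y * B0 - y * l0 * A - y * l1 * (al * A) - y * l2 * (al ^ 2 * A) := by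
    have e2 : A * y * (l2 * (ε * se ^ 2) - p / y) =
        y * l2 * (A * (ε * se ^ 2)) - p * A := by
      field_simp
    rw [e2, e0, hc, ← hal]
    ring
  have h3 : |A| * y * |l2 * (ε * se ^ 2) - p / y| ≤
      |A| * y * (2 * K + Ml + Ml * K + Ml * K ^ 2) := by
    have e3 : |A| * y * |l2 * (ε * se ^ 2) - p / y| =
        |A * y * (l2 * (ε * se ^ 2) - p / y)| := by
      rw [abs_mul, abs_mul, abs_of_pos hy]
    rw [e3, e1]
    have t1 : |y * B0| ≤ y * (K * |A|) := by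
      rw [abs_mul, abs_of_pos hy]
      gcongr
    have t2 : |y * l0 * A| ≤ y * Ml * |A| := by
      rw [abs_mul, abs_mul, abs_of_pos hy]
      gcongr
    have t3 : |y * l1 * (al * A)| ≤ y * Ml * (K * |A|) := by
      rw [abs_mul, abs_mul, abs_mul, abs_of_pos hy]
      gcongr
    have t4 : |y * l2 * (al ^ 2 * A)| ≤ y * Ml * (K ^ 2 * |A|) := by
      rw [abs_mul, abs_mul, abs_mul, abs_of_pos hy, abs_pow]
      gcongr
    have t5 := abs_sub ((y * A1 - p * A) - y * B0 - y * l0 * A - y * l1 * (al * A))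
      (y * l2 * (al ^ 2 * A))
    have t6 := abs_sub ((y * A1 - p * A) - y * B0 - y * l0 * A) (y * l1 * (al * A))
    have t7 := abs_sub ((y * A1 - p * A) - y * B0) (y * l0 * A)
    have t8 := abs_sub (y * A1 - p * A) (y * B0)
    nlinarith
  exact le_of_mul_le_mul_left h3 (by positivity)

theorem p_ORD (hORL : Stmt_ORL) (hCPT : Stmt_CPT) : Stmt_ORD := by
  intro d p q N ε r u v z M h hL
  have hSt := ORD_open
  have dAF := h.sAF
  have hr0 := hL.r0
  have hr1 := hL.r1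
  have hM0 := hL.M0
  have mem : ∀ x : E2, 0 ≤ x 1 → x 1 ≤ r → x ∈ St := fun x => ORD_mem hr1
  -- periodicity
  have hper : ∀ (n : ℕ) (F G : E2 → ℝ), (∀ x ∈ St, F (x + (2 * π) • ee 0) = F x) →
      (∀ x : E2, 0 ≤ x 1 → x 1 ≤ r → F x = x 1 ^ n * G x) →
      ∀ x ∈ VS r, G (x + (2 * π) • ee 0) = G x := by
    intro n F G hF hG x hx
    have h1 := hF x (mem x hx.1.le hx.2.le)
    rw [hG x hx.1.le hx.2.le, hG _ (by rw [ORD_shift]; exact hx.1.le)
      (by rw [ORD_shift]; exact hx.2.le), ORD_shift] at h1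
    exact mul_left_cancel₀ (pow_pos hx.1 n).ne' h1
  have hpu := hper p d.AF u h.pAF hL.lA
  have hpv := hper p d.BF v h.pBF hL.lB
  have hpz := hper q (fun x => d.AF x * d.CF x - d.BF x ^ 2) z (by
    intro x hx
    show d.AF _ * d.CF _ - d.BF _ ^ 2 = _
    rw [h.pAF x hx, h.pCF x hx, h.pBF x hx]) hL.lD
  -- smoothness
  have cA : ContDiffOn ℝ 1 d.A St := ((contDiffOn_const.mul h.sAF).add h.sa).of_le one_le_two
  have cB : ContDiffOn ℝ 1 d.B St := ((contDiffOn_const.mul h.sBF).add h.sb).of_le one_le_two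
  have cC : ContDiffOn ℝ 1 d.C St := ((contDiffOn_const.mul h.sCF).add h.sw).of_le one_le_two
  have cD : ContDiffOn ℝ 1 d.D St := (cA.mul cC).sub (cB.pow 2)
  have pA : PerR d.A := by
    intro x hx
    show 2 * d.AF _ + d.a _ = 2 * d.AF x + d.a x
    rw [h.pAF x hx, h.pa x hx]
  have pB : PerR d.B := by
    intro x hx
    show 2 * d.BF _ + d.b _ = 2 * d.BF x + d.b x
    rw [h.pBF x hx, h.pb x hx]
  have pC : PerR d.C := by
    intro x hx
    show 2 * d.CF _ + d.w _ = 2 * d.CF x + d.w x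
    rw [h.pCF x hx, h.pw x hx]
  have pD : PerR d.D := by
    intro x hx
    show d.A _ * d.C _ - d.B _ ^ 2 = d.A x * d.C x - d.B x ^ 2
    rw [pA x hx, pB x hx, pC x hx]
  have hda : ∀ x ∈ St, DifferentiableAt ℝ d.a x := fun x hx =>
    Pool.FR.diff_at hSt h.sa one_le_two hx
  have hdb : ∀ x ∈ St, DifferentiableAt ℝ d.b x := fun x hx =>
    Pool.FR.diff_at hSt h.sb one_le_two hx
  have hdw : ∀ x ∈ St, DifferentiableAt ℝ d.w x := fun x hx =>
    Pool.FR.diff_at hSt h.sw one_le_two hx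
  -- orders
  obtain ⟨M1, hM1, bA, lA⟩ := hORL d.A (fun x => 2 * u x) d.a p N r M hr0 hr1 hL.hp hM0 cA pA
    (contDiffOn_const.mul hL.su) (h.sa.of_le one_le_two)
    (fun x hx => by show 2 * u _ = 2 * u x; rw [hpu x hx])
    (fun x h0 h1 => by
      show 2 * d.AF x + d.a x = x 1 ^ p * (2 * u x) + d.a x
      rw [hL.lA x h0 h1]
      ring)
    (fun x h0 h1 => ⟨(hL.van x h0 h1).1, fun i => ((hL.van x h0 h1).2.2.2 i).1⟩)
  obtain ⟨M2, hM2, bB, -⟩ := hORL d.B (fun x => 2 * v x) d.b p N r M hr0 hr1 hL.hp hM0 cB pB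
    (contDiffOn_const.mul hL.sv) (h.sb.of_le one_le_two)
    (fun x hx => by show 2 * v _ = 2 * v x; rw [hpv x hx])
    (fun x h0 h1 => by
      show 2 * d.BF x + d.b x = x 1 ^ p * (2 * v x) + d.b x
      rw [hL.lB x h0 h1]
      ring)
    (fun x h0 h1 => ⟨(hL.van x h0 h1).2.1, fun i => ((hL.van x h0 h1).2.2.2 i).2.1⟩)
  have hqN : q < 2 * N := by
    have := hL.hq
    have := hL.hp
    omega
  obtain ⟨M3, hM3, bD, lD⟩ := hORL d.D (fun x => 4 * z x)
    (fun x => -(d.a x * d.w x - d.b x * d.b x)) q (2 * N) r (4 * M ^ 2) hr0 hr1 hqN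
    (by positivity) cD pD (contDiffOn_const.mul hL.sz)
    (((h.sa.mul h.sw).sub (h.sb.mul h.sb)).neg.of_le one_le_two)
    (fun x hx => by show 4 * z _ = 4 * z x; rw [hpz x hx])
    (fun x h0 h1 => by
      show (2 * d.AF x + d.a x) * (2 * d.CF x + d.w x) - (2 * d.BF x + d.b x) ^ 2 =
        x 1 ^ q * (4 * z x) + -(d.a x * d.w x - d.b x * d.b x)
      have e0 := h.e0 x (mem x h0 h1)
      have e1 := hL.lD x h0 h1
      linear_combination 2 * e0 + 4 * e1)
    (fun x h0 h1 => by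
      have hx := mem x h0 h1
      obtain ⟨va, vb, vw, vd⟩ := hL.van x h0 h1
      have hN := hL.hN
      constructor
      · have e1 : x 1 ^ (2 * N) = x 1 ^ N * x 1 ^ N := by rw [← pow_add, two_mul]
        show |-(d.a x * d.w x - d.b x * d.b x)| ≤ 4 * M ^ 2 * x 1 ^ (2 * N)
        rw [abs_neg, e1]
        have k1 : |d.a x * d.w x| ≤ (M * x 1 ^ N) * (M * x 1 ^ N) := by
          rw [abs_mul]
          gcongr
        have k2 : |d.b x * d.b x| ≤ (M * x 1 ^ N) * (M * x 1 ^ N) := by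
          rw [abs_mul]
          gcongr
        have k3 := abs_sub (d.a x * d.w x) (d.b x * d.b x)
        have k4 : 0 ≤ M ^ 2 * (x 1 ^ N * x 1 ^ N) := by positivity
        nlinarith
      · intro i
        obtain ⟨wa, wb, ww⟩ := vd i
        have e2 : pd i (fun x => -(d.a x * d.w x - d.b x * d.b x)) x =
            -((pd i d.a x * d.w x + d.a x * pd i d.w x) -
              (pd i d.b x * d.b x + d.b x * pd i d.b x)) := by
          rw [Pool.FR.pd_neg, Pool.FR.pd_sub i (f := fun x => d.a x * d.w x)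
            (g := fun x => d.b x * d.b x) ((hda x hx).mul (hdw x hx))
            ((hdb x hx).mul (hdb x hx)), Pool.FR.pd_mul i (hda x hx) (hdw x hx),
            Pool.FR.pd_mul i (hdb x hx) (hdb x hx)]
        have e1 : x 1 ^ (2 * N - 1) = x 1 ^ (N - 1) * x 1 ^ N := by
          rw [← pow_add]
          congr 1
          omega
        rw [e2, e1, abs_neg]
        have k1 : |pd i d.a x * d.w x| ≤ (M * x 1 ^ (N - 1)) * (M * x 1 ^ N) := by
          rw [abs_mul]
          gcongr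
        have k2 : |d.a x * pd i d.w x| ≤ (M * x 1 ^ N) * (M * x 1 ^ (N - 1)) := by
          rw [abs_mul]
          gcongr
        have k3 : |pd i d.b x * d.b x| ≤ (M * x 1 ^ (N - 1)) * (M * x 1 ^ N) := by
          rw [abs_mul]
          gcongr
        have k4 : |d.b x * pd i d.b x| ≤ (M * x 1 ^ N) * (M * x 1 ^ (N - 1)) := by
          rw [abs_mul]
          gcongr
        have k5 := abs_sub (pd i d.a x * d.w x + d.a x * pd i d.w x)
          (pd i d.b x * d.b x + d.b x * pd i d.b x)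
        have k6 := abs_add_le (pd i d.a x * d.w x) (d.a x * pd i d.w x)
        have k7 := abs_add_le (pd i d.b x * d.b x) (d.b x * pd i d.b x)
        nlinarith)
  obtain ⟨c1, hc1, lA⟩ := lA (fun x => mul_ne_zero two_ne_zero (hL.u0 x))
    (fun x h0 h1 => (hL.non x h0 h1).1)
  obtain ⟨c3, hc3, lD⟩ := lD (fun x => mul_ne_zero four_ne_zero (hL.z0 x))
    (fun x h0 h1 => by
      intro h2
      have := (hL.non x h0 h1).2
      rw [h2, mul_zero] at this
      exact lt_irrefl _ this)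
  -- the coefficients
  have hl : ∀ i, ∃ Ml : ℝ, 0 ≤ Ml ∧ ∀ x : E2, 0 ≤ x 1 → x 1 ≤ r → |d.l i x| ≤ Ml := fun i =>
    (hCPT (d.l i) r hr0 hr1 (h.sl i) (fun x hx => h.pl i x (mem x hx.1.le hx.2.le))).1
  obtain ⟨L0, hL0, bl0⟩ := hl 0
  obtain ⟨L1, hL1, bl1⟩ := hl 1
  obtain ⟨L2, hL2, bl2⟩ := hl 2
  obtain ⟨Ml, hMl, m0, m1, m2⟩ : ∃ Ml : ℝ, 0 ≤ Ml ∧ L0 ≤ Ml ∧ L1 ≤ Ml ∧ L2 ≤ Ml :=
    ⟨L0 + L1 + L2, by positivity, by linarith, by linarith, by linarith⟩
  obtain ⟨K, hK, k1, k2, k3⟩ : ∃ K : ℝ, 0 ≤ K ∧ M1 ≤ K * c1 ∧ M2 ≤ K * c1 ∧ M3 ≤ K * c3 := by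
    refine ⟨(M1 + M2) / c1 + M3 / c3, by positivity, ?_, ?_, ?_⟩
    · have : ((M1 + M2) / c1 + M3 / c3) * c1 = M1 + M2 + M3 / c3 * c1 := by
        field_simp
      rw [this]
      have : 0 ≤ M3 / c3 * c1 := by positivity
      linarith
    · have : ((M1 + M2) / c1 + M3 / c3) * c1 = M1 + M2 + M3 / c3 * c1 := by
        field_simp
      rw [this]
      have : 0 ≤ M3 / c3 * c1 := by positivity
      linarith
    · have : ((M1 + M2) / c1 + M3 / c3) * c3 = M3 + (M1 + M2) / c1 * c3 := by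
        field_simp
        ring
      rw [this]
      have : 0 ≤ (M1 + M2) / c1 * c3 := by positivity
      linarith
  refine ⟨(K + K * K) + 2 * K + M3 / c1 ^ 2 + (2 * K + Ml + Ml * K + Ml * K ^ 2), by positivity,
    ?_⟩
  intro x hx
  have hy : 0 < x 1 := hx.1
  have hxS : x ∈ St := mem x hx.1.le hx.2.le
  obtain ⟨hA, hD⟩ := hL.non x hx.1 hx.2.le
  have he := hL.he
  have hDne : d.D x ≠ 0 := by
    intro h2
    rw [h2, mul_zero] at hD
    exact lt_irrefl _ hD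
  obtain ⟨a1, a2, a3⟩ := bA x hx
  obtain ⟨b1, b2, -⟩ := bB x hx
  obtain ⟨D1, D2, D3⟩ := bD x hx
  have lA' := lA x hx
  have lD' := lD x hx
  have up : ∀ (t Mt c g : ℝ) (n : ℕ), Mt ≤ K * c → c * x 1 ^ n ≤ |g| → t ≤ Mt * x 1 ^ n →
      t ≤ K * |g| := by
    intro t Mt c g n h1 h2 h3
    have h4 : Mt * x 1 ^ n ≤ K * c * x 1 ^ n := mul_le_mul_of_nonneg_right h1 (pow_pos hy n).le
    have h5 : K * (c * x 1 ^ n) ≤ K * |g| := mul_le_mul_of_nonneg_left h2 hK
    linarith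
  have rB := up _ _ _ _ _ k2 lA' b1
  have rA0 := up _ _ _ _ _ k1 lA' a2
  have rB0 := up _ _ _ _ _ k2 lA' b2
  have rD0 := up _ _ _ _ _ k3 lD' D2
  have rA1 : |x 1 * pd 1 d.A x - p * d.A x| ≤ K * x 1 * |d.A x| := by
    have h1 : |x 1 * pd 1 d.A x - p * d.A x| ≤ x 1 * (M1 * x 1 ^ p) := by
      rw [pow_succ] at a3
      linarith
    have h2 := up (M1 * x 1 ^ p) _ _ _ _ k1 lA' le_rfl
    nlinarith
  have rD1 : |x 1 * pd 1 d.D x - q * d.D x| ≤ K * x 1 * |d.D x| := by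
    have h1 : |x 1 * pd 1 d.D x - q * d.D x| ≤ x 1 * (M3 * x 1 ^ q) := by
      rw [pow_succ] at D3
      linarith
    have h2 := up (M3 * x 1 ^ q) _ _ _ _ k3 lD' le_rfl
    nlinarith
  -- differentiability
  have dA : DifferentiableAt ℝ d.A x := Pool.FR.diff_at hSt cA le_rfl hxS
  have dB : DifferentiableAt ℝ d.B x := Pool.FR.diff_at hSt cB le_rfl hxS
  have dD : DifferentiableAt ℝ d.D x := Pool.FR.diff_at hSt cD le_rfl hxS
  have dal : DifferentiableAt ℝ d.al x := by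
    have h1 := dB.mul (dA.inv hA)
    have h2 : d.al = d.B * d.A⁻¹ := by
      funext y
      exact div_eq_mul_inv _ _
    rw [h2]
    exact h1
  have dse : DifferentiableAt ℝ (d.se ε) x := by
    have h1 : DifferentiableAt ℝ (fun y => √(ε * d.D y)) x := (dD.const_mul ε).sqrt hD.ne'
    have h2 : DifferentiableAt ℝ (fun y => |d.A y|) x := dA.abs hA
    have h3 := h1.mul (h2.inv (abs_ne_zero.2 hA))
    have h4 : d.se ε = (fun y => √(ε * d.D y)) * (fun y => |d.A y|)⁻¹ := by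
      funext y
      exact div_eq_mul_inv _ _
    rw [h4]
    exact h3
  -- the open set where A, D do not vanish
  have hV : ∃ V : Set E2, IsOpen V ∧ x ∈ V ∧ ∀ y ∈ V, d.A y ≠ 0 ∧ 0 < ε * d.D y := by
    have h1 : ∀ᶠ y in 𝓝 x, d.A y ≠ 0 := dA.continuousAt.eventually_ne hA
    have h2 : ∀ᶠ y in 𝓝 x, 0 < ε * d.D y :=
      (dD.const_mul ε).continuousAt.eventually (lt_mem_nhds hD)
    obtain ⟨V, hV1, hV2, hV3⟩ := _root_.eventually_nhds_iff.1 (h1.and h2)
    exact ⟨V, hV2, hV3, hV1⟩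
  obtain ⟨V, hVo, hxV, hVn⟩ := hV
  have hal : ∀ y ∈ V, d.al y * d.A y = d.B y := fun y hy => div_mul_cancel₀ _ (hVn y hy).1
  have hse2 : ∀ y ∈ V, d.se ε y * d.se ε y * (d.A y * d.A y) = ε * d.D y := by
    intro y hy
    have h1 := hVn y hy
    have h2 : √(ε * d.D y) * √(ε * d.D y) = ε * d.D y := Real.mul_self_sqrt h1.2.le
    have h3 : |d.A y| ≠ 0 := abs_ne_zero.2 h1.1
    have h4 : |d.A y| * |d.A y| = d.A y * d.A y := abs_mul_abs_self _
    show √(ε * d.D y) / |d.A y| * (√(ε * d.D y) / |d.A y|) * (d.A y * d.A y) = _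
    rw [← h4]
    field_simp
    rw [← pow_two] at h2
    linarith
  have hsepos : 0 < d.se ε x := div_pos (Real.sqrt_pos.2 hD) (abs_pos.2 hA)
  have hald : ∀ i, pd i d.al x * d.A x + d.al x * pd i d.A x = pd i d.B x := by
    intro i
    rw [← Pool.FR.pd_mul i dal dA]
    exact Pool.FR.pd_congr hVo hal i hxV
  have hsed : ∀ i, 2 * d.se ε x * pd i (d.se ε) x * d.A x ^ 2 +
      d.se ε x ^ 2 * (2 * d.A x * pd i d.A x) = ε * pd i d.D x := by
    intro i
    have h1 := Pool.FR.pd_congr hVo hse2 i hxV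
    rw [Pool.FR.pd_mul i (f := fun x => d.se ε x * d.se ε x) (g := fun x => d.A x * d.A x)
      (dse.mul dse) (dA.mul dA), Pool.FR.pd_mul i dse dse,
      Pool.FR.pd_mul i dA dA, Pool.FR.pd_mul i (differentiableAt_const ε) dD,
      Pool.FR.pd_const] at h1
    linarith
  have hs2 : d.se ε x ^ 2 * d.A x ^ 2 = ε * d.D x := by
    have := hse2 x hxV
    linarith
  -- the bounds
  have B1 : |d.al x| ≤ K := by
    have h1 : |d.al x| * |d.A x| ≤ K * |d.A x| := by
      rw [← abs_mul, hal x hxV]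
      exact rB
    exact le_of_mul_le_mul_right h1 (abs_pos.2 hA)
  have B2 := ORD_a hA hK B1 rA0 rB0 (hald 0)
  have B5 := ORD_s0 hsepos.le hA hDne rA0 rD0 (ORD_s he hs2 (hsed 0))
  have B6 := ORD_s1 (p := (p : ℝ)) (q := (q : ℝ)) hsepos.le hy hA hDne rA1 rD1
    (ORD_s he hs2 (hsed 1))
  have hcod : pd 1 d.A x = pd 0 d.B x + d.l 0 x * d.A x + d.l 1 x * d.B x + d.l 2 x * d.C x := by
    have e1 : pd 1 d.A x = 2 * pd 1 d.AF x + pd 1 d.a x :=
      ORD_lin 1 2 (Pool.FR.diff_at hSt h.sAF one_le_two hxS) (hda x hxS)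
    have e2 : pd 0 d.B x = 2 * pd 0 d.BF x + pd 0 d.b x :=
      ORD_lin 0 2 (Pool.FR.diff_at hSt h.sBF one_le_two hxS) (hdb x hxS)
    rw [e1, e2, h.c1 x hxS, h.d1 x hxS]
    show _ = 2 * pd 0 d.BF x + pd 0 d.b x + d.l 0 x * (2 * d.AF x + d.a x) +
      d.l 1 x * (2 * d.BF x + d.b x) + d.l 2 x * (2 * d.CF x + d.w x)
    ring
  have B7 := ORD_l (p := (p : ℝ)) (se := d.se ε x) he hy hA hK hMl (hal x hxV) rfl hs2 B1 rB0 rA1
    ((bl0 x hx.1.le hx.2.le).trans m0) ((bl1 x hx.1.le hx.2.le).trans m1)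
    ((bl2 x hx.1.le hx.2.le).trans m2) hcod
  have B4 : x 1 ^ (2 * p) * d.se ε x ^ 2 ≤ M3 / c1 ^ 2 * x 1 ^ q := by
    have hcp : 0 < c1 * x 1 ^ p := by positivity
    have h1 : (c1 * x 1 ^ p) ^ 2 ≤ d.A x ^ 2 := by
      rw [← sq_abs (d.A x)]
      exact pow_le_pow_left₀ hcp.le lA' 2
    have h2 : ε * d.D x ≤ M3 * x 1 ^ q := by
      have : ε * d.D x ≤ |d.D x| := by
        rcases he with rfl | rfl
        · rw [one_mul]
          exact le_abs_self _
        · rw [neg_one_mul]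
          exact neg_le_abs _
      exact this.trans D1
    have h3 : d.se ε x ^ 2 * (c1 * x 1 ^ p) ^ 2 ≤ M3 * x 1 ^ q :=
      calc d.se ε x ^ 2 * (c1 * x 1 ^ p) ^ 2 ≤ d.se ε x ^ 2 * d.A x ^ 2 :=
            mul_le_mul_of_nonneg_left h1 (by positivity)
        _ = ε * d.D x := hs2
        _ ≤ _ := h2
    have h4 : x 1 ^ (2 * p) * d.se ε x ^ 2 = d.se ε x ^ 2 * (c1 * x 1 ^ p) ^ 2 / c1 ^ 2 := by
      rw [mul_pow, ← pow_mul, mul_comm p 2]
      field_simp
    rw [h4, div_mul_eq_mul_div]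
    gcongr
  have z1 : 0 ≤ K * K := by positivity
  have z2 : 0 ≤ M3 / c1 ^ 2 := by positivity
  have z3 : 0 ≤ Ml * K := by positivity
  have z4 : 0 ≤ Ml * K ^ 2 := by positivity
  have z5 : 0 < |d.A x| := abs_pos.2 hA
  refine ⟨by linarith, by linarith, ?_, ?_, ?_, ?_, by linarith⟩
  · refine rA0.trans (mul_le_mul_of_nonneg_right (by linarith) z5.le)
  · refine B4.trans (mul_le_mul_of_nonneg_right (by linarith) (pow_pos hy q).le)
  · refine B5.trans (mul_le_mul_of_nonneg_right (by linarith) hsepos.le)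
  · refine B6.trans (mul_le_mul_of_nonneg_right (by linarith) hsepos.le)

end Pool.PGR
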