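import Pool.Agent.Work.MP_02e829_pg.Interface

/-! # Block ORL: orders near the line (MP_02e829, PROPAGATION OF RIGIDITY) -/

open Set Filter Manifold Matrix MeasureTheory Metric
open scoped Topology ContDiff Manifold Real

set_option autoImplicit false

universe w

namespace Pool.PGR

open Pool
open Pool.FR (pd ee gg WW DD NN II Ga Gb Imm SO3)
open Pool.SXB (E3 L3 Proper PosCurv TC)
open Pool.TRG (E2 V3 IC St pt px PerR Iso Per)

theorem ORL_hd (x : E2) :
    HasFDerivAt (fun y : E2 => y 1) (EuclideanSpace.proj 1 : E2 →L[ℝ] ℝ) x :=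
  (EuclideanSpace.proj 1 : E2 →L[ℝ] ℝ).hasFDerivAt

theorem ORL_dpow (p : ℕ) (x : E2) : DifferentiableAt ℝ (fun y : E2 => y 1 ^ p) x :=
  (ORL_hd x).differentiableAt.pow p

theorem ORL_pd (p : ℕ) (i : Fin 2) (x : E2) :
    pd i (fun y : E2 => y 1 ^ p) x = p * x 1 ^ (p - 1) * (ee i) 1 := by
  have h := ((hasDerivAt_pow p (x 1)).comp_hasFDerivAt x (ORL_hd x)).fderiv
  have h2 : ((fun x : ℝ => x ^ p) ∘ fun y : E2 => y 1) = fun y : E2 => y 1 ^ p := rfl
  rw [h2] at h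
  rw [pd, h]
  simp

theorem ORL_pd0 (p : ℕ) (x : E2) : pd 0 (fun y : E2 => y 1 ^ p) x = 0 := by
  rw [ORL_pd]
  simp [ee]

theorem ORL_pd1 (p : ℕ) (x : E2) : pd 1 (fun y : E2 => y 1 ^ p) x = p * x 1 ^ (p - 1) := by
  rw [ORL_pd]
  simp [ee]

theorem ORL_open : IsOpen St := by
  have h1 : Continuous fun x : E2 => |x 1| := by fun_prop
  exact isOpen_lt h1 continuous_const

theorem ORL_VS (r : ℝ) : IsOpen (VS r) := by
  have h1 : Continuous fun x : E2 => x 1 := by fun_prop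
  exact (isOpen_lt continuous_const h1).inter (isOpen_lt h1 continuous_const)

theorem ORL_St {x : E2} (h0 : 0 ≤ x 1) (h1 : x 1 < 1) : x ∈ St := by
  show |x 1| < 1
  rw [abs_of_nonneg h0]
  exact h1

theorem ORL_sub {r : ℝ} (h1 : r < 1) : VS r ⊆ St := fun _ hx =>
  ORL_St hx.1.le (hx.2.trans h1)

theorem ORL_shift (x : E2) : (x + (2 * π) • ee 0) 1 = x 1 := by
  simp [ee]

theorem ORL_shift_mem {r : ℝ} {x : E2} (hx : x ∈ VS r) : x + (2 * π) • ee 0 ∈ VS r := by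
  show 0 < (x + (2 * π) • ee 0) 1 ∧ (x + (2 * π) • ee 0) 1 < r
  rw [ORL_shift]
  exact hx

/-- derivatives of functions periodic on the half strip -/
theorem ORL_per {r : ℝ} {u : E2 → ℝ} (h : ∀ x ∈ VS r, u (x + (2 * π) • ee 0) = u x) (i : Fin 2) :
    ∀ x ∈ VS r, pd i u (x + (2 * π) • ee 0) = pd i u x := by
  intro x hx
  have h1 : pd i (fun y => u (y + (2 * π) • ee 0)) x = pd i u x :=
    Pool.FR.pd_congr (ORL_VS r) h i hx
  rw [← h1, pd, pd, fderiv_comp_add_right]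

theorem p_ORL (hCPT : Stmt_CPT) : Stmt_ORL := by
  intro g u e p N r M hr0 hr1 hpN hM hg hgP hu he huP hgu hle
  have hN1 : 1 ≤ N := by omega
  have hsub := ORL_sub hr1
  obtain ⟨⟨U, hU0, hU⟩, -, hU3⟩ := hCPT u r hr0 hr1 hu.continuousOn huP
  have hcd : ∀ i, ContinuousOn (pd i u) St := fun i =>
    (Pool.FR.pd_contDiffOn (m := 0) ORL_open hu (by norm_num) i).continuousOn
  obtain ⟨⟨U0, hU00, hU0b⟩, -, -⟩ := hCPT (pd 0 u) r hr0 hr1 (hcd 0) (ORL_per huP 0)
  obtain ⟨⟨U1, hU10, hU1b⟩, -, -⟩ := hCPT (pd 1 u) r hr0 hr1 (hcd 1) (ORL_per huP 1)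
  have hdu : ∀ x ∈ VS r, DifferentiableAt ℝ u x := fun x hx =>
    Pool.FR.diff_at ORL_open hu (by norm_num) (hsub hx)
  have hde : ∀ x ∈ VS r, DifferentiableAt ℝ e x := fun x hx =>
    Pool.FR.diff_at ORL_open he (by norm_num) (hsub hx)
  have hgd : ∀ i, ∀ x ∈ VS r, pd i g x =
      pd i (fun y : E2 => y 1 ^ p) x * u x + x 1 ^ p * pd i u x + pd i e x := by
    intro i x hx
    rw [Pool.FR.pd_congr (ORL_VS r) (g := fun y => y 1 ^ p * u y + e y)
      (fun y hy => hgu y hy.1.le hy.2.le) i hx,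
      Pool.FR.pd_add (f := fun y : E2 => y 1 ^ p * u y) (g := e) i
        ((ORL_dpow p x).mul (hdu x hx)) (hde x hx),
      Pool.FR.pd_mul i (ORL_dpow p x) (hdu x hx)]
  have hpw : ∀ x : ℝ, 0 ≤ x → x ≤ r → x ^ (N - 1) ≤ x ^ p ∧ x ^ N ≤ x ^ (p + 1) ∧
      x ^ N ≤ x ^ p := by
    intro x h0 h1
    have h2 : x ≤ 1 := h1.trans hr1.le
    exact ⟨pow_le_pow_of_le_one h0 h2 (by omega), pow_le_pow_of_le_one h0 h2 (by omega),
      pow_le_pow_of_le_one h0 h2 (by omega)⟩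
  refine ⟨U + U0 + U1 + M + p * M, by positivity, ?_, ?_⟩
  · intro x hx
    have hx0 := hx.1.le
    have hx1 := hx.2.le
    obtain ⟨hp1, hp2, hp3⟩ := hpw (x 1) hx0 hx1
    obtain ⟨hb1, hb2⟩ := hle x hx0 hx1
    have hP : 0 ≤ x 1 ^ p := by positivity
    have hP1 : 0 ≤ x 1 ^ (p + 1) := by positivity
    have hpM : 0 ≤ (p : ℝ) * M := by positivity
    refine ⟨?_, ?_, ?_⟩
    · rw [hgu x hx0 hx1]
      calc |x 1 ^ p * u x + e x| ≤ |x 1 ^ p * u x| + |e x| := abs_add_le _ _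
        _ = x 1 ^ p * |u x| + |e x| := by rw [abs_mul, abs_of_nonneg hP]
        _ ≤ x 1 ^ p * U + M * x 1 ^ p :=
            add_le_add (mul_le_mul_of_nonneg_left (hU x hx0 hx1) hP)
              (hb1.trans (mul_le_mul_of_nonneg_left hp3 hM))
        _ ≤ (U + U0 + U1 + M + p * M) * x 1 ^ p := by
            linarith [mul_nonneg hU00 hP, mul_nonneg hU10 hP, mul_nonneg hpM hP]
    · rw [hgd 0 x hx, ORL_pd0, zero_mul, zero_add]
      calc |x 1 ^ p * pd 0 u x + pd 0 e x| ≤ |x 1 ^ p * pd 0 u x| + |pd 0 e x| := abs_add_le _ _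
        _ = x 1 ^ p * |pd 0 u x| + |pd 0 e x| := by rw [abs_mul, abs_of_nonneg hP]
        _ ≤ x 1 ^ p * U0 + M * x 1 ^ p :=
            add_le_add (mul_le_mul_of_nonneg_left (hU0b x hx0 hx1) hP)
              ((hb2 0).trans (mul_le_mul_of_nonneg_left hp1 hM))
        _ ≤ (U + U0 + U1 + M + p * M) * x 1 ^ p := by
            linarith [mul_nonneg hU0 hP, mul_nonneg hU10 hP, mul_nonneg hpM hP]
    · rw [hgd 1 x hx, ORL_pd1, hgu x hx0 hx1]
      have e1 : x 1 * (p * x 1 ^ (p - 1) * u x + x 1 ^ p * pd 1 u x + pd 1 e x) -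
          p * (x 1 ^ p * u x + e x) = x 1 ^ (p + 1) * pd 1 u x + x 1 * pd 1 e x - p * e x := by
        have h5 : (p : ℝ) * (x 1 * x 1 ^ (p - 1)) = p * x 1 ^ p := by
          rcases Nat.eq_zero_or_pos p with h6 | h6
          · rw [h6]
            simp
          · rw [mul_pow_sub_one h6.ne']
        have h7 : x 1 ^ (p + 1) = x 1 * x 1 ^ p := by ring
        rw [h7]
        linear_combination (u x) * h5
      rw [e1]
      have b1 : |x 1 ^ (p + 1) * pd 1 u x| ≤ U1 * x 1 ^ (p + 1) := by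
        rw [abs_mul, abs_of_nonneg hP1, mul_comm]
        exact mul_le_mul_of_nonneg_right (hU1b x hx0 hx1) hP1
      have b2 : |x 1 * pd 1 e x| ≤ M * x 1 ^ (p + 1) := by
        rw [abs_mul, abs_of_nonneg hx0]
        calc x 1 * |pd 1 e x| ≤ x 1 * (M * x 1 ^ (N - 1)) :=
              mul_le_mul_of_nonneg_left (hb2 1) hx0
          _ = M * (x 1 * x 1 ^ (N - 1)) := by ring
          _ = M * x 1 ^ N := by rw [mul_pow_sub_one (by omega)]
          _ ≤ M * x 1 ^ (p + 1) := mul_le_mul_of_nonneg_left hp2 hM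
      have b3 : |(p : ℝ) * e x| ≤ p * M * x 1 ^ (p + 1) := by
        rw [abs_mul, abs_of_nonneg (Nat.cast_nonneg p), mul_assoc]
        exact mul_le_mul_of_nonneg_left (hb1.trans (mul_le_mul_of_nonneg_left hp2 hM))
          (Nat.cast_nonneg p)
      calc |x 1 ^ (p + 1) * pd 1 u x + x 1 * pd 1 e x - p * e x|
          ≤ |x 1 ^ (p + 1) * pd 1 u x + x 1 * pd 1 e x| + |(p : ℝ) * e x| := abs_sub _ _
        _ ≤ |x 1 ^ (p + 1) * pd 1 u x| + |x 1 * pd 1 e x| + |(p : ℝ) * e x| := by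
            linarith [abs_add_le (x 1 ^ (p + 1) * pd 1 u x) (x 1 * pd 1 e x)]
        _ ≤ (U + U0 + U1 + M + p * M) * x 1 ^ (p + 1) := by
            linarith [mul_nonneg hU0 hP1, mul_nonneg hU00 hP1]
  · intro hu0 hg0
    obtain ⟨c, δ, hc, hδ, hδr, hcb⟩ := hU3 hu0
    set δ₁ := min δ (c / (2 * (M + 1))) with hδ₁
    have hδ₁0 : 0 < δ₁ := lt_min hδ (by positivity)
    obtain ⟨-, hG2, -⟩ := hCPT g r hr0 hr1 hg.continuousOn fun x hx => hgP x (hsub hx)
    obtain ⟨c', hc', hcb'⟩ := hG2 δ₁ hδ₁0.le fun x h1 h2 => hg0 x (hδ₁0.trans_le h1) h2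
    refine ⟨min (c / 2) c', lt_min (by positivity) hc', ?_⟩
    intro x hx
    have hx0 := hx.1.le
    have hx1 := hx.2.le
    have hP : 0 ≤ x 1 ^ p := by positivity
    rcases le_total (x 1) δ₁ with h1 | h1
    · obtain ⟨hp1, hp2, hp3⟩ := hpw (x 1) hx0 hx1
      obtain ⟨hb1, hb2⟩ := hle x hx0 hx1
      have h2 : c ≤ |u x| := hcb x hx0 (h1.trans (min_le_left _ _))
      have h3 : x 1 * (2 * (M + 1)) ≤ c := by
        rw [← le_div_iff₀ (by positivity)]
        exact h1.trans (min_le_right _ _)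
      have h4 : M * x 1 ≤ c / 2 := by nlinarith
      have h5 : |e x| ≤ c / 2 * x 1 ^ p := by
        calc |e x| ≤ M * x 1 ^ N := hb1
          _ ≤ M * x 1 ^ (p + 1) := mul_le_mul_of_nonneg_left hp2 hM
          _ = M * x 1 * x 1 ^ p := by ring
          _ ≤ c / 2 * x 1 ^ p := mul_le_mul_of_nonneg_right h4 hP
      have h6 : c * x 1 ^ p ≤ |x 1 ^ p * u x| := by
        rw [abs_mul, abs_of_nonneg hP, mul_comm]
        exact mul_le_mul_of_nonneg_left h2 hP
      have h7 : |x 1 ^ p * u x| ≤ |g x| + |e x| := by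
        have h8 : x 1 ^ p * u x = g x - e x := by rw [hgu x hx0 hx1]; ring
        rw [h8]
        exact abs_sub _ _
      calc min (c / 2) c' * x 1 ^ p ≤ c / 2 * x 1 ^ p :=
            mul_le_mul_of_nonneg_right (min_le_left _ _) hP
        _ ≤ |g x| := by linarith
    · have h2 := hcb' x h1 hx1
      have h3 : x 1 ^ p ≤ 1 := pow_le_one₀ hx0 (hx1.trans hr1.le)
      calc min (c / 2) c' * x 1 ^ p ≤ c' * x 1 ^ p :=
            mul_le_mul_of_nonneg_right (min_le_right _ _) hP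
        _ ≤ c' * 1 := mul_le_mul_of_nonneg_left h3 hc'.le
        _ = c' := mul_one _
        _ ≤ |g x| := h2

end Pool.PGR
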