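import Pool.Agent.Work.MP_02e829_pg.Interface2
import Pool.Agent.Work.MP_02e829_sb.B_ELP

/-!
# MP_02e829_gt, PROPAGATION OF RIGIDITY: block PCS (a sphere on one side, with B_ELP)
-/

open Set Filter Manifold Matrix MeasureTheory Metric
open scoped Topology ContDiff Manifold Real

set_option autoImplicit false

universe w

namespace Pool.PGR

open Pool
open Pool.FR (pd ee gg WW DD NN II Ga Gb Imm SO3)
open Pool.SXB (E3 L3 Proper PosCurv TC)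
open Pool.TRG (E2 V3 IC St pt px PerR Iso Per Ann)

/-- a nonzero cross product gives a positive definite first form -/
theorem PCS_pos (A B : V3) (h : A ⨯₃ B ≠ 0) (a b : ℝ) (hab : ¬ (a = 0 ∧ b = 0)) :
    0 < (a • A + b • B) ⬝ᵥ (a • A + b • B) := by
  have hW : 0 < (A ⨯₃ B) ⬝ᵥ (A ⨯₃ B) := by
    rcases (Pool.SXB.ELP_dot3 (A ⨯₃ B) (A ⨯₃ B)) with he
    have h0 : 0 ≤ (A ⨯₃ B) ⬝ᵥ (A ⨯₃ B) := by
      rw [he]
      nlinarith [sq_nonneg ((A ⨯₃ B) 0), sq_nonneg ((A ⨯₃ B) 1), sq_nonneg ((A ⨯₃ B) 2)]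
    rcases h0.lt_or_eq with h1 | h1
    · exact h1
    · exfalso
      apply h
      exact dotProduct_self_eq_zero.1 h1.symm
  rw [Pool.SXB.ELP_lag] at hW
  rw [Pool.SXB.ELP_comb]
  have hA0 : 0 ≤ A ⬝ᵥ A := by
    rw [Pool.SXB.ELP_dot3]
    nlinarith [sq_nonneg (A 0), sq_nonneg (A 1), sq_nonneg (A 2)]
  have hB0 : 0 ≤ B ⬝ᵥ B := by
    rw [Pool.SXB.ELP_dot3]
    nlinarith [sq_nonneg (B 0), sq_nonneg (B 1), sq_nonneg (B 2)]
  have hBB : 0 < B ⬝ᵥ B := by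
    rcases hB0.lt_or_eq with h1 | h1
    · exact h1
    · exfalso
      rw [← h1] at hW
      nlinarith [sq_nonneg (A ⬝ᵥ B)]
  have key : (B ⬝ᵥ B) * (a ^ 2 * (A ⬝ᵥ A) + 2 * a * b * (A ⬝ᵥ B) + b ^ 2 * (B ⬝ᵥ B)) =
      (a * (A ⬝ᵥ B) + b * (B ⬝ᵥ B)) ^ 2 + a ^ 2 * ((A ⬝ᵥ A) * (B ⬝ᵥ B) - (A ⬝ᵥ B) ^ 2) := by
    ring
  have h3 : 0 < (B ⬝ᵥ B) * (a ^ 2 * (A ⬝ᵥ A) + 2 * a * b * (A ⬝ᵥ B) + b ^ 2 * (B ⬝ᵥ B)) := by
    rw [key]
    by_cases ha : a = 0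
    · have hb : b ≠ 0 := fun hb => hab ⟨ha, hb⟩
      rw [ha]
      have h4 : 0 < (b * (B ⬝ᵥ B)) ^ 2 := by positivity
      nlinarith
    · have h5 : 0 < a ^ 2 * ((A ⬝ᵥ A) * (B ⬝ᵥ B) - (A ⬝ᵥ B) ^ 2) := by positivity
      have h6 := sq_nonneg (a * (A ⬝ᵥ B) + b * (B ⬝ᵥ B))
      linarith
  exact pos_of_mul_pos_right h3 hBB.le

theorem p_PCS : Stmt_PCS := by
  intro U u hU hu x hx hcr n hn
  set F : E2 → V3 := fun y => L3 (u y) with hF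
  have hFU : ContDiffOn ℝ 2 F U := L3.contDiff.comp_contDiffOn hu
  have hd1 : ∀ i, ∀ y ∈ U, pd i F y = L3 (pd i u y) := fun i y hy =>
    Pool.FR.pd_clm i L3 (Pool.FR.diff_at hU hu (by norm_num) hy)
  have hd2 : ∀ i j, pd i (pd j F) x = L3 (pd i (pd j u) x) := by
    intro i j
    rw [Pool.FR.pd_congr hU (hd1 j) i hx]
    exact Pool.FR.pd_clm i L3
      (Pool.FR.diff_at hU (Pool.FR.pd_contDiffOn hU hu (m := 1) (by norm_num) j) le_rfl hx)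
  have hsf : ∀ i j, Pool.SXB.hh F i j x = sf u i j x := by
    intro i j
    rw [Pool.SXB.hh, sf, hd2, hd1 0 x hx, hd1 1 x hx]
  have key := Pool.SXB.ELP_loc hU hFU hx (fun a b hab => ?_) (L3 n) ?_
  · rw [hsf, hsf, hsf] at key
    have hsd : 0 < sd u x := key
    refine ⟨?_, hsd⟩
    intro h0
    unfold sd at hsd
    rw [h0, zero_mul] at hsd
    nlinarith [sq_nonneg (sf u 0 1 x)]
  · rw [hd1 0 x hx, hd1 1 x hx]
    exact PCS_pos _ _ hcr a b hab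
  · filter_upwards [hn] with y h3
    have h4 : F y - F x = L3 (u y - u x) := by
      rw [hF]
      exact (map_sub L3 (u y) (u x)).symm
    rw [h4, ← Pool.SXB.ELP_inner, ← Pool.SXB.ELP_inner, real_inner_self_eq_norm_sq]
    exact h3

end Pool.PGR
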