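import Pool.Agent.Work.MP_02e829_pg.Interface2

/-!
# MP_02e829_gt, PROPAGATION OF RIGIDITY, block PL1: polar coordinates
-/

open Set Filter Manifold Matrix MeasureTheory Metric
open scoped Topology ContDiff Manifold Real

set_option autoImplicit false

universe w

namespace Pool.PGR

open Pool
open Pool.FR (pd ee gg WW DD NN II Ga Gb Imm SO3)
open Pool.SXB (E3 L3 Proper PosCurv TC)
open Pool.TRG (E2 V3 IC St pt px PerR Iso Per Ann)

/-- polar coordinates -/
noncomputable def PL1_psi (c : E2) (r₀ l : ℝ) (x : E2) : E2 :=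
  !₂[c 0 + r₀ * Real.exp (l * x 1) * Real.cos (x 0), c 1 + r₀ * Real.exp (l * x 1) * Real.sin (x 0)]

theorem PL1_0 (c : E2) (r₀ l : ℝ) (x : E2) :
    PL1_psi c r₀ l x 0 = c 0 + r₀ * Real.exp (l * x 1) * Real.cos (x 0) := rfl

theorem PL1_1 (c : E2) (r₀ l : ℝ) (x : E2) :
    PL1_psi c r₀ l x 1 = c 1 + r₀ * Real.exp (l * x 1) * Real.sin (x 0) := rfl

theorem PL1_smooth (c : E2) (r₀ l : ℝ) : ContDiff ℝ ∞ (PL1_psi c r₀ l) := by
  rw [contDiff_euclidean]
  intro i
  fin_cases i
  · show ContDiff ℝ ∞ fun x : E2 => c 0 + r₀ * Real.exp (l * x 1) * Real.cos (x 0)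
    fun_prop
  · show ContDiff ℝ ∞ fun x : E2 => c 1 + r₀ * Real.exp (l * x 1) * Real.sin (x 0)
    fun_prop

theorem PL1_dist (c : E2) (r₀ l : ℝ) (hr : 0 < r₀) (x : E2) :
    dist (PL1_psi c r₀ l x) c = r₀ * Real.exp (l * x 1) := by
  rw [EuclideanSpace.dist_eq, Fin.sum_univ_two, PL1_0, PL1_1, Real.dist_eq, Real.dist_eq, sq_abs,
    sq_abs]
  have h1 : (c 0 + r₀ * Real.exp (l * x 1) * Real.cos (x 0) - c 0) ^ 2 +
      (c 1 + r₀ * Real.exp (l * x 1) * Real.sin (x 0) - c 1) ^ 2 =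
      (r₀ * Real.exp (l * x 1)) ^ 2 := by
    have := Real.sin_sq_add_cos_sq (x 0)
    linear_combination (r₀ * Real.exp (l * x 1)) ^ 2 * this
  rw [h1, Real.sqrt_sq (by positivity)]

theorem PL1_inj (c : E2) (r₀ l : ℝ) (hr : 0 < r₀) (hl : 0 < l) (x : E2) :
    Function.Injective (fderiv ℝ (PL1_psi c r₀ l) x) := by
  rw [injective_iff_map_eq_zero]
  intro v hv
  have hd : HasFDerivAt (PL1_psi c r₀ l) (fderiv ℝ (PL1_psi c r₀ l) x) x :=
    ((PL1_smooth c r₀ l).differentiable (by simp) x).hasFDerivAt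
  have hline : HasDerivAt (fun t : ℝ => PL1_psi c r₀ l (x + t • v)) 0 0 := by
    have := hd.hasLineDerivAt v
    rw [hv] at this
    exact this
  have h0 : HasDerivAt (fun t : ℝ => PL1_psi c r₀ l (x + t • v) 0) 0 0 := by
    have := (EuclideanSpace.proj (0 : Fin 2) : E2 →L[ℝ] ℝ).hasFDerivAt.comp_hasDerivAt
      (0 : ℝ) hline
    rw [map_zero] at this
    exact this
  have h1 : HasDerivAt (fun t : ℝ => PL1_psi c r₀ l (x + t • v) 1) 0 0 := by
    have := (EuclideanSpace.proj (1 : Fin 2) : E2 →L[ℝ] ℝ).hasFDerivAt.comp_hasDerivAt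
      (0 : ℝ) hline
    rw [map_zero] at this
    exact this
  have hl0 : HasDerivAt (fun t : ℝ => x 0 + t * v 0) (v 0) 0 := by
    simpa using ((hasDerivAt_id (0 : ℝ)).mul_const (v 0)).const_add (x 0)
  have hl1 : HasDerivAt (fun t : ℝ => l * (x 1 + t * v 1)) (l * v 1) 0 := by
    simpa using (((hasDerivAt_id (0 : ℝ)).mul_const (v 1)).const_add (x 1)).const_mul l
  have he : HasDerivAt (fun t : ℝ => r₀ * Real.exp (l * (x 1 + t * v 1)))
      (r₀ * (Real.exp (l * (x 1 + 0 * v 1)) * (l * v 1))) 0 := (hl1.exp).const_mul r₀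
  have h0' : HasDerivAt (fun t : ℝ => PL1_psi c r₀ l (x + t • v) 0)
      (r₀ * (Real.exp (l * (x 1 + 0 * v 1)) * (l * v 1)) * Real.cos (x 0 + 0 * v 0) +
        r₀ * Real.exp (l * (x 1 + 0 * v 1)) * (-Real.sin (x 0 + 0 * v 0) * v 0)) 0 :=
    (he.mul hl0.cos).const_add (c 0)
  have h1' : HasDerivAt (fun t : ℝ => PL1_psi c r₀ l (x + t • v) 1)
      (r₀ * (Real.exp (l * (x 1 + 0 * v 1)) * (l * v 1)) * Real.sin (x 0 + 0 * v 0) +
        r₀ * Real.exp (l * (x 1 + 0 * v 1)) * (Real.cos (x 0 + 0 * v 0) * v 0)) 0 :=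
    (he.mul hl0.sin).const_add (c 1)
  have e0 := h0'.unique h0
  have e1 := h1'.unique h1
  rw [zero_mul, zero_mul, add_zero, add_zero] at e0 e1
  have hsc := Real.sin_sq_add_cos_sq (x 0)
  have hE : 0 < Real.exp (l * x 1) := Real.exp_pos _
  have hv1 : r₀ * Real.exp (l * x 1) * (l * v 1) = 0 := by
    linear_combination Real.cos (x 0) * e0 + Real.sin (x 0) * e1 -
      r₀ * Real.exp (l * x 1) * (l * v 1) * hsc
  have hv0 : r₀ * Real.exp (l * x 1) * v 0 = 0 := by
    linear_combination (-Real.sin (x 0)) * e0 + Real.cos (x 0) * e1 -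
      r₀ * Real.exp (l * x 1) * v 0 * hsc
  have hv1' : v 1 = 0 := by
    rcases mul_eq_zero.mp hv1 with h | h
    · exact absurd h (by positivity)
    · exact (mul_eq_zero.mp h).resolve_left hl.ne'
  have hv0' : v 0 = 0 := (mul_eq_zero.mp hv0).resolve_left (by positivity)
  ext i
  fin_cases i
  · exact hv0'
  · exact hv1'

theorem p_PL1 : Stmt_PL1 := by
  intro c q ρ r₀ hcq hr₀ hr₀ρ
  have hρ : 0 < ρ := hr₀.trans hr₀ρ
  have h2 : 1 < 2 * ρ / r₀ := by
    rw [one_lt_div hr₀]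
    linarith
  obtain ⟨l, hl⟩ : ∃ l : ℝ, l = Real.log (2 * ρ / r₀) := ⟨_, rfl⟩
  have hlp : 0 < l := by rw [hl]; exact Real.log_pos h2
  have hel : r₀ * Real.exp l = 2 * ρ := by
    rw [hl, Real.exp_log (by positivity)]
    field_simp
  refine ⟨PL1_psi c r₀ l, PL1_smooth c r₀ l, fun x => ?_, PL1_inj c r₀ l hr₀ hlp, ?_, ?_, ?_⟩
  · have e0 : (x + (2 * π) • ee 0 : E2) 0 = x 0 + 2 * π := by simp [ee]
    have e1 : (x + (2 * π) • ee 0 : E2) 1 = x 1 := by simp [ee]
    unfold PL1_psi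
    rw [e0, e1, Real.cos_add_two_pi, Real.sin_add_two_pi]
  · intro x hx
    have hx' : |x 1| < 1 := hx
    have h3 : r₀ * Real.exp (l * x 1) < 2 * ρ := by
      rw [← hel]
      apply mul_lt_mul_of_pos_left _ hr₀
      apply Real.exp_lt_exp.mpr
      have := (abs_lt.mp hx').2
      nlinarith
    rw [mem_ball]
    calc dist (PL1_psi c r₀ l x) q ≤ dist (PL1_psi c r₀ l x) c + dist c q := dist_triangle _ _ _
      _ < 2 * ρ + ρ := by rw [PL1_dist c r₀ l hr₀]; linarith
      _ = 3 * ρ := by ring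
  · intro x _ hx1
    rw [mem_ball, PL1_dist c r₀ l hr₀]
    have h3 : Real.exp (l * x 1) < 1 := by
      rw [Real.exp_lt_one_iff]
      nlinarith
    nlinarith
  · intro y hy
    rw [mem_ball] at hy
    by_cases hyc : dist y c < r₀
    · exact Or.inl hyc
    · push Not at hyc
      right
      have hy2 : dist y c < 2 * ρ := by
        calc dist y c ≤ dist y q + dist q c := dist_triangle _ _ _
          _ < ρ + ρ := by rw [dist_comm q c]; linarith
          _ = 2 * ρ := by ring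
      have hyp : 0 < dist y c := lt_of_lt_of_le hr₀ hyc
      obtain ⟨s, hs⟩ : ∃ s : ℝ, s = Real.log (dist y c / r₀) / l := ⟨_, rfl⟩
      have hls : l * s = Real.log (dist y c / r₀) := by
        rw [hs]
        field_simp
      have hs0 : 0 ≤ s := by
        rw [hs]
        apply div_nonneg _ hlp.le
        apply Real.log_nonneg
        rwa [one_le_div hr₀]
      have hs1 : s < 1 := by
        rw [hs, div_lt_one hlp, hl]
        apply Real.log_lt_log (by positivity)
        exact div_lt_div_of_pos_right hy2 hr₀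
      have hexp : r₀ * Real.exp (l * s) = dist y c := by
        rw [hls, Real.exp_log (by positivity)]
        field_simp
      let z : ℂ := ⟨y 0 - c 0, y 1 - c 1⟩
      have hz : ‖z‖ = dist y c := by
        rw [EuclideanSpace.dist_eq, Fin.sum_univ_two, Real.dist_eq, Real.dist_eq, sq_abs, sq_abs,
          Complex.norm_def, Complex.normSq_apply]
        congr 1
        show (y 0 - c 0) * (y 0 - c 0) + (y 1 - c 1) * (y 1 - c 1) = _
        ring
      have hzc : ‖z‖ * Real.cos (Complex.arg z) = y 0 - c 0 := Complex.norm_mul_cos_arg z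
      have hzs : ‖z‖ * Real.sin (Complex.arg z) = y 1 - c 1 := Complex.norm_mul_sin_arg z
      refine ⟨!₂[Complex.arg z, s], ?_, ?_⟩
      · show |s| < 1
        rw [abs_of_nonneg hs0]
        exact hs1
      · ext i
        fin_cases i
        · show c 0 + r₀ * Real.exp (l * s) * Real.cos (Complex.arg z) = y 0
          rw [hexp, ← hz, hzc]
          ring
        · show c 1 + r₀ * Real.exp (l * s) * Real.sin (Complex.arg z) = y 1
          rw [hexp, ← hz, hzs]
          ring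

end Pool.PGR
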