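import Pool.Agent.Work.MP_02e829_pg.Interface2

/-!
# MP_02e829_gt, PROPAGATION OF RIGIDITY, block PL2: a tube in a convex region
-/

open Set Filter Manifold Matrix MeasureTheory Metric
open scoped Topology ContDiff Manifold Real

set_option autoImplicit false

universe w

namespace Pool.PGR

open Pool
open Pool.FR (pd ee gg WW DD NN II Ga Gb Imm SO3)
open Pool.SXB (E3 L3 Proper PosCurv TC)
open Pool.TRG (E2 V3 IC St pt px PerR Iso Per Ann)

theorem PL2_open : IsOpen St := by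
  have h : Continuous fun x : E2 => |x 1| := by fun_prop
  exact isOpen_lt h continuous_const

theorem PL2_L3_inj : Function.Injective (L3 : E3 → V3) :=
  (EuclideanSpace.equiv (Fin 3) ℝ).injective

theorem PL2_pt (x : ℝ) : pt x ∈ St := by
  show |(x • ee 0 : E2) 1| < 1
  simp [ee]

/-- smoothness of the second form -/
theorem PL2_sf {U : Set E2} (hU : IsOpen U) {u : E2 → E3} (hu : ContDiffOn ℝ 4 u U) (i j : Fin 2) :
    ContDiffOn ℝ 1 (sf u i j) U := by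
  have h1 : ∀ i, ContDiffOn ℝ 3 (pd i u) U := fun i =>
    Pool.FR.pd_contDiffOn hU hu (m := 3) (by norm_num) i
  have h2 : ContDiffOn ℝ 1 (pd i (pd j u)) U :=
    Pool.FR.pd_contDiffOn hU (h1 j) (m := 1) (by norm_num) i
  have h3 : ∀ i, ContDiffOn ℝ 1 (fun x => L3 (pd i u x)) U := fun i =>
    L3.contDiff.comp_contDiffOn ((h1 i).of_le (by norm_num))
  exact Pool.FR.contDiffOn_dot (L3.contDiff.comp_contDiffOn h2)
    (Pool.FR.contDiffOn_cross (h3 0) (h3 1))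

theorem PL2_sd {U : Set E2} (hU : IsOpen U) {u : E2 → E3} (hu : ContDiffOn ℝ 4 u U) :
    ContDiffOn ℝ 1 (sd u) U :=
  ((PL2_sf hU hu 0 0).mul (PL2_sf hU hu 1 1)).sub ((PL2_sf hU hu 0 1).pow 2)

/-- the composition of polar coordinates with a chart -/
theorem PL2_ann {S : Type w} [TopologicalSpace S] [ChartedSpace E2 S] {m : ℕ}
    [IsManifold (𝓡 2) m S] (hm : 4 ≤ m) (q : S) {ψ : E2 → E2} (hψ : ContDiff ℝ ∞ ψ)
    (hper : ∀ x, ψ (x + (2 * π) • ee 0) = ψ x) (hinj : ∀ x, Function.Injective (fderiv ℝ ψ x))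
    (hmaps : MapsTo ψ St (extChartAt (𝓡 2) q).target) :
    Ann m fun x => (extChartAt (𝓡 2) q).symm (ψ x) := by
  have hψm : ContDiff ℝ ((m : ℕ) : WithTop ℕ∞) ψ := hψ.of_le (by exact_mod_cast le_top)
  have h1m : (1 : WithTop ℕ∞) ≤ ((m : ℕ) : WithTop ℕ∞) := by
    have h : ((1 : ℕ) : WithTop ℕ∞) ≤ ((m : ℕ) : WithTop ℕ∞) := by
      exact_mod_cast (by omega : 1 ≤ m)
    exact_mod_cast h
  have : IsManifold (𝓡 2) 1 S := IsManifold.of_le (n := ((m : ℕ) : WithTop ℕ∞)) h1m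
  have hs : ContMDiffOn (𝓡 2) (𝓡 2) m (fun x => (extChartAt (𝓡 2) q).symm (ψ x)) St :=
    (contMDiffOn_extChartAt_symm q).comp (contMDiff_iff_contDiff.2 hψm).contMDiffOn hmaps
  refine ⟨hs, ?_, ?_⟩
  · intro x hx
    have hΦ : MDifferentiableAt (𝓡 2) (𝓡 2) (fun x => (extChartAt (𝓡 2) q).symm (ψ x)) x :=
      ((hs x hx).contMDiffAt (PL2_open.mem_nhds hx)).mdifferentiableAt (by
        intro h
        rw [h] at h1m
        exact absurd h1m (by norm_num))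
    have hsrc : (extChartAt (𝓡 2) q).symm (ψ x) ∈ (extChartAt (𝓡 2) q).source :=
      (extChartAt (𝓡 2) q).map_target (hmaps hx)
    have he : MDifferentiableAt (𝓡 2) 𝓘(ℝ, E2) (extChartAt (𝓡 2) q)
        ((extChartAt (𝓡 2) q).symm (ψ x)) := by
      refine mdifferentiableAt_extChartAt ?_
      rwa [extChartAt_source] at hsrc
    have hcomp := mfderiv_comp x he hΦ
    have heq : (extChartAt (𝓡 2) q ∘ fun x => (extChartAt (𝓡 2) q).symm (ψ x)) =ᶠ[𝓝 x] ψ := by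
      filter_upwards [PL2_open.mem_nhds hx] with y hy
      exact (extChartAt (𝓡 2) q).right_inv (hmaps hy)
    have h2 : mfderiv (𝓡 2) 𝓘(ℝ, E2)
        (extChartAt (𝓡 2) q ∘ fun x => (extChartAt (𝓡 2) q).symm (ψ x)) x = fderiv ℝ ψ x := by
      have h3 : mfderiv (𝓡 2) 𝓘(ℝ, E2)
        (extChartAt (𝓡 2) q ∘ fun x => (extChartAt (𝓡 2) q).symm (ψ x)) x =
        fderiv ℝ (extChartAt (𝓡 2) q ∘ fun x => (extChartAt (𝓡 2) q).symm (ψ x)) x :=
        mfderiv_eq_fderiv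
      rw [h3]
      exact heq.fderiv_eq
    intro v w hvw
    apply hinj x
    rw [← h2, hcomp]
    exact congrArg (mfderiv (𝓡 2) 𝓘(ℝ, E2) (extChartAt (𝓡 2) q)
      ((extChartAt (𝓡 2) q).symm (ψ x))) hvw
  · intro x _
    show (extChartAt (𝓡 2) q).symm (ψ (x + (2 * π) • ee 0)) = (extChartAt (𝓡 2) q).symm (ψ x)
    rw [hper]

theorem p_PL2 (hCHN : TRG.Stmt_CHN.{w}) (hPCS : Stmt_PCS) (hPL1 : Stmt_PL1) : Stmt_PL2.{w} := by
  intro S _ _ m _ f hm hf hf1 O hO hOc V hV q hqO hqV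
  have h4m : (4 : WithTop ℕ∞) ≤ ((m : ℕ) : WithTop ℕ∞) := by
    have h : ((4 : ℕ) : WithTop ℕ∞) ≤ ((m : ℕ) : WithTop ℕ∞) := by exact_mod_cast hm
    exact h
  set e := extChartAt (𝓡 2) q with he
  have hqs : q ∈ e.source := mem_extChartAt_source q
  have hqt : e q ∈ e.target := mem_extChartAt_target q
  have htO : IsOpen (e.target ∩ e.symm ⁻¹' O) :=
    (continuousOn_extChartAt_symm q).isOpen_inter_preimage (isOpen_extChartAt_target q) hO
  have htV : IsOpen (e.target ∩ e.symm ⁻¹' V) :=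
    (continuousOn_extChartAt_symm q).isOpen_inter_preimage (isOpen_extChartAt_target q) hV
  obtain ⟨ε, hε, hεO⟩ := Metric.isOpen_iff.1 htO (e q) ⟨hqt, by
    show e.symm (e q) ∈ O
    rw [e.left_inv hqs]
    exact hqO⟩
  obtain ⟨ρ, hρ⟩ : ∃ ρ, ρ = ε / 3 := ⟨_, rfl⟩
  have hρ0 : 0 < ρ := by rw [hρ]; positivity
  have hρO : ball (e q) (3 * ρ) ⊆ e.target ∩ e.symm ⁻¹' O := by
    rw [hρ, mul_div_cancel₀ ε (by norm_num : (3:ℝ) ≠ 0)]
    exact hεO
  have hNo : IsOpen (e.source ∩ e ⁻¹' ball (e q) ρ) :=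
    (continuousOn_extChartAt q).isOpen_inter_preimage (isOpen_extChartAt_source q) isOpen_ball
  have hqN : q ∈ e.source ∩ e ⁻¹' ball (e q) ρ := ⟨hqs, mem_ball_self hρ0⟩
  obtain ⟨p, ⟨hps, hpρ⟩, hpV⟩ := mem_closure_iff.1 hqV _ hNo hqN
  obtain ⟨ε₂, hε₂, hε₂V⟩ := Metric.isOpen_iff.1 htV (e p) ⟨e.map_source hps, by
    show e.symm (e p) ∈ V
    rw [e.left_inv hps]
    exact hpV⟩
  obtain ⟨r₀, hr₀⟩ : ∃ r₀, r₀ = min ε₂ (ρ / 2) := ⟨_, rfl⟩
  have hr00 : 0 < r₀ := by rw [hr₀]; exact lt_min hε₂ (half_pos hρ0)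
  have hr0ρ : r₀ < ρ := by
    rw [hr₀]
    exact (min_le_right _ _).trans_lt (half_lt_self hρ0)
  have hr0V : ball (e p) r₀ ⊆ e.target ∩ e.symm ⁻¹' V :=
    (ball_subset_ball (by rw [hr₀]; exact min_le_left _ _)).trans hε₂V
  obtain ⟨ψ, hψ, hper, hinj, hmaps, hneg, hcov⟩ := hPL1 (e p) (e q) ρ r₀ hpρ hr00 hr0ρ
  have hmt : MapsTo ψ St e.target := fun x hx => (hρO (hmaps hx)).1
  have hmO : ∀ x ∈ St, e.symm (ψ x) ∈ O := fun x hx => (hρO (hmaps hx)).2
  have hAnn : Ann m fun x => e.symm (ψ x) := PL2_ann hm q hψ hper hinj hmt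
  have hAnn1 : Ann 1 fun x => e.symm (ψ x) :=
    ⟨hAnn.smooth.of_le (le_trans (by norm_num) h4m), hAnn.reg, hAnn.per⟩
  have hf' : ContMDiff (𝓡 2) (𝓡 3) 1 f := hf.of_le (le_trans (by norm_num) h4m)
  have hu : ContDiffOn ℝ 4 (fun x => f (e.symm (ψ x))) St := by
    have h1 : ContMDiffOn (𝓡 2) (𝓡 3) m (fun x => f (e.symm (ψ x))) St :=
      hf.comp_contMDiffOn hAnn.smooth
    exact (contMDiffOn_iff_contDiffOn.1 h1).of_le h4m
  have hreg : ∀ x ∈ St, sf (fun y => f (e.symm (ψ y))) 0 0 x ≠ 0 ∧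
      0 < sd (fun y => f (e.symm (ψ y))) x := by
    intro x hx
    obtain ⟨n, hn⟩ := hOc _ (hmO x hx)
    have hcont : ContinuousAt (fun y => e.symm (ψ y)) x :=
      (hAnn.smooth.continuousOn.continuousAt (PL2_open.mem_nhds hx))
    refine hPCS St _ PL2_open (hu.of_le (by norm_num)) x hx ?_ n (hcont.eventually hn)
    rw [crossProduct_ne_zero_iff_linearIndependent, LinearIndependent.pair_iff]
    intro a b hab
    have h1 : a • pd 0 (fun y => f (e.symm (ψ y))) x + b • pd 1 (fun y => f (e.symm (ψ y))) x = 0 := by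
      apply PL2_L3_inj
      rw [map_add, map_smul, map_smul, map_zero]
      exact hab
    have h2 : fderiv ℝ (fun y => f (e.symm (ψ y))) x (a • ee 0 + b • ee 1) = 0 := by
      rw [map_add, map_smul, map_smul]
      exact h1
    rw [hCHN S f hf' _ hAnn1 x hx] at h2
    have h3 : (mfderiv (𝓡 2) (𝓡 2) (fun x => e.symm (ψ x)) x (a • ee 0 + b • ee 1)) = 0 := by
      apply hf1 (e.symm (ψ x))
      rw [h2]
      exact (map_zero (FRD.differential f (e.symm (ψ x)))).symm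
    have h4 : (a • ee 0 + b • ee 1 : E2) = 0 := by
      apply hAnn.reg x hx
      rw [h3]
      exact (map_zero (mfderiv (𝓡 2) (𝓡 2) (fun x => e.symm (ψ x)) x)).symm
    have h5 := congrArg (fun v : E2 => v 0) h4
    have h6 := congrArg (fun v : E2 => v 1) h4
    simp [ee] at h5 h6
    exact ⟨h5, h6⟩
  refine ⟨fun x => e.symm (ψ x), ⟨hAnn, ?_, ?_⟩, ?_, ?_⟩
  · intro x hx _
    exact ⟨(hreg x hx).1, (hreg x hx).2.ne'⟩
  · refine ⟨0, 0, sf (fun y => f (e.symm (ψ y))) 0 0, sf (fun y => f (e.symm (ψ y))) 0 1,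
      sd (fun y => f (e.symm (ψ y))), by omega, by omega, by omega, PL2_sf PL2_open hu 0 0,
      PL2_sf PL2_open hu 0 1, PL2_sd PL2_open hu, ?_, ?_⟩
    · intro x
      exact ⟨(hreg _ (PL2_pt x)).1, (hreg _ (PL2_pt x)).2.ne'⟩
    · intro x _
      simp
  · intro x hx hx1
    exact (hr0V (hneg x hx hx1)).2
  · refine mem_of_superset (hNo.mem_nhds hqN) ?_
    rintro y ⟨hys, hyρ⟩
    rcases hcov hyρ with h | ⟨x, hx, hxy⟩
    · left
      have := (hr0V h).2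
      rw [mem_preimage, e.left_inv hys] at this
      exact this
    · right
      refine ⟨x, hx, ?_⟩
      show e.symm (ψ x) = y
      rw [hxy, e.left_inv hys]

end Pool.PGR
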