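import Pool.Agent.Work.MP_02e829_pg.Interface2
import Pool.Agent.Work.MP_02e829_tr.B_HPR

/-! # MP_02e829_gt, PROPAGATION OF RIGIDITY: block PRS (equations of Gauss and Codazzi for two
isometric surfaces) -/

open Set Filter Manifold Matrix MeasureTheory Metric
open scoped Topology ContDiff Manifold Real

set_option autoImplicit false

namespace Pool.PGR

open Pool
open Pool.FR (pd ee gg WW DD NN II Ga Gb Imm SO3 pd_sub diff_at)
open Pool.SXB (E3 L3 Proper PosCurv TC)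
open Pool.TRG (E2 V3 IC St pt px PerR Iso Per Ann)

theorem p_PRS (hFRM : Pool.FR.Stmt_FRM) (hCHR : Pool.FR.Stmt_CHR) (hCOD : Pool.FR.Stmt_COD)
    (hEGG : Pool.TRG.Stmt_EGG) : Stmt_PRS := by
  intro F G hF hG hiso hpF hpG
  have hO := Pool.TRG.FRA_St_open
  have smF : ∀ i j, ContDiffOn ℝ 2 (II F i j) St := fun i j =>
    (hFRM St hO F hF _ (Pool.TRG.FRA_pt_mem 0)).2.2.2.2.2.2.2.2.2 i j
  have smG : ∀ i j, ContDiffOn ℝ 2 (II G i j) St := fun i j =>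
    (hFRM St hO G hG _ (Pool.TRG.FRA_pt_mem 0)).2.2.2.2.2.2.2.2.2 i j
  have symF : ∀ x ∈ St, II F 1 0 x = II F 0 1 x := fun x hx =>
    (hFRM St hO F hF x hx).2.2.2.2.1 1 0
  have symG : ∀ x ∈ St, II G 1 0 x = II G 0 1 x := fun x hx =>
    (hFRM St hO G hG x hx).2.2.2.2.1 1 0
  have dF : ∀ i j, ∀ x ∈ St, DifferentiableAt ℝ (II F i j) x := fun i j x hx =>
    diff_at hO (smF i j) (by norm_num) hx
  have dG : ∀ i j, ∀ x ∈ St, DifferentiableAt ℝ (II G i j) x := fun i j x hx =>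
    diff_at hO (smG i j) (by norm_num) hx
  have eGb : ∀ x ∈ St, ∀ k i j, Gb G k i j x = Gb F k i j x := fun x hx k i j =>
    ((hCHR St hO F hF).2.2 G hG hiso x hx k i j).2
  have pS : ∀ k i j, ∀ x ∈ St, pd k (fun y => II G i j y - II F i j y) x =
      pd k (II G i j) x - pd k (II F i j) x := fun k i j x hx =>
    pd_sub k (dG i j x hx) (dF i j x hx)
  have hl : ∀ i : Fin 3, ContinuousOn ((![Gb F 0 0 1, fun x => Gb F 1 0 1 x - Gb F 0 0 0 x,
      fun x => -Gb F 1 0 0 x] : Fin 3 → E2 → ℝ) i) St := by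
    intro i
    fin_cases i
    · exact Pool.TRG.HPR_Gb hF 0 0 1
    · exact (Pool.TRG.HPR_Gb hF 1 0 1).sub (Pool.TRG.HPR_Gb hF 0 0 0)
    · exact (Pool.TRG.HPR_Gb hF 1 0 0).neg
  have hm : ∀ i : Fin 3, ContinuousOn ((![Gb F 0 1 1, fun x => Gb F 1 1 1 x - Gb F 0 0 1 x,
      fun x => -Gb F 1 0 1 x] : Fin 3 → E2 → ℝ) i) St := by
    intro i
    fin_cases i
    · exact Pool.TRG.HPR_Gb hF 0 1 1
    · exact (Pool.TRG.HPR_Gb hF 1 1 1).sub (Pool.TRG.HPR_Gb hF 0 0 1)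
    · exact (Pool.TRG.HPR_Gb hF 1 0 1).neg
  have hpl : ∀ i : Fin 3, PerR ((![Gb F 0 0 1, fun x => Gb F 1 0 1 x - Gb F 0 0 0 x,
      fun x => -Gb F 1 0 0 x] : Fin 3 → E2 → ℝ) i) := by
    intro i
    fin_cases i
    · exact Pool.TRG.HPR_Gb_per hpF 0 0 1
    · intro x hx
      change Gb F 1 0 1 _ - Gb F 0 0 0 _ = Gb F 1 0 1 x - Gb F 0 0 0 x
      rw [Pool.TRG.HPR_Gb_per hpF 1 0 1 x hx, Pool.TRG.HPR_Gb_per hpF 0 0 0 x hx]
    · intro x hx
      change -Gb F 1 0 0 _ = -Gb F 1 0 0 x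
      rw [Pool.TRG.HPR_Gb_per hpF 1 0 0 x hx]
  have hpm : ∀ i : Fin 3, PerR ((![Gb F 0 1 1, fun x => Gb F 1 1 1 x - Gb F 0 0 1 x,
      fun x => -Gb F 1 0 1 x] : Fin 3 → E2 → ℝ) i) := by
    intro i
    fin_cases i
    · exact Pool.TRG.HPR_Gb_per hpF 0 1 1
    · intro x hx
      change Gb F 1 1 1 _ - Gb F 0 0 1 _ = Gb F 1 1 1 x - Gb F 0 0 1 x
      rw [Pool.TRG.HPR_Gb_per hpF 1 1 1 x hx, Pool.TRG.HPR_Gb_per hpF 0 0 1 x hx]
    · intro x hx
      change -Gb F 1 0 1 _ = -Gb F 1 0 1 x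
      rw [Pool.TRG.HPR_Gb_per hpF 1 0 1 x hx]
  have hperF : ∀ i j, PerR (II F i j) := fun i j x hx => Pool.TRG.FRA_II_per hpF i j x hx
  have hperS : ∀ i j, PerR fun y => II G i j y - II F i j y := by
    intro i j x hx
    change II G i j _ - II F i j _ = _
    rw [Pool.TRG.FRA_II_per hpG i j x hx, Pool.TRG.FRA_II_per hpF i j x hx]
  refine
    { sAF := smF 0 0, sBF := smF 0 1, sCF := smF 1 1
      sa := (smG 0 0).sub (smF 0 0), sb := (smG 0 1).sub (smF 0 1)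
      sw := (smG 1 1).sub (smF 1 1), sl := hl, sm := hm
      pAF := hperF 0 0, pBF := hperF 0 1, pCF := hperF 1 1
      pa := hperS 0 0, pb := hperS 0 1, pw := hperS 1 1, pl := hpl, pm := hpm
      e0 := ?_, c1 := ?_, c2 := ?_, d1 := ?_, d2 := ?_ }
  · intro x hx
    have h1 := hEGG St hO F G hF hG hiso x hx
    change II F 0 0 x * (II G 1 1 x - II F 1 1 x) + II F 1 1 x * (II G 0 0 x - II F 0 0 x) -
      2 * (II F 0 1 x * (II G 0 1 x - II F 0 1 x)) +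
      ((II G 0 0 x - II F 0 0 x) * (II G 1 1 x - II F 1 1 x) -
        (II G 0 1 x - II F 0 1 x) ^ 2) = 0
    linarith [h1]
  · intro x hx
    have h1 := (hCOD St hO F hF x hx).1
    rw [symF x hx] at h1
    change pd 1 (II F 0 0) x = pd 0 (II F 0 1) x + Gb F 0 0 1 x * II F 0 0 x +
      (Gb F 1 0 1 x - Gb F 0 0 0 x) * II F 0 1 x + -Gb F 1 0 0 x * II F 1 1 x
    linarith [h1]
  · intro x hx
    have h1 := (hCOD St hO F hF x hx).2
    rw [symF x hx] at h1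
    change pd 1 (II F 0 1) x = pd 0 (II F 1 1) x + Gb F 0 1 1 x * II F 0 0 x +
      (Gb F 1 1 1 x - Gb F 0 0 1 x) * II F 0 1 x + -Gb F 1 0 1 x * II F 1 1 x
    linarith [h1]
  · intro x hx
    have h1 := (hCOD St hO F hF x hx).1
    have h2 := (hCOD St hO G hG x hx).1
    rw [eGb x hx, eGb x hx, eGb x hx, eGb x hx, symG x hx] at h2
    rw [symF x hx] at h1
    have h3 := pS 1 0 0 x hx
    have h4 := pS 0 0 1 x hx
    change pd 1 (fun y => II G 0 0 y - II F 0 0 y) x = pd 0 (fun y => II G 0 1 y - II F 0 1 y) x +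
      Gb F 0 0 1 x * (II G 0 0 x - II F 0 0 x) +
      (Gb F 1 0 1 x - Gb F 0 0 0 x) * (II G 0 1 x - II F 0 1 x) +
      -Gb F 1 0 0 x * (II G 1 1 x - II F 1 1 x)
    rw [h3, h4]
    linarith [h1, h2]
  · intro x hx
    have h1 := (hCOD St hO F hF x hx).2
    have h2 := (hCOD St hO G hG x hx).2
    rw [eGb x hx, eGb x hx, eGb x hx, eGb x hx, symG x hx] at h2
    rw [symF x hx] at h1
    have h3 := pS 1 0 1 x hx
    have h4 := pS 0 1 1 x hx
    change pd 1 (fun y => II G 0 1 y - II F 0 1 y) x = pd 0 (fun y => II G 1 1 y - II F 1 1 y) x +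
      Gb F 0 1 1 x * (II G 0 0 x - II F 0 0 x) +
      (Gb F 1 1 1 x - Gb F 0 0 1 x) * (II G 0 1 x - II F 0 1 x) +
      -Gb F 1 0 1 x * (II G 1 1 x - II F 1 1 x)
    rw [h3, h4]
    linarith [h1, h2]

end Pool.PGR
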