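import Pool.Agent.Work.MP_02e829_pg.Interface2

/-!
# MP_02e829_gt, propagation of rigidity, block REG: the class of the second form
-/

open Set Filter Manifold Matrix MeasureTheory Metric
open scoped Topology ContDiff Manifold Real

set_option autoImplicit false

namespace Pool.PGR

open Pool
open Pool.FR (pd ee gg WW DD NN II Ga Gb Imm SO3)
open Pool.TRG (E2 V3 IC St pt px PerR Iso Per Ann)

theorem REG_open : IsOpen St := by
  have hc : Continuous fun x : E2 => |x 1| := (PiLp.continuous_apply 2 _ (1 : Fin 2)).abs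
  exact isOpen_lt hc continuous_const

theorem p_REG : Stmt_REG := by
  intro m F hm hF hs i j
  have hO : IsOpen St := REG_open
  have e1 : ((m - 1 : ℕ) : WithTop ℕ∞) + 1 ≤ (m : WithTop ℕ∞) := by
    exact_mod_cast (by omega : m - 1 + 1 ≤ m)
  have e2 : ((m - 2 : ℕ) : WithTop ℕ∞) + 1 ≤ ((m - 1 : ℕ) : WithTop ℕ∞) := by
    exact_mod_cast (by omega : m - 2 + 1 ≤ m - 1)
  have le21 : ((m - 2 : ℕ) : WithTop ℕ∞) ≤ ((m - 1 : ℕ) : WithTop ℕ∞) := by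
    exact_mod_cast (by omega : m - 2 ≤ m - 1)
  have d1 : ∀ k, ContDiffOn ℝ ((m - 1 : ℕ) : WithTop ℕ∞) (pd k F) St := fun k =>
    Pool.FR.pd_contDiffOn hO hs e1 k
  have d2 : ∀ k l, ContDiffOn ℝ ((m - 2 : ℕ) : WithTop ℕ∞) (pd k (pd l F)) St := fun k l =>
    Pool.FR.pd_contDiffOn hO (d1 l) e2 k
  have d1' : ∀ k, ContDiffOn ℝ ((m - 2 : ℕ) : WithTop ℕ∞) (pd k F) St := fun k =>
    (d1 k).of_le le21
  have hg : ∀ k l, ContDiffOn ℝ ((m - 2 : ℕ) : WithTop ℕ∞) (gg F k l) St := fun k l =>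
    Pool.FR.contDiffOn_dot (d1' k) (d1' l)
  have hD : ContDiffOn ℝ ((m - 2 : ℕ) : WithTop ℕ∞) (DD F) St :=
    ((hg 0 0).mul (hg 1 1)).sub ((hg 0 1).pow 2)
  have hW : ContDiffOn ℝ ((m - 2 : ℕ) : WithTop ℕ∞) (WW F) St :=
    Pool.FR.contDiffOn_cross (d1' 0) (d1' 1)
  have hsq : ContDiffOn ℝ ((m - 2 : ℕ) : WithTop ℕ∞) (fun x => (Real.sqrt (DD F x))⁻¹) St :=
    (hD.sqrt fun x hx => (hF.pos x hx).ne').inv fun x hx => (Real.sqrt_pos.2 (hF.pos x hx)).ne'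
  have hN : ContDiffOn ℝ ((m - 2 : ℕ) : WithTop ℕ∞) (NN F) St := hsq.smul hW
  exact Pool.FR.contDiffOn_dot (d2 i j) hN

end Pool.PGR
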