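import Pool.Agent.Work.MP_02e829_pg.Interface3

/-!
# MP_02e829_gt, block RTA: composition with an affine map
-/

open Set Filter Manifold Matrix MeasureTheory Metric
open scoped Topology ContDiff Manifold Real

set_option autoImplicit false

universe w

namespace Pool.PGR

open Pool
open Pool.FR (pd ee gg WW DD NN II Ga Gb Imm SO3)
open Pool.SXB (E3 L3 Proper PosCurv TC)
open Pool.TRG (E2 V3 IC St pt px PerR Iso Per Ann Dfm CPiece HPiece HTube Tro Ang)

theorem RTA_ee0 : (ee 0 : E2) 0 = 1 ∧ (ee 0 : E2) 1 = 0 ∧ (ee 1 : E2) 0 = 0 ∧ (ee 1 : E2) 1 = 1 := by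
  unfold ee
  simp

theorem RTA_px0 (a b : ℝ) : (px a b) 0 = a := by
  unfold px
  obtain ⟨h1, h2, h3, h4⟩ := RTA_ee0
  rw [PiLp.add_apply, PiLp.smul_apply, PiLp.smul_apply, h1, h3]
  simp

theorem RTA_px1 (a b : ℝ) : (px a b) 1 = b := by
  unfold px
  obtain ⟨h1, h2, h3, h4⟩ := RTA_ee0
  rw [PiLp.add_apply, PiLp.smul_apply, PiLp.smul_apply, h2, h4]
  simp

/-- the linear part of `af` -/
noncomputable def RTA_L (δ : ℝ) : E2 →L[ℝ] E2 :=
  ((EuclideanSpace.proj 0 : E2 →L[ℝ] ℝ).smulRight (ee 0)) +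
    ((δ • (EuclideanSpace.proj 1 : E2 →L[ℝ] ℝ)).smulRight (ee 1))

theorem RTA_L_apply (δ : ℝ) (v : E2) : RTA_L δ v = px (v 0) (δ * v 1) := rfl

theorem RTA_af (y δ : ℝ) (x : E2) : af y δ x = RTA_L δ x + y • ee 1 := by
  rw [RTA_L_apply]
  unfold af px
  rw [add_smul]
  abel

theorem RTA_deriv (y δ : ℝ) (x : E2) : HasFDerivAt (af y δ) (RTA_L δ) x := by
  have h : af y δ = fun x => RTA_L δ x + y • ee 1 := funext (RTA_af y δ)
  rw [h]
  exact (RTA_L δ).hasFDerivAt.add_const _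

theorem RTA_smooth (y δ : ℝ) : ContDiff ℝ ω (af y δ) := by
  have h : af y δ = fun x => RTA_L δ x + y • ee 1 := funext (RTA_af y δ)
  rw [h]
  exact (RTA_L δ).contDiff.add contDiff_const

theorem RTA_inj {δ : ℝ} (hδ : δ ≠ 0) : Function.Injective (RTA_L δ) := by
  intro v w h
  rw [RTA_L_apply, RTA_L_apply] at h
  have h0 := congrArg (fun z : E2 => z 0) h
  have h1 := congrArg (fun z : E2 => z 1) h
  simp only [RTA_px0, RTA_px1] at h0 h1
  ext i
  fin_cases i
  · exact h0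
  · exact mul_left_cancel₀ hδ h1

theorem p_RTA : Stmt_RTA := by
  intro S _ _ n f α β Ψ c e1 e2 e3 ρ ζ hn h y δ hδ h1 h2
  have hmaps : ∀ x ∈ St, af y δ x ∈ Wd α β := by
    intro x hx
    have hx' : |x 1| < 1 := hx
    have e : (af y δ x) 1 = y + δ * x 1 := RTA_px1 _ _
    have h3 : |δ * x 1| < |δ| := by
      rw [abs_mul]
      have := mul_lt_mul_of_pos_left hx' (abs_pos.mpr hδ)
      rwa [mul_one] at this
    obtain ⟨h4, h5⟩ := abs_lt.mp h3
    constructor
    · rw [e]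
      linarith
    · rw [e]
      linarith
  have hopen : IsOpen (Wd α β) := by
    have hc : Continuous fun x : E2 => x 1 := (EuclideanSpace.proj 1 : E2 →L[ℝ] ℝ).continuous
    exact (isOpen_lt continuous_const hc).inter (isOpen_lt hc continuous_const)
  have hgm : ContMDiff (𝓡 2) (𝓡 2) n (af y δ) :=
    ((RTA_smooth y δ).of_le (by exact le_top)).contMDiff
  have hn0 : (n : WithTop ℕ∞) ≠ 0 := by
    intro h0
    have : n = 0 := by exact_mod_cast h0
    rw [this] at hn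
    exact absurd hn (by norm_num)
  refine ⟨h.smooth.comp hgm.contMDiffOn hmaps, ?_, ?_⟩
  · intro x hx
    have hΨ : MDifferentiableAt (𝓡 2) (𝓡 2) Ψ (af y δ x) :=
      ((h.smooth _ (hmaps x hx)).contMDiffAt (hopen.mem_nhds (hmaps x hx))).mdifferentiableAt hn0
    have hg : MDifferentiableAt (𝓡 2) (𝓡 2) (af y δ) x := (hgm x).mdifferentiableAt hn0
    have e1 : mfderiv (𝓡 2) (𝓡 2) (fun x => Ψ (af y δ x)) x =
        (mfderiv (𝓡 2) (𝓡 2) Ψ (af y δ x)).comp (mfderiv (𝓡 2) (𝓡 2) (af y δ) x) :=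
      mfderiv_comp x hΨ hg
    have e2 : mfderiv (𝓡 2) (𝓡 2) (af y δ) x = RTA_L δ := by
      rw [mfderiv_eq_fderiv]
      exact (RTA_deriv y δ x).fderiv
    rw [e1, e2]
    exact (h.inj _ (hmaps x hx)).comp (RTA_inj hδ)
  · intro x hx
    have e1 : af y δ (x + (2 * π) • ee 0) = af y δ x + (2 * π) • ee 0 := by
      rw [RTA_af, RTA_af, map_add, map_smul]
      have e2 : RTA_L δ (ee 0) = ee 0 := by
        obtain ⟨a1, a2, a3, a4⟩ := RTA_ee0
        rw [RTA_L_apply, a1, a2]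
        unfold px
        simp
      rw [e2]
      abel
    show Ψ (af y δ (x + (2 * π) • ee 0)) = Ψ (af y δ x)
    rw [e1, h.per _ (hmaps x hx)]

end Pool.PGR
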