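import Pool.Agent.Work.MP_02e829_pg.Interface3

/-!
# MP_02e829_gt, PROPAGATION OF RIGIDITY: block RTF
-/

open Set Filter Manifold Matrix MeasureTheory Metric
open scoped Topology ContDiff Manifold Real

set_option autoImplicit false

universe w

namespace Pool.PGR

open Pool
open Pool.FR (pd ee gg WW DD NN II Ga Gb Imm SO3)
open Pool.SXB (E3 L3 Proper PosCurv TC)
open Pool.TRG (E2 V3 IC St pt px PerR Iso Per Ann Dfm CPiece HPiece HTube Tro Ang)

theorem RTF_px0 (x s : ℝ) : (px x s) 0 = x := by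
  simp [px, ee]

theorem RTF_px1 (x s : ℝ) : (px x s) 1 = s := by
  simp [px, ee]

theorem RTF_px (x : E2) : px (x 0) (x 1) = x := by
  ext i
  fin_cases i
  · exact RTF_px0 _ _
  · exact RTF_px1 _ _

theorem RTF_af1 (y δ : ℝ) (x : E2) : (af y δ x) 1 = y + δ * x 1 := RTF_px1 _ _

theorem RTF_af0 (y δ : ℝ) (x : E2) : (af y δ x) 0 = x 0 := RTF_px0 _ _

theorem RTF_af_inv (y δ : ℝ) (hδ : δ ≠ 0) (u : E2) : af y δ (px (u 0) ((u 1 - y) / δ)) = u := by
  rw [af, RTF_px0, RTF_px1, mul_div_cancel₀ _ hδ]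
  rw [show y + (u 1 - y) = u 1 by ring]
  exact RTF_px u

theorem RTF_Wd_conv (a b : ℝ) : Convex ℝ (Wd a b) := by
  intro x hx z hz s t hs ht hst
  have h : (s • x + t • z) 1 = s * x 1 + t * z 1 := by simp
  refine ⟨?_, ?_⟩
  · rw [h]
    have := (convex_Ioo a b) (x := x 1) ⟨hx.1, hx.2⟩ (y := z 1) ⟨hz.1, hz.2⟩ hs ht hst
    exact this.1
  · rw [h]
    have := (convex_Ioo a b) (x := x 1) ⟨hx.1, hx.2⟩ (y := z 1) ⟨hz.1, hz.2⟩ hs ht hst
    exact this.2

theorem RTF_image (S : Type w) (Ψ : E2 → S) (y δ : ℝ) (hδ : 0 < δ) :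
    (fun x => Ψ (af y δ x)) '' St = Ψ '' Wd (y - δ) (y + δ) := by
  ext q
  constructor
  · rintro ⟨x, hx, rfl⟩
    refine ⟨af y δ x, ?_, rfl⟩
    have h := abs_lt.1 (show |x 1| < 1 from hx)
    constructor
    · rw [RTF_af1]; nlinarith [h.1]
    · rw [RTF_af1]; nlinarith [h.2]
  · rintro ⟨u, hu, rfl⟩
    refine ⟨px (u 0) ((u 1 - y) / δ), ?_, ?_⟩
    · change |(px (u 0) ((u 1 - y) / δ)) 1| < 1
      rw [RTF_px1, abs_lt]
      constructor
      · rw [lt_div_iff₀ hδ]; linarith [hu.1]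
      · rw [div_lt_iff₀ hδ]; linarith [hu.2]
    · simp only [RTF_af_inv y δ hδ.ne']

theorem RTF_image_neg (S : Type w) (Ψ : E2 → S) (y δ : ℝ) (hδ : 0 < δ) :
    (fun x => Ψ (af y (-δ) x)) '' St = Ψ '' Wd (y - δ) (y + δ) := by
  ext q
  constructor
  · rintro ⟨x, hx, rfl⟩
    refine ⟨af y (-δ) x, ?_, rfl⟩
    have h := abs_lt.1 (show |x 1| < 1 from hx)
    constructor
    · rw [RTF_af1]; nlinarith [h.2]
    · rw [RTF_af1]; nlinarith [h.1]
  · rintro ⟨u, hu, rfl⟩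
    refine ⟨px (u 0) ((u 1 - y) / (-δ)), ?_, ?_⟩
    · change |(px (u 0) ((u 1 - y) / (-δ))) 1| < 1
      rw [RTF_px1, div_neg, abs_neg, abs_lt]
      constructor
      · rw [lt_div_iff₀ hδ]; linarith [hu.1]
      · rw [div_lt_iff₀ hδ]; linarith [hu.2]
    · simp only [RTF_af_inv y (-δ) (neg_ne_zero.2 hδ.ne')]

/-- **Block RTF.** -/
theorem p_RTF (hOPE : TRG.Stmt_OPE.{w}) (hRTT : Stmt_RTT.{w}) (hRTH : Stmt_RTH.{w})
    (hRTI : Stmt_RTI) : Stmt_RTF.{w} := by
  intro S _ _ _ n f α β Ψ c e1 e2 e3 ρ ζ hn hf hinj hrot hFO hst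
  have hT := fun y hy => hRTT S n (f 0) α β Ψ c e1 e2 e3 ρ ζ hn hrot y hy (hFO y hy).1 (hFO y hy).2
  have hsub : ∀ a b : ℝ, α ≤ a → b ≤ β → Wd a b ⊆ Wd α β := fun a b ha hb x hx =>
    ⟨lt_of_le_of_lt ha hx.1, lt_of_lt_of_le hx.2 hb⟩
  -- openness
  have hopen : ∀ a b : ℝ, α ≤ a → b ≤ β → IsOpen (Ψ '' Wd a b) := by
    intro a b ha hb
    rw [isOpen_iff_mem_nhds]
    rintro _ ⟨x, hx, rfl⟩
    have hy : x 1 ∈ Ioo α β := hsub a b ha hb hx
    obtain ⟨δ₀, hδ₀, hδ⟩ := hT (x 1) hy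
    set δ := min δ₀ (min (x 1 - a) (b - x 1)) with hδdef
    have hpos : 0 < δ := lt_min hδ₀ (lt_min (by linarith [hx.1]) (by linarith [hx.2]))
    have h1 : δ ≤ x 1 - a := (min_le_right _ _).trans (min_le_left _ _)
    have h2 : δ ≤ b - x 1 := (min_le_right _ _).trans (min_le_right _ _)
    obtain ⟨-, -, hTub⟩ := hδ δ (by rw [abs_of_pos hpos]; exact hpos)
      (by rw [abs_of_pos hpos]; exact min_le_left _ _)
    have hA : Ann 1 (fun z => Ψ (af (x 1) δ z)) := TRG.ann_le hTub.ann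
      (by exact_mod_cast (le_trans (by norm_num) hn))
    have hmem : px (x 0) 0 ∈ St := by
      change |(px (x 0) 0) 1| < 1
      rw [RTF_px1]; simp
    have h3 := hOPE S _ hA (px (x 0) 0) hmem St (TRG.St_open.mem_nhds hmem)
    have h4 : Ψ (af (x 1) δ (px (x 0) 0)) = Ψ x := by
      rw [af, RTF_px0, RTF_px1, mul_zero, add_zero, RTF_px]
    simp only [h4] at h3
    refine Filter.mem_of_superset h3 ?_
    rw [RTF_image S Ψ (x 1) δ hpos]
    apply image_mono
    intro z hz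
    exact ⟨by linarith [hz.1], by linarith [hz.2]⟩
  have hcon : ∀ a b : ℝ, α ≤ a → b ≤ β → IsPreconnected (Ψ '' Wd a b) := by
    intro a b ha hb
    exact (RTF_Wd_conv a b).isPreconnected.image _ (hrot.smooth.continuousOn.mono (hsub a b ha hb))
  have key := hRTI α β (fun a b => α ≤ a ∧ b ≤ β ∧ Reach n f (Ψ '' Wd a b)) ?_ ?_ ?_ ?_
  · obtain ⟨y, hy, hy0, hy2⟩ := hst
    obtain ⟨δ, hδ, hδ1, hδ2, hP⟩ := hRTH S n (f 0) α β Ψ c e1 e2 e3 ρ ζ hn hf hinj hrot y hy hy0 hy2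
    rcases lt_or_gt_of_ne hδ with hneg | hpos
    · rw [abs_of_neg hneg] at hδ1 hδ2
      have him : (fun x => Ψ (af y δ x)) '' {x | x ∈ St ∧ 0 < x 1} = Ψ '' Wd (y + δ) y := by
        ext q
        constructor
        · rintro ⟨x, ⟨hx, hx0⟩, rfl⟩
          refine ⟨af y δ x, ?_, rfl⟩
          have h := abs_lt.1 (show |x 1| < 1 from hx)
          constructor
          · rw [RTF_af1]; nlinarith [h.2]
          · rw [RTF_af1]; nlinarith
        · rintro ⟨u, hu, rfl⟩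
          refine ⟨px (u 0) ((u 1 - y) / δ), ⟨?_, ?_⟩, ?_⟩
          · change |(px (u 0) ((u 1 - y) / δ)) 1| < 1
            rw [RTF_px1, abs_lt]
            constructor
            · rw [lt_div_iff_of_neg hneg]; linarith [hu.2]
            · rw [div_lt_iff_of_neg hneg]; linarith [hu.1]
          · rw [RTF_px1]
            exact div_pos_of_neg_of_neg (by linarith [hu.2]) hneg
          · simp only [RTF_af_inv y δ hδ]
      refine (key (y + δ) y (by linarith) (by linarith) hy.2.le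
        ⟨by linarith, hy.2.le, ?_⟩).2.2
      rw [← him]
      exact Reach.hyperbolic _ hP
    · rw [abs_of_pos hpos] at hδ1 hδ2
      have him : (fun x => Ψ (af y δ x)) '' {x | x ∈ St ∧ 0 < x 1} = Ψ '' Wd y (y + δ) := by
        ext q
        constructor
        · rintro ⟨x, ⟨hx, hx0⟩, rfl⟩
          refine ⟨af y δ x, ?_, rfl⟩
          have h := abs_lt.1 (show |x 1| < 1 from hx)
          constructor
          · rw [RTF_af1]; nlinarith
          · rw [RTF_af1]; nlinarith [h.2]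
        · rintro ⟨u, hu, rfl⟩
          refine ⟨px (u 0) ((u 1 - y) / δ), ⟨?_, ?_⟩, ?_⟩
          · change |(px (u 0) ((u 1 - y) / δ)) 1| < 1
            rw [RTF_px1, abs_lt]
            constructor
            · rw [lt_div_iff₀ hpos]; linarith [hu.1]
            · rw [div_lt_iff₀ hpos]; linarith [hu.2]
          · rw [RTF_px1]
            exact div_pos (by linarith [hu.1]) hpos
          · simp only [RTF_af_inv y δ hδ]
      refine (key y (y + δ) hy.1.le (by linarith) (by linarith)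
        ⟨hy.1.le, by linarith, ?_⟩).2.2
      rw [← him]
      exact Reach.hyperbolic _ hP
  · -- monotonicity
    rintro a a' b' b haa hab hbb ⟨h1, h2, h3⟩
    refine ⟨h1.trans haa, hbb.trans h2, ?_⟩
    refine Reach.glue {Ψ '' Wd a b} _ ?_ (hopen _ _ (h1.trans haa) (hbb.trans h2))
      (hcon _ _ (h1.trans haa) (hbb.trans h2)) ?_
    · rintro C rfl
      exact h3
    · rw [sUnion_singleton]
      refine subset_trans ?_ subset_closure
      apply image_mono
      intro z hz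
      exact ⟨lt_of_le_of_lt haa hz.1, lt_of_lt_of_le hz.2 hbb⟩
  · -- chain
    intro a b hab h
    have h1 : α ≤ a := by
      by_contra hc
      push Not at hc
      obtain ⟨a', ha1, ha2⟩ := exists_between (lt_min hc hab)
      obtain ⟨b', hb1, hb2⟩ := exists_between (ha2.trans_le (min_le_right _ _))
      have := (h a' b' ha1 hb1 hb2).1
      linarith [ha2.trans_le (min_le_left _ _)]
    have h2 : b ≤ β := by
      by_contra hc
      push Not at hc
      obtain ⟨b', hb1, hb2⟩ := exists_between (max_lt hc hab)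
      obtain ⟨a', ha1, ha2⟩ := exists_between ((le_max_right _ _).trans_lt hb1)
      have := (h a' b' ha1 ha2 hb2).2.1
      linarith [(le_max_left _ _).trans_lt hb1]
    refine ⟨h1, h2, ?_⟩
    refine Reach.glue {C | ∃ a' b', a < a' ∧ a' < b' ∧ b' < b ∧ C = Ψ '' Wd a' b'} _ ?_
      (hopen _ _ h1 h2) (hcon _ _ h1 h2) ?_
    · rintro C ⟨a', b', h3, h4, h5, rfl⟩
      exact (h a' b' h3 h4 h5).2.2
    · refine subset_trans ?_ subset_closure
      rintro _ ⟨x, hx, rfl⟩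
      obtain ⟨a', ha1, ha2⟩ := exists_between hx.1
      obtain ⟨b', hb1, hb2⟩ := exists_between hx.2
      exact ⟨Ψ '' Wd a' b', ⟨a', b', ha1, ha2.trans hb1, hb2, rfl⟩, x, ⟨ha2, hb1⟩, rfl⟩
  · -- union
    rintro a a' b b' haa hab hbb ⟨h1, h2, h3⟩ ⟨h4, h5, h6⟩
    refine ⟨h1, h5, ?_⟩
    refine Reach.glue {Ψ '' Wd a b, Ψ '' Wd a' b'} _ ?_ (hopen _ _ h1 h5) (hcon _ _ h1 h5) ?_
    · rintro C (rfl | rfl)
      · exact h3
      · exact h6
    · refine subset_trans ?_ subset_closure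
      rintro _ ⟨x, hx, rfl⟩
      rcases lt_or_ge (x 1) b with h7 | h7
      · exact ⟨Ψ '' Wd a b, by simp, x, ⟨hx.1, h7⟩, rfl⟩
      · exact ⟨Ψ '' Wd a' b', by simp, x, ⟨hab.trans_le h7, hx.2⟩, rfl⟩
  · -- extension
    intro y hy
    obtain ⟨δ₀, hδ₀, hδ⟩ := hT y hy
    refine ⟨δ₀, hδ₀, fun δ hδ1 hδ2 => ?_⟩
    obtain ⟨h1, h2, hTub⟩ := hδ δ (by rw [abs_of_pos hδ1]; exact hδ1)
      (by rw [abs_of_pos hδ1]; exact hδ2)
    obtain ⟨-, -, hTub'⟩ := hδ (-δ) (by rw [abs_neg, abs_of_pos hδ1]; exact hδ1)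
      (by rw [abs_neg, abs_of_pos hδ1]; exact hδ2)
    rw [abs_of_pos hδ1] at h1 h2
    constructor
    · rintro ⟨-, -, h5⟩
      refine ⟨h1, h2, ?_⟩
      have h6 := Reach.tube (Ψ '' Wd (y - δ) y) _ h5 hTub (fun x hx hx0 => by
        refine ⟨af y δ x, ?_, rfl⟩
        have h := abs_lt.1 (show |x 1| < 1 from hx)
        constructor
        · rw [RTF_af1]; nlinarith [h.1]
        · rw [RTF_af1]; nlinarith)
      rwa [RTF_image S Ψ y δ hδ1] at h6
    · rintro ⟨-, -, h5⟩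
      refine ⟨h1, h2, ?_⟩
      have h6 := Reach.tube (Ψ '' Wd y (y + δ)) _ h5 hTub' (fun x hx hx0 => by
        refine ⟨af y (-δ) x, ?_, rfl⟩
        have h := abs_lt.1 (show |x 1| < 1 from hx)
        constructor
        · rw [RTF_af1]; nlinarith
        · rw [RTF_af1]; nlinarith [h.1])
      rwa [RTF_image_neg S Ψ y δ hδ1] at h6

end Pool.PGR
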