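import Pool.Agent.Work.MP_02e829_pg.Interface3

/-!
# MP_02e829_gt, PROPAGATION OF RIGIDITY: block RTH
-/

open Set Filter Manifold Matrix MeasureTheory Metric
open scoped Topology ContDiff Manifold Real

set_option autoImplicit false

universe w

namespace Pool.PGR

open Pool
open Pool.FR (pd ee gg WW DD NN II Ga Gb Imm SO3)
open Pool.SXB (E3 L3 Proper PosCurv TC)
open Pool.TRG (E2 V3 IC St pt px PerR Iso Per Ann Dfm CPiece HPiece HTube Tro Ang)

theorem RTH_px0 (x s : ℝ) : (px x s) 0 = x := by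
  simp [px, ee]

theorem RTH_px1 (x s : ℝ) : (px x s) 1 = s := by
  simp [px, ee]

theorem RTH_pt0 (x : ℝ) : (pt x) 0 = x := by
  simp [pt, ee]

theorem RTH_pt1 (x : ℝ) : (pt x) 1 = 0 := by
  simp [pt, ee]

theorem RTH_mem {α β y δ : ℝ} (hδ : δ ≠ 0) (h1 : α ≤ y - |δ|) (h2 : y + |δ| ≤ β) {x : E2}
    (hx : x ∈ St) : af y δ x ∈ Wd α β := by
  have h : |δ * x 1| < |δ| := by
    rw [abs_mul]
    exact mul_lt_of_lt_one_right (abs_pos.2 hδ) hx
  have h3 := abs_lt.1 h
  have h4 : (af y δ x) 1 = y + δ * x 1 := RTH_px1 _ _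
  constructor
  · rw [h4]; linarith [h3.1]
  · rw [h4]; linarith [h3.2]

/-- a vector orthogonal to the three basis vectors -/
theorem RTH_zero {e1 e2 e3 n : E3} (hort : Orthonormal ℝ ![e1, e2, e3])
    (h1 : inner ℝ e1 n = 0) (h2 : inner ℝ e2 n = 0) (h3 : inner ℝ e3 n = 0) : n = 0 := by
  have hspan : Submodule.span ℝ (Set.range ![e1, e2, e3]) = ⊤ := by
    apply hort.linearIndependent.span_eq_top_of_card_eq_finrank
    simp
  have h4 : n ∈ (Submodule.span ℝ (Set.range ![e1, e2, e3]))ᗮ := by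
    rw [Submodule.mem_orthogonal]
    intro u hu
    induction hu using Submodule.span_induction with
    | mem x hx =>
      obtain ⟨i, rfl⟩ := hx
      fin_cases i
      · exact h1
      · exact h2
      · exact h3
    | zero => simp
    | add x y _ _ hx hy => rw [inner_add_left, hx, hy, add_zero]
    | smul a x _ hx => rw [real_inner_smul_left, hx, mul_zero]
  rw [hspan, Submodule.top_orthogonal_eq_bot, Submodule.mem_bot] at h4
  exact h4

/-- the sign of the product of the normal curvatures -/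
theorem RTH_sign {δ R R1 R2 Z1 Z2 C D a b g : ℝ} (hδ : δ ≠ 0) (hR : 0 < R)
    (hCD : C ^ 2 + D ^ 2 = 1) (h0 : -(R * D) * a + R * C * b = 0)
    (h1 : δ * R1 * C * a + δ * R1 * D * b + δ * Z1 * g = 0)
    (hk : Z1 * (R1 * Z2 - R2 * Z1) < 0) (hn : ¬ (a = 0 ∧ b = 0 ∧ g = 0)) :
    (-(R * C) * a - R * D * b) *
      (δ ^ 2 * R2 * C * a + δ ^ 2 * R2 * D * b + δ ^ 2 * Z2 * g) < 0 := by
  have hZ1 : Z1 ≠ 0 := by
    rintro rfl
    simp at hk
  have h0' : -(D * a) + C * b = 0 := by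
    have : R * (-(D * a) + C * b) = 0 := by linarith
    rcases mul_eq_zero.1 this with h | h
    · exact absurd h hR.ne'
    · exact h
  set u : ℝ := C * a + D * b with hu
  have h1' : R1 * u + Z1 * g = 0 := by
    have : δ * (R1 * u + Z1 * g) = 0 := by rw [hu]; linarith
    rcases mul_eq_zero.1 this with h | h
    · exact absurd h hδ
    · exact h
  have hu0 : u ≠ 0 := by
    intro h
    rw [h, mul_zero, zero_add] at h1'
    have hg : g = 0 := by
      rcases mul_eq_zero.1 h1' with h | h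
      · exact absurd h hZ1
      · exact h
    apply hn
    refine ⟨?_, ?_, hg⟩
    · have : a = C * (C * a + D * b) - D * (-(D * a) + C * b) := by
        linear_combination (-a) * hCD
      rw [this, h0', ← hu, h]
      ring
    · have : b = D * (C * a + D * b) + C * (-(D * a) + C * b) := by
        linear_combination (-b) * hCD
      rw [this, h0', ← hu, h]
      ring
  have hmain : Z1 ^ 2 * (u * (R2 * u + Z2 * g)) = -(u ^ 2 * (Z1 * (R1 * Z2 - R2 * Z1))) := by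
    linear_combination (Z1 * Z2 * u) * h1'
  have hpos : 0 < Z1 ^ 2 * (u * (R2 * u + Z2 * g)) := by
    rw [hmain]
    have : 0 < u ^ 2 := by positivity
    nlinarith
  have hpos2 : 0 < u * (R2 * u + Z2 * g) := by
    have : 0 < Z1 ^ 2 := by positivity
    exact (mul_pos_iff_of_pos_left this).1 hpos
  have hfin : (-(R * C) * a - R * D * b) *
      (δ ^ 2 * R2 * C * a + δ ^ 2 * R2 * D * b + δ ^ 2 * Z2 * g)
      = -(R * δ ^ 2 * (u * (R2 * u + Z2 * g))) := by
    rw [hu]; ring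
  rw [hfin, neg_lt_zero]
  have : 0 < δ ^ 2 := by positivity
  positivity

/-- **Block RTH.** -/
theorem p_RTH (hCHN : TRG.Stmt_CHN.{w}) (hRTP : Stmt_RTP) (hRTA : Stmt_RTA.{w}) :
    Stmt_RTH.{w} := by
  intro S _ _ _ n f α β Ψ c e1 e2 e3 ρ ζ hn hf hinj hrot y hy hz hzz
  have hn2 : (2 : WithTop ℕ∞) ≤ (n : WithTop ℕ∞) :=
    le_of_eq_of_le rfl (WithTop.coe_le_coe.2 (le_trans (by norm_num) hn : (2 : ℕ∞) ≤ n))
  have hn4 : (4 : WithTop ℕ∞) ≤ (n : WithTop ℕ∞) :=
    le_of_eq_of_le rfl (WithTop.coe_le_coe.2 hn)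
  have hn1 : (1 : ℕ∞) ≤ n := le_trans (by norm_num) hn
  have hρ : ContDiffOn ℝ 2 ρ (Ioo α β) := hrot.sρ.of_le hn2
  have hζ : ContDiffOn ℝ 2 ζ (Ioo α β) := hrot.sζ.of_le hn2
  have hyn : Ioo α β ∈ 𝓝 y := isOpen_Ioo.mem_nhds hy
  have hρ1 : ContDiffOn ℝ 1 (deriv ρ) (Ioo α β) := hρ.deriv_of_isOpen isOpen_Ioo (by norm_num)
  have hζ1 : ContDiffOn ℝ 1 (deriv ζ) (Ioo α β) := hζ.deriv_of_isOpen isOpen_Ioo (by norm_num)
  have hρ2 : ContDiffOn ℝ 0 (deriv (deriv ρ)) (Ioo α β) :=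
    hρ1.deriv_of_isOpen isOpen_Ioo (by norm_num)
  have hζ2 : ContDiffOn ℝ 0 (deriv (deriv ζ)) (Ioo α β) :=
    hζ1.deriv_of_isOpen isOpen_Ioo (by norm_num)
  have c1 : ContinuousAt (deriv ρ) y := hρ1.continuousOn.continuousAt hyn
  have c2 : ContinuousAt (deriv ζ) y := hζ1.continuousOn.continuousAt hyn
  have c3 : ContinuousAt (deriv (deriv ρ)) y := hρ2.continuousOn.continuousAt hyn
  have c4 : ContinuousAt (deriv (deriv ζ)) y := hζ2.continuousOn.continuousAt hyn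
  have hkc : ContinuousAt (kr ρ ζ) y := (c1.mul c4).sub (c3.mul c2)
  have i12 : inner ℝ e1 e2 = 0 := hrot.ort.2 (i := 0) (j := 1) (by decide)
  have i13 : inner ℝ e1 e3 = 0 := hrot.ort.2 (i := 0) (j := 2) (by decide)
  have i23 : inner ℝ e2 e3 = 0 := hrot.ort.2 (i := 1) (j := 2) (by decide)
  have i31 : inner ℝ e3 e1 = 0 := hrot.ort.2 (i := 2) (j := 0) (by decide)
  have i32 : inner ℝ e3 e2 = 0 := hrot.ort.2 (i := 2) (j := 1) (by decide)
  have i33 : inner ℝ e3 e3 = (1 : ℝ) := by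
    have h : ‖e3‖ = 1 := hrot.ort.1 2
    rw [real_inner_self_eq_norm_sq, h]
    norm_num
  -- the coordinates
  have hFG : ∀ δ : ℝ, δ ≠ 0 → α ≤ y - |δ| → y + |δ| ≤ β → ∀ x ∈ St,
      (fun x => f (Ψ (af y δ x))) x = (fun z => rev c e1 e2 e3 ρ ζ (af y δ z)) x :=
    fun δ hδ h1 h2 x hx => hrot.eq _ (RTH_mem hδ h1 h2 hx)
  -- the profile is not horizontal
  have hρy : deriv ρ y ≠ 0 := by
    intro h
    set d := min (y - α) (β - y) with hd
    have hd0 : 0 < d := lt_min (by linarith [hy.1]) (by linarith [hy.2])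
    have hd1 : α ≤ y - |d| := by
      rw [abs_of_pos hd0]; linarith [min_le_left (y - α) (β - y)]
    have hd2 : y + |d| ≤ β := by
      rw [abs_of_pos hd0]; linarith [min_le_right (y - α) (β - y)]
    have hA : Ann 1 (fun x => Ψ (af y d x)) := TRG.ann_le
      (hRTA S n f α β Ψ c e1 e2 e3 ρ ζ hn1 hrot y d hd0.ne' hd1 hd2) (by exact_mod_cast hn1)
    have hmem := TRG.pt_mem 0
    have h1 := hCHN S f hf _ hA (pt 0) hmem (ee 1)
    have h2 : pd 1 (fun x => f (Ψ (af y d x))) (pt 0)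
        = pd 1 (fun z => rev c e1 e2 e3 ρ ζ (af y d z)) (pt 0) :=
      FR.pd_congr TRG.St_open (hFG d hd0.ne' hd1 hd2) 1 hmem
    have h3 := (hRTP α β y d c e1 e2 e3 ρ ζ hρ hζ hd1 hd2 (pt 0) hmem).2.1
    rw [RTH_pt1, mul_zero, add_zero, h, hz] at h3
    simp only [mul_zero, zero_mul, zero_smul, add_zero] at h3
    have h4 : FRD.dvec f (Ψ (af y d (pt 0)))
        (mfderiv (𝓡 2) (𝓡 2) (fun x => Ψ (af y d x)) (pt 0) (ee 1)) = 0 := by
      rw [← h1]
      exact h2.trans h3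
    have h5 : FRD.dvec f (Ψ (af y d (pt 0))) 0 = 0 := by
      simp [FRD.dvec]
    have h6 := hinj _ (h4.trans h5.symm)
    have h7 : mfderiv (𝓡 2) (𝓡 2) (fun x => Ψ (af y d x)) (pt 0) (ee 1)
        = mfderiv (𝓡 2) (𝓡 2) (fun x => Ψ (af y d x)) (pt 0) (0 : E2) := by
      rw [h6]
      exact (map_zero (mfderiv (𝓡 2) (𝓡 2) (fun x => Ψ (af y d x)) (pt 0))).symm
    have h8 : (ee 1 : E2) = 0 := hA.reg _ hmem h7
    have h9 := congrArg (fun v : E2 => v 1) h8
    simp [ee] at h9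
  -- the sign of `ζ' k` near `y`
  obtain ⟨ε, hε, hsg⟩ : ∃ ε : ℝ, 0 < ε ∧ ∀ s : ℝ, |s - y| < ε → s ≠ y →
      0 < (s - y) * (deriv ζ s * kr ρ ζ s) * deriv ρ y := by
    have hd : HasDerivAt (deriv ζ) (deriv (deriv ζ) y) y :=
      ((hζ1.contDiffAt hyn).differentiableAt (by norm_num)).hasDerivAt
    have h1 := hasDerivAt_iff_tendsto_slope.1 hd
    have h2 : Tendsto (fun s => slope (deriv ζ) y s * kr ρ ζ s * deriv ρ y) (𝓝[≠] y)
        (𝓝 (deriv (deriv ζ) y * kr ρ ζ y * deriv ρ y)) :=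
      (h1.mul (hkc.tendsto.mono_left nhdsWithin_le_nhds)).mul_const _
    have h3 : 0 < deriv (deriv ζ) y * kr ρ ζ y * deriv ρ y := by
      rw [kr, hz]
      have : deriv (deriv ζ) y * (deriv ρ y * deriv (deriv ζ) y - deriv (deriv ρ) y * 0) *
          deriv ρ y = (deriv (deriv ζ) y * deriv ρ y) ^ 2 := by ring
      rw [this]
      have := mul_ne_zero hzz hρy
      positivity
    have h4 := h2.eventually (lt_mem_nhds h3)
    rw [eventually_nhdsWithin_iff, Metric.eventually_nhds_iff] at h4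
    obtain ⟨ε, hε, h5⟩ := h4
    refine ⟨ε, hε, fun s hs hsy => ?_⟩
    have h6 := h5 (by rwa [Real.dist_eq]) hsy
    rw [slope_def_field, hz, sub_zero] at h6
    have h7 : s - y ≠ 0 := sub_ne_zero.2 hsy
    have h8 : (s - y) * (deriv ζ s * kr ρ ζ s) * deriv ρ y
        = (s - y) ^ 2 * (deriv ζ s / (s - y) * kr ρ ζ s * deriv ρ y) := by
      field_simp
    rw [h8]
    have : 0 < (s - y) ^ 2 := by positivity
    positivity
  -- the choice of `δ`
  set d := min ε (min (y - α) (β - y)) with hd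
  have hd0 : 0 < d := lt_min hε (lt_min (by linarith [hy.1]) (by linarith [hy.2]))
  have hdε : d ≤ ε := min_le_left _ _
  have hdα : d ≤ y - α := (min_le_right _ _).trans (min_le_left _ _)
  have hdβ : d ≤ β - y := (min_le_right _ _).trans (min_le_right _ _)
  obtain ⟨δ, hδabs, hδρ⟩ : ∃ δ : ℝ, |δ| = d ∧ δ * deriv ρ y < 0 := by
    rcases lt_or_gt_of_ne hρy with h | h
    · exact ⟨d, abs_of_pos hd0, mul_neg_of_pos_of_neg hd0 h⟩
    · exact ⟨-d, by rw [abs_neg, abs_of_pos hd0], mul_neg_of_neg_of_pos (by linarith) h⟩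
  have hδ : δ ≠ 0 := by
    rintro rfl
    simp at hδρ
  have hd1 : α ≤ y - |δ| := by rw [hδabs]; linarith
  have hd2 : y + |δ| ≤ β := by rw [hδabs]; linarith
  refine ⟨δ, hδ, hd1, hd2, ?_⟩
  have hcoord := hFG δ hδ hd1 hd2
  have p0 : ∀ x ∈ St, pd 0 (fun x => f (Ψ (af y δ x))) x
      = pd 0 (fun z => rev c e1 e2 e3 ρ ζ (af y δ z)) x :=
    fun x hx => FR.pd_congr TRG.St_open hcoord 0 hx
  have p1 : ∀ x ∈ St, pd 1 (fun x => f (Ψ (af y δ x))) x
      = pd 1 (fun z => rev c e1 e2 e3 ρ ζ (af y δ z)) x :=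
    fun x hx => FR.pd_congr TRG.St_open hcoord 1 hx
  have p00 : ∀ x ∈ St, pd 0 (pd 0 (fun x => f (Ψ (af y δ x)))) x
      = pd 0 (pd 0 (fun z => rev c e1 e2 e3 ρ ζ (af y δ z))) x :=
    fun x hx => FR.pd_congr TRG.St_open p0 0 hx
  have p11 : ∀ x ∈ St, pd 1 (pd 1 (fun x => f (Ψ (af y δ x)))) x
      = pd 1 (pd 1 (fun z => rev c e1 e2 e3 ρ ζ (af y δ z))) x :=
    fun x hx => FR.pd_congr TRG.St_open p1 1 hx
  have hP := hRTP α β y δ c e1 e2 e3 ρ ζ hρ hζ hd1 hd2
  refine ⟨fun x => Ψ (af y δ x), e1, e2, fun x => x + π / 2, ?_, ?_, rfl⟩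
  · refine ⟨?_, ?_, ?_, ?_, ?_, ?_⟩
    · exact TRG.ann_le (hRTA S n f α β Ψ c e1 e2 e3 ρ ζ hn1 hrot y δ hδ hd1 hd2) hn4
    · refine ⟨by fun_prop, fun x => ?_, fun x => by ring⟩
      simp
    · have h := hrot.ort.comp (![0, 1] : Fin 2 → Fin 3) (by decide)
      have h2 : ![e1, e2, e3] ∘ (![0, 1] : Fin 2 → Fin 3) = ![e1, e2] := by
        ext i : 1
        fin_cases i <;> rfl
      rwa [h2] at h
    · intro x
      have hmem := TRG.pt_mem x
      refine ⟨ρ y, hrot.pos y hy, ?_⟩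
      rw [p0 _ hmem, (hP _ hmem).1, RTH_pt0, RTH_pt1, mul_zero, add_zero,
        Real.cos_add_pi_div_two, Real.sin_add_pi_div_two, smul_add, smul_smul, smul_smul]
      simp only [mul_neg]
    · intro x
      have hmem := TRG.pt_mem x
      refine ⟨0, -(δ * deriv ρ y), by linarith, ?_⟩
      rw [p1 _ hmem, (hP _ hmem).2.1, RTH_pt0, RTH_pt1, mul_zero, add_zero, hz,
        Real.cos_add_pi_div_two, Real.sin_add_pi_div_two]
      module
    · intro x hmemspan
      have hmem := TRG.pt_mem x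
      rw [p11 _ hmem, (hP _ hmem).2.2.2.2, RTH_pt0, RTH_pt1, mul_zero, add_zero] at hmemspan
      obtain ⟨a, b, hab⟩ := Submodule.mem_span_pair.1 hmemspan
      have h := congrArg (fun v => inner ℝ e3 v) hab
      simp only [inner_add_right, real_inner_smul_right, i31, i32, i33, mul_zero, add_zero,
        mul_one, zero_add] at h
      have h2 : δ ^ 2 * deriv (deriv ζ) y ≠ 0 := mul_ne_zero (pow_ne_zero 2 hδ) hzz
      exact h2 h.symm
  · intro x hx hx1 m hm hm0 hm1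
    rw [p0 _ hx, (hP _ hx).1] at hm0
    rw [p1 _ hx, (hP _ hx).2.1] at hm1
    rw [p00 _ hx, p11 _ hx, (hP _ hx).2.2.1, (hP _ hx).2.2.2.2]
    simp only [inner_add_left, inner_sub_left, real_inner_smul_left] at hm0 hm1 ⊢
    set s := y + δ * x 1 with hs
    have hsy : s - y = δ * x 1 := by rw [hs]; ring
    have hsne : s ≠ y := by
      intro h
      rw [h, sub_self] at hsy
      rcases mul_eq_zero.1 hsy.symm with h | h
      · exact hδ h
      · exact hx1.ne' h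
    have habs : |s - y| < ε := by
      rw [hsy, abs_mul]
      calc |δ| * |x 1| < |δ| * 1 := mul_lt_mul_of_pos_left hx (abs_pos.2 hδ)
        _ ≤ ε := by rw [mul_one, hδabs]; exact hdε
    have h1 := hsg s habs hsne
    have h2 : deriv ζ s * kr ρ ζ s < 0 := by
      rw [hsy] at h1
      have h3 : δ * x 1 * (deriv ζ s * kr ρ ζ s) * deriv ρ y
          = (deriv ζ s * kr ρ ζ s) * (x 1 * (δ * deriv ρ y)) := by ring
      rw [h3] at h1
      have h4 : x 1 * (δ * deriv ρ y) < 0 := mul_neg_of_pos_of_neg hx1 hδρ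
      by_contra h5
      push Not at h5
      have := mul_nonpos_of_nonneg_of_nonpos h5 h4.le
      linarith
    have hmemW := RTH_mem hδ hd1 hd2 hx
    have hRpos : 0 < ρ s := by
      apply hrot.pos
      have h4 : (af y δ x) 1 = s := RTH_px1 _ _
      exact ⟨by have := hmemW.1; rwa [h4] at this, by have := hmemW.2; rwa [h4] at this⟩
    have hfin := RTH_sign (δ := δ) (R := ρ s) (R1 := deriv ρ s) (R2 := deriv (deriv ρ) s)
      (Z1 := deriv ζ s) (Z2 := deriv (deriv ζ) s) (C := Real.cos (x 0)) (D := Real.sin (x 0))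
      (a := inner ℝ e1 m) (b := inner ℝ e2 m) (g := inner ℝ e3 m) hδ hRpos
      (Real.cos_sq_add_sin_sq _) (by linarith [hm0]) (by linarith [hm1])
      (by rw [kr] at h2; linarith [h2]) (fun h => hm (RTH_zero hrot.ort h.1 h.2.1 h.2.2))
    linarith [hfin]

end Pool.PGR
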