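import Pool.Agent.Work.MP_02e829_pg.Interface3

/-!
# MP_02e829_gt, PROPAGATION OF RIGIDITY: block RTI (intervals)
-/

open Set Filter Manifold Matrix MeasureTheory Metric
open scoped Topology ContDiff Manifold Real

set_option autoImplicit false

universe w

namespace Pool.PGR

/-- extension to the right -/
theorem RTI_right (α β : ℝ) (R : ℝ → ℝ → Prop)
    (hm : ∀ a a' b' b, a ≤ a' → a' < b' → b' ≤ b → R a b → R a' b')
    (hc : ∀ a b, a < b → (∀ a' b', a < a' → a' < b' → b' < b → R a' b') → R a b)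
    (hu : ∀ a a' b b', a ≤ a' → a' < b → b ≤ b' → R a b → R a' b' → R a b')
    (he : ∀ y ∈ Ioo α β, ∃ δ₀ : ℝ, 0 < δ₀ ∧ ∀ δ : ℝ, 0 < δ → δ ≤ δ₀ →
      R (y - δ) y → R (y - δ) (y + δ)) (a0 b0 : ℝ) (h1 : α ≤ a0) (h2 : a0 < b0) (h3 : b0 ≤ β)
    (h4 : R a0 b0) : R a0 β := by
  set T : Set ℝ := {b | b0 ≤ b ∧ b ≤ β ∧ R a0 b} with hT
  have hb0 : b0 ∈ T := ⟨le_refl _, h3, h4⟩
  have hbdd : BddAbove T := ⟨β, fun b hb => hb.2.1⟩
  have hs1 : b0 ≤ sSup T := le_csSup hbdd hb0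
  have hs2 : sSup T ≤ β := csSup_le ⟨b0, hb0⟩ (fun b hb => hb.2.1)
  have hs3 : R a0 (sSup T) := by
    apply hc a0 (sSup T) (lt_of_lt_of_le h2 hs1)
    intro a' b' ha hab hb
    obtain ⟨b, hbT, hb'⟩ := exists_lt_of_lt_csSup ⟨b0, hb0⟩ hb
    exact hm a0 a' b' b ha.le hab hb'.le hbT.2.2
  rcases hs2.lt_or_eq with hlt | heq
  · exfalso
    have ha : a0 < sSup T := lt_of_lt_of_le h2 hs1
    obtain ⟨δ₀, hδ0, hδ⟩ := he (sSup T) ⟨lt_of_le_of_lt h1 ha, hlt⟩
    set δ := min δ₀ (min (sSup T - a0) (β - sSup T)) with hδdef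
    have hδpos : 0 < δ := lt_min hδ0 (lt_min (by linarith) (by linarith))
    have hδ1 : δ ≤ δ₀ := min_le_left _ _
    have hδ2 : δ ≤ sSup T - a0 := (min_le_right _ _).trans (min_le_left _ _)
    have hδ3 : δ ≤ β - sSup T := (min_le_right _ _).trans (min_le_right _ _)
    have g1 : R (sSup T - δ) (sSup T) :=
      hm a0 (sSup T - δ) (sSup T) (sSup T) (by linarith) (by linarith) le_rfl hs3
    have g2 := hδ δ hδpos hδ1 g1
    have g3 : R a0 (sSup T + δ) :=
      hu a0 (sSup T - δ) (sSup T) (sSup T + δ) (by linarith) (by linarith) (by linarith) hs3 g2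
    have g4 : sSup T + δ ∈ T := ⟨by linarith, by linarith, g3⟩
    have g5 := le_csSup hbdd g4
    linarith
  · rw [← heq]
    exact hs3

theorem p_RTI : Stmt_RTI := by
  intro α β R hm hc hu he a0 b0 h1 h2 h3 h4
  have hr : R a0 β := RTI_right α β R hm hc hu
    (fun y hy => by
      obtain ⟨δ₀, hδ0, hδ⟩ := he y hy
      exact ⟨δ₀, hδ0, fun δ hδ1 hδ2 => (hδ δ hδ1 hδ2).1⟩) a0 b0 h1 h2 h3 h4
  have hl := RTI_right (-β) (-α) (fun a b => R (-b) (-a)) ?_ ?_ ?_ ?_ (-β) (-a0) le_rfl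
    (by linarith) (by linarith) (by
      show R (-(-a0)) (-(-β))
      rw [neg_neg, neg_neg]
      exact hr)
  · have hl' : R (-(-α)) (-(-β)) := hl
    rwa [neg_neg, neg_neg] at hl'
  · intro a a' b' b ha hab hb h
    exact hm (-b) (-b') (-a') (-a) (by linarith) (by linarith) (by linarith) h
  · intro a b hab h
    show R (-b) (-a)
    apply hc (-b) (-a) (by linarith)
    intro a' b' g1 g2 g3
    have g4 := h (-b') (-a') (by linarith) (by linarith) (by linarith)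
    have g5 : R (-(-a')) (-(-b')) := g4
    rwa [neg_neg, neg_neg] at g5
  · intro a a' b b' g1 g2 g3 g4 g5
    exact hu (-b') (-b) (-a') (-a) (by linarith) (by linarith) (by linarith) g5 g4
  · intro y hy
    obtain ⟨δ₀, hδ0, hδ⟩ := he (-y) ⟨by linarith [hy.2], by linarith [hy.1]⟩
    refine ⟨δ₀, hδ0, fun δ hδ1 hδ2 hR => ?_⟩
    have g1 : R (-y) (-(y - δ)) := hR
    show R (-(y + δ)) (-(y - δ))
    have e1 : -(y - δ) = -y + δ := by ring
    have e2 : -(y + δ) = -y - δ := by ring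
    rw [e1] at g1
    rw [e1, e2]
    exact (hδ δ hδ1 hδ2).2 g1

end Pool.PGR
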