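import Pool.Agent.Work.MP_02e829_pg.Interface3

open Set Filter Manifold Matrix MeasureTheory Metric
open scoped Topology ContDiff Manifold Real

set_option autoImplicit false

namespace Pool.PGR

theorem p_RTN : Stmt_RTN := by
  intro α β y ρ ζ U V p r hy hρ hζ hU hV hV0 hzU hkV
  by_contra hpr
  push Not at hpr
  obtain ⟨k, rfl⟩ : ∃ k, p = r + 2 + k := ⟨p - (r + 2), by omega⟩
  have hyn : Ioo α β ∈ 𝓝 y := Ioo_mem_nhds hy.1 hy.2
  have hρy : ContDiffAt ℝ 2 ρ y := hρ.contDiffAt hyn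
  have hρ1 : ContDiffAt ℝ 1 (deriv ρ) y := by
    have h := (hρy.fderiv_right (m := 1) (by norm_num)).clm_apply
      (contDiffAt_const (c := (1 : ℝ)))
    exact h
  have hc1 : ContinuousAt (deriv ρ) y := hρ1.continuousAt
  have hder : ∀ g : ℝ → ℝ, ContDiffAt ℝ 1 g y → ContinuousAt (deriv g) y := by
    intro g hg
    have h := (hg.fderiv_right (m := 0) (by norm_num)).clm_apply
      (contDiffAt_const (c := (1 : ℝ)))
    exact h.continuousAt
  have hc2 : ContinuousAt (deriv (deriv ρ)) y := hder _ hρ1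
  have hcU : ContinuousAt U y := hU.continuousAt
  have hcU1 : ContinuousAt (deriv U) y := hder _ hU
  have hUd : ∀ᶠ s in 𝓝 y, DifferentiableAt ℝ U s := by
    have h := hU.eventually (by simp)
    filter_upwards [h] with s hs
    exact hs.differentiableAt (by norm_num)
  have hdd : ∀ᶠ s in 𝓝 y, deriv (deriv ζ) s =
      ((r + 2 + k : ℕ) : ℝ) * (s - y) ^ (r + 1 + k) * U s
        + (s - y) ^ (r + 2 + k) * deriv U s := by
    filter_upwards [hzU.eventually_nhds, hUd] with s hs hd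
    have hs' : deriv ζ =ᶠ[𝓝 s] fun s => (s - y) ^ (r + 2 + k) * U s := hs
    have h1 : deriv (deriv ζ) s = deriv (fun s => (s - y) ^ (r + 2 + k) * U s) s :=
      hs'.deriv_eq
    rw [h1]
    have h2 : HasDerivAt (fun s : ℝ => (s - y) ^ (r + 2 + k))
        (((r + 2 + k : ℕ) : ℝ) * (s - y) ^ (r + 2 + k - 1) * 1) s :=
      ((hasDerivAt_id s).sub_const y).pow (r + 2 + k)
    have h3 := h2.mul hd.hasDerivAt
    have h4 : r + 2 + k - 1 = r + 1 + k := by omega
    rw [h4, mul_one] at h3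
    exact h3.deriv
  have hVe : ∀ᶠ s in 𝓝[≠] y, V s = (s - y) ^ (1 + k) *
      (((r + 2 + k : ℕ) : ℝ) * deriv ρ s * U s
        + (s - y) * (deriv ρ s * deriv U s - deriv (deriv ρ) s * U s)) := by
    have h := (hdd.and (hzU.and hkV)).filter_mono (nhdsWithin_le_nhds (s := {y}ᶜ))
    filter_upwards [h, self_mem_nhdsWithin] with s hs hsy
    obtain ⟨h1, h2, h3⟩ := hs
    have hne : s - y ≠ 0 := sub_ne_zero.mpr hsy
    have hpow : (s - y) ^ r ≠ 0 := pow_ne_zero _ hne
    rw [kr, h1, h2] at h3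
    apply mul_left_cancel₀ hpow
    rw [← h3]
    ring
  have hlim1 : Tendsto V (𝓝[≠] y) (𝓝 (V y)) :=
    hV.continuousAt.tendsto.mono_left nhdsWithin_le_nhds
  have hlim2 : Tendsto (fun s => (s - y) ^ (1 + k) *
      (((r + 2 + k : ℕ) : ℝ) * deriv ρ s * U s
        + (s - y) * (deriv ρ s * deriv U s - deriv (deriv ρ) s * U s))) (𝓝[≠] y) (𝓝 0) := by
    have hsy : ContinuousAt (fun s : ℝ => s - y) y := by fun_prop
    have hc : ContinuousAt (fun s => (s - y) ^ (1 + k) *
      (((r + 2 + k : ℕ) : ℝ) * deriv ρ s * U s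
        + (s - y) * (deriv ρ s * deriv U s - deriv (deriv ρ) s * U s))) y :=
      (hsy.pow _).mul (((continuousAt_const.mul hc1).mul hcU).add
        (hsy.mul ((hc1.mul hcU1).sub (hc2.mul hcU))))
    have h := hc.tendsto.mono_left (nhdsWithin_le_nhds (s := {y}ᶜ))
    have h0 : (y - y) ^ (1 + k) *
      (((r + 2 + k : ℕ) : ℝ) * deriv ρ y * U y
        + (y - y) * (deriv ρ y * deriv U y - deriv (deriv ρ) y * U y)) = 0 := by
      rw [sub_self, zero_pow (by omega), zero_mul]
    rw [h0] at h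
    exact h
  exact hV0 (tendsto_nhds_unique hlim1 (hlim2.congr' (hVe.mono fun s hs => hs.symm)))

end Pool.PGR
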