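import Pool.Agent.Work.MP_02e829_pg.Interface3

/-! # MP_02e829_gt, propagation of rigidity, block RTP -/

open Set Filter Manifold Matrix MeasureTheory Metric
open scoped Topology ContDiff Manifold Real

set_option autoImplicit false

namespace Pool.PGR

open Pool
open Pool.FR (pd ee)
open Pool.SXB (E3)
open Pool.TRG (E2 St px)

theorem RTP_ee0 : (ee 0 : E2) 0 = 1 ∧ (ee 0 : E2) 1 = 0 := by
  constructor <;> simp [ee]

theorem RTP_ee1 : (ee 1 : E2) 0 = 0 ∧ (ee 1 : E2) 1 = 1 := by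
  constructor <;> simp [ee]

theorem RTP_gen (c e1 e2 e3 : E3) (A B D g h : ℝ → ℝ) (A' B' D' g' h' : ℝ) (x : E2)
    (hA : HasDerivAt A A' (x 1)) (hB : HasDerivAt B B' (x 1)) (hD : HasDerivAt D D' (x 1))
    (hg : HasDerivAt g g' (x 0)) (hh : HasDerivAt h h' (x 0)) :
    pd 0 (fun z : E2 => c + (A (z 1) * g (z 0)) • e1 + (B (z 1) * h (z 0)) • e2 + (D (z 1)) • e3) x
      = (A (x 1) * g') • e1 + (B (x 1) * h') • e2 ∧
    pd 1 (fun z : E2 => c + (A (z 1) * g (z 0)) • e1 + (B (z 1) * h (z 0)) • e2 + (D (z 1)) • e3) x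
      = (A' * g (x 0)) • e1 + (B' * h (x 0)) • e2 + D' • e3 := by
  have p0 : HasFDerivAt (fun z : E2 => z 0) (EuclideanSpace.proj (0 : Fin 2) : E2 →L[ℝ] ℝ) x :=
    (EuclideanSpace.proj (0 : Fin 2) : E2 →L[ℝ] ℝ).hasFDerivAt
  have p1 : HasFDerivAt (fun z : E2 => z 1) (EuclideanSpace.proj (1 : Fin 2) : E2 →L[ℝ] ℝ) x :=
    (EuclideanSpace.proj (1 : Fin 2) : E2 →L[ℝ] ℝ).hasFDerivAt
  have fA := hA.comp_hasFDerivAt x p1
  have fB := hB.comp_hasFDerivAt x p1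
  have fD := hD.comp_hasFDerivAt x p1
  have fg := hg.comp_hasFDerivAt x p0
  have fh := hh.comp_hasFDerivAt x p0
  have f1 := (fA.mul fg).smul_const e1
  have f2 := (fB.mul fh).smul_const e2
  have f3 := fD.smul_const e3
  have ff := (((hasFDerivAt_const c x).add f1).add f2).add f3
  have hF := ff.fderiv
  obtain ⟨a0, a1⟩ := RTP_ee0
  obtain ⟨b0, b1⟩ := RTP_ee1
  have key : fderiv ℝ (fun z : E2 => c + (A (z 1) * g (z 0)) • e1 + (B (z 1) * h (z 0)) • e2 +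
      (D (z 1)) • e3) x = _ := hF
  constructor
  · unfold pd
    rw [key]
    simp [a0, a1, Function.comp]
  · unfold pd
    rw [key]
    simp [b0, b1, Function.comp]
    ring_nf

theorem RTP_ch (f : ℝ → ℝ) (y δ s : ℝ) (hf : δ ≠ 0 → DifferentiableAt ℝ f (y + δ * s)) :
    HasDerivAt (fun t => f (y + δ * t)) (δ * deriv f (y + δ * s)) s := by
  by_cases hδ : δ = 0
  · subst hδ
    simpa using hasDerivAt_const s (f y)
  · have h1 := (hf hδ).hasDerivAt
    have h2 : HasDerivAt (fun t : ℝ => y + δ * t) δ s := by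
      simpa using ((hasDerivAt_id s).const_mul δ).const_add y
    have h3 := h1.comp s h2
    rw [mul_comm] at h3
    exact h3

theorem RTP_two (f : ℝ → ℝ) (α β : ℝ) (hf : ContDiffOn ℝ 2 f (Ioo α β)) (t : ℝ)
    (ht : t ∈ Ioo α β) : DifferentiableAt ℝ f t ∧ DifferentiableAt ℝ (deriv f) t := by
  have h1 : ContDiffAt ℝ 2 f t := hf.contDiffAt (isOpen_Ioo.mem_nhds ht)
  refine ⟨h1.differentiableAt (by norm_num), ?_⟩
  have h2 : ContDiffOn ℝ 1 (deriv f) (Ioo α β) :=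
    hf.deriv_of_isOpen isOpen_Ioo (by norm_num)
  exact (h2.contDiffAt (isOpen_Ioo.mem_nhds ht)).differentiableAt (by norm_num)

theorem p_RTP : Stmt_RTP := by
  intro α β y δ c e1 e2 e3 ρ ζ hρ hζ h1 h2 x hx
  -- basic facts on the strip
  have hin : ∀ z : E2, z ∈ St → δ ≠ 0 → y + δ * z 1 ∈ Ioo α β := by
    intro z hz hδ
    have hz' : |z 1| < 1 := hz
    have h3 : |δ * z 1| < |δ| := by
      rw [abs_mul]
      have := abs_pos.2 hδ
      nlinarith
    have h4 := abs_lt.1 h3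
    constructor <;> linarith [h4.1, h4.2]
  have hop : IsOpen (St : Set E2) := by
    have : (St : Set E2) = (fun z : E2 => |z 1|) ⁻¹' (Iio 1) := rfl
    rw [this]
    exact isOpen_Iio.preimage (by fun_prop)
  have dρ : ∀ z ∈ (St : Set E2), HasDerivAt (fun t => ρ (y + δ * t))
      (δ * deriv ρ (y + δ * z 1)) (z 1) := fun z hz =>
    RTP_ch ρ y δ (z 1) fun hδ => (RTP_two ρ α β hρ _ (hin z hz hδ)).1
  have dζ : ∀ z ∈ (St : Set E2), HasDerivAt (fun t => ζ (y + δ * t))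
      (δ * deriv ζ (y + δ * z 1)) (z 1) := fun z hz =>
    RTP_ch ζ y δ (z 1) fun hδ => (RTP_two ζ α β hζ _ (hin z hz hδ)).1
  have ddρ : ∀ z ∈ (St : Set E2), HasDerivAt (fun t => δ * deriv ρ (y + δ * t))
      (δ ^ 2 * deriv (deriv ρ) (y + δ * z 1)) (z 1) := fun z hz => by
    have := (RTP_ch (deriv ρ) y δ (z 1)
      fun hδ => (RTP_two ρ α β hρ _ (hin z hz hδ)).2).const_mul δ
    rw [← mul_assoc, ← sq] at this
    exact this
  have ddζ : ∀ z ∈ (St : Set E2), HasDerivAt (fun t => δ * deriv ζ (y + δ * t))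
      (δ ^ 2 * deriv (deriv ζ) (y + δ * z 1)) (z 1) := fun z hz => by
    have := (RTP_ch (deriv ζ) y δ (z 1)
      fun hδ => (RTP_two ζ α β hζ _ (hin z hz hδ)).2).const_mul δ
    rw [← mul_assoc, ← sq] at this
    exact this
  have hcos : ∀ z : E2, HasDerivAt Real.cos (-Real.sin (z 0)) (z 0) := fun z =>
    Real.hasDerivAt_cos _
  have hsin : ∀ z : E2, HasDerivAt Real.sin (Real.cos (z 0)) (z 0) := fun z =>
    Real.hasDerivAt_sin _
  have hz0 : ∀ t : ℝ, HasDerivAt (fun _ : ℝ => (0 : ℝ)) 0 t := fun t => hasDerivAt_const t 0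
  -- the map
  have hmap : (fun z => rev c e1 e2 e3 ρ ζ (af y δ z)) = fun z : E2 =>
      c + ((fun t => ρ (y + δ * t)) (z 1) * Real.cos (z 0)) • e1 +
      ((fun t => ρ (y + δ * t)) (z 1) * Real.sin (z 0)) • e2 +
      ((fun t => ζ (y + δ * t)) (z 1)) • e3 := by
    funext z
    simp [rev, af, px, RTP_ee0, RTP_ee1]
  have g1 : ∀ z ∈ (St : Set E2), pd 0 (fun z => rev c e1 e2 e3 ρ ζ (af y δ z)) z =
      -(ρ (y + δ * z 1) * Real.sin (z 0)) • e1 + (ρ (y + δ * z 1) * Real.cos (z 0)) • e2 := by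
    intro z hz
    rw [hmap, (RTP_gen c e1 e2 e3 _ _ _ _ _ _ _ _ _ _ z (dρ z hz) (dρ z hz) (dζ z hz) (hcos z)
      (hsin z)).1]
    simp
  have g2 : ∀ z ∈ (St : Set E2), pd 1 (fun z => rev c e1 e2 e3 ρ ζ (af y δ z)) z =
      (δ * deriv ρ (y + δ * z 1) * Real.cos (z 0)) • e1 +
      (δ * deriv ρ (y + δ * z 1) * Real.sin (z 0)) • e2 + (δ * deriv ζ (y + δ * z 1)) • e3 := by
    intro z hz
    rw [hmap, (RTP_gen c e1 e2 e3 _ _ _ _ _ _ _ _ _ _ z (dρ z hz) (dρ z hz) (dζ z hz) (hcos z)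
      (hsin z)).2]
  have e0 : (fun z : E2 => -(ρ (y + δ * z 1) * Real.sin (z 0)) • e1 +
      (ρ (y + δ * z 1) * Real.cos (z 0)) • e2) = fun z : E2 =>
      (0 : E3) + ((fun t => ρ (y + δ * t)) (z 1) * (fun t => -Real.sin t) (z 0)) • e1 +
      ((fun t => ρ (y + δ * t)) (z 1) * Real.cos (z 0)) • e2 + ((fun _ => (0 : ℝ)) (z 1)) • e3 := by
    funext z
    simp
  have e1' : (fun z : E2 => (δ * deriv ρ (y + δ * z 1) * Real.cos (z 0)) • e1 +
      (δ * deriv ρ (y + δ * z 1) * Real.sin (z 0)) • e2 + (δ * deriv ζ (y + δ * z 1)) • e3) =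
      fun z : E2 =>
      (0 : E3) + ((fun t => δ * deriv ρ (y + δ * t)) (z 1) * Real.cos (z 0)) • e1 +
      ((fun t => δ * deriv ρ (y + δ * t)) (z 1) * Real.sin (z 0)) • e2 +
      ((fun t => δ * deriv ζ (y + δ * t)) (z 1)) • e3 := by
    funext z
    simp
  refine ⟨g1 x hx, g2 x hx, ?_, ?_, ?_⟩
  · rw [Pool.FR.pd_congr hop g1 0 hx, e0]
    have hs : HasDerivAt (fun t : ℝ => -Real.sin t) (-Real.cos (x 0)) (x 0) := (hsin x).neg
    refine (RTP_gen 0 e1 e2 e3 (fun t => ρ (y + δ * t)) (fun t => ρ (y + δ * t)) (fun _ => 0)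
      (fun t => -Real.sin t) Real.cos _ _ _ _ _ x (dρ x hx) (dρ x hx) (hz0 _) hs
      (hcos x)).1.trans ?_
    simp [sub_eq_add_neg]
  · rw [Pool.FR.pd_congr hop g2 0 hx, e1']
    refine (RTP_gen 0 e1 e2 e3 (fun t => δ * deriv ρ (y + δ * t))
      (fun t => δ * deriv ρ (y + δ * t)) (fun t => δ * deriv ζ (y + δ * t)) Real.cos Real.sin
      _ _ _ _ _ x (ddρ x hx) (ddρ x hx) (ddζ x hx) (hcos x) (hsin x)).1.trans ?_
    simp
  · rw [Pool.FR.pd_congr hop g2 1 hx, e1']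
    exact (RTP_gen 0 e1 e2 e3 (fun t => δ * deriv ρ (y + δ * t))
      (fun t => δ * deriv ρ (y + δ * t)) (fun t => δ * deriv ζ (y + δ * t)) Real.cos Real.sin
      _ _ _ _ _ x (ddρ x hx) (ddρ x hx) (ddζ x hx) (hcos x) (hsin x)).2

end Pool.PGR
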