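import Pool.Agent.Work.MP_02e829_pg.Interface3

/-!
# MP_02e829_gt, PROPAGATION OF RIGIDITY: block RTS
-/

open Set Filter Manifold Matrix MeasureTheory Metric
open scoped Topology ContDiff Manifold Real

set_option autoImplicit false

universe w

namespace Pool.PGR

open Pool
open Pool.FR (pd ee gg WW DD NN II Ga Gb Imm SO3)
open Pool.SXB (E3 L3 Proper PosCurv TC)
open Pool.TRG (E2 V3 IC St pt px PerR Iso Per Ann Dfm CPiece HPiece HTube Tro Ang)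

theorem RTS_triple (a b d : V3) (l m n p q r s t : ℝ) :
    (l • a + m • b + n • d) ⬝ᵥ ((p • a + q • b) ⨯₃ (r • a + s • b + t • d)) =
      (a ⬝ᵥ (b ⨯₃ d)) * (n * (p * s - q * r) - m * p * t + l * q * t) := by
  simp only [cross_apply, dotProduct, Fin.sum_univ_three, Pi.add_apply, Pi.smul_apply, smul_eq_mul,
    Matrix.cons_val_zero, Matrix.cons_val_one, Matrix.cons_val]
  ring

theorem RTS_gram (a b d : V3) :
    (a ⬝ᵥ (b ⨯₃ d)) ^ 2 = (a ⬝ᵥ a) * ((b ⬝ᵥ b) * (d ⬝ᵥ d) - (b ⬝ᵥ d) ^ 2) -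
      (a ⬝ᵥ b) * ((a ⬝ᵥ b) * (d ⬝ᵥ d) - (b ⬝ᵥ d) * (a ⬝ᵥ d)) +
      (a ⬝ᵥ d) * ((a ⬝ᵥ b) * (b ⬝ᵥ d) - (b ⬝ᵥ b) * (a ⬝ᵥ d)) := by
  simp only [cross_apply, dotProduct, Fin.sum_univ_three,
    Matrix.cons_val_zero, Matrix.cons_val_one, Matrix.cons_val]
  ring

theorem RTS_inner (v w : E3) : L3 v ⬝ᵥ L3 w = inner ℝ v w := by
  rw [PiLp.inner_apply, dotProduct]
  refine Finset.sum_congr rfl fun a _ => ?_
  show v a * w a = inner ℝ (v a) (w a)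
  simp [mul_comm]

theorem p_RTS (hRTP : Stmt_RTP) : Stmt_RTS := by
  intro α β y δ c e1 e2 e3 ρ ζ ho hρ hζ h1 h2
  have q11 : inner ℝ e1 e1 = 1 := by
    have := ho.1 0
    rw [real_inner_self_eq_norm_sq, show ‖e1‖ = 1 from this, one_pow]
  have q22 : inner ℝ e2 e2 = 1 := by
    have := ho.1 1
    rw [real_inner_self_eq_norm_sq, show ‖e2‖ = 1 from this, one_pow]
  have q33 : inner ℝ e3 e3 = 1 := by
    have := ho.1 2
    rw [real_inner_self_eq_norm_sq, show ‖e3‖ = 1 from this, one_pow]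
  have q12 : inner ℝ e1 e2 = 0 := ho.2 (i := 0) (j := 1) (by decide)
  have q13 : inner ℝ e1 e3 = 0 := ho.2 (i := 0) (j := 2) (by decide)
  have q23 : inner ℝ e2 e3 = 0 := ho.2 (i := 1) (j := 2) (by decide)
  refine ⟨L3 e1 ⬝ᵥ (L3 e2 ⨯₃ L3 e3), ?_, fun x hx => ?_⟩
  · rw [RTS_gram]
    simp only [RTS_inner, q11, q22, q33, q12, q13, q23]
    norm_num
  · obtain ⟨p0, p1, p00, p01, p11⟩ := hRTP α β y δ c e1 e2 e3 ρ ζ hρ hζ h1 h2 x hx
    have hcs := Real.sin_sq_add_cos_sq (x 0)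
    have A : L3 (pd 0 (fun z => rev c e1 e2 e3 ρ ζ (af y δ z)) x) =
        (-(ρ (y + δ * x 1) * Real.sin (x 0))) • L3 e1 + (ρ (y + δ * x 1) * Real.cos (x 0)) • L3 e2 := by
      rw [p0, map_add, map_smul, map_smul]
    have B : L3 (pd 1 (fun z => rev c e1 e2 e3 ρ ζ (af y δ z)) x) =
        (δ * deriv ρ (y + δ * x 1) * Real.cos (x 0)) • L3 e1 +
        (δ * deriv ρ (y + δ * x 1) * Real.sin (x 0)) • L3 e2 + (δ * deriv ζ (y + δ * x 1)) • L3 e3 := by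
      rw [p1, map_add, map_add, map_smul, map_smul, map_smul]
    have C00 : L3 (pd 0 (pd 0 fun z => rev c e1 e2 e3 ρ ζ (af y δ z)) x) =
        (-(ρ (y + δ * x 1) * Real.cos (x 0))) • L3 e1 + (-(ρ (y + δ * x 1) * Real.sin (x 0))) • L3 e2 +
        (0 : ℝ) • L3 e3 := by
      rw [p00, map_sub, map_smul, map_smul, zero_smul, add_zero]
      module
    have C01 : L3 (pd 0 (pd 1 fun z => rev c e1 e2 e3 ρ ζ (af y δ z)) x) =
        (-(δ * deriv ρ (y + δ * x 1) * Real.sin (x 0))) • L3 e1 +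
        (δ * deriv ρ (y + δ * x 1) * Real.cos (x 0)) • L3 e2 + (0 : ℝ) • L3 e3 := by
      rw [p01, map_add, map_smul, map_smul, zero_smul, add_zero]
    have C11 : L3 (pd 1 (pd 1 fun z => rev c e1 e2 e3 ρ ζ (af y δ z)) x) =
        (δ ^ 2 * deriv (deriv ρ) (y + δ * x 1) * Real.cos (x 0)) • L3 e1 +
        (δ ^ 2 * deriv (deriv ρ) (y + δ * x 1) * Real.sin (x 0)) • L3 e2 +
        (δ ^ 2 * deriv (deriv ζ) (y + δ * x 1)) • L3 e3 := by
      rw [p11, map_add, map_add, map_smul, map_smul, map_smul]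
    obtain ⟨o, hO⟩ : ∃ o : ℝ, o = L3 e1 ⬝ᵥ (L3 e2 ⨯₃ L3 e3) := ⟨_, rfl⟩
    refine ⟨?_, ?_, ?_⟩
    · rw [sf, A, B, C00, RTS_triple, ← hO]
      linear_combination (-(o * δ * ρ (y + δ * x 1) ^ 2 * deriv ζ (y + δ * x 1))) * hcs
    · rw [sf, A, B, C01, RTS_triple, ← hO]
      ring
    · rw [sf, A, B, C11, RTS_triple, ← hO, kr]
      linear_combination (-(o * δ ^ 3 * ρ (y + δ * x 1) * (deriv ρ (y + δ * x 1) * deriv (deriv ζ) (y + δ * x 1) -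
        deriv (deriv ρ) (y + δ * x 1) * deriv ζ (y + δ * x 1)))) * hcs

end Pool.PGR
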