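import Pool.Agent.Work.MP_02e829_pg.Interface3

open Set Filter Manifold Matrix MeasureTheory Metric
open scoped Topology ContDiff Manifold Real

set_option autoImplicit false

universe w

namespace Pool.PGR

open Pool
open Pool.FR (pd ee)
open Pool.SXB (E3 L3)
open Pool.TRG (E2 V3 St pt px Ann)

theorem RTT_af1 (y δ : ℝ) (x : E2) : (af y δ x) 1 = y + δ * x 1 := by
  simp [af, px, ee]

theorem RTT_af0 (y δ : ℝ) (x : E2) : (af y δ x) 0 = x 0 := by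
  simp [af, px, ee]

theorem RTT_sf {G H : E2 → E3} (h : ∀ x ∈ St, G x = H x) (i j : Fin 2) {x : E2} (hx : x ∈ St) :
    sf G i j x = sf H i j x := by
  have h1 : ∀ k, ∀ z ∈ St, pd k G z = pd k H z := fun k z hz => FR.pd_congr TRG.St_open h k hz
  have h2 : pd i (pd j G) x = pd i (pd j H) x := FR.pd_congr TRG.St_open (h1 j) i hx
  rw [sf, sf, h2, h1 0 x hx, h1 1 x hx]

theorem RTT_order {n : ℕ∞} {p r : ℕ} (h : (r : ℕ∞) + 2 < n) :
    ((p + r : ℕ) : ℕ∞) + 2 < n + p := by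
  rcases eq_or_ne n ⊤ with rfl | hn
  · rw [top_add]
    exact_mod_cast ENat.natCast_lt_top (p + r + 2)
  · lift n to ℕ using hn
    have h1 : r + 2 < n := by exact_mod_cast h
    have h2 : p + r + 2 < n + p := by omega
    exact_mod_cast h2

theorem p_RTT (hRTS : Stmt_RTS) (hRTA : Stmt_RTA.{w}) (hRTN : Stmt_RTN) : Stmt_RTT.{w} := by
  intro S _ _ n f α β Ψ c e1 e2 e3 ρ ζ hn hR y hy hF hK
  obtain ⟨p, U, hp, hU, hU0, hUe⟩ := hF
  obtain ⟨r, V, hr, hV, hV0, hVe⟩ := hK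
  have hn1 : (1 : ℕ∞) ≤ n := le_trans (by norm_num) hn
  have hn2' : (2 : ℕ∞) ≤ n := le_trans (by norm_num) hn
  have hn2 : (2 : WithTop ℕ∞) ≤ (n : WithTop ℕ∞) := WithTop.coe_le_coe.2 hn2'
  have hρ2 : ContDiffOn ℝ 2 ρ (Ioo α β) := hR.sρ.of_le hn2
  have hζ2 : ContDiffOn ℝ 2 ζ (Ioo α β) := hR.sζ.of_le hn2
  have hpr : p ≤ r + 1 := hRTN α β y ρ ζ U V p r hy hρ2 hζ2 hU hV hV0 hUe hVe
  have e1' : ∀ᶠ s in 𝓝 y, ContDiffAt ℝ 1 U s := hU.eventually (by simp)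
  have e2' : ∀ᶠ s in 𝓝 y, ContDiffAt ℝ 1 V s := hV.eventually (by simp)
  have e3' : ∀ᶠ s in 𝓝 y, U s ≠ 0 := hU.continuousAt.eventually_ne hU0
  have e4' : ∀ᶠ s in 𝓝 y, V s ≠ 0 := hV.continuousAt.eventually_ne hV0
  have e5' : ∀ᶠ s in 𝓝 y, s ∈ Ioo α β := isOpen_Ioo.mem_nhds hy
  obtain ⟨δ1, hδ1, hball⟩ := Metric.eventually_nhds_iff_ball.1
    (hUe.and (hVe.and (e1'.and (e2'.and (e3'.and (e4'.and e5'))))))
  refine ⟨δ1 / 2, by positivity, ?_⟩
  intro δ hδ0 hδ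
  have hδne : δ ≠ 0 := abs_pos.1 hδ0
  have hin1 : y - |δ| ∈ ball y δ1 := by
    rw [mem_ball, Real.dist_eq]
    have : y - |δ| - y = -|δ| := by ring
    rw [this, abs_neg, abs_abs]
    linarith
  have hin2 : y + |δ| ∈ ball y δ1 := by
    rw [mem_ball, Real.dist_eq]
    have : y + |δ| - y = |δ| := by ring
    rw [this, abs_abs]
    linarith
  have hα : α ≤ y - |δ| := (hball _ hin1).2.2.2.2.2.2.1.le
  have hβ : y + |δ| ≤ β := (hball _ hin2).2.2.2.2.2.2.2.le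
  refine ⟨hα, hβ, ?_⟩
  -- the points of the strip
  have hst : ∀ x ∈ St, y + δ * x 1 ∈ ball y δ1 := by
    intro x hx
    rw [mem_ball, Real.dist_eq]
    have h1 : y + δ * x 1 - y = δ * x 1 := by ring
    have h2 : |x 1| < 1 := hx
    rw [h1, abs_mul]
    have h3 : |δ| * |x 1| ≤ |δ| * 1 := mul_le_mul_of_nonneg_left h2.le hδ0.le
    linarith
  have hIoo : ∀ x ∈ St, y + δ * x 1 ∈ Ioo α β := fun x hx =>
    (hball _ (hst x hx)).2.2.2.2.2.2
  have heq : ∀ x ∈ St, f (Ψ (af y δ x)) = rev c e1 e2 e3 ρ ζ (af y δ x) := by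
    intro x hx
    refine hR.eq _ ?_
    have h1 := hIoo x hx
    change α < (af y δ x) 1 ∧ (af y δ x) 1 < β
    rw [RTT_af1]
    exact h1
  obtain ⟨o, ho, hS⟩ := hRTS α β y δ c e1 e2 e3 ρ ζ hR.ort hρ2 hζ2 hα hβ
  have hone : o ≠ 0 := by
    rintro rfl
    norm_num at ho
  have hsf : ∀ i j, ∀ x ∈ St, sf (fun z => f (Ψ (af y δ z))) i j x =
      sf (fun z => rev c e1 e2 e3 ρ ζ (af y δ z)) i j x := fun i j x hx => RTT_sf heq i j hx
  -- values
  have v00 : ∀ x ∈ St, sf (fun z => f (Ψ (af y δ z))) 0 0 x =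
      x 1 ^ p * (-(o * δ ^ (p + 1) * ρ (y + δ * x 1) ^ 2 * U (y + δ * x 1))) := by
    intro x hx
    rw [hsf 0 0 x hx, (hS x hx).1, (hball _ (hst x hx)).1]
    have h1 : y + δ * x 1 - y = δ * x 1 := by ring
    rw [h1, mul_pow, pow_succ]
    ring
  have v01 : ∀ x ∈ St, sf (fun z => f (Ψ (af y δ z))) 0 1 x = 0 := by
    intro x hx
    rw [hsf 0 1 x hx, (hS x hx).2.1]
  have vd : ∀ x ∈ St, sd (fun z => f (Ψ (af y δ z))) x =
      x 1 ^ (p + r) * (δ ^ (4 + p + r) * ρ (y + δ * x 1) ^ 3 *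
        (U (y + δ * x 1) * V (y + δ * x 1))) := by
    intro x hx
    rw [sd, v01 x hx, hsf 0 0 x hx, hsf 1 1 x hx, (hS x hx).1, (hS x hx).2.2,
      (hball _ (hst x hx)).1, (hball _ (hst x hx)).2.1]
    have h1 : y + δ * x 1 - y = δ * x 1 := by ring
    rw [h1, mul_pow, mul_pow]
    have h2 : x 1 ^ (p + r) * (δ ^ (4 + p + r) * ρ (y + δ * x 1) ^ 3 *
        (U (y + δ * x 1) * V (y + δ * x 1))) = o ^ 2 * (x 1 ^ (p + r) *
        (δ ^ (4 + p + r) * ρ (y + δ * x 1) ^ 3 * (U (y + δ * x 1) * V (y + δ * x 1)))) := by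
      rw [ho, one_mul]
    rw [h2, pow_add (x 1), pow_add δ, pow_add δ]
    ring
  -- smoothness
  have haff : ContDiff ℝ 1 fun x : E2 => y + δ * x 1 := by
    have h : ContDiff ℝ 1 fun x : E2 => x 1 :=
      (EuclideanSpace.proj (1 : Fin 2) : E2 →L[ℝ] ℝ).contDiff
    exact contDiff_const.add (contDiff_const.mul h)
  have cρ : ContDiffOn ℝ 1 (fun x : E2 => ρ (y + δ * x 1)) St :=
    (hρ2.of_le one_le_two).comp haff.contDiffOn fun x hx => hIoo x hx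
  have cU : ContDiffOn ℝ 1 (fun x : E2 => U (y + δ * x 1)) St := by
    have h1 : ContDiffOn ℝ 1 U (ball y δ1) := fun s hs =>
      ((hball s hs).2.2.1).contDiffWithinAt
    exact h1.comp haff.contDiffOn fun x hx => hst x hx
  have cV : ContDiffOn ℝ 1 (fun x : E2 => V (y + δ * x 1)) St := by
    have h1 : ContDiffOn ℝ 1 V (ball y δ1) := fun s hs =>
      ((hball s hs).2.2.2.1).contDiffWithinAt
    exact h1.comp haff.contDiffOn fun x hx => hst x hx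
  refine ⟨hRTA S n f α β Ψ c e1 e2 e3 ρ ζ hn1 hR y δ hδne hα hβ, ?_, p, p + r,
    fun x => -(o * δ ^ (p + 1) * ρ (y + δ * x 1) ^ 2 * U (y + δ * x 1)), fun _ => 0,
    fun x => δ ^ (4 + p + r) * ρ (y + δ * x 1) ^ 3 * (U (y + δ * x 1) * V (y + δ * x 1)),
    hp, RTT_order hr, by omega, ?_, contDiffOn_const, ?_, ?_, ?_⟩
  · intro x hx hx0
    have h1 : x 1 ≠ 0 := hx0.ne'
    have h2 : ρ (y + δ * x 1) ≠ 0 := (hR.pos _ (hIoo x hx)).ne'
    have h3 : U (y + δ * x 1) ≠ 0 := (hball _ (hst x hx)).2.2.2.2.1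
    have h4 : V (y + δ * x 1) ≠ 0 := (hball _ (hst x hx)).2.2.2.2.2.1
    rw [v00 x hx, vd x hx]
    constructor
    · refine mul_ne_zero (pow_ne_zero _ h1) (neg_ne_zero.2 ?_)
      exact mul_ne_zero (mul_ne_zero (mul_ne_zero hone (pow_ne_zero _ hδne))
        (pow_ne_zero _ h2)) h3
    · exact mul_ne_zero (pow_ne_zero _ h1) (mul_ne_zero (mul_ne_zero (pow_ne_zero _ hδne)
        (pow_ne_zero _ h2)) (mul_ne_zero h3 h4))
  · exact ((contDiffOn_const.mul (cρ.pow 2)).mul cU).neg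
  · exact (contDiffOn_const.mul (cρ.pow 3)).mul (cU.mul cV)
  · intro x
    have hx : pt x ∈ St := by
      change |(pt x) 1| < 1
      simp [pt, ee]
    have h2 : ρ (y + δ * (pt x) 1) ≠ 0 := (hR.pos _ (hIoo _ hx)).ne'
    have h3 : U (y + δ * (pt x) 1) ≠ 0 := (hball _ (hst _ hx)).2.2.2.2.1
    have h4 : V (y + δ * (pt x) 1) ≠ 0 := (hball _ (hst _ hx)).2.2.2.2.2.1
    constructor
    · refine neg_ne_zero.2 ?_
      exact mul_ne_zero (mul_ne_zero (mul_ne_zero hone (pow_ne_zero _ hδne))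
        (pow_ne_zero _ h2)) h3
    · exact mul_ne_zero (mul_ne_zero (pow_ne_zero _ hδne)
        (pow_ne_zero _ h2)) (mul_ne_zero h3 h4)
  · intro x hx
    have hx' : x ∈ St := by
      change |x 1| < 1
      rw [abs_lt]
      exact ⟨by linarith [hx.1], hx.2⟩
    exact ⟨v00 x hx', by rw [v01 x hx', mul_zero], vd x hx'⟩

end Pool.PGR
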