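import Pool.Agent.Work.MP_02e829_pg.Interface2
import Pool.Agent.Work.MP_02e829_fr.FRM

/-!
# MP_02e829_gt, PROPAGATION OF RIGIDITY: block STR
-/

open Set Filter Manifold Matrix MeasureTheory Metric
open scoped Topology ContDiff Manifold Real

set_option autoImplicit false

universe w

namespace Pool.PGR

open Pool
open Pool.FR (pd ee gg WW DD NN II Ga Gb Imm SO3)
open Pool.SXB (E3 L3 Proper PosCurv TC)
open Pool.TRG (E2 V3 IC St pt px PerR Iso Per Ann)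

theorem STR_cx : Continuous fun x : E2 => x 1 :=
  (EuclideanSpace.proj (𝕜 := ℝ) (1 : Fin 2)).continuous

theorem STR_open : IsOpen St := by
  have h : St = {x : E2 | |x 1| < 1} := rfl
  rw [h]
  exact isOpen_lt (STR_cx.abs) continuous_const

/-- the open half strip `0 < x 1 < 1` -/
theorem STR_convex : Convex ℝ {x : E2 | x ∈ St ∧ 0 < x 1} := by
  have h : {x : E2 | x ∈ St ∧ 0 < x 1} = (EuclideanSpace.proj (𝕜 := ℝ) (1 : Fin 2)) ⁻¹' (Ioo 0 1) := by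
    ext x
    constructor
    · rintro ⟨h1, h2⟩
      exact ⟨h2, (abs_lt.mp h1).2⟩
    · rintro ⟨h1, h2⟩
      have h1' : (0 : ℝ) < x 1 := h1
      have h2' : x 1 < 1 := h2
      exact ⟨abs_lt.mpr ⟨by linarith, h2'⟩, h1'⟩
  rw [h]
  exact (convex_Ioo (0 : ℝ) 1).linear_preimage
    ((EuclideanSpace.proj (𝕜 := ℝ) (1 : Fin 2) : E2 →L[ℝ] ℝ) : E2 →ₗ[ℝ] ℝ)

theorem STR_cont {F : E2 → V3} (hF : Imm F St) : ContinuousOn (dII F) St := by
  have h : ∀ i j, ContinuousOn (II F i j) St := fun i j =>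
    (Pool.FR.FRMAux.ii_contDiffOn STR_open hF i j).continuousOn
  exact ((h 0 0).mul (h 1 1)).sub ((h 0 1).pow 2)

theorem p_STR (hELS : Stmt_ELS) (hHYS : Stmt_HYS) : Stmt_STR := by
  intro m F p q u v z hm hS hneg h1 h2 h3 hL hne
  have hpc : IsPreconnected {x : E2 | x ∈ St ∧ 0 < x 1} := STR_convex.isPreconnected
  have hc : ContinuousOn (dII (F 0)) {x : E2 | x ∈ St ∧ 0 < x 1} :=
    (STR_cont (hS.imm 0 ⟨le_rfl, zero_le_one⟩)).mono fun x hx => hx.1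
  by_cases hp : ∃ x ∈ {x : E2 | x ∈ St ∧ 0 < x 1}, 0 < dII (F 0) x
  · obtain ⟨x0, hx0, hd0⟩ := hp
    refine hELS m F p q u v z hm hS hneg h1 h2 h3 hL fun x hx hx1 => ⟨(hne x hx hx1).1, ?_⟩
    by_contra hcon
    have hlt : dII (F 0) x ≤ 0 := not_lt.mp hcon
    obtain ⟨y, hy, hy0⟩ := hpc.intermediate_value (a := x) (b := x0) ⟨hx, hx1⟩ hx0 hc
      (show (0 : ℝ) ∈ Icc (dII (F 0) x) (dII (F 0) x0) from ⟨hlt, hd0.le⟩)
    exact (hne y hy.1 hy.2).2 hy0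
  · push Not at hp
    exact hHYS m F p q u v z hm hS hneg h1 h2 h3 hL fun x hx hx1 => ⟨(hne x hx hx1).1,
      lt_of_le_of_ne (hp x ⟨hx, hx1⟩) (hne x hx hx1).2⟩

end Pool.PGR
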