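import Pool.Agent.Work.MP_02e829_pg.Interface

/-! # Block SYL: the system on the half strip (MP_02e829, PROPAGATION OF RIGIDITY) -/

open Set Filter Manifold Matrix MeasureTheory Metric
open scoped Topology ContDiff Manifold Real

set_option autoImplicit false

universe w

namespace Pool.PGR

open Pool
open Pool.FR (pd ee gg WW DD NN II Ga Gb Imm SO3)
open Pool.SXB (E3 L3 Proper PosCurv TC)
open Pool.TRG (E2 V3 IC St pt px PerR Iso Per)

theorem SYL_VS (r : ℝ) : IsOpen (VS r) := by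
  have h1 : Continuous fun x : E2 => x 1 := by fun_prop
  exact (isOpen_lt continuous_const h1).inter (isOpen_lt h1 continuous_const)

theorem SYL_sub {r : ℝ} (h1 : r < 1) : VS r ⊆ St := by
  intro x hx
  show |x 1| < 1
  rw [abs_of_nonneg hx.1.le]
  exact hx.2.trans h1

theorem SYL_shift (x : E2) : (x + (2 * π) • ee 0) 1 = x 1 := by
  simp [ee]

theorem SYL_shift_mem {r : ℝ} {x : E2} (hx : x ∈ VS r) : x + (2 * π) • ee 0 ∈ VS r := by
  show 0 < (x + (2 * π) • ee 0) 1 ∧ (x + (2 * π) • ee 0) 1 < r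
  rw [SYL_shift]
  exact hx

theorem SYL_tri3 {a b c A B C : ℝ} (ha : |a| ≤ A) (hb : |b| ≤ B) (hc : |c| ≤ C) :
    |a + b + c| ≤ A + B + C :=
  (abs_add_three a b c).trans (by linarith)

theorem SYL_mul {a b A B : ℝ} (ha : |a| ≤ A) (hb : |b| ≤ B) : |a * b| ≤ A * B := by
  rw [abs_mul]
  exact mul_le_mul ha hb (abs_nonneg _) ((abs_nonneg _).trans ha)

/-- constants against `1 / √y` -/
theorem SYL_c {y f c κ : ℝ} (hy : 0 < y) (hy1 : y ≤ 1) (h : |f| ≤ c) (hc : c ≤ κ) :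
    |f| ≤ κ / √y := by
  have h0 : 0 ≤ κ := (abs_nonneg f).trans (h.trans hc)
  have h1 : 0 < √y := Real.sqrt_pos.2 hy
  have h2 : √y ≤ 1 := Real.sqrt_le_one.2 hy1
  rw [le_div_iff₀ h1]
  calc |f| * √y ≤ κ * 1 := mul_le_mul (h.trans hc) h2 h1.le h0
    _ = κ := mul_one _

/-- multiples of `s` against `1 / √y` -/
theorem SYL_s {y f c κ s S : ℝ} (hy : 0 < y) (h : |f| ≤ s * c) (hc0 : 0 ≤ c)
    (hs : s * √y ≤ S) (hc : S * c ≤ κ) : |f| ≤ κ / √y := by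
  have h1 : 0 < √y := Real.sqrt_pos.2 hy
  rw [le_div_iff₀ h1]
  calc |f| * √y ≤ s * c * √y := mul_le_mul_of_nonneg_right h h1.le
    _ = s * √y * c := by ring
    _ ≤ S * c := mul_le_mul_of_nonneg_right hs hc0
    _ ≤ κ := hc

/-- bounds for the coefficients -/
theorem SYL_coef {t K L s y ε al al0 A0A s0 s1 l0 l1 l2 m1 m2 c η p : ℝ} (hK : 0 ≤ K)
    (hL : 0 ≤ L) (ht : t = 1 + K + L) (hs : 0 < s) (he : ε = 1 ∨ ε = -1) (hy : 0 < y)
    (hy1 : y ≤ 1) (hsy : s * √y ≤ K + 1) (hal : |al| ≤ K) (hal0 : |al0| ≤ K) (hA : |A0A| ≤ K)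
    (hs0 : |s0| ≤ K * s) (hs1 : |s1 - η / y * s| ≤ K * s) (hl : |l2 * (ε * s ^ 2) - p / y| ≤ K)
    (hl0 : |l0| ≤ L) (hl1 : |l1| ≤ L) (hl2 : |l2| ≤ L) (hm1 : |m1| ≤ L) (hm2 : |m2| ≤ L)
    (hc : c = η - p) :
    |2 * al0 + m1 - al * l1 + 2 * al * (m2 - al * l2)| ≤ 10 * t ^ 3 / √y ∧
    |-(ε * (3 * s0 + s * A0A + 2 * (m2 - al * l2) * s))| ≤ 10 * t ^ 3 / √y ∧
    |s * (l1 + 2 * al * l2)| ≤ 10 * t ^ 3 / √y ∧
    |s1 / s + al0 - al * (s0 / s) + l0 + l1 * al + l2 * (al ^ 2 - ε * s ^ 2) - c / y| ≤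
      10 * t ^ 3 / √y ∧
    |al0| ≤ 10 * t ^ 3 / √y ∧ |s0| ≤ 10 * t ^ 3 / √y ∧
    |(s1 - al * s0) / s - η / y| ≤ 10 * t ^ 3 / √y := by
  have ht1 : 1 ≤ t := by linarith
  have hKt : K ≤ t := by linarith
  have hLt : L ≤ t := by linarith
  have ht0 : 0 ≤ t := by linarith
  have h23 : t ^ 2 ≤ t ^ 3 := pow_le_pow_right₀ ht1 (by norm_num)
  have h13 : t ≤ t ^ 3 := by
    calc t = t ^ 1 := (pow_one t).symm
      _ ≤ t ^ 3 := pow_le_pow_right₀ ht1 (by norm_num)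
  have h12 : t ≤ t ^ 2 := by
    calc t = t ^ 1 := (pow_one t).symm
      _ ≤ t ^ 2 := pow_le_pow_right₀ ht1 (by norm_num)
  have hal' : |al| ≤ t := hal.trans hKt
  have hal0' : |al0| ≤ t := hal0.trans hKt
  have hA' : |A0A| ≤ t := hA.trans hKt
  have hl0' : |l0| ≤ t := hl0.trans hLt
  have hl1' : |l1| ≤ t := hl1.trans hLt
  have hl2' : |l2| ≤ t := hl2.trans hLt
  have hm1' : |m1| ≤ t := hm1.trans hLt
  have hm2' : |m2| ≤ t := hm2.trans hLt
  have hs0s : |s0 / s| ≤ t := by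
    rw [abs_div, abs_of_pos hs, div_le_iff₀ hs]
    exact hs0.trans (mul_le_mul_of_nonneg_right hKt hs.le)
  have hs1s : |s1 / s - η / y| ≤ t := by
    have : s1 / s - η / y = (s1 - η / y * s) / s := by
      field_simp
    rw [this, abs_div, abs_of_pos hs, div_le_iff₀ hs]
    exact hs1.trans (mul_le_mul_of_nonneg_right hKt hs.le)
  have hll : |l2 * (ε * s ^ 2) - p / y| ≤ t := hl.trans hKt
  have hal1 : |al * l1| ≤ t * t := SYL_mul hal' hl1'
  have hal2 : |al * l2| ≤ t * t := SYL_mul hal' hl2'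
  have hin : |m2 - al * l2| ≤ 2 * t ^ 2 := by
    rw [abs_le] at *
    constructor <;> nlinarith
  have hin2 : |al * (m2 - al * l2)| ≤ t * (2 * t ^ 2) := SYL_mul hal' hin
  have hS : s * √y ≤ t := hsy.trans (by linarith)
  refine ⟨?_, ?_, ?_, ?_, ?_, ?_, ?_⟩
  · refine SYL_c hy hy1 (c := 10 * t ^ 3) ?_ le_rfl
    rw [abs_le] at *
    constructor <;> nlinarith
  · have he1 : |ε| = 1 := by rcases he with h | h <;> simp [h]
    refine SYL_s (s := s) (c := 10 * t ^ 2) (S := t) hy ?_ (by positivity) hS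
      (by nlinarith)
    rw [abs_neg, abs_mul, he1, one_mul]
    have e : 3 * s0 + s * A0A + 2 * (m2 - al * l2) * s =
        s * (3 * (s0 / s) + A0A + 2 * (m2 - al * l2)) := by
      field_simp
    rw [e, abs_mul, abs_of_pos hs]
    refine mul_le_mul_of_nonneg_left ?_ hs.le
    rw [abs_le] at *
    constructor <;> nlinarith
  · refine SYL_s (s := s) (c := 10 * t ^ 2) (S := t) hy ?_ (by positivity) hS
      (by nlinarith)
    rw [abs_mul, abs_of_pos hs]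
    refine mul_le_mul_of_nonneg_left ?_ hs.le
    rw [abs_le] at *
    constructor <;> nlinarith
  · refine SYL_c hy hy1 (c := 10 * t ^ 3) ?_ le_rfl
    have e : s1 / s + al0 - al * (s0 / s) + l0 + l1 * al + l2 * (al ^ 2 - ε * s ^ 2) - c / y =
        (s1 / s - η / y) + al0 - al * (s0 / s) + l0 + al * l1 + al * (al * l2) -
          (l2 * (ε * s ^ 2) - p / y) := by
      rw [hc]; ring
    rw [e]
    have h1 : |al * (s0 / s)| ≤ t * t := SYL_mul hal' hs0s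
    have h2 : |al * (al * l2)| ≤ t * (t * t) := SYL_mul hal' hal2
    rw [abs_le] at *
    constructor <;> nlinarith
  · exact SYL_c hy hy1 hal0' (by nlinarith)
  · refine SYL_s (s := s) (c := t) (S := t) hy ?_ ht0 hS (by nlinarith)
    rw [mul_comm s t]
    exact hs0.trans (mul_le_mul_of_nonneg_right hKt hs.le)
  · refine SYL_c hy hy1 (c := 10 * t ^ 3) ?_ le_rfl
    have e : (s1 - al * s0) / s - η / y = (s1 / s - η / y) - al * (s0 / s) := by
      rw [sub_div, mul_div_assoc]; ring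
    rw [e]
    have h1 : |al * (s0 / s)| ≤ t * t := SYL_mul hal' hs0s
    rw [abs_le] at *
    constructor <;> nlinarith

/-- the weights of the solution -/
theorem SYL_w {y s K M a b al al0 s0 a0 b0 : ℝ} {N : ℕ} (hN : 2 ≤ N) (hy : 0 < y) (hy1 : y ≤ 1)
    (hs : 0 < s) (hK : 0 ≤ K) (hM : 0 ≤ M) (hal : |al| ≤ K) (hal0 : |al0| ≤ K)
    (hs0 : |s0| ≤ K * s) (ha : |a| ≤ M * y ^ N) (hb : |b| ≤ M * y ^ N)
    (ha0 : |a0| ≤ M * y ^ (N - 1)) (hb0 : |b0| ≤ M * y ^ (N - 1)) (hsy : s ^ 2 * y ≤ K) :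
    (s * a) ^ 2 + (b - al * a) ^ 2 ≤ 4 * M ^ 2 * (K + 1) ^ 3 * y ^ (2 * N - 1) ∧
    s * |s0 * a + s * a0| * |b - al * a| + s * |b0 - (al0 * a + al * a0)| * |s * a| +
      ((s * a) ^ 2 + (b - al * a) ^ 2) / y ≤
      4 * M ^ 2 * (K + 1) ^ 2 * ((s ^ 2 + 1) * y ^ (2 * N - 1)) := by
  have hyN : y ^ N = y * y ^ (N - 1) := by
    rw [← pow_succ']
    congr 1
    omega
  have hy2N : y ^ (2 * N - 1) = y * (y ^ (N - 1)) ^ 2 := by
    rw [← pow_mul, ← pow_succ']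
    congr 1
    omega
  set z := y ^ (N - 1) with hz
  have hz0 : 0 < z := by positivity
  rw [hyN] at ha hb
  rw [hy2N]
  set k := K + 1 with hk
  have hk1 : 1 ≤ k := by linarith
  have hKk : K ≤ k := by linarith
  have hyz : y * z ≤ z := by nlinarith
  have hQ : |b - al * a| ≤ M * k * (y * z) := by
    have h1 : |al * a| ≤ K * (M * (y * z)) := SYL_mul hal ha
    rw [abs_le] at *
    constructor <;> nlinarith
  have hP : |s * a| ≤ s * (M * (y * z)) := by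
    rw [abs_mul, abs_of_pos hs]
    exact mul_le_mul_of_nonneg_left ha hs.le
  have hP0 : |s0 * a + s * a0| ≤ s * (M * k * z) := by
    have h1 : |s0 * a| ≤ K * s * (M * (y * z)) := SYL_mul hs0 ha
    have h2 : |s * a0| ≤ s * (M * z) := by
      rw [abs_mul, abs_of_pos hs]
      exact mul_le_mul_of_nonneg_left ha0 hs.le
    have h3 : K * s * (M * (y * z)) ≤ K * s * (M * z) := by gcongr
    calc |s0 * a + s * a0| ≤ |s0 * a| + |s * a0| := abs_add_le _ _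
      _ ≤ K * s * (M * z) + s * (M * z) := by linarith
      _ = s * (M * k * z) := by rw [hk]; ring
  have hQ0 : |b0 - (al0 * a + al * a0)| ≤ 2 * (M * k * z) := by
    have h1 : |al0 * a| ≤ K * (M * (y * z)) := SYL_mul hal0 ha
    have h2 : |al * a0| ≤ K * (M * z) := SYL_mul hal ha0
    have h3 : K * (M * (y * z)) ≤ K * (M * z) := by gcongr
    have h4 : 2 * (M * k * z) = M * z + M * z + K * (M * z) + K * (M * z) := by rw [hk]; ring
    have h5 : 0 ≤ M * z := by positivity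
    rw [h4]
    rw [abs_le] at *
    constructor <;> linarith
  have hP2 : (s * a) ^ 2 ≤ s ^ 2 * (M ^ 2 * (y * z) ^ 2) := by
    rw [← sq_abs]
    calc |s * a| ^ 2 ≤ (s * (M * (y * z))) ^ 2 := pow_le_pow_left₀ (abs_nonneg _) hP 2
      _ = s ^ 2 * (M ^ 2 * (y * z) ^ 2) := by ring
  have hQ2 : (b - al * a) ^ 2 ≤ M ^ 2 * k ^ 2 * (y * z) ^ 2 := by
    rw [← sq_abs]
    calc |b - al * a| ^ 2 ≤ (M * k * (y * z)) ^ 2 := pow_le_pow_left₀ (abs_nonneg _) hQ 2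
      _ = M ^ 2 * k ^ 2 * (y * z) ^ 2 := by ring
  have hk2 : 1 ≤ k ^ 2 := one_le_pow₀ hk1
  have hk23 : k ^ 2 ≤ k ^ 3 := pow_le_pow_right₀ hk1 (by norm_num)
  have hk13 : K ≤ k ^ 3 := hKk.trans (by
    calc k = k ^ 1 := (pow_one k).symm
      _ ≤ k ^ 3 := pow_le_pow_right₀ hk1 (by norm_num))
  constructor
  · have h1 : s ^ 2 * (M ^ 2 * (y * z) ^ 2) = s ^ 2 * y * (M ^ 2 * (y * z ^ 2)) := by ring
    have h2 : s ^ 2 * y * (M ^ 2 * (y * z ^ 2)) ≤ k ^ 3 * (M ^ 2 * (y * z ^ 2)) := by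
      have := hsy.trans hk13
      gcongr
    have h3 : M ^ 2 * k ^ 2 * (y * z) ^ 2 = y * (k ^ 2 * (M ^ 2 * (y * z ^ 2))) := by ring
    have h4 : y * (k ^ 2 * (M ^ 2 * (y * z ^ 2))) ≤ 1 * (k ^ 3 * (M ^ 2 * (y * z ^ 2))) := by
      gcongr
    have h5 : 0 ≤ k ^ 3 * (M ^ 2 * (y * z ^ 2)) := by positivity
    calc (s * a) ^ 2 + (b - al * a) ^ 2
        ≤ k ^ 3 * (M ^ 2 * (y * z ^ 2)) + 1 * (k ^ 3 * (M ^ 2 * (y * z ^ 2))) := by linarith
      _ ≤ 4 * (k ^ 3 * (M ^ 2 * (y * z ^ 2))) := by linarith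
      _ = 4 * M ^ 2 * k ^ 3 * (y * z ^ 2) := by ring
  · have h1 : s * |s0 * a + s * a0| * |b - al * a| ≤
        s * (s * (M * k * z)) * (M * k * (y * z)) := by gcongr
    have h2 : s * |b0 - (al0 * a + al * a0)| * |s * a| ≤
        s * (2 * (M * k * z)) * (s * (M * (y * z))) := by gcongr
    have h3 : ((s * a) ^ 2 + (b - al * a) ^ 2) / y ≤
        s ^ 2 * (M ^ 2 * (y * z ^ 2)) + M ^ 2 * k ^ 2 * (y * z ^ 2) := by
      rw [div_le_iff₀ hy]
      calc (s * a) ^ 2 + (b - al * a) ^ 2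
          ≤ s ^ 2 * (M ^ 2 * (y * z) ^ 2) + M ^ 2 * k ^ 2 * (y * z) ^ 2 := by linarith
        _ = (s ^ 2 * (M ^ 2 * (y * z ^ 2)) + M ^ 2 * k ^ 2 * (y * z ^ 2)) * y := by ring
    have hE : 0 ≤ M ^ 2 * (y * z ^ 2) := by positivity
    have hsE : 0 ≤ s ^ 2 * (M ^ 2 * (y * z ^ 2)) := by positivity
    have hkk : k ≤ k ^ 2 := by nlinarith
    calc s * |s0 * a + s * a0| * |b - al * a| + s * |b0 - (al0 * a + al * a0)| * |s * a| +
          ((s * a) ^ 2 + (b - al * a) ^ 2) / y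
        ≤ s * (s * (M * k * z)) * (M * k * (y * z)) +
            s * (2 * (M * k * z)) * (s * (M * (y * z))) +
            (s ^ 2 * (M ^ 2 * (y * z ^ 2)) + M ^ 2 * k ^ 2 * (y * z ^ 2)) := by linarith
      _ = k ^ 2 * (s ^ 2 * (M ^ 2 * (y * z ^ 2))) + 2 * (k * (s ^ 2 * (M ^ 2 * (y * z ^ 2)))) +
            1 * (s ^ 2 * (M ^ 2 * (y * z ^ 2))) + k ^ 2 * (M ^ 2 * (y * z ^ 2)) := by ring
      _ ≤ k ^ 2 * (s ^ 2 * (M ^ 2 * (y * z ^ 2))) + 2 * (k ^ 2 * (s ^ 2 * (M ^ 2 * (y * z ^ 2)))) +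
            k ^ 2 * (s ^ 2 * (M ^ 2 * (y * z ^ 2))) + 4 * (k ^ 2 * (M ^ 2 * (y * z ^ 2))) := by
          have e1 := mul_le_mul_of_nonneg_right hkk hsE
          have e2 := mul_le_mul_of_nonneg_right hk2 hsE
          have e3 : 0 ≤ k ^ 2 * (M ^ 2 * (y * z ^ 2)) := by positivity
          linarith
      _ = 4 * M ^ 2 * k ^ 2 * ((s ^ 2 + 1) * (y * z ^ 2)) := by ring

theorem p_SYL (hALG : Stmt_ALG) (hORD : Stmt_ORD) (hCPT : Stmt_CPT) : Stmt_SYL := by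
  intro d p q N ε r u v z M hd h
  obtain ⟨K, hK, hO⟩ := hORD d p q N ε r u v z M hd h
  have hsub := SYL_sub h.r1
  have hop := SYL_VS r
  have hl : ∀ i, ∃ L : ℝ, 0 ≤ L ∧ ∀ x : E2, 0 ≤ x 1 → x 1 ≤ r → |d.l i x| ≤ L := fun i =>
    (hCPT (d.l i) r h.r0 h.r1 (hd.sl i) (fun x hx => hd.pl i x (hsub hx))).1
  have hm : ∀ i, ∃ L : ℝ, 0 ≤ L ∧ ∀ x : E2, 0 ≤ x 1 → x 1 ≤ r → |d.m i x| ≤ L := fun i =>
    (hCPT (d.m i) r h.r0 h.r1 (hd.sm i) (fun x hx => hd.pm i x (hsub hx))).1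
  choose L0 hL0 hL using hl
  choose L1 hL1 hLm using hm
  set L := ∑ i, L0 i + ∑ i, L1 i with hLd
  have hL0n : 0 ≤ ∑ i, L0 i := Finset.sum_nonneg fun i _ => hL0 i
  have hL1n : 0 ≤ ∑ i, L1 i := Finset.sum_nonneg fun i _ => hL1 i
  have hLn : 0 ≤ L := add_nonneg hL0n hL1n
  have hlL : ∀ i, ∀ x ∈ VS r, |d.l i x| ≤ L := fun i x hx =>
    (hL i x hx.1.le hx.2.le).trans
      ((Finset.single_le_sum (fun j _ => hL0 j) (Finset.mem_univ i)).trans (by linarith))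
  have hmL : ∀ i, ∀ x ∈ VS r, |d.m i x| ≤ L := fun i x hx =>
    (hLm i x hx.1.le hx.2.le).trans
      ((Finset.single_le_sum (fun j _ => hL1 j) (Finset.mem_univ i)).trans (by linarith))
  -- smoothness
  have cA : ContDiffOn ℝ 2 d.A (VS r) :=
    ((contDiffOn_const.mul hd.sAF).add hd.sa).mono hsub
  have cB : ContDiffOn ℝ 2 d.B (VS r) :=
    ((contDiffOn_const.mul hd.sBF).add hd.sb).mono hsub
  have cC : ContDiffOn ℝ 2 d.C (VS r) :=
    ((contDiffOn_const.mul hd.sCF).add hd.sw).mono hsub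
  have cD : ContDiffOn ℝ 2 d.D (VS r) := (cA.mul cC).sub (cB.pow 2)
  have nz : ∀ x ∈ VS r, d.A x ≠ 0 := fun x hx => (h.non x hx.1 hx.2.le).1
  have pD : ∀ x ∈ VS r, 0 < ε * d.D x := fun x hx => (h.non x hx.1 hx.2.le).2
  have cal : ContDiffOn ℝ 2 d.al (VS r) := cB.div cA nz
  have cse : ContDiffOn ℝ 2 (d.se ε) (VS r) := by
    have h1 : ContDiffOn ℝ 2 (fun x => √(ε * d.D x)) (VS r) :=
      (contDiffOn_const.mul cD).sqrt fun x hx => (pD x hx).ne'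
    have h2 : ContDiffOn ℝ 2 (fun x => ‖d.A x‖) (VS r) := cA.norm ℝ nz
    exact h1.div h2 fun x hx => norm_ne_zero_iff.2 (nz x hx)
  have ca : ContDiffOn ℝ 2 d.a (VS r) := hd.sa.mono hsub
  have cb : ContDiffOn ℝ 2 d.b (VS r) := hd.sb.mono hsub
  -- periodicity
  have pA : ∀ x ∈ VS r, d.A (x + (2 * π) • ee 0) = d.A x := fun x hx => by
    rw [Dat.A, Dat.A, hd.pAF x (hsub hx), hd.pa x (hsub hx)]
  have pB : ∀ x ∈ VS r, d.B (x + (2 * π) • ee 0) = d.B x := fun x hx => by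
    rw [Dat.B, Dat.B, hd.pBF x (hsub hx), hd.pb x (hsub hx)]
  have pC : ∀ x ∈ VS r, d.C (x + (2 * π) • ee 0) = d.C x := fun x hx => by
    rw [Dat.C, Dat.C, hd.pCF x (hsub hx), hd.pw x (hsub hx)]
  have pDD : ∀ x ∈ VS r, d.D (x + (2 * π) • ee 0) = d.D x := fun x hx => by
    rw [Dat.D, Dat.D, pA x hx, pB x hx, pC x hx]
  have pal : ∀ x ∈ VS r, d.al (x + (2 * π) • ee 0) = d.al x := fun x hx => by
    rw [Dat.al, Dat.al, pA x hx, pB x hx]
  have pse : ∀ x ∈ VS r, d.se ε (x + (2 * π) • ee 0) = d.se ε x := fun x hx => by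
    rw [Dat.se, Dat.se, pA x hx, pDD x hx]
  have hpos : ∀ x ∈ VS r, 0 < d.se ε x := fun x hx =>
    div_pos (Real.sqrt_pos.2 (pD x hx)) (abs_pos.2 (nz x hx))
  -- bound for se
  have hse : ∀ x ∈ VS r, d.se ε x ^ 2 * x 1 ≤ K ∧ (2 * p ≤ q → d.se ε x ^ 2 ≤ K) := by
    intro x hx
    have hx0 : 0 < x 1 := hx.1
    have hx1 : x 1 ≤ 1 := (hx.2.trans h.r1).le
    have h1 := (hO x hx).2.2.2.1
    have hpp : 0 < x 1 ^ (2 * p) := by positivity
    constructor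
    · have h2 : x 1 ^ (q + 1) ≤ x 1 ^ (2 * p) := pow_le_pow_of_le_one hx0.le hx1 h.hpq
      have h3 : x 1 ^ (2 * p) * (d.se ε x ^ 2 * x 1) ≤ x 1 ^ (2 * p) * K := by
        calc x 1 ^ (2 * p) * (d.se ε x ^ 2 * x 1) = x 1 ^ (2 * p) * d.se ε x ^ 2 * x 1 := by ring
          _ ≤ K * x 1 ^ q * x 1 := mul_le_mul_of_nonneg_right h1 hx0.le
          _ = K * x 1 ^ (q + 1) := by ring
          _ ≤ K * x 1 ^ (2 * p) := mul_le_mul_of_nonneg_left h2 hK
          _ = x 1 ^ (2 * p) * K := mul_comm _ _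
      exact le_of_mul_le_mul_left h3 hpp
    · intro hpq
      have h2 : x 1 ^ q ≤ x 1 ^ (2 * p) := pow_le_pow_of_le_one hx0.le hx1 hpq
      have h3 : x 1 ^ (2 * p) * d.se ε x ^ 2 ≤ x 1 ^ (2 * p) * K := by
        calc x 1 ^ (2 * p) * d.se ε x ^ 2 ≤ K * x 1 ^ q := h1
          _ ≤ K * x 1 ^ (2 * p) := mul_le_mul_of_nonneg_left h2 hK
          _ = x 1 ^ (2 * p) * K := mul_comm _ _
      exact le_of_mul_le_mul_left h3 hpp
  have hss : ∀ x ∈ VS r, d.se ε x * √(x 1) ≤ K + 1 := by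
    intro x hx
    have h1 := (hse x hx).1
    have h2 : (d.se ε x * √(x 1)) ^ 2 ≤ (K + 1) ^ 2 := by
      rw [mul_pow, Real.sq_sqrt hx.1.le]
      nlinarith
    exact le_of_sq_le_sq h2 (by linarith)
  have hcoef := fun x (hx : x ∈ VS r) =>
    SYL_coef (t := 1 + K + L) (K := K) (L := L) (s := d.se ε x) (y := x 1) (ε := ε)
      (al := d.al x) (al0 := pd 0 d.al x) (A0A := pd 0 d.A x / d.A x) (s0 := pd 0 (d.se ε) x)
      (s1 := pd 1 (d.se ε) x) (l0 := d.l 0 x) (l1 := d.l 1 x) (l2 := d.l 2 x) (m1 := d.m 1 x)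
      (m2 := d.m 2 x) (c := (q : ℝ) / 2 - 2 * p) (η := (q : ℝ) / 2 - p) (p := p) hK hLn rfl
      (hpos x hx) h.he hx.1 (hx.2.trans h.r1).le (hss x hx) (hO x hx).1 (hO x hx).2.1
      (by
        rw [abs_div, div_le_iff₀ (abs_pos.2 (nz x hx))]
        exact (hO x hx).2.2.1)
      (hO x hx).2.2.2.2.1 (hO x hx).2.2.2.2.2.1 (hO x hx).2.2.2.2.2.2 (hlL 0 x hx) (hlL 1 x hx)
      (hlL 2 x hx) (hmL 1 x hx) (hmL 2 x hx) (by ring)
  refine ⟨10 * (1 + K + L) ^ 3, 4 * M ^ 2 * (K + 1) ^ 3, by have := h.M0; positivity, ?_, ?_⟩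
  · exact
      { r0 := h.r0
        r1 := h.r1.le
        k0 := by positivity
        sal := cal
        ss := cse
        sP := cse.mul ca
        sQ := cb.sub (cal.mul ca)
        pal := pal
        ps := pse
        pP := fun x hx => by rw [Dat.P, Dat.P, pse x hx, hd.pa x (hsub hx)]
        pQ := fun x hx => by rw [Dat.Q, Dat.Q, pal x hx, hd.pa x (hsub hx), hd.pb x (hsub hx)]
        pos := hpos
        eQ := fun x hx => (hALG d ε hd h.he (VS r) hop hsub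
          (fun y hy => ⟨nz y hy, pD y hy⟩) x hx).1
        eP := fun x hx => by
          rw [(hALG d ε hd h.he (VS r) hop hsub (fun y hy => ⟨nz y hy, pD y hy⟩) x hx).2]
          ring
        bq1 := fun x hx => (hcoef x hx).1
        bq2 := fun x hx => (hcoef x hx).2.1
        bp1 := fun x hx => (hcoef x hx).2.2.1
        bp2 := fun x hx => (hcoef x hx).2.2.2.1
        bal := fun x hx => (hcoef x hx).2.2.2.2.1
        bs := fun x hx => (hcoef x hx).2.2.2.2.2.1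
        bh := fun x hx => (hcoef x hx).2.2.2.2.2.2 }
  · intro x hx
    have hx0 : 0 < x 1 := hx.1
    have hx1 : x 1 ≤ 1 := (hx.2.trans h.r1).le
    have hv := h.van x hx0.le hx.2.le
    have das := Pool.FR.diff_at hop ca (by norm_num) hx
    have dbs := Pool.FR.diff_at hop cb (by norm_num) hx
    have dss := Pool.FR.diff_at hop cse (by norm_num) hx
    have dal := Pool.FR.diff_at hop cal (by norm_num) hx
    have eP0 : pd 0 (d.P ε) x = pd 0 (d.se ε) x * d.a x + d.se ε x * pd 0 d.a x :=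
      Pool.FR.pd_mul 0 dss das
    have eQ0 : pd 0 d.Q x = pd 0 d.b x - (pd 0 d.al x * d.a x + d.al x * pd 0 d.a x) := by
      have h1 : pd 0 d.Q x = pd 0 d.b x - pd 0 (fun y => d.al y * d.a y) x :=
        Pool.FR.pd_sub 0 dbs (dal.mul das)
      rw [h1, Pool.FR.pd_mul 0 dal das]
    have hw := SYL_w (y := x 1) (s := d.se ε x) (K := K) (M := M) (a := d.a x) (b := d.b x)
      (al := d.al x) (al0 := pd 0 d.al x) (s0 := pd 0 (d.se ε) x) (a0 := pd 0 d.a x)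
      (b0 := pd 0 d.b x) h.hN hx0 hx1 (hpos x hx) hK h.M0 (hO x hx).1 (hO x hx).2.1
      (hO x hx).2.2.2.2.1 hv.1 hv.2.1 (hv.2.2.2 0).1 (hv.2.2.2 0).2.1 (hse x hx).1
    refine ⟨hw.1, ?_⟩
    rw [eP0, eQ0]
    refine hw.2.trans ?_
    have hMk : 0 ≤ 4 * M ^ 2 * (K + 1) ^ 2 := by positivity
    split_ifs with hpq
    · have h1 := (hse x hx).2 hpq
      calc 4 * M ^ 2 * (K + 1) ^ 2 * ((d.se ε x ^ 2 + 1) * x 1 ^ (2 * N - 1))
          ≤ 4 * M ^ 2 * (K + 1) ^ 2 * ((K + 1) * x 1 ^ (2 * N - 1)) := by gcongr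
        _ = 4 * M ^ 2 * (K + 1) ^ 3 * x 1 ^ (2 * N - 1) := by ring
    · have h1 := (hse x hx).1
      have h2 : (d.se ε x ^ 2 + 1) * x 1 ≤ K + 1 := by nlinarith
      have h3 : x 1 ^ (2 * N - 1) = x 1 * x 1 ^ (2 * N - 2) := by
        rw [← pow_succ']
        congr 1
        have := h.hN
        omega
      calc 4 * M ^ 2 * (K + 1) ^ 2 * ((d.se ε x ^ 2 + 1) * x 1 ^ (2 * N - 1))
          = 4 * M ^ 2 * (K + 1) ^ 2 * (((d.se ε x ^ 2 + 1) * x 1) * x 1 ^ (2 * N - 2)) := by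
            rw [h3]; ring
        _ ≤ 4 * M ^ 2 * (K + 1) ^ 2 * ((K + 1) * x 1 ^ (2 * N - 2)) := by gcongr
        _ = 4 * M ^ 2 * (K + 1) ^ 3 * x 1 ^ (2 * N - 2) := by ring

end Pool.PGR
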