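import Pool.Agent.Work.MP_02e829_pg.Interface2
import Pool.Agent.Work.MP_02e829_tr.B_NLB
import Pool.Agent.Work.MP_02e829_tr.B_UB3

/-!
# MP_02e829_gt, PROPAGATION OF RIGIDITY: block TAY
-/

open Set Filter Manifold Matrix MeasureTheory Metric
open scoped Topology ContDiff Manifold Real

set_option autoImplicit false

namespace Pool.PGR

open Pool
open Pool.FR (pd ee gg WW DD NN II Ga Gb Imm SO3)
open Pool.TRG (E2 V3 IC St pt px PerR Iso Per Ann UB3_B UB3_pd UB3_le NLB_open NLB_px NLB_px0 NLB_px1 NLB_px_zero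
  NLB_mem NLB_px_per NLB_vert NLB_per NLB_mv)

/-- The case without derivatives. -/
theorem TAY_zero {u : ℝ → E2 → ℝ} (hu : UB3_B 0 u) (hp : ∀ t ∈ Icc (0 : ℝ) 1, PerR (u t))
    {r : ℝ} (h0 : 0 < r) (h1 : r < 1) :
    ∃ M : ℝ, 0 ≤ M ∧ ∀ t ∈ Icc (0 : ℝ) 1, ∀ x ∈ HS r, |u t x| ≤ M := by
  have hK : IsCompact (Icc (0 : ℝ) (2 * π) ×ˢ Icc (0 : ℝ) r) := isCompact_Icc.prod isCompact_Icc
  have hpx : Continuous fun q : ℝ × ℝ => px q.1 q.2 := by
    unfold px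
    fun_prop
  have hC : ∃ M : ℝ, ∀ q ∈ Icc (0 : ℝ) (2 * π) ×ˢ Icc (0 : ℝ) r, ∀ t ∈ Icc (0 : ℝ) 1,
      |u t (px q.1 q.2)| ≤ M := by
    refine hK.induction_on (p := fun s => ∃ M : ℝ, ∀ q ∈ s, ∀ t ∈ Icc (0 : ℝ) 1,
      |u t (px q.1 q.2)| ≤ M) ?_ ?_ ?_ ?_
    · exact ⟨0, fun q hq => absurd hq (notMem_empty q)⟩
    · rintro s s' hs ⟨M, hM⟩
      exact ⟨M, fun q hq => hM q (hs hq)⟩
    · rintro s s' ⟨M, hM⟩ ⟨M', hM'⟩
      refine ⟨max M M', fun q hq t ht => ?_⟩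
      rcases hq with hq | hq
      · exact (hM q hq t ht).trans (le_max_left _ _)
      · exact (hM' q hq t ht).trans (le_max_right _ _)
    · intro q hq
      have hqS : px q.1 q.2 ∈ St := by
        apply NLB_mem
        rw [abs_lt]
        constructor
        · linarith [hq.2.1]
        · linarith [hq.2.2]
      obtain ⟨M, hM⟩ := hu.bd _ hqS
      have h2 := hpx.continuousAt.eventually hM
      refine ⟨{q' | ∀ t ∈ Icc (0 : ℝ) 1, ∀ k ≤ 0, ‖iteratedFDeriv ℝ k (u t) (px q'.1 q'.2)‖ ≤ M},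
        mem_nhdsWithin_of_mem_nhds h2, M, fun q' hq' t ht => ?_⟩
      have h3 := hq' t ht 0 le_rfl
      rwa [norm_iteratedFDeriv_zero, Real.norm_eq_abs] at h3
  obtain ⟨M, hM⟩ := hC
  refine ⟨max M 0, le_max_right _ _, fun t ht x hx => ?_⟩
  obtain ⟨a, s, rfl⟩ : ∃ a s, x = px a s := ⟨x 0, x 1, (NLB_px x).symm⟩
  have hx0 : 0 ≤ s := by
    have := hx.1
    rwa [NLB_px1] at this
  have hx1 : s ≤ r := by
    have := hx.2
    rwa [NLB_px1] at this
  have hs : |s| < 1 := by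
    rw [abs_lt]
    constructor <;> linarith
  have hper : Function.Periodic (fun τ => u t (px τ s)) (2 * π) := by
    intro τ
    change u t (px (τ + 2 * π) s) = u t (px τ s)
    rw [NLB_px_per]
    exact hp t ht _ (NLB_mem hs)
  obtain ⟨y, hy, hty⟩ := hper.exists_mem_Ico₀ (by positivity) a
  rw [hty]
  have h2 := hM (y, s) ⟨⟨hy.1, hy.2.le⟩, ⟨hx0, hx1⟩⟩ t ht
  exact h2.trans (le_max_left _ _)

/-- A function vanishing for `x 1 < 0` has vanishing partial derivatives there. -/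
theorem TAY_van {u : E2 → ℝ} (hu : ∀ x ∈ St, x 1 < 0 → u x = 0) (i : Fin 2) :
    ∀ x ∈ St, x 1 < 0 → pd i u x = 0 := by
  intro x hx h0
  have hc : Continuous fun x : E2 => x 1 := by fun_prop
  have hO : IsOpen (St ∩ {x : E2 | x 1 < 0}) := NLB_open.inter (isOpen_lt hc continuous_const)
  rw [Pool.FR.pd_congr hO (f := u) (g := fun _ => 0) (fun y hy => hu y hy.1 hy.2) i
    (x := x) ⟨hx, h0⟩]
  exact Pool.FR.pd_const i (0 : ℝ) x

/-- A continuous function vanishing for `x 1 < 0` vanishes on the line. -/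
theorem TAY_line {u : E2 → ℝ} (hc : ContinuousOn u St) (hu : ∀ x ∈ St, x 1 < 0 → u x = 0)
    (a : ℝ) : u (px a 0) = 0 := by
  have hpx : Continuous fun s : ℝ => px a s := by
    unfold px
    fun_prop
  have hm : px a 0 ∈ St := NLB_mem (by norm_num)
  have h1 : ContinuousAt (fun s : ℝ => u (px a s)) 0 :=
    ContinuousAt.comp (f := fun s : ℝ => px a s) (hc.continuousAt (NLB_open.mem_nhds hm))
      hpx.continuousAt
  have h2 : Tendsto (fun s : ℝ => u (px a s)) (𝓝[<] 0) (𝓝 (u (px a 0))) :=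
    h1.tendsto.mono_left nhdsWithin_le_nhds
  have h3 : Tendsto (fun s : ℝ => u (px a s)) (𝓝[<] 0) (𝓝 0) := by
    refine tendsto_const_nhds.congr' ?_
    have h4 : ∀ᶠ s : ℝ in 𝓝[<] 0, s ∈ Ioo (-1 : ℝ) 0 := Ioo_mem_nhdsLT (by norm_num)
    filter_upwards [h4] with s hs
    refine (hu _ (NLB_mem ?_) ?_).symm
    · rw [abs_lt]
      constructor
      · exact hs.1
      · linarith [hs.2]
    · rw [NLB_px1]
      exact hs.2
  exact tendsto_nhds_unique h2 h3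

theorem TAY_ind {r : ℝ} (h0 : 0 < r) (h1 : r < 1) : ∀ (n : ℕ) (u : ℝ → E2 → ℝ), UB3_B n u →
    (∀ t ∈ Icc (0 : ℝ) 1, PerR (u t)) → (∀ t ∈ Icc (0 : ℝ) 1, ∀ x ∈ St, x 1 < 0 → u t x = 0) →
    ∃ M : ℝ, 0 ≤ M ∧ ∀ t ∈ Icc (0 : ℝ) 1, ∀ x ∈ HS r, |u t x| ≤ M * x 1 ^ n := by
  intro n
  induction n with
  | zero =>
    intro u hu hp _
    obtain ⟨M, hM0, hM⟩ := TAY_zero hu hp h0 h1
    refine ⟨M, hM0, fun t ht x hx => ?_⟩
    rw [pow_zero, mul_one]
    exact hM t ht x hx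
  | succ n ih =>
    intro u hu hp hv
    obtain ⟨M, hM0, hM⟩ := ih (fun t => pd 1 (u t)) (UB3_pd 1 hu)
      (fun t ht => NLB_per (hp t ht) 1) (fun t ht => TAY_van (hv t ht) 1)
    refine ⟨M, hM0, fun t ht x hx => ?_⟩
    obtain ⟨a, s, rfl⟩ : ∃ a s, x = px a s := ⟨x 0, x 1, (NLB_px x).symm⟩
    have hx0 : 0 ≤ s := by
      have := hx.1
      rwa [NLB_px1] at this
    have hx1 : s ≤ r := by
      have := hx.2
      rwa [NLB_px1] at this
    rw [NLB_px1]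
    have hd : ∀ σ ∈ Icc (0 : ℝ) s, HasDerivAt (fun σ => u t (px a σ)) (pd 1 (u t) (px a σ)) σ := by
      intro σ hσ
      refine NLB_vert (Pool.FR.diff_at NLB_open (hu.sm t ht) (by exact_mod_cast Nat.le_add_left 1 n) ?_)
      apply NLB_mem
      rw [abs_lt]
      constructor
      · linarith [hσ.1]
      · linarith [hσ.2]
    have hb : ∀ σ ∈ Icc (0 : ℝ) s, |pd 1 (u t) (px a σ)| ≤ M * s ^ n := by
      intro σ hσ
      have h2 := hM t ht (px a σ) ⟨by rw [NLB_px1]; exact hσ.1, by rw [NLB_px1]; exact hσ.2.trans hx1⟩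
      rw [NLB_px1] at h2
      exact h2.trans (mul_le_mul_of_nonneg_left (pow_le_pow_left₀ hσ.1 hσ.2 n) hM0)
    have h3 := NLB_mv (f := fun σ => u t (px a σ)) hx0 hd hb
      (TAY_line (hu.sm t ht).continuousOn (hv t ht) a)
    rw [pow_succ, ← mul_assoc]
    exact h3

theorem p_TAY : Stmt_TAY := by
  intro n u hs hb hp hv r h0 h1
  have hu : UB3_B n u := ⟨hs, hb⟩
  obtain ⟨M, hM0, hM⟩ := TAY_ind h0 h1 n u hu hp hv
  by_cases hn : 1 ≤ n
  · obtain ⟨k, rfl⟩ : ∃ k, n = k + 1 := ⟨n - 1, by omega⟩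
    have h2 : ∀ i : Fin 2, ∃ M' : ℝ, 0 ≤ M' ∧ ∀ t ∈ Icc (0 : ℝ) 1, ∀ x ∈ HS r,
        |pd i (u t) x| ≤ M' * x 1 ^ k := fun i =>
      TAY_ind h0 h1 k (fun t => pd i (u t)) (UB3_pd i hu)
        (fun t ht => NLB_per (hp t ht) i) (fun t ht => TAY_van (hv t ht) i)
    obtain ⟨M0, g0, hM0'⟩ := h2 0
    obtain ⟨M1, g1, hM1'⟩ := h2 1
    refine ⟨M + M0 + M1, by positivity, fun t ht x hx => ⟨?_, fun _ i => ?_⟩⟩
    · refine (hM t ht x hx).trans (mul_le_mul_of_nonneg_right (by linarith) (pow_nonneg hx.1 _))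
    · have hk : k + 1 - 1 = k := by omega
      rw [hk]
      have hpw : 0 ≤ x 1 ^ k := pow_nonneg hx.1 _
      fin_cases i
      · exact (hM0' t ht x hx).trans (mul_le_mul_of_nonneg_right (by linarith) hpw)
      · exact (hM1' t ht x hx).trans (mul_le_mul_of_nonneg_right (by linarith) hpw)
  · exact ⟨M, hM0, fun t ht x hx => ⟨hM t ht x hx, fun h => absurd h hn⟩⟩

end Pool.PGR
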