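import Pool.Agent.Work.MP_02e829_pg.Interface2
import Pool.Agent.Work.MP_02e829_tr.Mv
import Pool.Agent.Work.MP_02e829_fr.MOT

/-!
# MP_02e829_gt, PROPAGATION OF RIGIDITY, block TUB: the tube theorem
-/

open Set Filter Manifold Matrix MeasureTheory Metric
open scoped Topology ContDiff Manifold Real

set_option autoImplicit false

universe w

namespace Pool.PGR

open Pool
open Pool.FR (pd ee gg WW DD NN II Ga Gb Imm SO3)
open Pool.SXB (E3 L3 Proper PosCurv TC)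
open Pool.TRG (E2 V3 IC St pt px PerR Iso Per Ann)

theorem TUB_open : IsOpen St := by
  have h : Continuous fun x : E2 => |x 1| := by fun_prop
  exact isOpen_lt h continuous_const

theorem TUB_pt (x : ℝ) : pt x ∈ St := by
  change |(pt x) 1| < 1
  simp [pt, ee]

/-- the part of the strip below the line -/
def TUB_O : Set E2 := {x | x ∈ St ∧ x 1 < 0}

theorem TUB_O_open : IsOpen TUB_O := by
  have h : Continuous fun x : E2 => x 1 := by fun_prop
  exact TUB_open.inter (isOpen_lt h continuous_const)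

theorem TUB_path (x s : ℝ) (hs : 0 < s) (hs1 : s < 1) : pt x - s • ee 1 ∈ TUB_O := by
  have h1 : (pt x - s • ee 1) 1 = -s := by simp [pt, ee]
  refine ⟨?_, ?_⟩
  · change |(pt x - s • ee 1) 1| < 1
    rw [h1, abs_neg, abs_of_pos hs]
    exact hs1
  · rw [h1]
    linarith

theorem TUB_lim {G H : E2 → V3} (hG : ContinuousOn G St) (hH : ContinuousOn H St)
    (h : ∀ y ∈ TUB_O, G y = H y) (x : ℝ) : G (pt x) = H (pt x) := by
  have hc : Continuous fun s : ℝ => pt x - s • (ee 1 : E2) := by fun_prop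
  have h0 : pt x - (0 : ℝ) • (ee 1 : E2) = pt x := by simp
  have ht : Tendsto (fun s : ℝ => pt x - s • (ee 1 : E2)) (𝓝[>] (0 : ℝ)) (𝓝 (pt x)) := by
    have h1 := hc.tendsto 0
    rw [h0] at h1
    exact h1.mono_left nhdsWithin_le_nhds
  have hG1 : Tendsto G (𝓝 (pt x)) (𝓝 (G (pt x))) :=
    hG.continuousAt (TUB_open.mem_nhds (TUB_pt x))
  have hH1 : Tendsto H (𝓝 (pt x)) (𝓝 (H (pt x))) :=
    hH.continuousAt (TUB_open.mem_nhds (TUB_pt x))
  have h2 := hG1.comp ht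
  have h3 := hH1.comp ht
  refine tendsto_nhds_unique (h2.congr' ?_) h3
  filter_upwards [Ioo_mem_nhdsGT (zero_lt_one (α := ℝ))] with s hs
  exact h _ (TUB_path x s hs.1 hs.2)

theorem p_TUB (hFRM : Pool.FR.Stmt_FRM) (hMOT : Pool.FR.Stmt_MOT) (hFOD : TRG.Stmt_FOD)
    (hSTR : Stmt_STR) (hDFM : Stmt_DFM.{w}) (hTUC : Stmt_TUC.{w}) : Stmt_TUB.{w} := by
  intro S _ _ m _ f hm hf Φ hT A hA hlow
  have _ := hFRM
  have hSF : SFm m fun t x => L3 (f t (Φ x)) := hDFM S m f hm hf Φ hT.ann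
  have hz : (0 : ℝ) ∈ Icc (0 : ℝ) 1 := ⟨le_rfl, zero_le_one⟩
  have hI0 : Imm (fun x => L3 (f 0 (Φ x))) St := hSF.imm 0 hz
  obtain ⟨p, q, u, v, z, h1, h2, h3, hL, hne⟩ := hTUC S m (f 0) Φ hI0 hT
  -- the motions
  have hmot : ∀ t, t ∈ Icc (0 : ℝ) 1 → ∃ (R : Matrix (Fin 3) (Fin 3) ℝ) (b : V3), SO3 R ∧
      ∀ y : E3, L3 (A t y) = R *ᵥ L3 y + b := by
    intro t ht
    obtain ⟨R, b, hR, hd, hy⟩ := TRG.motion_of (A t) (hA t ht)
    refine ⟨R, L3 b, ⟨hR, hd⟩, fun y => ?_⟩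
    funext i
    exact hy y i
  have hne0 : TUB_O.Nonempty := ⟨_, TUB_path 0 (1 / 2) (by norm_num) (by norm_num)⟩
  have hIO : Imm (fun x => L3 (f 0 (Φ x))) TUB_O :=
    ⟨hI0.smooth.mono fun x hx => hx.1, fun x hx => hI0.pos x hx.1⟩
  have hII : ∀ t ∈ Icc (0 : ℝ) 1, ∀ x ∈ St, x 1 < 0 → ∀ i j,
      II (fun x => L3 (f t (Φ x))) i j x = II (fun x => L3 (f 0 (Φ x))) i j x := by
    intro t ht x hx hx1 i j
    obtain ⟨R, b, hR, hy⟩ := hmot t ht
    refine (hMOT TUB_O TUB_O_open hne0 _ hIO).1 _ ⟨R, hR, b, fun y hyO => ?_⟩ x ⟨hx, hx1⟩ i j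
    rw [hlow t ht y hyO.1 hyO.2]
    exact hy _
  have hSTR' := hSTR m (fun t x => L3 (f t (Φ x))) p q u v z hm hSF hII h1 h2 h3 hL hne
  intro t ht x hx
  rcases lt_or_ge (x 1) 0 with hx1 | hx1
  · exact hlow t ht x hx hx1
  obtain ⟨R, b, hR, hy⟩ := hmot t ht
  have hIt : Imm (fun x => L3 (f t (Φ x))) St := hSF.imm t ht
  have heqO : ∀ y ∈ TUB_O, L3 (f t (Φ y)) = R *ᵥ L3 (f 0 (Φ y)) + b := by
    intro y hyO
    rw [hlow t ht y hyO.1 hyO.2]
    exact hy _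
  have hcR : Continuous fun w : V3 => R *ᵥ w := by
    exact (LinearMap.toContinuousLinearMap R.mulVecLin).continuous
  have e0 : ∀ x : ℝ, L3 (f t (Φ (pt x))) = R *ᵥ L3 (f 0 (Φ (pt x))) + b := fun x =>
    TUB_lim (G := fun y => L3 (f t (Φ y))) (H := fun y => R *ᵥ L3 (f 0 (Φ y)) + b)
      hIt.smooth.continuousOn
      ((hcR.comp_continuousOn hI0.smooth.continuousOn).add continuousOn_const) heqO x
  have hp : ∀ s ∈ Icc (0 : ℝ) 1, ∀ i, ContinuousOn (pd i fun x => L3 (f s (Φ x))) St :=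
    fun s hs i => (Pool.FR.pd_contDiffOn TUB_open (hSF.imm s hs).smooth (m := 3)
      (by norm_num) i).continuousOn
  have e1 : ∀ (x : ℝ) (i : Fin 2), pd i (fun x => L3 (f t (Φ x))) (pt x) =
      R *ᵥ pd i (fun x => L3 (f 0 (Φ x))) (pt x) := by
    intro x i
    refine TUB_lim (G := fun y => pd i (fun x => L3 (f t (Φ x))) y)
      (H := fun y => R *ᵥ pd i (fun x => L3 (f 0 (Φ x))) y) (hp t ht i)
      (hcR.comp_continuousOn (hp 0 hz i)) (fun y hyO => ?_) x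
    exact Pool.FR.MOTb.pd_motion TUB_O_open (fun y hy => Pool.FR.diff_at TUB_O_open hIO.smooth
      (by norm_num) hy) heqO i hyO
  have hfin := hFOD _ _ hI0 hIt (hSF.iso t ht) R b hR e0 e1 (fun y hy hy1 i j =>
    hSTR' t ht y ⟨hy1, (le_abs_self _).trans_lt hy⟩ i j) x hx hx1
  have hinj : Function.Injective (L3 : E3 → V3) := fun a b hab =>
    (EuclideanSpace.equiv (Fin 3) ℝ).injective hab
  refine hinj ?_
  rw [hy]
  exact hfin

end Pool.PGR
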