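import Pool.Agent.Work.MP_02e829_pg.Interface2

/-!
# MP_02e829_gt, PROPAGATION OF RIGIDITY, block TUC: tubes in coordinates
-/

open Set Filter Manifold Matrix MeasureTheory Metric
open scoped Topology ContDiff Manifold Real

set_option autoImplicit false

universe w

namespace Pool.PGR

open Pool
open Pool.FR (pd ee gg WW DD NN II Ga Gb Imm SO3)
open Pool.SXB (E3 L3 Proper PosCurv TC)
open Pool.TRG (E2 V3 IC St pt px PerR Iso Per Ann)

theorem TUC_open : IsOpen St := by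
  have h : Continuous fun x : E2 => |x 1| := by fun_prop
  exact isOpen_lt h continuous_const

theorem TUC_HT {x : E2} (hx : x ∈ HT) : x ∈ St := by
  change |x 1| < 1
  rw [abs_of_nonneg hx.1]
  exact hx.2

theorem TUC_pt (x : ℝ) : pt x ∈ St := by
  change |(pt x) 1| < 1
  simp [pt, ee]

theorem TUC_L3 {u : E2 → E3} (h : ContDiffOn ℝ 4 (fun x => L3 (u x)) St) :
    ContDiffOn ℝ 4 u St := by
  have h1 : ContDiffOn ℝ 4
      (fun x => ((EuclideanSpace.equiv (Fin 3) ℝ).symm : V3 →L[ℝ] E3) (L3 (u x))) St :=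
    ((EuclideanSpace.equiv (Fin 3) ℝ).symm : V3 →L[ℝ] E3).contDiff.comp_contDiffOn h
  refine h1.congr fun x _ => ?_
  exact ((EuclideanSpace.equiv (Fin 3) ℝ).symm_apply_apply (u x)).symm

theorem TUC_p1 {u : E2 → E3} (hu : ContDiffOn ℝ 4 u St) (i : Fin 2) {x : E2} (hx : x ∈ St) :
    pd i (fun y => L3 (u y)) x = L3 (pd i u x) :=
  Pool.FR.pd_clm i L3 (Pool.FR.diff_at TUC_open hu (by norm_num) hx)

theorem TUC_p2 {u : E2 → E3} (hu : ContDiffOn ℝ 4 u St) (i j : Fin 2) {x : E2} (hx : x ∈ St) :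
    pd i (pd j (fun y => L3 (u y))) x = L3 (pd i (pd j u) x) := by
  have h1 : pd i (pd j (fun y => L3 (u y))) x = pd i (fun y => L3 (pd j u y)) x :=
    Pool.FR.pd_congr TUC_open (fun y hy => TUC_p1 hu j hy) i hx
  have h2 : ContDiffOn ℝ 3 (pd j u) St := Pool.FR.pd_contDiffOn TUC_open hu (by norm_num) j
  rw [h1]
  exact Pool.FR.pd_clm i L3 (Pool.FR.diff_at TUC_open h2 (by norm_num) hx)

theorem TUC_sf (hFRM : Pool.FR.Stmt_FRM) {u : E2 → E3} (hF : Imm (fun x => L3 (u x)) St)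
    (i j : Fin 2) {x : E2} (hx : x ∈ St) :
    sf u i j x = Real.sqrt (DD (fun x => L3 (u x)) x) * II (fun x => L3 (u x)) i j x := by
  have hu : ContDiffOn ℝ 4 u St := TUC_L3 hF.smooth
  have hW := (hFRM St TUC_open _ hF x hx).2.2.1
  have h1 : L3 (pd 0 u x) ⨯₃ L3 (pd 1 u x) = WW (fun x => L3 (u x)) x := by
    rw [WW, TUC_p1 hu 0 hx, TUC_p1 hu 1 hx]
  rw [sf, h1, ← TUC_p2 hu i j hx, hW, dotProduct_smul, smul_eq_mul, II]

theorem TUC_sd (hFRM : Pool.FR.Stmt_FRM) {u : E2 → E3} (hF : Imm (fun x => L3 (u x)) St)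
    {x : E2} (hx : x ∈ St) :
    sd u x = DD (fun x => L3 (u x)) x * dII (fun x => L3 (u x)) x := by
  have h1 : Real.sqrt (DD (fun x => L3 (u x)) x) * Real.sqrt (DD (fun x => L3 (u x)) x) =
      DD (fun x => L3 (u x)) x := Real.mul_self_sqrt (hF.pos x hx).le
  rw [sd, dII, TUC_sf hFRM hF 0 0 hx, TUC_sf hFRM hF 1 1 hx, TUC_sf hFRM hF 0 1 hx]
  set s := Real.sqrt (DD (fun x => L3 (u x)) x) with hs
  rw [← h1]
  ring

theorem TUC_DD {F : E2 → V3} (hF : Imm F St) : ContDiffOn ℝ 1 (DD F) St := by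
  have hp : ∀ i, ContDiffOn ℝ 1 (pd i F) St := fun i =>
    (Pool.FR.pd_contDiffOn TUC_open hF.smooth (m := 3) (by norm_num) i).of_le (by norm_num)
  have hg : ∀ i j, ContDiffOn ℝ 1 (gg F i j) St := fun i j =>
    Pool.FR.contDiffOn_dot (hp i) (hp j)
  have h1 : DD F = fun x => gg F 0 0 x * gg F 1 1 x - gg F 0 1 x ^ 2 := rfl
  rw [h1]
  exact ((hg 0 0).mul (hg 1 1)).sub ((hg 0 1).pow 2)

theorem p_TUC (hFRM : Pool.FR.Stmt_FRM) : Stmt_TUC.{w} := by
  intro S _ _ m f Φ hF hT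
  obtain ⟨hann, hreg, p, q, u, v, z, h1, h2, h3, hu, hv, hz, hne, heq⟩ := hT
  have hD : ContDiffOn ℝ 1 (DD (fun x => L3 (f (Φ x)))) St := TUC_DD hF
  have hDp : ∀ x ∈ St, DD (fun x => L3 (f (Φ x))) x ≠ 0 := fun x hx => (hF.pos x hx).ne'
  have hs : ContDiffOn ℝ 1 (fun x => Real.sqrt (DD (fun x => L3 (f (Φ x))) x)) St :=
    hD.sqrt hDp
  have hsp : ∀ x ∈ St, Real.sqrt (DD (fun x => L3 (f (Φ x))) x) ≠ 0 := fun x hx =>
    (Real.sqrt_pos.2 (hF.pos x hx)).ne'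
  refine ⟨p, q, fun x => u x / Real.sqrt (DD (fun x => L3 (f (Φ x))) x),
    fun x => v x / Real.sqrt (DD (fun x => L3 (f (Φ x))) x),
    fun x => z x / DD (fun x => L3 (f (Φ x))) x, h1, h2, h3,
    ⟨hu.div hs hsp, hv.div hs hsp, hz.div hD hDp, ?_, ?_, ?_, ?_, ?_⟩, ?_⟩
  · intro x
    exact div_ne_zero (hne x).1 (hsp _ (TUC_pt x))
  · intro x
    exact div_ne_zero (hne x).2 (hDp _ (TUC_pt x))
  · intro x hx
    have hx' := TUC_HT hx
    have h4 := (heq x hx).1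
    rw [TUC_sf hFRM (u := fun y => f (Φ y)) hF 0 0 hx'] at h4
    have h5 := hsp x hx'
    rw [← mul_div_assoc, eq_div_iff h5, ← h4]
    ring
  · intro x hx
    have hx' := TUC_HT hx
    have h4 := (heq x hx).2.1
    rw [TUC_sf hFRM (u := fun y => f (Φ y)) hF 0 1 hx'] at h4
    have h5 := hsp x hx'
    rw [← mul_div_assoc, eq_div_iff h5, ← h4]
    ring
  · intro x hx
    have hx' := TUC_HT hx
    have h4 := (heq x hx).2.2
    rw [TUC_sd hFRM (u := fun y => f (Φ y)) hF hx'] at h4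
    have h5 := hDp x hx'
    rw [← mul_div_assoc, eq_div_iff h5, ← h4]
    ring
  · intro x hx hx1
    obtain ⟨h4, h5⟩ := hreg x hx hx1
    rw [TUC_sf hFRM (u := fun y => f (Φ y)) hF 0 0 hx] at h4
    rw [TUC_sd hFRM (u := fun y => f (Φ y)) hF hx] at h5
    exact ⟨right_ne_zero_of_mul h4, right_ne_zero_of_mul h5⟩

end Pool.PGR
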