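import Pool.Agent.Work.MP_02e829_pg.Interface2
import Pool.Agent.Work.MP_02e829_tr.B_UB3

open Set Filter Manifold Matrix MeasureTheory Metric
open scoped Topology ContDiff Manifold Real

set_option autoImplicit false

/-! Block UBM (helper88): bounded derivatives of the second fundamental form. -/

namespace Pool.PGR

open Pool
open Pool.FR (pd ee gg WW DD NN II Ga Gb Imm SO3)
open Pool.TRG (E2 V3 IC St pt px PerR Iso Per UB3_B UB3_St UB3_le UB3_clm UB3_pd UB3_add UB3_mul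
  UB3_fix UB3_congr UB3_cmp)

theorem p_UBM : Stmt_UBM := by
  intro m F hm hF i j
  obtain ⟨n, rfl⟩ : ∃ n, m = n + 2 := ⟨m - 2, by omega⟩
  have hn : 2 ≤ n := by omega
  have h0 : UB3_B (n + 2) F := ⟨fun t ht => hF.smo t ht, hF.bd⟩
  have h1 : ∀ i a, UB3_B n fun t y => pd i (F t) y a := fun i a =>
    UB3_cmp (UB3_le (Nat.le_succ n) (UB3_pd (n := n + 1) i h0)) a
  have h2 : ∀ i j a, UB3_B n fun t y => pd i (pd j (F t)) y a := fun i j a =>
    UB3_cmp (UB3_pd (n := n) i (UB3_pd (n := n + 1) j h0)) a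
  have hN : UB3_B n fun (_ : ℝ) (_ : E2) => (-1 : ℝ) := UB3_fix contDiffOn_const
  have hsub : ∀ {u v : ℝ → E2 → ℝ}, UB3_B n u → UB3_B n v → UB3_B n fun t x => u t x - v t x := by
    intro u v hu hv
    refine UB3_congr (UB3_add hu (UB3_mul hN hv)) fun t _ y _ => ?_
    ring
  have h3 : UB3_B n fun t y => pd i (pd j (F t)) y ⬝ᵥ WW (F t) y := by
    have q0 := UB3_mul (h2 i j 0) (hsub (UB3_mul (h1 0 1) (h1 1 2)) (UB3_mul (h1 0 2) (h1 1 1)))
    have q1 := UB3_mul (h2 i j 1) (hsub (UB3_mul (h1 0 2) (h1 1 0)) (UB3_mul (h1 0 0) (h1 1 2)))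
    have q2 := UB3_mul (h2 i j 2) (hsub (UB3_mul (h1 0 0) (h1 1 1)) (UB3_mul (h1 0 1) (h1 1 0)))
    refine UB3_congr (UB3_add (UB3_add q0 q1) q2) fun t _ y _ => ?_
    rw [WW, cross_apply, dotProduct, Fin.sum_univ_three]
    simp
  have h00 : (0 : ℝ) ∈ Icc (0 : ℝ) 1 := by norm_num
  have hI0 : Imm (F 0) St := hF.imm 0 h00
  have hp : ∀ i, ContDiffOn ℝ n (pd i (F 0)) St := fun i =>
    Pool.FR.pd_contDiffOn UB3_St (hF.smo 0 h00) (by norm_cast; omega) i
  have hgg : ∀ i j, ContDiffOn ℝ n (gg (F 0) i j) St := fun i j =>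
    Pool.FR.contDiffOn_dot (hp i) (hp j)
  have hDD : ContDiffOn ℝ n (DD (F 0)) St :=
    ((hgg 0 0).mul (hgg 1 1)).sub ((hgg 0 1).pow 2)
  have hr : ContDiffOn ℝ n (fun y => (Real.sqrt (DD (F 0) y))⁻¹) St := by
    refine (hDD.sqrt fun y hy => (hI0.pos y hy).ne').inv fun y hy => ?_
    exact (Real.sqrt_pos.2 (hI0.pos y hy)).ne'
  have h4 : UB3_B n fun (_ : ℝ) y => (Real.sqrt (DD (F 0) y))⁻¹ := UB3_fix hr
  have h5 : UB3_B n fun t => II (F t) i j := by
    refine UB3_congr (UB3_mul h4 h3) fun t ht y hy => ?_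
    have hDt : DD (F t) y = DD (F 0) y := by
      rw [DD, DD, hF.iso t ht y hy 0 0, hF.iso t ht y hy 0 1, hF.iso t ht y hy 1 1]
    rw [II, NN, hDt, dotProduct_smul, smul_eq_mul]
  exact h5.bd

end Pool.PGR
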