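import Pool.Agent.Work.MP_02e829_pg.Interface

/-! # Block VAN: the difference of the second forms vanishes (MP_02e829, PROPAGATION OF RIGIDITY) -/

open Set Filter Manifold Matrix MeasureTheory Metric
open scoped Topology ContDiff Manifold Real

set_option autoImplicit false

universe w

namespace Pool.PGR

open Pool
open Pool.FR (pd ee gg WW DD NN II Ga Gb Imm SO3)
open Pool.SXB (E3 L3 Proper PosCurv TC)
open Pool.TRG (E2 V3 IC St pt px PerR Iso Per)

theorem VAN_clos {r : ℝ} (hr : 0 < r) {x : E2} (h : x 1 = r) : x ∈ closure (VS r) := by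
  have h1 : Tendsto (fun s : ℝ => x + s • (ee 1 : E2)) (𝓝[<] 0) (𝓝 x) := by
    have h2 : Continuous fun s : ℝ => x + s • (ee 1 : E2) := by fun_prop
    have h3 := h2.tendsto 0
    rw [zero_smul, add_zero] at h3
    exact h3.mono_left nhdsWithin_le_nhds
  refine mem_closure_of_tendsto h1 ?_
  have h4 : Ioo (-r) 0 ∈ 𝓝[<] (0 : ℝ) := Ioo_mem_nhdsLT (by linarith)
  filter_upwards [h4] with s hs
  have h5 : (x + s • (ee 1 : E2)) 1 = r + s := by
    rw [← h]
    simp [ee]
  show 0 < (x + s • (ee 1 : E2)) 1 ∧ (x + s • (ee 1 : E2)) 1 < r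
  rw [h5]
  exact ⟨by linarith [hs.1], by linarith [hs.2]⟩

theorem VAN_St {x : E2} (h0 : 0 ≤ x 1) (h1 : x 1 < 1) : x ∈ St := by
  show |x 1| < 1
  rw [abs_of_nonneg h0]
  exact h1

/-- the unknowns vanish on the open half strip -/
theorem VAN_PQ (hHYP : Stmt_HYP) (hELL : Stmt_ELL) (hSYL : Stmt_SYL) (d : Dat) (p q N : ℕ)
    (ε r : ℝ) (u v z : E2 → ℝ) (M : ℝ) (hd : PR d) (hL : LNC d p q N ε r u v z M) :
    ∀ x ∈ VS r, 0 < d.se ε x ∧ d.P ε x = 0 ∧ d.Q x = 0 := by
  obtain ⟨κ, M', hM', hSY, hb⟩ := hSYL d p q N ε r u v z M hd hL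
  have hp := hL.hp
  have hq := hL.hq
  have hpq := hL.hpq
  have hN := hL.hN
  have hp0 : (0 : ℝ) ≤ p := Nat.cast_nonneg p
  suffices h : ∀ x ∈ VS r, d.P ε x = 0 ∧ d.Q x = 0 from fun x hx => ⟨hSY.pos x hx, h x hx⟩
  rcases hL.he with hε | hε
  · subst hε
    have hpqR : 2 * (p : ℝ) ≤ q + 1 := by exact_mod_cast hpq
    have hη : -(1 / 2 : ℝ) ≤ (q : ℝ) / 2 - p := by linarith
    rcases lt_trichotomy (2 * p) q with h1 | h1 | h1
    · -- the first case
      obtain ⟨j, rfl⟩ : ∃ j, q = 2 * p + j := ⟨q - 2 * p, by omega⟩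
      have hj : 1 ≤ j := by omega
      have hjR : (1 : ℝ) ≤ j := by exact_mod_cast hj
      have hc : ((2 * p + j : ℕ) : ℝ) = 2 * p + j := by push_cast; ring
      have hn : ((2 * j : ℕ) : ℝ) = 2 * j := by push_cast; ring
      refine hELL _ _ κ r M' (j / 2) _ _ _ _ _ _ _ _ hSY hM' (2 * j) (2 * N - 1) hη
        (by linarith) ?_ ?_ (by omega) ?_
      · rw [hc, hn]
        nlinarith
      · rw [hc, hn]
        nlinarith [mul_nonneg hp0 (by linarith : (0 : ℝ) ≤ j)]
      · intro x hx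
        have h2 := (hb x hx).2
        rw [if_pos (by omega)] at h2
        exact h2
    · subst h1
      have hc : ((2 * p : ℕ) : ℝ) = 2 * p := by push_cast; ring
      refine hELL _ _ κ r M' (1 / 2) _ _ _ _ _ _ _ _ hSY hM' 1 (2 * N - 1) hη
        (by norm_num) ?_ ?_ (by omega) ?_
      · rw [hc]
        push_cast
        nlinarith
      · rw [hc]
        push_cast
        nlinarith
      · intro x hx
        have h2 := (hb x hx).2
        rw [if_pos le_rfl] at h2
        exact h2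
    · have h2 : q + 1 = 2 * p := by omega
      have hc : (q : ℝ) = 2 * p - 1 := by
        have h3 : ((q + 1 : ℕ) : ℝ) = ((2 * p : ℕ) : ℝ) := by rw [h2]
        push_cast at h3
        linarith
      refine hELL _ _ κ r M' (3 / 16) _ _ _ _ _ _ _ _ hSY hM' 1 (2 * N - 2) hη
        (by norm_num) ?_ ?_ (by omega) ?_
      · rw [hc]
        push_cast
        nlinarith
      · rw [hc]
        push_cast
        nlinarith
      · intro x hx
        have h3 := (hb x hx).2
        rw [if_neg (by omega)] at h3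
        exact h3
  · subst hε
    refine hHYP _ _ κ r M' _ _ _ _ _ _ _ _ hSY (q - 2 * p) (2 * N - 1) ?_ (by omega)
      fun x hx => (hb x hx).1
    have h1 : (q : ℝ) ≤ ((q - 2 * p : ℕ) : ℝ) + 2 * p := by
      have h2 : q ≤ (q - 2 * p) + 2 * p := by omega
      exact_mod_cast h2
    linarith

theorem p_VAN (hHYP : Stmt_HYP) (hELL : Stmt_ELL) (hSYL : Stmt_SYL) : Stmt_VAN := by
  intro d p q N ε r u v z M hd hL
  have hN := hL.hN
  have hr0 := hL.r0
  have hr1 := hL.r1
  have hPQ := VAN_PQ hHYP hELL hSYL d p q N ε r u v z M hd hL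
  have hopen : ∀ x ∈ VS r, d.a x = 0 ∧ d.b x = 0 ∧ d.w x = 0 := by
    intro x hx
    obtain ⟨h1, h2, h3⟩ := hPQ x hx
    have hxS : x ∈ St := VAN_St hx.1.le (hx.2.trans hr1)
    have ha : d.a x = 0 := by
      have h4 : d.se ε x * d.a x = 0 := h2
      exact (mul_eq_zero.1 h4).resolve_left h1.ne'
    have hb : d.b x = 0 := by
      have h4 : d.b x - d.al x * d.a x = 0 := h3
      rw [ha, mul_zero, sub_zero] at h4
      exact h4
    have hA := (hL.non x hx.1 hx.2.le).1
    have hAF : d.AF x ≠ 0 := by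
      intro h4
      apply hA
      show 2 * d.AF x + d.a x = 0
      rw [h4, ha]
      ring
    have he := hd.e0 x hxS
    rw [ha, hb] at he
    have hw : d.AF x * d.w x = 0 := by linarith
    exact ⟨ha, hb, (mul_eq_zero.1 hw).resolve_left hAF⟩
  intro x hx0 hx1
  rcases hx0.eq_or_lt with h0 | h0
  · obtain ⟨h1, h2, h3, -⟩ := hL.van x hx0 hx1
    rw [← h0, zero_pow (by omega), mul_zero] at h1 h2 h3
    exact ⟨abs_nonpos_iff.1 h1, abs_nonpos_iff.1 h2, abs_nonpos_iff.1 h3⟩
  · rcases hx1.eq_or_lt with h1 | h1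
    · have hxS : x ∈ St := VAN_St hx0 (by rw [h1]; exact hr1)
      have hsub : VS r ⊆ St := fun y hy => VAN_St hy.1.le (hy.2.trans hr1)
      have hcl := VAN_clos hr0 h1
      have key : ∀ f : E2 → ℝ, ContDiffOn ℝ 2 f St → (∀ y ∈ VS r, f y = 0) → f x = 0 := by
        intro f hf h2
        have h3 : ContinuousWithinAt f (VS r) x := (hf.continuousOn x hxS).mono hsub
        exact h3.eq_const_of_mem_closure hcl h2
      exact ⟨key _ hd.sa fun y hy => (hopen y hy).1, key _ hd.sb fun y hy => (hopen y hy).2.1,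
        key _ hd.sw fun y hy => (hopen y hy).2.2⟩
    · exact hopen x ⟨h0, h1⟩

end Pool.PGR
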