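import Pool.Agent.Work.MP_02e829_pg.Interface2
import Pool.Agent.Work.MP_02e829_tr.B_UB3
import Pool.Agent.Work.MP_02e829_tr.B_FRA

open Set Filter Manifold Matrix MeasureTheory Metric
open scoped Topology ContDiff Manifold Real

set_option autoImplicit false

/-! Block VNF (helper29): the second forms of the family agree to high order on the line. -/

namespace Pool.PGR

open Pool
open Pool.FR (pd ee gg WW DD NN II Ga Gb Imm SO3)
open Pool.TRG (E2 V3 IC St pt px PerR Iso Per UB3_B UB3_add UB3_mul UB3_fix UB3_congr FRA_II_per)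

theorem p_VNF (hREG : Stmt_REG) (hUBM : Stmt_UBM) (hTAY : Stmt_TAY) : Stmt_VNF := by
  intro m F hm hF hagr r hr0 hr1
  have h00 : (0 : ℝ) ∈ Icc (0 : ℝ) 1 := by norm_num
  have key : ∀ i j : Fin 2, ∃ M : ℝ, 0 ≤ M ∧ ∀ t ∈ Icc (0 : ℝ) 1, ∀ x ∈ HS r,
      |II (F t) i j x - II (F 0) i j x| ≤ M * x 1 ^ (m - 2) ∧
      ∀ k, |pd k (fun y => II (F t) i j y - II (F 0) i j y) x| ≤ M * x 1 ^ (m - 3) := by
    intro i j
    have s : ∀ t ∈ Icc (0 : ℝ) 1, ContDiffOn ℝ ((m - 2 : ℕ) : WithTop ℕ∞) (II (F t) i j) St :=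
      fun t ht => hREG m (F t) hm (hF.imm t ht) (hF.smo t ht) i j
    have b : UB3_B (m - 2) fun t => II (F t) i j := ⟨s, hUBM m F hm hF i j⟩
    have b0 : UB3_B (m - 2) fun (_ : ℝ) => II (F 0) i j := UB3_fix (s 0 h00)
    have hN : UB3_B (m - 2) fun (_ : ℝ) (_ : E2) => (-1 : ℝ) := UB3_fix contDiffOn_const
    have d : UB3_B (m - 2) fun t x => II (F t) i j x - II (F 0) i j x := by
      refine UB3_congr (UB3_add b (UB3_mul hN b0)) fun t _ y _ => ?_
      ring
    have hper : ∀ t ∈ Icc (0 : ℝ) 1, PerR fun x => II (F t) i j x - II (F 0) i j x := by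
      intro t ht x hx
      change II (F t) i j _ - II (F 0) i j _ = _
      rw [FRA_II_per (hF.per t ht) i j x hx, FRA_II_per (hF.per 0 h00) i j x hx]
    have hvan : ∀ t ∈ Icc (0 : ℝ) 1, ∀ x ∈ St, x 1 < 0 →
        II (F t) i j x - II (F 0) i j x = 0 := fun t ht x hx h =>
      sub_eq_zero.2 (hagr t ht x hx h i j)
    obtain ⟨M, hM0, hM⟩ := hTAY (m - 2) (fun t x => II (F t) i j x - II (F 0) i j x) d.1 d.2
      hper hvan r hr0 hr1
    refine ⟨M, hM0, fun t ht x hx => ⟨(hM t ht x hx).1, fun k => ?_⟩⟩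
    have h1 := (hM t ht x hx).2 (by omega) k
    have h2 : m - 2 - 1 = m - 3 := by omega
    rw [h2] at h1
    exact h1
  choose M hM0 hM using key
  refine ⟨M 0 0 + M 0 1 + M 1 0 + M 1 1, ?_, fun t ht x hx i j => ?_⟩
  · have := hM0 0 0
    have := hM0 0 1
    have := hM0 1 0
    have := hM0 1 1
    linarith
  · have hle : M i j ≤ M 0 0 + M 0 1 + M 1 0 + M 1 1 := by
      have := hM0 0 0
      have := hM0 0 1
      have := hM0 1 0
      have := hM0 1 1
      fin_cases i <;> fin_cases j <;> simp only [Fin.zero_eta, Fin.mk_one] <;> linarith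
    refine ⟨(hM i j t ht x hx).1.trans ?_, fun k => ((hM i j t ht x hx).2 k).trans ?_⟩
    · exact mul_le_mul_of_nonneg_right hle (pow_nonneg hx.1 _)
    · exact mul_le_mul_of_nonneg_right hle (pow_nonneg hx.1 _)

end Pool.PGR
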