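import Pool.Agent.Work.MP_02e829_pg.Interface

open Set Filter Manifold Matrix MeasureTheory Metric
open scoped Topology ContDiff Manifold Real

set_option autoImplicit false

namespace Pool.PGR

theorem WGT_exp (κ y : ℝ) (hy : 0 < y) :
    HasDerivAt (fun y : ℝ => Real.exp (-((4 * κ + 2) * √y)))
      (Real.exp (-((4 * κ + 2) * √y)) * (-((4 * κ + 2) * (1 / (2 * √y))))) y := by
  have h1 : HasDerivAt (fun y : ℝ => √y) (1 / (2 * √y)) y := Real.hasDerivAt_sqrt hy.ne'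
  have h2 : HasDerivAt (fun y : ℝ => -((4 * κ + 2) * √y)) (-((4 * κ + 2) * (1 / (2 * √y)))) y :=
    (h1.const_mul (4 * κ + 2)).neg
  exact h2.exp

theorem WGT_ph (κ y : ℝ) (hy : 0 < y) :
    HasDerivAt (ph κ) (-(ph κ y * (1 / (2 * y) + (2 * κ + 1) / √y))) y := by
  have h0 : (0 : ℝ) < √y := Real.sqrt_pos.2 hy
  have hs : √y ^ 2 = y := Real.sq_sqrt hy.le
  have h1 := (WGT_exp κ y hy).div (Real.hasDerivAt_sqrt hy.ne') h0.ne'
  have h2 : HasDerivAt (ph κ) _ y := h1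
  refine h2.congr_deriv ?_
  have h3 : ph κ y = Real.exp (-((4 * κ + 2) * √y)) / √y := rfl
  rw [h3]
  obtain ⟨E, hE⟩ : ∃ E, E = Real.exp (-((4 * κ + 2) * √y)) := ⟨_, rfl⟩
  rw [← hE]
  have hy' : y = √y * √y := by rw [← sq, hs]
  obtain ⟨s, hs'⟩ : ∃ s, s = √y := ⟨_, rfl⟩
  rw [← hs'] at h0 hy' ⊢
  have : (1 : ℝ) / (2 * y) = 1 / (2 * (s * s)) := by rw [hy']
  rw [this]
  field_simp
  ring

theorem p_WGT : Stmt_WGT := by
  intro n κ τ y hκ hτ hy
  have hL : (0 : ℝ) < 4 * κ + 2 := by positivity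
  have h0 : (0 : ℝ) < √y := Real.sqrt_pos.2 hy
  refine ⟨?_, ?_, ?_, ?_⟩
  · have h1 : HasDerivAt (fun y : ℝ => (n : ℝ) / (2 * y)) (-((n : ℝ) / (2 * y ^ 2))) y := by
      have h2 : HasDerivAt (fun y : ℝ => 2 * y) 2 y := by
        simpa using (hasDerivAt_id y).const_mul (2 : ℝ)
      have h3 := (hasDerivAt_const y (n : ℝ)).div h2 (by positivity)
      refine h3.congr_deriv ?_
      field_simp
      ring
    have h2 := h1.add ((WGT_ph κ y hy).const_mul τ)
    have h3 : HasDerivAt (gw n κ τ) _ y := h2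
    refine h3.congr_deriv ?_
    rw [gd]
    ring
  · have h1 := ((WGT_exp κ y hy).const_mul (4 * τ / (4 * κ + 2))).exp
    have h2 : HasDerivAt (fun y : ℝ => y ^ n) (n * y ^ (n - 1)) y := by
      simpa using hasDerivAt_pow n y
    have hyn : y ^ n ≠ 0 := (pow_pos hy n).ne'
    have h3 := h1.div h2 hyn
    have h4 : HasDerivAt (Ww n κ τ) _ y := h3
    refine h4.congr_deriv ?_
    have h5 : Ww n κ τ y =
      Real.exp (4 * τ / (4 * κ + 2) * Real.exp (-((4 * κ + 2) * √y))) / y ^ n := rfl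
    have h6 : gw n κ τ y = n / (2 * y) + τ * (Real.exp (-((4 * κ + 2) * √y)) / √y) := rfl
    rw [h5, h6]
    obtain ⟨E, hE⟩ : ∃ E, E = Real.exp (-((4 * κ + 2) * √y)) := ⟨_, rfl⟩
    rw [← hE]
    obtain ⟨G, hG⟩ : ∃ G, G = Real.exp (4 * τ / (4 * κ + 2) * E) := ⟨_, rfl⟩
    rw [← hG]
    have h7 : (n : ℝ) * y ^ (n - 1) = n * y ^ n / y := by
      rcases Nat.eq_zero_or_pos n with rfl | hn
      · simp
      · obtain ⟨k, rfl⟩ := Nat.exists_eq_succ_of_ne_zero hn.ne'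
        simp only [Nat.succ_eq_add_one, Nat.add_sub_cancel]
        rw [pow_succ]
        field_simp
    rw [h7]
    field_simp
    ring
  · rw [Ww]
    positivity
  · rw [Ww]
    have h1 : Real.exp (-((4 * κ + 2) * √y)) ≤ 1 := by
      rw [Real.exp_le_one_iff]
      have : 0 ≤ (4 * κ + 2) * √y := by positivity
      linarith
    have h2 : 4 * τ / (4 * κ + 2) * Real.exp (-((4 * κ + 2) * √y)) ≤ 4 * τ / (4 * κ + 2) := by
      have h3 : 0 ≤ 4 * τ / (4 * κ + 2) := by positivity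
      nlinarith
    have h3 := Real.exp_le_exp.2 h2
    have h4 : (0 : ℝ) < y ^ n := pow_pos hy n
    exact (div_le_div_iff_of_pos_right h4).2 h3

end Pool.PGR
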