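import Pool.Agent.Work.MP_02e829_fr.MOT
import Pool.Agent.Work.MP_02e829_tr.All3
import Pool.Agent.Work.MP_02e829_pg.B_HYI
import Pool.Agent.Work.MP_02e829_pg.B_HYG
import Pool.Agent.Work.MP_02e829_pg.B_HYP
import Pool.Agent.Work.MP_02e829_pg.B_WGT
import Pool.Agent.Work.MP_02e829_pg.B_CIN
import Pool.Agent.Work.MP_02e829_pg.B_CID
import Pool.Agent.Work.MP_02e829_pg.B_CLM
import Pool.Agent.Work.MP_02e829_pg.B_ELL
import Pool.Agent.Work.MP_02e829_pg.B_ALG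
import Pool.Agent.Work.MP_02e829_pg.B_CPT
import Pool.Agent.Work.MP_02e829_pg.B_ORL
import Pool.Agent.Work.MP_02e829_pg.B_ORD
import Pool.Agent.Work.MP_02e829_pg.B_SYL
import Pool.Agent.Work.MP_02e829_pg.B_VAN
import Pool.Agent.Work.MP_02e829_pg.B_REG
import Pool.Agent.Work.MP_02e829_pg.B_UBM
import Pool.Agent.Work.MP_02e829_pg.B_TAY
import Pool.Agent.Work.MP_02e829_pg.B_VNF
import Pool.Agent.Work.MP_02e829_pg.B_PRS
import Pool.Agent.Work.MP_02e829_pg.B_PVN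
import Pool.Agent.Work.MP_02e829_pg.B_ELS
import Pool.Agent.Work.MP_02e829_pg.B_NLN
import Pool.Agent.Work.MP_02e829_pg.B_HYS
import Pool.Agent.Work.MP_02e829_pg.B_STR
import Pool.Agent.Work.MP_02e829_pg.B_DFM
import Pool.Agent.Work.MP_02e829_pg.B_TUC
import Pool.Agent.Work.MP_02e829_pg.B_TUB
import Pool.Agent.Work.MP_02e829_pg.B_PCS
import Pool.Agent.Work.MP_02e829_pg.B_PL1
import Pool.Agent.Work.MP_02e829_pg.B_PL2
import Pool.Agent.Work.MP_02e829_pg.B_ELO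
import Pool.Agent.Work.MP_02e829_pg.B_RTP
import Pool.Agent.Work.MP_02e829_pg.B_RTS
import Pool.Agent.Work.MP_02e829_pg.B_RTA
import Pool.Agent.Work.MP_02e829_pg.B_RTN
import Pool.Agent.Work.MP_02e829_pg.B_RTT
import Pool.Agent.Work.MP_02e829_pg.B_RTH
import Pool.Agent.Work.MP_02e829_pg.B_RTI
import Pool.Agent.Work.MP_02e829_pg.B_RTF

/-!
# Propagation of rigidity, without hypotheses on blocks
-/

open Set Filter Manifold Matrix MeasureTheory Metric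
open scoped Topology ContDiff Manifold Real

set_option autoImplicit false

universe w

namespace Pool.PGR

open Pool
open Pool.FR (pd ee gg WW DD NN II Ga Gb Imm SO3)
open Pool.SXB (E3 L3 Proper PosCurv TC)
open Pool.TRG (E2 V3 IC St pt px PerR Iso Per Ann Dfm CPiece HPiece)

theorem all_VAN : Stmt_VAN := by
  have hHYP : Stmt_HYP := p_HYP TRG.p_HDE p_HYI p_HYG
  have hELL : Stmt_ELL := p_ELL TRG.p_HDE p_WGT p_CIN p_CID (p_CLM p_WGT)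
  have hORD : Stmt_ORD := p_ORD (p_ORL p_CPT) p_CPT
  exact p_VAN hHYP hELL (p_SYL p_ALG hORD p_CPT)

theorem all_STR : Stmt_STR := by
  have hFRM : Pool.FR.Stmt_FRM := Pool.FR.blk_FRM
  have hCHR : Pool.FR.Stmt_CHR := Pool.FR.blk_CHR
  have hCOD : Pool.FR.Stmt_COD := Pool.FR.blk_COD hFRM
  have hVNF : Stmt_VNF := p_VNF p_REG p_UBM p_TAY
  have hPVN : Stmt_PVN := p_PVN hFRM (p_PRS hFRM hCHR hCOD TRG.all_EGG) all_VAN
  exact p_STR (p_ELS hCHR TRG.all_EGG hVNF hPVN)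
    (p_HYS hCHR hVNF hPVN (p_NLN p_CPT TRG.all_EGG hVNF))

theorem all_TUB : Stmt_TUB.{w} := by
  have hFRM : Pool.FR.Stmt_FRM := Pool.FR.blk_FRM
  exact p_TUB hFRM (Pool.FR.blk_MOT hFRM) (TRG.p_FOD hFRM Pool.FR.blk_CHR) all_STR
    (p_DFM TRG.p_LBC TRG.all_RD0 TRG.all_RD1) (p_TUC hFRM)

theorem all_ELO : Stmt_ELO.{w} := p_ELO all_TUB (p_PL2 TRG.p_CHN p_PCS p_PL1)

/-- convex pieces and hyperbolic tubes -/
theorem all_pieces (S : Type w) [TopologicalSpace S] [ChartedSpace E2 S] [IsManifold (𝓡 2) 4 S]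
    [T2Space S] [CompactSpace S] (f : ℝ → S → E3) (hf : Dfm f) (C : Set S)
    (hC : CPiece (f 0) C ∨ HPiece (f 0) C) : IsOpen C ∧ ∀ t ∈ Icc (0 : ℝ) 1, TC f C t := by
  have : IsManifold (𝓡 2) 1 S := IsManifold.of_le (n := 4) (by norm_num)
  rcases hC with ⟨hC1, hC2, hC3, ι, Φ, hΦ, hfr, hι⟩ | ⟨Φ, e1, e2, φ, hΦ, hT, rfl⟩
  · refine ⟨hC1, fun t ht => ?_⟩
    choose e1 e2 φ hT using hΦ
    obtain ⟨A, hA, hAf⟩ := TRG.part_B TRG.all_RD0 TRG.all_RD1 TRG.all_LBM TRG.p_LBP TRG.all_TRC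
      TRG.all_ALL TRG.all_RIG TRG.p_MTN TRG.p_JT2 (TRG.p_DVC TRG.p_CHN) TRG.all_PLB TRG.all_INF
      TRG.p_CV3 TRG.p_CNV TRG.p_ELC f hf C hC1 hC2 hC3 ι Φ (fun i => (e1 i, e2 i)) φ hT hfr hι t ht
    exact ⟨A, hA, fun p hp => hAf p (subset_closure hp)⟩
  · refine ⟨?_, fun t ht => TRG.part_D TRG.all_RD0 TRG.all_RD1 TRG.all_LBM TRG.p_LBP TRG.all_TRC
      TRG.all_ALL TRG.all_RIG TRG.p_MTN TRG.all_HTF (TRG.p_FOD Pool.FR.blk_FRM Pool.FR.blk_CHR)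
      (TRG.p_HTC Pool.FR.blk_FRM TRG.all_RD0) f hf Φ e1 e2 φ hΦ hT ht⟩
    rw [isOpen_iff_mem_nhds]
    rintro _ ⟨x, hx, rfl⟩
    have hO : IsOpen {x : E2 | x ∈ St ∧ 0 < x 1} := by
      refine TRG.St_open.inter ?_
      have h : Continuous fun x : E2 => x 1 := by fun_prop
      exact isOpen_Ioi.preimage h
    exact TRG.p_OPE S Φ (TRG.ann_le hΦ.ann (by norm_num)) x hx.1 _ (hO.mem_nhds hx)

/-- THEOREM P -/
theorem all_mainP {S : Type w} [TopologicalSpace S] [ChartedSpace E2 S] {n : ℕ∞}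
    [IsManifold (𝓡 2) n S] [T2Space S] [CompactSpace S] (hn : 4 ≤ n) (f : ℝ → S → E3)
    (hf : DfN n f) (C : Set S) (hC : Reach n f C) : IsOpen C ∧ ∀ t ∈ Icc (0 : ℝ) 1, TC f C t :=
  mainP all_TUB all_ELO TRG.p_CNV TRG.p_OPE all_pieces hn f hf C hC

theorem all_RTF : Stmt_RTF.{w} :=
  p_RTF TRG.p_OPE (p_RTT (p_RTS p_RTP) p_RTA p_RTN) (p_RTH TRG.p_CHN p_RTP p_RTA) p_RTI

end Pool.PGR
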