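import Pool.Agent.Work.MP_02e829_pg.Interface

/-!
# Block ALG: the algebra of the Gauss and Codazzi equations
-/

open Set Filter Manifold Matrix MeasureTheory Metric
open scoped Topology ContDiff Manifold Real

set_option autoImplicit false

namespace Pool.PGR

open Pool
open Pool.FR (pd ee gg WW DD NN II Ga Gb Imm SO3)
open Pool.SXB (E3 L3 Proper PosCurv TC)
open Pool.TRG (E2 V3 IC St pt px PerR Iso Per)

theorem ALG_one (e A B C a b w A0 A1 B0 B1 C0 a0 a1 b0 b1 w0 s s0 L L0 L1 l0 l1 l2 m0 m1 m2 : ℝ)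
    (hA : A ≠ 0) (hB : L * A = B) (hC : (L * L + e * (s * s)) * A = C)
    (hB0 : L0 * A + L * A0 = B0) (hB1 : L1 * A + L * A1 = B1)
    (hC0 : (L0 * L + L * L0 + e * (s0 * s + s * s0)) * A + (L * L + e * (s * s)) * A0 = C0)
    (hw : w = 2 * (L * b) - (L * L + e * (s * s)) * a)
    (hw0 : w0 = 2 * (L0 * b + L * b0) - ((L0 * L + L * L0 + e * (s0 * s + s * s0)) * a +
      (L * L + e * (s * s)) * a0))
    (hA1 : A1 = B0 + l0 * A + l1 * B + l2 * C)
    (hB1' : B1 = C0 + m0 * A + m1 * B + m2 * C)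
    (ha1 : a1 = b0 + l0 * a + l1 * b + l2 * w)
    (hb1 : b1 = w0 + m0 * a + m1 * b + m2 * w) :
    b1 - (L1 * a + L * a1) = L * (b0 - (L0 * a + L * a0)) - e * s * (s0 * a + s * a0) +
      (2 * L0 + m1 - L * l1 + 2 * L * (m2 - L * l2)) * (b - L * a) +
      (-(e * (3 * s0 + s * (A0 / A) + 2 * (m2 - L * l2) * s))) * (s * a) := by
  obtain ⟨r, hr⟩ : ∃ r, A0 = r * A := ⟨A0 / A, by field_simp⟩
  have hr' : A0 / A = r := by rw [hr]; field_simp
  rw [hr'] 
  subst hr
  subst hB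
  subst hC
  subst hB0
  subst hC0
  have hL1 : L1 = L * L0 + 2 * (e * s * s0) + e * s * s * r + (m0 - L * l0) + (m1 - L * l1) * L +
      (m2 - L * l2) * (L * L + e * (s * s)) := by
    apply mul_right_cancel₀ hA
    have h1 : L1 * A = B1 - L * A1 := by rw [← hB1]; ring
    rw [h1, hB1', hA1]
    ring
  subst hL1
  subst hw
  subst hw0
  subst ha1
  subst hb1
  ring

theorem ALG_two (e a b w a0 a1 b0 s s0 s1 L L0 l0 l1 l2 : ℝ)
    (hs : s ≠ 0) (hw : w = 2 * (L * b) - (L * L + e * (s * s)) * a)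
    (ha1 : a1 = b0 + l0 * a + l1 * b + l2 * w) :
    s1 * a + s * a1 = s * (b0 - (L0 * a + L * a0)) + L * (s0 * a + s * a0) +
      (s * (l1 + 2 * L * l2)) * (b - L * a) +
      (s1 / s + L0 - L * (s0 / s) + l0 + l1 * L + l2 * (L ^ 2 - e * s ^ 2)) * (s * a) := by
  obtain ⟨u, hu⟩ : ∃ u, s1 = u * s := ⟨s1 / s, by field_simp⟩
  obtain ⟨v, hv⟩ : ∃ v, s0 = v * s := ⟨s0 / s, by field_simp⟩
  have hu' : s1 / s = u := by rw [hu]; field_simp
  have hv' : s0 / s = v := by rw [hv]; field_simp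
  rw [hu', hv']
  subst hu
  subst hv
  subst hw
  subst ha1
  ring

/-- derivative of the quadratic coefficient times a function -/
theorem ALG_pd (i : Fin 2) (e : ℝ) {L s f : E2 → ℝ} {x : E2} (hL : DifferentiableAt ℝ L x)
    (hs : DifferentiableAt ℝ s x) (hf : DifferentiableAt ℝ f x) :
    pd i (fun y => (L y * L y + e * (s y * s y)) * f y) x =
      (pd i L x * L x + L x * pd i L x + e * (pd i s x * s x + s x * pd i s x)) * f x +
        (L x * L x + e * (s x * s x)) * pd i f x := by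
  have h1 : DifferentiableAt ℝ (fun y => L y * L y) x := hL.mul hL
  have h2 : DifferentiableAt ℝ (fun y => s y * s y) x := hs.mul hs
  have h3 : DifferentiableAt ℝ (fun y => e * (s y * s y)) x := h2.const_mul e
  have h4 : DifferentiableAt ℝ (fun y => L y * L y + e * (s y * s y)) x := h1.add h3
  have h5 : pd i (fun y => e * (s y * s y)) x = e * pd i (fun y => s y * s y) x := by
    have h := Pool.FR.pd_mul i (f := fun _ : E2 => e) (g := fun y => s y * s y)
      (differentiableAt_const e) h2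
    rw [h, Pool.FR.pd_const, zero_mul, zero_add]
  rw [Pool.FR.pd_mul i h4 hf, Pool.FR.pd_add i h1 h3, h5, Pool.FR.pd_mul i hL hL,
    Pool.FR.pd_mul i hs hs]

theorem ALG_pdc (i : Fin 2) (e : ℝ) {f : E2 → ℝ} {x : E2} (hf : DifferentiableAt ℝ f x) :
    pd i (fun y => e * f y) x = e * pd i f x := by
  have h := Pool.FR.pd_mul i (f := fun _ : E2 => e) (g := f) (differentiableAt_const e) hf
  rw [h, Pool.FR.pd_const, zero_mul, zero_add]

theorem ALG_div {f g : E2 → ℝ} {x : E2} (hf : DifferentiableAt ℝ f x)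
    (hg : DifferentiableAt ℝ g x) (h0 : g x ≠ 0) : DifferentiableAt ℝ (fun y => f y / g y) x := by
  have h : (fun y => f y / g y) = fun y => f y * (g y)⁻¹ := by
    funext y
    exact div_eq_mul_inv _ _
  rw [h]
  exact hf.mul (hg.inv h0)

theorem ALG_open : IsOpen St := by
  have h : Continuous (fun x : E2 => |x 1|) := by fun_prop
  exact isOpen_lt h continuous_const

/-- BLOCK ALG. -/
theorem p_ALG : Stmt_ALG := by
  intro d ε hd hε V hV hVS hpos x hx
  have hε2 : ε * ε = 1 := by rcases hε with h | h <;> rw [h] <;> norm_num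
  have hxS : x ∈ St := hVS hx
  have hSn : St ∈ 𝓝 x := ALG_open.mem_nhds hxS
  have dAF : DifferentiableAt ℝ d.AF x := (hd.sAF.contDiffAt hSn).differentiableAt (by norm_num)
  have dBF : DifferentiableAt ℝ d.BF x := (hd.sBF.contDiffAt hSn).differentiableAt (by norm_num)
  have dCF : DifferentiableAt ℝ d.CF x := (hd.sCF.contDiffAt hSn).differentiableAt (by norm_num)
  have da : DifferentiableAt ℝ d.a x := (hd.sa.contDiffAt hSn).differentiableAt (by norm_num)
  have db : DifferentiableAt ℝ d.b x := (hd.sb.contDiffAt hSn).differentiableAt (by norm_num)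
  have dw : DifferentiableAt ℝ d.w x := (hd.sw.contDiffAt hSn).differentiableAt (by norm_num)
  have dA : DifferentiableAt ℝ d.A x := (dAF.const_mul 2).add da
  have dB : DifferentiableAt ℝ d.B x := (dBF.const_mul 2).add db
  have dC : DifferentiableAt ℝ d.C x := (dCF.const_mul 2).add dw
  have dD : DifferentiableAt ℝ d.D x := (dA.mul dC).sub (dB.pow 2)
  obtain ⟨hA, hDp⟩ := hpos x hx
  have dal : DifferentiableAt ℝ d.al x := ALG_div dB dA hA
  have dse : DifferentiableAt ℝ (d.se ε) x :=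
    ALG_div ((dD.const_mul ε).sqrt hDp.ne') (dA.abs hA) (abs_ne_zero.2 hA)
  have hs0 : d.se ε x ≠ 0 :=
    div_ne_zero (Real.sqrt_ne_zero'.2 hDp) (abs_ne_zero.2 hA)
  -- the identities on `V`
  have iB : ∀ y ∈ V, d.al y * d.A y = d.B y := by
    intro y hy
    exact div_mul_cancel₀ _ (hpos y hy).1
  have iC : ∀ y ∈ V, (d.al y * d.al y + ε * (d.se ε y * d.se ε y)) * d.A y = d.C y := by
    intro y hy
    obtain ⟨hAy, hDy⟩ := hpos y hy
    have h1 : d.se ε y * d.se ε y = ε * d.D y / (d.A y) ^ 2 := by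
      rw [← pow_two, Dat.se, div_pow, Real.sq_sqrt hDy.le, sq_abs]
    rw [h1, Dat.al, Dat.D]
    field_simp
    linear_combination (d.A y * d.C y - d.B y ^ 2) * hε2
  have iW : ∀ y ∈ V, d.w y = 2 * (d.al y * d.b y) -
      (d.al y * d.al y + ε * (d.se ε y * d.se ε y)) * d.a y := by
    intro y hy
    have hAy := (hpos y hy).1
    apply mul_left_cancel₀ hAy
    have h0 := hd.e0 y (hVS hy)
    have h1 : d.A y * d.w y + d.C y * d.a y = 2 * (d.B y * d.b y) := by
      rw [Dat.A, Dat.B, Dat.C]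
      linear_combination 2 * h0
    have h2 := iB y hy
    have h3 := iC y hy
    linear_combination h1 + d.a y * h3 - 2 * d.b y * h2
  -- derivatives
  have jB : ∀ i, pd i d.al x * d.A x + d.al x * pd i d.A x = pd i d.B x := by
    intro i
    rw [← Pool.FR.pd_mul i dal dA]
    exact Pool.FR.pd_congr hV iB i hx
  have jC := fun i => Pool.FR.pd_congr hV iC i hx
  have jW := fun i => Pool.FR.pd_congr hV iW i hx
  have dab : DifferentiableAt ℝ (fun y => d.al y * d.b y) x := dal.mul db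
  have dq : DifferentiableAt ℝ (fun y => (d.al y * d.al y + ε * (d.se ε y * d.se ε y)) * d.a y) x :=
    (((dal.mul dal).add ((dse.mul dse).const_mul ε)).mul da)
  have kA : ∀ i, pd i d.A x = 2 * pd i d.AF x + pd i d.a x := by
    intro i
    have h : d.A = fun y => 2 * d.AF y + d.a y := rfl
    rw [h, Pool.FR.pd_add i (dAF.const_mul 2) da, ALG_pdc i 2 dAF]
  have kB : ∀ i, pd i d.B x = 2 * pd i d.BF x + pd i d.b x := by
    intro i
    have h : d.B = fun y => 2 * d.BF y + d.b y := rfl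
    rw [h, Pool.FR.pd_add i (dBF.const_mul 2) db, ALG_pdc i 2 dBF]
  have kC : ∀ i, pd i d.C x = 2 * pd i d.CF x + pd i d.w x := by
    intro i
    have h : d.C = fun y => 2 * d.CF y + d.w y := rfl
    rw [h, Pool.FR.pd_add i (dCF.const_mul 2) dw, ALG_pdc i 2 dCF]
  have kQ : ∀ i, pd i d.Q x = pd i d.b x - (pd i d.al x * d.a x + d.al x * pd i d.a x) := by
    intro i
    have h : d.Q = fun y => d.b y - d.al y * d.a y := rfl
    have daa : DifferentiableAt ℝ (fun y => d.al y * d.a y) x := dal.mul da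
    rw [h, Pool.FR.pd_sub i db daa, Pool.FR.pd_mul i dal da]
  have kP : ∀ i, pd i (d.P ε) x = pd i (d.se ε) x * d.a x + d.se ε x * pd i d.a x := by
    intro i
    have h : d.P ε = fun y => d.se ε y * d.a y := rfl
    rw [h, Pool.FR.pd_mul i dse da]
  have c1 := hd.c1 x hxS
  have c2 := hd.c2 x hxS
  have d1 := hd.d1 x hxS
  have d2 := hd.d2 x hxS
  have hA1 : pd 1 d.A x = pd 0 d.B x + d.l 0 x * d.A x + d.l 1 x * d.B x + d.l 2 x * d.C x := by
    rw [kA 1, kB 0, c1, d1, Dat.A, Dat.B, Dat.C]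
    ring
  have hB1 : pd 1 d.B x = pd 0 d.C x + d.m 0 x * d.A x + d.m 1 x * d.B x + d.m 2 x * d.C x := by
    rw [kB 1, kC 0, c2, d2, Dat.A, Dat.B, Dat.C]
    ring
  have hC0 := jC 0
  rw [ALG_pd 0 ε dal dse dA] at hC0
  have hw0 := jW 0
  rw [Pool.FR.pd_sub 0 (dab.const_mul 2) dq, ALG_pdc 0 2 dab, Pool.FR.pd_mul 0 dal db,
    ALG_pd 0 ε dal dse da] at hw0
  have hone := ALG_one ε (d.A x) (d.B x) (d.C x) (d.a x) (d.b x) (d.w x) (pd 0 d.A x)
    (pd 1 d.A x) (pd 0 d.B x) (pd 1 d.B x) (pd 0 d.C x) (pd 0 d.a x) (pd 1 d.a x) (pd 0 d.b x)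
    (pd 1 d.b x) (pd 0 d.w x) (d.se ε x) (pd 0 (d.se ε) x) (d.al x) (pd 0 d.al x) (pd 1 d.al x)
    (d.l 0 x) (d.l 1 x) (d.l 2 x) (d.m 0 x) (d.m 1 x) (d.m 2 x) hA (iB x hx) (iC x hx) (jB 0)
    (jB 1) hC0 (iW x hx) hw0 hA1 hB1 d1 d2
  have htwo := ALG_two ε (d.a x) (d.b x) (d.w x) (pd 0 d.a x) (pd 1 d.a x) (pd 0 d.b x)
    (d.se ε x) (pd 0 (d.se ε) x) (pd 1 (d.se ε) x) (d.al x) (pd 0 d.al x)
    (d.l 0 x) (d.l 1 x) (d.l 2 x) hs0 (iW x hx) d1
  constructor
  · rw [kQ 1, kQ 0, kP 0]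
    exact hone
  · rw [kP 1, kQ 0, kP 0]
    exact htwo

end Pool.PGR
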