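import Pool.Agent.Work.MP_02e829_pg.Interface2

/-! # Block ELO: convex regions (helper3) -/

open Set Filter Manifold Matrix MeasureTheory Metric
open scoped Topology ContDiff Manifold Real

set_option autoImplicit false

universe w

namespace Pool.PGR

open Pool
open Pool.SXB (E3 Proper PosCurv)
open Pool.TRG (E2 St)

theorem p_ELO (hTUB : Stmt_TUB.{w}) (hPL2 : Stmt_PL2.{w}) : Stmt_ELO.{w} := by
  intro S _ _ m _ f hm hf O hO hOc hpos U hU hUO A hA hAU t ht p hp
  let W : Set S := {p | ∀ t ∈ Icc (0 : ℝ) 1, f t p = A t (f 0 p)}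
  have hUV : U ⊆ interior W := by
    refine interior_maximal ?_ hU
    intro q hq s hs
    exact hAU s hs q hq
  have key : O ⊆ interior W := by
    refine hOc.subset_of_closure_inter_subset isOpen_interior ?_ ?_
    · obtain ⟨q, hq1, hq2⟩ := hUO
      exact ⟨q, hq2, hUV hq1⟩
    · rintro q ⟨hq, hqO⟩
      have h0 : (0 : ℝ) ∈ Icc (0 : ℝ) 1 := ⟨le_refl _, zero_le_one⟩
      obtain ⟨Φ, h1, h2, h3⟩ := hPL2 S m (f 0) hm (hf.smooth 0 h0) (hf.imm 0 h0) O hO hpos
        (interior W) isOpen_interior q hqO hq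
      rw [mem_interior_iff_mem_nhds]
      refine mem_of_superset h3 ?_
      rintro z (hz | ⟨x, hx, rfl⟩)
      · exact interior_subset hz
      · intro s hs
        refine hTUB S m f hm hf Φ h1 A hA ?_ s hs x hx
        intro r hr y hy hy1
        exact interior_subset (h2 y hy hy1) r hr
  exact interior_subset (key hp) t ht

end Pool.PGR
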