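import Pool.Agent.Work.MP_02e829_pg.Interface2

/-! # MP_02e829_gt, PROPAGATION OF RIGIDITY, block PVN -/

open Set Filter Manifold Matrix MeasureTheory Metric
open scoped Topology ContDiff Manifold Real

set_option autoImplicit false

namespace Pool.PGR

open Pool
open Pool.FR (pd ee gg WW DD NN II Ga Gb Imm SO3)
open Pool.TRG (E2 V3 IC St pt px PerR Iso Per Ann)

theorem p_PVN (hFRM : Pool.FR.Stmt_FRM) (hPRS : Stmt_PRS) (hVAN : Stmt_VAN) : Stmt_PVN := by
  intro F G p q N ε r M u v z hF hG hiso hpF hpG hp hq hpq hN hr hr1 hM hε hL hs hv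
  have hopen : IsOpen St := by
    have hc : Continuous fun x : E2 => |x 1| := by fun_prop
    exact isOpen_lt hc continuous_const
  have hsub : ∀ x : E2, 0 ≤ x 1 → x 1 ≤ r → x ∈ St := by
    intro x h0 h1
    change |x 1| < 1
    rw [abs_of_nonneg h0]
    linarith
  have hA : ∀ x, (datF F G).A x = sA F G x := by
    intro x
    simp only [Dat.A, datF, sA]
    ring
  have hD : ∀ x, (datF F G).D x = sD F G x := by
    intro x
    simp only [Dat.D, Dat.A, Dat.B, Dat.C, datF, sD, sA]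
    ring
  have hfrm := fun (H : E2 → V3) (hH : Imm H St) (x : E2) (hx : x ∈ St) =>
    (hFRM St hopen H hH x hx).2.2.2.2.1
  have hLN : LNC (datF F G) p q N ε r u v z M := by
    refine ⟨hp, hq, hpq, hN, hr, hr1, hM, hε, hL.su, hL.sv, hL.sz, hL.u0, hL.z0, ?_, ?_, ?_, ?_, ?_⟩
    · intro x h0 h1
      exact hL.l0 x ⟨h0, h1⟩
    · intro x h0 h1
      exact hL.l1 x ⟨h0, h1⟩
    · intro x h0 h1
      exact hL.l2 x ⟨h0, h1⟩
    · intro x h0 h1
      rw [hA, hD]
      exact hs x h0 h1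
    · intro x h0 h1
      have hx : x ∈ HS r := ⟨h0, h1⟩
      refine ⟨(hv x hx 0 0).1, (hv x hx 0 1).1, (hv x hx 1 1).1, fun i => ?_⟩
      exact ⟨(hv x hx 0 0).2 i, (hv x hx 0 1).2 i, (hv x hx 1 1).2 i⟩
  intro x hx i j
  obtain ⟨ha, hb, hw⟩ := hVAN (datF F G) p q N ε r u v z M (hPRS F G hF hG hiso hpF hpG) hLN x
    hx.1 hx.2
  have ha' : II G 0 0 x - II F 0 0 x = 0 := ha
  have hb' : II G 0 1 x - II F 0 1 x = 0 := hb
  have hw' : II G 1 1 x - II F 1 1 x = 0 := hw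
  have hxS := hsub x hx.1 hx.2
  fin_cases i <;> fin_cases j
  · exact sub_eq_zero.mp ha'
  · exact sub_eq_zero.mp hb'
  · change II G 1 0 x = II F 1 0 x
    rw [hfrm G hG x hxS 1 0, hfrm F hF x hxS 1 0]
    exact sub_eq_zero.mp hb'
  · exact sub_eq_zero.mp hw'

end Pool.PGR
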