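import Pool.Agent.Work.MP_02e829_pg.Interface2
import Pool.Agent.Work.MP_02e829_tr.Final3

/-!
# MP_02e829_gt, PROPAGATION OF RIGIDITY: assembly
-/

open Set Filter Manifold Matrix MeasureTheory Metric
open scoped Topology ContDiff Manifold Real

set_option autoImplicit false

universe w

namespace Pool.PGR

open Pool
open Pool.FR (pd ee gg WW DD NN II Ga Gb Imm SO3)
open Pool.SXB (E3 L3 Proper PosCurv TC)
open Pool.TRG (E2 V3 IC St pt px PerR Iso Per Ann Dfm CPiece HPiece)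

section
variable {S : Type w} [TopologicalSpace S] [ChartedSpace E2 S]

/-- an isometric deformation of class `C^n`, `n ≤ ∞` -/
def DfN (n : ℕ∞) (f : ℝ → S → E3) : Prop := ∀ m : ℕ, (m : ℕ∞) ≤ n → DfM m f

/-- a tube of class `C^n`, `n ≤ ∞` -/
structure TubN (n : ℕ∞) (f : S → E3) (Φ : E2 → S) : Prop where
  ann : Ann n Φ
  reg : ∀ x ∈ St, 0 < x 1 → sf (fun y => f (Φ y)) 0 0 x ≠ 0 ∧ sd (fun y => f (Φ y)) x ≠ 0
  lin : ∃ (p q : ℕ) (u v z : E2 → ℝ), (p : ℕ∞) + 2 < n ∧ (q : ℕ∞) + 2 < n + p ∧ 2 * p ≤ q + 1 ∧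
    ContDiffOn ℝ 1 u St ∧ ContDiffOn ℝ 1 v St ∧ ContDiffOn ℝ 1 z St ∧
    (∀ x : ℝ, u (pt x) ≠ 0 ∧ z (pt x) ≠ 0) ∧
    ∀ x ∈ HT, sf (fun y => f (Φ y)) 0 0 x = x 1 ^ p * u x ∧
      sf (fun y => f (Φ y)) 0 1 x = x 1 ^ p * v x ∧ sd (fun y => f (Φ y)) x = x 1 ^ q * z x

/-- the smallest family of sets which contains the open sets on which `f` moves rigidly, the convex
pieces and the hyperbolic tubes of `f 0`, and is closed under passage to overlapping convex regions,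
to tubes and to connected open sets contained in the closure of a union -/
inductive Reach (n : ℕ∞) (f : ℝ → S → E3) : Set S → Prop
  | rigid (C : Set S) : IsOpen C → (∀ t ∈ Icc (0 : ℝ) 1, TC f C t) → Reach n f C
  | convex (C : Set S) : CPiece (f 0) C → Reach n f C
  | hyperbolic (C : Set S) : HPiece (f 0) C → Reach n f C
  | elliptic (U O : Set S) : Reach n f U → IsOpen O → IsPreconnected O → (U ∩ O).Nonempty →
      (∀ p ∈ O, PosCurv (f 0) p) → Reach n f O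
  | tube (U : Set S) (Φ : E2 → S) : Reach n f U → TubN n (f 0) Φ →
      (∀ x ∈ St, x 1 < 0 → Φ x ∈ U) → Reach n f (Φ '' St)
  | glue (R : Set (Set S)) (O : Set S) : (∀ C ∈ R, Reach n f C) → IsOpen O → IsPreconnected O →
      O ⊆ closure (⋃₀ R) → Reach n f O

theorem DfM.dfm {m : ℕ} (hm : 4 ≤ m) {f : ℝ → S → E3} (hf : DfM m f) : Dfm f where
  smooth := fun t ht => (hf.smooth t ht).of_le (by exact_mod_cast hm)
  imm := hf.imm
  iso := hf.iso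
  cont := hf.cont
  bdd := fun p x hx => by
    obtain ⟨M, hM⟩ := hf.bdd p x hx
    exact ⟨M, hM.mono fun y hy t ht k hk => hy t ht k (hk.trans hm)⟩

theorem TubN.fin {n : ℕ∞} (hn : 4 ≤ n) {f : S → E3} {Φ : E2 → S} (h : TubN n f Φ) :
    ∃ m : ℕ, 4 ≤ m ∧ (m : ℕ∞) ≤ n ∧ Tub m f Φ := by
  obtain ⟨p, q, u, v, z, h1, h2, h3, h4⟩ := h.lin
  obtain ⟨m, hm1, hm2, hm3, hm4⟩ : ∃ m : ℕ, 4 ≤ m ∧ (m : ℕ∞) ≤ n ∧ p + 2 < m ∧ q + 2 < m + p := by
    rcases eq_or_ne n ⊤ with rfl | hn'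
    · exact ⟨p + q + 4, by omega, le_top, by omega, by omega⟩
    · lift n to ℕ using hn'
      refine ⟨n, by exact_mod_cast hn, le_rfl, ?_, ?_⟩
      · exact_mod_cast h1
      · exact_mod_cast h2
  refine ⟨m, hm1, hm2, ⟨TRG.ann_le h.ann (by exact_mod_cast hm2), h.reg,
    ⟨p, q, u, v, z, hm3, hm4, h3, h4⟩⟩⟩

end

/-- the motions of a set on which `f` moves rigidly, as a function of the time -/
theorem TC_choose {S : Type w} {f : ℝ → S → E3} {C : Set S}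
    (h : ∀ t ∈ Icc (0 : ℝ) 1, TC f C t) : ∃ A : ℝ → (E3 ≃ᵃⁱ[ℝ] E3),
    (∀ t ∈ Icc (0 : ℝ) 1, Proper (A t)) ∧ ∀ t ∈ Icc (0 : ℝ) 1, ∀ p ∈ C, f t p = A t (f 0 p) := by
  have h1 : ∀ t : ℝ, ∃ A : E3 ≃ᵃⁱ[ℝ] E3, t ∈ Icc (0 : ℝ) 1 →
      Proper A ∧ ∀ p ∈ C, f t p = A (f 0 p) := by
    intro t
    by_cases ht : t ∈ Icc (0 : ℝ) 1
    · obtain ⟨A, hA, hA'⟩ := h t ht
      exact ⟨A, fun _ => ⟨hA, hA'⟩⟩
    · exact ⟨AffineIsometryEquiv.refl ℝ E3, fun h => absurd h ht⟩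
  choose A hA using h1
  exact ⟨A, fun t ht => (hA t ht).1, fun t ht => (hA t ht).2⟩

/-- THEOREM P -/
theorem mainP (hTUB : Stmt_TUB.{w}) (hELO : Stmt_ELO.{w}) (hCNV : TRG.Stmt_CNV.{w})
    (hOPE : TRG.Stmt_OPE.{w})
    (hG : ∀ (S : Type w) [TopologicalSpace S] [ChartedSpace E2 S] [IsManifold (𝓡 2) 4 S]
      [T2Space S] [CompactSpace S] (f : ℝ → S → E3) (_ : Dfm f) (C : Set S),
      CPiece (f 0) C ∨ HPiece (f 0) C → IsOpen C ∧ ∀ t ∈ Icc (0 : ℝ) 1, TC f C t)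
    {S : Type w} [TopologicalSpace S] [ChartedSpace E2 S] {n : ℕ∞} [IsManifold (𝓡 2) n S]
    [T2Space S] [CompactSpace S] (hn : 4 ≤ n) (f : ℝ → S → E3) (hf : DfN n f) (C : Set S)
    (hC : Reach n f C) : IsOpen C ∧ ∀ t ∈ Icc (0 : ℝ) 1, TC f C t := by
  have h4 : DfM 4 f := hf 4 (by exact_mod_cast hn)
  have hD : Dfm f := h4.dfm le_rfl
  have hM : ∀ m : ℕ, (m : ℕ∞) ≤ n → IsManifold (𝓡 2) m S := fun m hm =>
    IsManifold.of_le (n := (n : WithTop ℕ∞)) (by exact_mod_cast hm)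
  have hM4 : IsManifold (𝓡 2) 4 S := hM 4 (by exact_mod_cast hn)
  have hM2 : IsManifold (𝓡 2) 2 S := IsManifold.of_le (n := 4) (by norm_num)
  have hM1 : IsManifold (𝓡 2) 1 S := IsManifold.of_le (n := 4) (by norm_num)
  induction hC with
  | rigid C h1 h2 => exact ⟨h1, h2⟩
  | convex C h => exact hG S f hD C (Or.inl h)
  | hyperbolic C h => exact hG S f hD C (Or.inr h)
  | elliptic U O h1 h2 h3 h5 h6 ih =>
    obtain ⟨A, hA, hA'⟩ := TC_choose ih.2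
    refine ⟨h2, fun t ht => ⟨A t, hA t ht, ?_⟩⟩
    exact hELO S 4 f le_rfl h4 O h2 h3 h6 U ih.1 h5 A hA hA' t ht
  | tube U Φ h1 h2 h3 ih =>
    obtain ⟨m, hm, hmn, hT⟩ := h2.fin hn
    obtain ⟨A, hA, hA'⟩ := TC_choose ih.2
    have := hM m hmn
    have hTU := hTUB S m f hm (hf m hmn) Φ hT A hA fun t ht x hx hx0 => hA' t ht _ (h3 x hx hx0)
    refine ⟨?_, fun t ht => ⟨A t, hA t ht, ?_⟩⟩
    · rw [isOpen_iff_mem_nhds]
      rintro _ ⟨x, hx, rfl⟩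
      exact hOPE S Φ (TRG.ann_le h2.ann (by exact_mod_cast (le_trans (by norm_num) hn))) x hx _
        (TRG.St_open.mem_nhds hx)
    · rintro _ ⟨x, hx, rfl⟩
      exact hTU t ht x hx
  | glue R O h1 h2 h3 h5 ih =>
    refine ⟨h2, TRG.glue_local (hCNV S f hD) h2 h3 (h5.trans (closure_mono ?_))⟩
    rintro q ⟨C, hC, hqC⟩
    exact ⟨C, (ih C hC).1, hqC, (ih C hC).2⟩

end Pool.PGR
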