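import Pool.Agent.Work.MP_02e829_tr.Interface3

/-!
# MP_02e829_gt, PROPAGATION OF RIGIDITY, part 1: the system

File `Pool/Agent/Work/MP_02e829_pg/B_X.lean`, `import Pool.Agent.Work.MP_02e829_pg.Interface` (or
`.Interface2` for the blocks of part 2), namespace `Pool.PGR`, `theorem p_X (hA : Stmt_A) .. :
Stmt_X` with exactly the blocks of the column `uses` as hypotheses in that order (`FR.Y` =
`Pool.FR.Stmt_Y`, `TRG.Y` = `Pool.TRG.Stmt_Y`); auxiliary lemmas with the name of the block in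
front.  You may import finished files of `MP_02e829_tr`, `MP_02e829_fr`, `MP_02e829_sb` for their
auxiliary lemmas (`B_HAL`, `B_HBD`, `B_HEN`, `B_NLB`, `B_NLS`, `B_HTF` are the models of many
blocks).  Toolkit for `pd`: `Pool.FR.Base`.

THE THEOREM.  If an isometric deformation moves rigidly the part `x 1 < 0` of a tube (annulus with
coordinates `x`, `2π`-periodic in `x 0`) then it moves rigidly the whole tube, provided that for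
`x 1 > 0` the closed curves `x 1 = const` have nonzero normal curvature and `K ≠ 0` (either sign),
and that on the line `x 1 = 0` the zeros of these quantities have finite orders `p` (of `II₀₀`,
`II₀₁`) and `q` (of `K`).

THE PROOF.  For two isometric surfaces let `AF BF CF` = the second form of the first (`00, 01,
11`), `a b w` = the difference, `A B C` = the sum, `D = A C - B²`, `ε = ±1` the sign of `D`,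
`al = B/A`, `se = √(εD)/|A|`, `P = se a`, `Q = b - al a`.  The equations of Gauss and Codazzi give
`Q₁ = al Q₀ - ε se P₀ + q1 Q + q2 P`, `P₁ = se Q₀ + al P₀ + p1 Q + pb P` with `pb = c / x₁ + O(1)`,
`c = q/2 - 2p`, `se₁ / se = η / x₁ + O(1)`, `η = q/2 - p`.  Hyperbolic case (`ε = -1`):
`E = ∫ P² + Q²` satisfies `E' ≤ (k/x₁ + 6κ/√x₁) E`.  Elliptic case: a Carleman inequality with the
weight `W = exp(4τ/(4κ+2) exp(-(4κ+2)√x₁)) / x₁ⁿ`.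
-/

open Set Filter Manifold Matrix MeasureTheory Metric
open scoped Topology ContDiff Manifold Real

set_option autoImplicit false

universe w

namespace Pool.PGR

open Pool
open Pool.FR (pd ee gg WW DD NN II Ga Gb Imm SO3)
open Pool.SXB (E3 L3 Proper PosCurv TC)
open Pool.TRG (E2 V3 IC St pt px PerR Iso Per)

/-! ### A. The abstract system -/

/-- the open half strip `0 < x 1 < r` -/
def VS (r : ℝ) : Set E2 := {x | 0 < x 1 ∧ x 1 < r}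

/-- the system on `0 < x 1 < r`, `ε = 1` elliptic, `ε = -1` hyperbolic -/
structure SY (ε c η κ r : ℝ) (al s P Q q1 q2 p1 p2 : E2 → ℝ) : Prop where
  r0 : 0 < r
  r1 : r ≤ 1
  k0 : 0 ≤ κ
  sal : ContDiffOn ℝ 2 al (VS r)
  ss : ContDiffOn ℝ 2 s (VS r)
  sP : ContDiffOn ℝ 2 P (VS r)
  sQ : ContDiffOn ℝ 2 Q (VS r)
  pal : ∀ x ∈ VS r, al (x + (2 * π) • ee 0) = al x
  ps : ∀ x ∈ VS r, s (x + (2 * π) • ee 0) = s x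
  pP : ∀ x ∈ VS r, P (x + (2 * π) • ee 0) = P x
  pQ : ∀ x ∈ VS r, Q (x + (2 * π) • ee 0) = Q x
  pos : ∀ x ∈ VS r, 0 < s x
  eQ : ∀ x ∈ VS r, pd 1 Q x = al x * pd 0 Q x - ε * s x * pd 0 P x + q1 x * Q x + q2 x * P x
  eP : ∀ x ∈ VS r,
    pd 1 P x = s x * pd 0 Q x + al x * pd 0 P x + p1 x * Q x + (c / x 1 + p2 x) * P x
  bq1 : ∀ x ∈ VS r, |q1 x| ≤ κ / √(x 1)
  bq2 : ∀ x ∈ VS r, |q2 x| ≤ κ / √(x 1)
  bp1 : ∀ x ∈ VS r, |p1 x| ≤ κ / √(x 1)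
  bp2 : ∀ x ∈ VS r, |p2 x| ≤ κ / √(x 1)
  bal : ∀ x ∈ VS r, |pd 0 al x| ≤ κ / √(x 1)
  bs : ∀ x ∈ VS r, |pd 0 s x| ≤ κ / √(x 1)
  bh : ∀ x ∈ VS r, |(pd 1 s x - al x * pd 0 s x) / s x - η / x 1| ≤ κ / √(x 1)

/-- HYI (100 lines; uses nothing). Hyperbolic energy, pointwise.  `E = P² + Q²`, flux
`al E + 2 s P Q`.  Insert `eQ`, `eP` (`ε = -1`): the terms with `P₀`, `Q₀` cancel and
`E₁ - (al E + 2 s P Q)₀ = 2 (p1 + q2) P Q + 2 (c/x₁ + p2) P² + 2 q1 Q² - al₀ E - 2 s₀ P Q`.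
`2 c P² / x₁ ≤ (k / x₁) E` (`k ≥ 0`, `2 c ≤ k`), `2 |P Q| ≤ E`; the rest is at most
`(2 + 2 + 1 + 1) κ/√x₁ E` (`2 p2 P² + 2 q1 Q² ≤ 2 κ/√x₁ E`). -/
def Stmt_HYI : Prop :=
  ∀ (c η κ r : ℝ) (al s P Q q1 q2 p1 p2 : E2 → ℝ), SY (-1) c η κ r al s P Q q1 q2 p1 p2 →
    ∀ k : ℕ, 2 * c ≤ k → ∀ x ∈ VS r,
    pd 1 (fun y => P y ^ 2 + Q y ^ 2) x -
      pd 0 (fun y => al y * (P y ^ 2 + Q y ^ 2) + 2 * (s y * (P y * Q y))) x ≤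
      (k / x 1 + 6 * κ / √(x 1)) * (P x ^ 2 + Q x ^ 2)

/-- HYG (100 lines; uses nothing). Singular Gronwall.  `Z y = exp (-(12 κ √y)) * E y / y ^ k` has
derivative `exp(..)/y^k (E' - (k/y) E - (6κ/√y) E) ≤ 0` on `(0, r)` (`antitoneOn_of_deriv_nonpos` or
compare two points), `0 ≤ Z y ≤ M y ^ (n - k) → 0` as `y → 0`, so `Z ≤ 0`. -/
def Stmt_HYG : Prop :=
  ∀ (r κ M : ℝ) (k n : ℕ) (E E' : ℝ → ℝ), 0 ≤ κ → k < n →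
    (∀ y ∈ Ioo 0 r, HasDerivAt E (E' y) y ∧ E' y ≤ (k / y + 6 * κ / √y) * E y ∧ 0 ≤ E y ∧
      E y ≤ M * y ^ n) → ∀ y ∈ Ioo 0 r, E y = 0

/-- HYP (120 lines; uses TRG.HDE HYI HYG). `E y = IC fun x => P (px x y) ^ 2 + Q (px x y) ^ 2`;
HDE with `V = VS r` (open), `α = 0`, `β = r`; the integral of HYI; `E ≤ 2π M y ^ n`.  A continuous
nonnegative function with vanishing integral over a period vanishes (`x = px (x 0) (x 1)`). -/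
def Stmt_HYP : Prop :=
  ∀ (c η κ r M : ℝ) (al s P Q q1 q2 p1 p2 : E2 → ℝ), SY (-1) c η κ r al s P Q q1 q2 p1 p2 →
    ∀ k n : ℕ, 2 * c ≤ k → k < n → (∀ x ∈ VS r, P x ^ 2 + Q x ^ 2 ≤ M * x 1 ^ n) →
    ∀ x ∈ VS r, P x = 0 ∧ Q x = 0

/-! ### The Carleman weight -/

/-- the function `φ` -/
noncomputable def ph (κ y : ℝ) : ℝ := Real.exp (-((4 * κ + 2) * √y)) / √y

/-- `g = -W' / (2 W)` -/
noncomputable def gw (n : ℕ) (κ τ y : ℝ) : ℝ := n / (2 * y) + τ * ph κ y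

/-- the derivative of `g` -/
noncomputable def gd (n : ℕ) (κ τ y : ℝ) : ℝ :=
  -(n / (2 * y ^ 2)) - τ * (ph κ y * (1 / (2 * y) + (2 * κ + 1) / √y))

/-- the weight `W` -/
noncomputable def Ww (n : ℕ) (κ τ y : ℝ) : ℝ :=
  Real.exp (4 * τ / (4 * κ + 2) * Real.exp (-((4 * κ + 2) * √y))) / y ^ n

/-- WGT (100 lines; uses nothing). Derivatives of explicit functions
(`Real.hasDerivAt_sqrt`); with `Λ = 4 κ + 2`: `(√y)' = 1 / (2 √y)`, `ph' = -ph (1/(2y) +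
Λ/(2√y))`, `((4τ/Λ) exp(-Λ√y))' = -2 τ ph`.  `exp(-Λ√y) ≤ 1`. -/
def Stmt_WGT : Prop :=
  ∀ (n : ℕ) (κ τ y : ℝ), 0 ≤ κ → 0 ≤ τ → 0 < y →
    HasDerivAt (gw n κ τ) (gd n κ τ y) y ∧
    HasDerivAt (Ww n κ τ) (-(2 * (gw n κ τ y * Ww n κ τ y))) y ∧
    0 < Ww n κ τ y ∧ Ww n κ τ y ≤ Real.exp (4 * τ / (4 * κ + 2)) / y ^ n

/-- the pointwise expression of the Carleman inequality: `Q, P` the unknowns, `X, Y` the main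
parts, `e, f` the error terms, `g, g'` the weight, `h = (s₁ - al s₀)/s`, `a0 = al₀`, `s0 = s₀` -/
noncomputable def CI (y c g g' h a0 s0 Q P X Y e f : ℝ) : ℝ :=
  2 * ((X - g * Q) ^ 2 + (Y - g * P) ^ 2) + (X - g * Q) * (2 * e + h * Q - s0 * P) +
    (Y - g * P) * (2 * f + h * P + s0 * Q) + (h * g - g' + g * a0) * (P ^ 2 + Q ^ 2) -
    c / y * (h + 1 / y + a0) * P ^ 2 + s0 * (Q * f - P * e)

/-- CIN (200 lines; uses nothing). Real numbers.  `R² = P² + Q²`, `k = κ/√y` (so `k² = κ²/y`),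
`G = n/2`, `Λ = 4κ+2`.  `2 X̂² + X̂ u ≥ -u²/8` for `X̂ = X - gQ`, `u = 2e + hQ - s0 P`, and the same
for `Ŷ = Y - gP`, `u' = 2f + hP + s0 Q`; `(u, u') = (η/y)(Q, P) + rest`, both components of the rest
are `≤ 3k (|Q|+|P|)`, so `u² + u'² ≤ 2 (η/y)² R² + 2·36 k² R²` and the sum of the two terms is
`≥ -(η²/(4y²)) R² - 9 k² R²`.  `h g - g' + g a0 ≥ (η/y) g - g' - 2 k g`
`= (1+η) G / y² + τ φ ((η + 1/2)/y + (2κ+1)/√y) - 2 k G / y - 2 k τ φ ≥ (1+η) G / y² + τ φ / √y -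
2kG/y` (`φ = ph κ y > 0`, `g ≥ 0`, `η ≥ -1/2`), and `φ/√y = exp(-Λ√y)/y ≥ exp(-Λ)/y` (`y ≤ 1`).
`-(c/y)(h + 1/y + a0) P² ≥ -c(1+η)/y² P² - 2 |c| k / y R²`; `s0 (Q f - P e) ≥ -2 k² R²`.  Sum:
`≥ (1/y²)([(1+η)G - η²/4] Q² + [(1+η)(G-c) - η²/4] P²) + R² (τ exp(-Λ)/y - 2κ(G+|c|)/(y√y) -
11 κ²/y) ≥ R² (δ/y² - K/(y√y) + (K²/(4δ))/y) = R²/y (√δ/√y - K/(2√δ))² ≥ 0`, `K = 2κ(G+|c|)`
(or: `4 δ` times it is the square of `2 δ/y - K/√y`). -/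
def Stmt_CIN : Prop :=
  ∀ (n : ℕ) (y κ τ δ c η a0 s0 h Q P X Y e f : ℝ), 0 < y → y ≤ 1 → 0 ≤ κ → 0 ≤ τ →
    -(1 / 2) ≤ η → 0 < δ →
    δ ≤ (1 + η) * (n / 2) - η ^ 2 / 4 → δ ≤ (1 + η) * (n / 2 - c) - η ^ 2 / 4 →
    11 * κ ^ 2 + (2 * κ * (n / 2 + |c|)) ^ 2 / (4 * δ) ≤ τ * Real.exp (-(4 * κ + 2)) →
    |a0| ≤ κ / √y → |s0| ≤ κ / √y → |h - η / y| ≤ κ / √y →
    |e| ≤ κ / √y * (|Q| + |P|) → |f| ≤ κ / √y * (|Q| + |P|) →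
    0 ≤ CI y c (gw n κ τ y) (gd n κ τ y) h a0 s0 Q P X Y e f

/-- the main parts -/
noncomputable def cX (s P : E2 → ℝ) (x : E2) : ℝ := -(s x * pd 0 P x)

noncomputable def cY (c : ℝ) (s P Q : E2 → ℝ) (x : E2) : ℝ := s x * pd 0 Q x + c / x 1 * P x

/-- the density -/
noncomputable def cH (W g : ℝ → ℝ) (c : ℝ) (s P Q : E2 → ℝ) (x : E2) : ℝ :=
  W (x 1) * (cX s P x * Q x + cY c s P Q x * P x - g (x 1) * (P x ^ 2 + Q x ^ 2))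

/-- the flux -/
noncomputable def cJ (W g : ℝ → ℝ) (c : ℝ) (al s P Q : E2 → ℝ) (x : E2) : ℝ :=
  W (x 1) * (-(s x * (Q x * pd 1 P x)) + s x * (P x * pd 1 Q x) + c / x 1 * (al x * P x ^ 2) -
    g (x 1) * (al x * (P x ^ 2 + Q x ^ 2)))

/-- CID (250 lines; uses nothing). The identity (checked with random rational jets).  Product
rules; `pd 1 (fun y => W (y 1)) = W' (x 1)`, `pd 0 (fun y => W (y 1)) = 0`, `pd_comm` for `P`, `Q`: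
after differentiating everything is a polynomial identity in `Q P Q₀ P₀ Q₁ P₁ Q₀₁ P₀₁ al al₀ s s₀
s₁ c 1/x₁ g g' W` in which `Q₁ = al Q₀ + X + e`, `P₁ = al P₀ + Y + f` are inserted (`linear_combination`
or `field_simp; ring`). `e = q1 Q + q2 P`, `f = p1 Q + p2 P`. -/
def Stmt_CID : Prop :=
  ∀ (c η κ r : ℝ) (al s P Q q1 q2 p1 p2 : E2 → ℝ), SY 1 c η κ r al s P Q q1 q2 p1 p2 →
    ∀ (W g : ℝ → ℝ) (g' : ℝ), ∀ x ∈ VS r, HasDerivAt W (-(2 * (g (x 1) * W (x 1)))) (x 1) →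
    HasDerivAt g g' (x 1) →
    pd 1 (cH W g c s P Q) x - pd 0 (cJ W g c al s P Q) x =
      W (x 1) * CI (x 1) c (g (x 1)) g' ((pd 1 s x - al x * pd 0 s x) / s x) (pd 0 al x)
        (pd 0 s x) (Q x) (P x) (cX s P x) (cY c s P Q x) (q1 x * Q x + q2 x * P x)
        (p1 x * Q x + p2 x * P x)

/-- CLM (80 lines; uses WGT). `|X Q + Y P| ≤ s|P₀||Q| + s|Q₀||P| + |c| P²/x₁`,
`g x₁ = n/2 + τ √x₁ exp(..) ≤ n/2 + τ`, `W ≤ exp(..)/x₁ⁿ`, `x₁ ^ n' ≤ x₁ⁿ x₁` (`n < n'`,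
`x₁ ≤ 1`). -/
def Stmt_CLM : Prop :=
  ∀ (c η κ r M : ℝ) (al s P Q q1 q2 p1 p2 : E2 → ℝ), SY 1 c η κ r al s P Q q1 q2 p1 p2 →
    0 ≤ M → ∀ n n' : ℕ, n < n' → (∀ x ∈ VS r, s x * |pd 0 P x| * |Q x| + s x * |pd 0 Q x| * |P x| +
      (P x ^ 2 + Q x ^ 2) / x 1 ≤ M * x 1 ^ n') → ∀ τ : ℝ, 0 ≤ τ → ∀ x ∈ VS r,
    |cH (Ww n κ τ) (gw n κ τ) c s P Q x| ≤
      Real.exp (4 * τ / (4 * κ + 2)) * (1 + |c| + n / 2 + τ) * M * x 1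

/-- ELL (200 lines; uses TRG.HDE WGT CIN CID CLM). `T y = IC (cH .. (px · y))` with `W = Ww n κ τ`,
`g = gw n κ τ`.  HDE (`V = VS r`; `cH`, `cJ` are `C¹` there): `T'` = the integral of the left side
of CID, `≥ 0` by CIN as soon as `τ exp(-(4κ+2)) ≥ 11κ² + ..`, that is for all large `τ`
(`|q1 Q + q2 P| ≤ κ/√x₁ (|Q|+|P|)` etc.).  `|T y| ≤ 2π C y → 0` (CLM), so `T ≥ 0` on `(0, r)`: for
fixed `y` the number `U = IC (X Q + Y P)` (at `px x y`) does not depend on `τ` and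
`U ≥ (n/(2y) + τ φ(y)) IC (P² + Q²)` for all large `τ`, so `IC (P² + Q²) = 0`. -/
def Stmt_ELL : Prop :=
  ∀ (c η κ r M δ : ℝ) (al s P Q q1 q2 p1 p2 : E2 → ℝ), SY 1 c η κ r al s P Q q1 q2 p1 p2 →
    0 ≤ M → ∀ n n' : ℕ, -(1 / 2) ≤ η → 0 < δ → δ ≤ (1 + η) * (n / 2) - η ^ 2 / 4 →
    δ ≤ (1 + η) * (n / 2 - c) - η ^ 2 / 4 → n < n' →
    (∀ x ∈ VS r, s x * |pd 0 P x| * |Q x| + s x * |pd 0 Q x| * |P x| +
      (P x ^ 2 + Q x ^ 2) / x 1 ≤ M * x 1 ^ n') →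
    ∀ x ∈ VS r, P x = 0 ∧ Q x = 0

/-! ### B. The difference of two second forms -/

/-- the second form `AF BF CF` (`00, 01, 11`) of a surface, the difference `a b w` to the second
form of an isometric surface, the coefficients of Codazzi -/
structure Dat where
  AF : E2 → ℝ
  BF : E2 → ℝ
  CF : E2 → ℝ
  a : E2 → ℝ
  b : E2 → ℝ
  w : E2 → ℝ
  l : Fin 3 → E2 → ℝ
  m : Fin 3 → E2 → ℝ

namespace Dat

variable (d : Dat)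

/-- the sum of the second forms -/
def A (x : E2) : ℝ := 2 * d.AF x + d.a x

def B (x : E2) : ℝ := 2 * d.BF x + d.b x

def C (x : E2) : ℝ := 2 * d.CF x + d.w x

def D (x : E2) : ℝ := d.A x * d.C x - d.B x ^ 2

noncomputable def al (x : E2) : ℝ := d.B x / d.A x

noncomputable def se (ε : ℝ) (x : E2) : ℝ := √(ε * d.D x) / |d.A x|

noncomputable def P (ε : ℝ) (x : E2) : ℝ := d.se ε x * d.a x

noncomputable def Q (x : E2) : ℝ := d.b x - d.al x * d.a x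

/-- the coefficients -/
noncomputable def q1 (x : E2) : ℝ :=
  2 * pd 0 d.al x + d.m 1 x - d.al x * d.l 1 x + 2 * d.al x * (d.m 2 x - d.al x * d.l 2 x)

noncomputable def q2 (ε : ℝ) (x : E2) : ℝ :=
  -(ε * (3 * pd 0 (d.se ε) x + d.se ε x * (pd 0 d.A x / d.A x) +
    2 * (d.m 2 x - d.al x * d.l 2 x) * d.se ε x))

noncomputable def p1 (ε : ℝ) (x : E2) : ℝ := d.se ε x * (d.l 1 x + 2 * d.al x * d.l 2 x)

noncomputable def pb (ε : ℝ) (x : E2) : ℝ :=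
  pd 1 (d.se ε) x / d.se ε x + pd 0 d.al x - d.al x * (pd 0 (d.se ε) x / d.se ε x) + d.l 0 x +
    d.l 1 x * d.al x + d.l 2 x * (d.al x ^ 2 - ε * d.se ε x ^ 2)

end Dat

/-- the equations of Gauss and Codazzi -/
structure PR (d : Dat) : Prop where
  sAF : ContDiffOn ℝ 2 d.AF St
  sBF : ContDiffOn ℝ 2 d.BF St
  sCF : ContDiffOn ℝ 2 d.CF St
  sa : ContDiffOn ℝ 2 d.a St
  sb : ContDiffOn ℝ 2 d.b St
  sw : ContDiffOn ℝ 2 d.w St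
  sl : ∀ i, ContinuousOn (d.l i) St
  sm : ∀ i, ContinuousOn (d.m i) St
  pAF : PerR d.AF
  pBF : PerR d.BF
  pCF : PerR d.CF
  pa : PerR d.a
  pb : PerR d.b
  pw : PerR d.w
  pl : ∀ i, PerR (d.l i)
  pm : ∀ i, PerR (d.m i)
  e0 : ∀ x ∈ St, d.AF x * d.w x + d.CF x * d.a x - 2 * (d.BF x * d.b x) +
    (d.a x * d.w x - d.b x ^ 2) = 0
  c1 : ∀ x ∈ St, pd 1 d.AF x = pd 0 d.BF x + d.l 0 x * d.AF x + d.l 1 x * d.BF x +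
    d.l 2 x * d.CF x
  c2 : ∀ x ∈ St, pd 1 d.BF x = pd 0 d.CF x + d.m 0 x * d.AF x + d.m 1 x * d.BF x +
    d.m 2 x * d.CF x
  d1 : ∀ x ∈ St, pd 1 d.a x = pd 0 d.b x + d.l 0 x * d.a x + d.l 1 x * d.b x + d.l 2 x * d.w x
  d2 : ∀ x ∈ St, pd 1 d.b x = pd 0 d.w x + d.m 0 x * d.a x + d.m 1 x * d.b x + d.m 2 x * d.w x

/-- ALG (250 lines; uses nothing). Algebra (checked with random rational jets).  On `V`:
`A w + C a = 2 B b` (from e0), the sums satisfy the same Codazzi equations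
`A₁ = B₀ + l·(A,B,C)`, `B₁ = C₀ + m·(A,B,C)`.  `B = al A`, `C = (al² + ε se²) A`
(`se² = ε D / A²`, `ε² = 1`), differentiate these products (`pd_mul`), so
`w = 2 al Q + (al² - ε se²) a`, `b = Q + al a`; the two Codazzi equations of the sums give
`al₁ = al al₀ + 2 ε se se₀ + ε se² A₀/A + (m₀ - al l₀) + (m₁ - al l₁) al + (m₂ - al l₂)(al² +
ε se²)`.  Then `Q₁ = b₁ - al₁ a - al a₁`, `P₁ = se₁ a + se a₁`, insert d1, d2: `field_simp; ring` or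
`linear_combination`. -/
def Stmt_ALG : Prop :=
  ∀ (d : Dat) (ε : ℝ), PR d → (ε = 1 ∨ ε = -1) → ∀ V : Set E2, IsOpen V → V ⊆ St →
    (∀ x ∈ V, d.A x ≠ 0 ∧ 0 < ε * d.D x) → ∀ x ∈ V,
    pd 1 d.Q x = d.al x * pd 0 d.Q x - ε * d.se ε x * pd 0 (d.P ε) x + d.q1 x * d.Q x +
      d.q2 ε x * d.P ε x ∧
    pd 1 (d.P ε) x = d.se ε x * pd 0 d.Q x + d.al x * pd 0 (d.P ε) x + d.p1 ε x * d.Q x +
      d.pb ε x * d.P ε x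

/-- CPT (150 lines; uses nothing). Periodic for `0 ≤ x₁ ≤ r` (by continuity), all integer multiples
of `2π`; compactness of `[0, 2π] × [δ, r]` (image of a compact set under `px`).  Third part: otherwise
there are points `x` in `[0, 2π] × [0, 1/n]` with `|u x| < 1/n`, a limit point is a zero on the
line. -/
def Stmt_CPT : Prop :=
  ∀ (u : E2 → ℝ) (r : ℝ), 0 < r → r < 1 → ContinuousOn u St →
    (∀ x ∈ VS r, u (x + (2 * π) • ee 0) = u x) →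
    (∃ M : ℝ, 0 ≤ M ∧ ∀ x : E2, 0 ≤ x 1 → x 1 ≤ r → |u x| ≤ M) ∧
    (∀ δ : ℝ, 0 ≤ δ → (∀ x : E2, δ ≤ x 1 → x 1 ≤ r → u x ≠ 0) →
      ∃ c : ℝ, 0 < c ∧ ∀ x : E2, δ ≤ x 1 → x 1 ≤ r → c ≤ |u x|) ∧
    ((∀ x : ℝ, u (pt x) ≠ 0) →
      ∃ c δ : ℝ, 0 < c ∧ 0 < δ ∧ δ ≤ r ∧ ∀ x : E2, 0 ≤ x 1 → x 1 ≤ δ → c ≤ |u x|)

/-- ORL (200 lines; uses CPT). `g = x₁^p u + e` on `0 ≤ x₁ ≤ r`, so the derivatives agree for
`0 < x₁ < r`: `g₀ = x₁^p u₀ + e₀`, `x₁ g₁ - p g = x₁^(p+1) u₁ + x₁ e₁ - p e`.  `u`, `u₀`, `u₁` are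
continuous on `St` and periodic on `VS r`, so bounded (CPT); `|e| ≤ M x₁^N`,
`|e₀|, |e₁| ≤ M x₁^(N-1)`, `p < N`, `x₁ ≤ 1`.  Lower bound: `|u| ≥ c` for `0 ≤ x₁ ≤ δ` (CPT), so
`|g| ≥ c x₁^p - M x₁^N ≥ (c/2) x₁^p` for `x₁ ≤ δ₁ = min δ (c/(2(M+1)))`; for `δ₁ ≤ x₁ ≤ r` by CPT
for `g` (`x₁^p ≤ 1`). -/
def Stmt_ORL : Prop :=
  ∀ (g u e : E2 → ℝ) (p N : ℕ) (r M : ℝ), 0 < r → r < 1 → p < N → 0 ≤ M →
    ContDiffOn ℝ 1 g St → PerR g → ContDiffOn ℝ 1 u St → ContDiffOn ℝ 1 e St →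
    (∀ x ∈ VS r, u (x + (2 * π) • ee 0) = u x) →
    (∀ x : E2, 0 ≤ x 1 → x 1 ≤ r → g x = x 1 ^ p * u x + e x) →
    (∀ x : E2, 0 ≤ x 1 → x 1 ≤ r → |e x| ≤ M * x 1 ^ N ∧ ∀ i, |pd i e x| ≤ M * x 1 ^ (N - 1)) →
    ∃ M' : ℝ, 0 ≤ M' ∧ (∀ x ∈ VS r, |g x| ≤ M' * x 1 ^ p ∧ |pd 0 g x| ≤ M' * x 1 ^ p ∧
      |x 1 * pd 1 g x - p * g x| ≤ M' * x 1 ^ (p + 1)) ∧
    ((∀ x : ℝ, u (pt x) ≠ 0) → (∀ x : E2, 0 < x 1 → x 1 ≤ r → g x ≠ 0) →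
      ∃ c : ℝ, 0 < c ∧ ∀ x ∈ VS r, c * x 1 ^ p ≤ |g x|)

/-- the line `x 1 = 0`: orders `p`, `q` for the first surface, order `N` for the difference; sign
`ε` of the sum for `0 < x 1 ≤ r` -/
structure LNC (d : Dat) (p q N : ℕ) (ε r : ℝ) (u v z : E2 → ℝ) (M : ℝ) : Prop where
  hp : p < N
  hq : q < N + p
  hpq : 2 * p ≤ q + 1
  hN : 2 ≤ N
  r0 : 0 < r
  r1 : r < 1
  M0 : 0 ≤ M
  he : ε = 1 ∨ ε = -1
  su : ContDiffOn ℝ 1 u St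
  sv : ContDiffOn ℝ 1 v St
  sz : ContDiffOn ℝ 1 z St
  u0 : ∀ x : ℝ, u (pt x) ≠ 0
  z0 : ∀ x : ℝ, z (pt x) ≠ 0
  lA : ∀ x : E2, 0 ≤ x 1 → x 1 ≤ r → d.AF x = x 1 ^ p * u x
  lB : ∀ x : E2, 0 ≤ x 1 → x 1 ≤ r → d.BF x = x 1 ^ p * v x
  lD : ∀ x : E2, 0 ≤ x 1 → x 1 ≤ r → d.AF x * d.CF x - d.BF x ^ 2 = x 1 ^ q * z x
  non : ∀ x : E2, 0 < x 1 → x 1 ≤ r → d.A x ≠ 0 ∧ 0 < ε * d.D x
  van : ∀ x : E2, 0 ≤ x 1 → x 1 ≤ r → |d.a x| ≤ M * x 1 ^ N ∧ |d.b x| ≤ M * x 1 ^ N ∧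
    |d.w x| ≤ M * x 1 ^ N ∧ ∀ i, |pd i d.a x| ≤ M * x 1 ^ (N - 1) ∧
    |pd i d.b x| ≤ M * x 1 ^ (N - 1) ∧ |pd i d.w x| ≤ M * x 1 ^ (N - 1)

/-- ORD (250 lines; uses ORL CPT). `u, v, z` are periodic on `VS r` by lA, lB, lD.  ORL for
`A = x₁^p (2u) + a`, `B = x₁^p (2v) + b` (order `p`, error order `N`) and `D = x₁^q (4z) + e`,
`e = -(a w - b²)` (from e0: `D = 4 DF - (a w - b²)`; error order `2N`, constant `4M²`, `q < 2N`).  So on `VS r`: `c x₁^p ≤ |A|`, `|A₀|, |B|, |B₀| ≤ M' x₁^p`,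
`|x₁ A₁ - p A| ≤ M' x₁^(p+1)`, `c x₁^q ≤ ε D ≤ M' x₁^q`, `|D₀| ≤ M' x₁^q`,
`|x₁ D₁ - q D| ≤ M' x₁^(q+1)`.  Then `|al|`, `al₀ = (B₀ - al A₀)/A`, `A₀/A` are bounded;
`se² = ε D/A² ≤ κ x₁^q / x₁^(2p)`; `se₀/se = D₀/(2D) - A₀/A`, `se₁/se = D₁/(2D) - A₁/A = (q/2 -
p)/x₁ + O(1)` (differentiate `se² A² = ε D`); `l₂ C/A = (A₁ - B₀ - l₀ A - l₁ B)/A = p/x₁ + O(1)` by
the Codazzi equation for the sums, and `ε se² = D/A² = C/A - al²`. -/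
def Stmt_ORD : Prop :=
  ∀ (d : Dat) (p q N : ℕ) (ε r : ℝ) (u v z : E2 → ℝ) (M : ℝ), PR d → LNC d p q N ε r u v z M →
    ∃ κ : ℝ, 0 ≤ κ ∧ ∀ x ∈ VS r, |d.al x| ≤ κ ∧ |pd 0 d.al x| ≤ κ ∧
      |pd 0 d.A x| ≤ κ * |d.A x| ∧ x 1 ^ (2 * p) * d.se ε x ^ 2 ≤ κ * x 1 ^ q ∧
      |pd 0 (d.se ε) x| ≤ κ * d.se ε x ∧
      |pd 1 (d.se ε) x - ((q : ℝ) / 2 - p) / x 1 * d.se ε x| ≤ κ * d.se ε x ∧
      |d.l 2 x * (ε * d.se ε x ^ 2) - p / x 1| ≤ κ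

/-- SYL (200 lines; uses ALG ORD CPT). The system.  Smoothness on `VS r` (`A ≠ 0`, `ε D > 0`:
quotient, `ContDiffOn.sqrt`, `|A|` is `±A` locally, or `se = √(ε D / A²)`), periodicity; `l i`, `m i`
bounded on `0 ≤ x₁ ≤ r` (CPT).  From ORD and `2 p ≤ q + 1`, `x₁ ≤ 1`: `se² x₁ ≤ κ`, so
`se ≤ √κ/√x₁`, `1 ≤ 1/√x₁`.  `p2 = pb - c/x₁`: `pb = [se₁/se] + al₀ - al se₀/se + l₀ + l₁ al + l₂ al² -
l₂ ε se²`, `se₁/se = (q/2 - p)/x₁ + O(1)`, `l₂ ε se² = p/x₁ + O(1)`.  Bounds: `j = q - 2p ≥ -1`,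
`se² ≤ κ x₁^j` (write `se² x₁^(2p) ≤ κ x₁^q`), `|a|, |b| ≤ M x₁^N`, `P² = se² a² ≤ κ M² x₁^(2N-1)`,
`Q² ≤ M' x₁^(2N)`; `|P₀| = |se₀ a + se a₀| ≤ κ se |a| + se |a₀|`, `|Q₀| ≤ M' x₁^(N-1)`, so
`se |P₀| |Q| ≤ M' se² x₁^(2N-1)`, `se |Q₀| |P| ≤ M' se² x₁^(2N-1)`, and the sum is at most
`M' (1 + se²) x₁^(2N-1)`: `≤ M'' x₁^(2N-1)` if `2p ≤ q`, `≤ M'' x₁^(2N-2)` in general. -/
def Stmt_SYL : Prop :=
  ∀ (d : Dat) (p q N : ℕ) (ε r : ℝ) (u v z : E2 → ℝ) (M : ℝ), PR d → LNC d p q N ε r u v z M →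
    ∃ κ M' : ℝ, 0 ≤ M' ∧
      SY ε ((q : ℝ) / 2 - 2 * p) ((q : ℝ) / 2 - p) κ r d.al (d.se ε) (d.P ε) d.Q d.q1 (d.q2 ε)
        (d.p1 ε) (fun x => d.pb ε x - ((q : ℝ) / 2 - 2 * p) / x 1) ∧
      ∀ x ∈ VS r, d.P ε x ^ 2 + d.Q x ^ 2 ≤ M' * x 1 ^ (2 * N - 1) ∧
        d.se ε x * |pd 0 (d.P ε) x| * |d.Q x| + d.se ε x * |pd 0 d.Q x| * |d.P ε x| +
          (d.P ε x ^ 2 + d.Q x ^ 2) / x 1 ≤
          M' * x 1 ^ (if 2 * p ≤ q then 2 * N - 1 else 2 * N - 2)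

/-- VAN (150 lines; uses HYP ELL SYL). `ε = -1`: HYP with `k = q`... precisely `2 c = q - 4p ≤ k`
with `k = q - 2p` if `2p ≤ q`, else `k = 0`, and `n = 2N - 1 > k` (`q < N + p`, `p < N`, `2 ≤ N`).
`ε = 1`: ELL.  If `2p < q`, `j = q - 2p ≥ 1`: `n = 2j`, `n' = 2N - 1` (`j ≤ N - 1`), `η = j/2`,
`c = η - p ≤ η`: `(1+η)(n/2) - η²/4 = (1 + j/2) j - j²/16 ≥ j`, `(1+η)(n/2 - c) - η²/4 ≥
(1 + j/2)(j/2) - j²/16 ≥ j/2`.  If `q = 2p`: `η = 0`, `c = -p`, `n = 1`, `n' = 2N - 1`.  If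
`q + 1 = 2p`: `η = -1/2`, `c ≤ -1/2`, `n = 1`, `n' = 2N - 2 ≥ 2`, `(1/2)(1/2) - 1/16 > 0`.  So
`P = Q = 0` on `VS r`, `se > 0`: `a = 0`, `b = 0`, and `A w + C a = 2 B b` gives `w = 0`; on the lines
`x₁ = 0`, `x₁ = r` by continuity. -/
def Stmt_VAN : Prop :=
  ∀ (d : Dat) (p q N : ℕ) (ε r : ℝ) (u v z : E2 → ℝ) (M : ℝ), PR d → LNC d p q N ε r u v z M →
    ∀ x : E2, 0 ≤ x 1 → x 1 ≤ r → d.a x = 0 ∧ d.b x = 0 ∧ d.w x = 0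

end Pool.PGR
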