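import Pool.Agent.Work.MP_02e829_pg.Interface

/-!
# MP_02e829_gt, PROPAGATION OF RIGIDITY, part 2: surfaces

Same rules as part 1 (`import Pool.Agent.Work.MP_02e829_pg.Interface2`).  Models:
`MP_02e829_tr/B_HPR.lean`, `B_NLS.lean`, `B_HTF.lean`, `B_UB3.lean`, `B_LBM.lean`, `B_RD1.lean`,
`B_HTC.lean`, `Final3.lean`, `Mv.lean` (`motion_of`).
-/

open Set Filter Manifold Matrix MeasureTheory Metric
open scoped Topology ContDiff Manifold Real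

set_option autoImplicit false

universe w

namespace Pool.PGR

open Pool
open Pool.FR (pd ee gg WW DD NN II Ga Gb Imm SO3)
open Pool.SXB (E3 L3 Proper PosCurv TC)
open Pool.TRG (E2 V3 IC St pt px PerR Iso Per Ann)

/-! ### C. Families of surfaces on the strip -/

/-- a family of isometric surfaces of class `C^m` on the strip, bounded in `C^m`, continuous in
`C²` -/
structure SFm (m : ℕ) (F : ℝ → E2 → V3) : Prop where
  imm : ∀ t ∈ Icc (0 : ℝ) 1, Imm (F t) St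
  smo : ∀ t ∈ Icc (0 : ℝ) 1, ContDiffOn ℝ m (F t) St
  iso : ∀ t ∈ Icc (0 : ℝ) 1, Iso (F 0) (F t)
  per : ∀ t ∈ Icc (0 : ℝ) 1, Per (F t)
  j2 : TRG.J2 St F
  bd : TRG.LB m St F

/-- the determinant of the second form -/
noncomputable def dII (F : E2 → V3) (x : E2) : ℝ := II F 0 0 x * II F 1 1 x - II F 0 1 x ^ 2

/-- on `T`: zeros of order `p` of `II₀₀`, at least `p` of `II₀₁`, of order `q` of the
determinant -/
structure LinC (F : E2 → V3) (p q : ℕ) (T : Set E2) (u v z : E2 → ℝ) : Prop where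
  su : ContDiffOn ℝ 1 u St
  sv : ContDiffOn ℝ 1 v St
  sz : ContDiffOn ℝ 1 z St
  u0 : ∀ x : ℝ, u (pt x) ≠ 0
  z0 : ∀ x : ℝ, z (pt x) ≠ 0
  l0 : ∀ x ∈ T, II F 0 0 x = x 1 ^ p * u x
  l1 : ∀ x ∈ T, II F 0 1 x = x 1 ^ p * v x
  l2 : ∀ x ∈ T, dII F x = x 1 ^ q * z x

/-- closed and half open half strips -/
def HS (r : ℝ) : Set E2 := {x | 0 ≤ x 1 ∧ x 1 ≤ r}

def HT : Set E2 := {x | 0 ≤ x 1 ∧ x 1 < 1}

/-- bounded derivatives of order `≤ n`, uniformly in time -/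
def LBR (n : ℕ) (u : ℝ → E2 → ℝ) : Prop :=
  ∀ x ∈ St, ∃ M : ℝ, ∀ᶠ y in 𝓝 x, ∀ t ∈ Icc (0 : ℝ) 1, ∀ k ≤ n, ‖iteratedFDeriv ℝ k (u t) y‖ ≤ M

/-- REG (80 lines; uses nothing). `II F i j = (√DD)⁻¹ (F_ij ⬝ (F_0 ⨯₃ F_1))`, `DD > 0` of class
`C^(m-1)`. -/
def Stmt_REG : Prop :=
  ∀ (m : ℕ) (F : E2 → V3), 4 ≤ m → Imm F St → ContDiffOn ℝ m F St → ∀ i j,
    ContDiffOn ℝ ((m - 2 : ℕ) : WithTop ℕ∞) (II F i j) St

/-- UBM (200 lines; uses nothing). As `B_UB3.lean` (there `m = 4`): `II (F t) i j = (√DD)⁻¹ (F_ij ⬝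
(F_0 ⨯₃ F_1))` with `DD = DD (F 0)` (`Iso`) fixed, positive; families of class `C^n` whose
derivatives of order `≤ n` are bounded near every point uniformly in `t` are closed under continuous
bilinear products, contain the constant families, and `pd i` lowers `n` by one. -/
def Stmt_UBM : Prop :=
  ∀ (m : ℕ) (F : ℝ → E2 → V3), 4 ≤ m → SFm m F → ∀ i j, LBR (m - 2) fun t => II (F t) i j

/-- TAY (200 lines; uses nothing). Induction on `n`.  `n = 0`: LBR and the compactness of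
`[0,2π] × [0,r]`, periodicity.  `n + 1`: the families `pd i (u t)` satisfy the hypotheses for `n`
(`‖iteratedFDeriv k (pd i u)‖ ≤ ‖iteratedFDeriv (k+1) u‖`, see `B_UB3.lean` or `B_LBP.lean`; they
vanish for `x 1 < 0`), so `|pd i (u t) x| ≤ M x₁ⁿ`; `u t` vanishes on the line by continuity, mean
value theorem in `x 1`: `|u t x| ≤ M x₁ⁿ x₁`. -/
def Stmt_TAY : Prop :=
  ∀ (n : ℕ) (u : ℝ → E2 → ℝ), (∀ t ∈ Icc (0 : ℝ) 1, ContDiffOn ℝ n (u t) St) → LBR n u →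
    (∀ t ∈ Icc (0 : ℝ) 1, PerR (u t)) → (∀ t ∈ Icc (0 : ℝ) 1, ∀ x ∈ St, x 1 < 0 → u t x = 0) →
    ∀ r : ℝ, 0 < r → r < 1 → ∃ M : ℝ, 0 ≤ M ∧ ∀ t ∈ Icc (0 : ℝ) 1, ∀ x ∈ HS r,
      |u t x| ≤ M * x 1 ^ n ∧ (1 ≤ n → ∀ i, |pd i (u t) x| ≤ M * x 1 ^ (n - 1))

/-- VNF (120 lines; uses REG UBM TAY). TAY for the six families `II (F t) i j - II (F 0) i j`,
`n = m - 2` (LBR of a difference: triangle inequality, `II (F 0) i j` is the family at the time 0;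
periodicity of `II`: `B_HPR.lean`), the largest of the constants. -/
def Stmt_VNF : Prop :=
  ∀ (m : ℕ) (F : ℝ → E2 → V3), 4 ≤ m → SFm m F →
    (∀ t ∈ Icc (0 : ℝ) 1, ∀ x ∈ St, x 1 < 0 → ∀ i j, II (F t) i j x = II (F 0) i j x) →
    ∀ r : ℝ, 0 < r → r < 1 → ∃ M : ℝ, 0 ≤ M ∧ ∀ t ∈ Icc (0 : ℝ) 1, ∀ x ∈ HS r, ∀ i j,
      |II (F t) i j x - II (F 0) i j x| ≤ M * x 1 ^ (m - 2) ∧
      ∀ k, |pd k (fun y => II (F t) i j y - II (F 0) i j y) x| ≤ M * x 1 ^ (m - 3)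

/-- the data of two surfaces -/
noncomputable def datF (F G : E2 → V3) : Dat where
  AF := II F 0 0
  BF := II F 0 1
  CF := II F 1 1
  a := fun x => II G 0 0 x - II F 0 0 x
  b := fun x => II G 0 1 x - II F 0 1 x
  w := fun x => II G 1 1 x - II F 1 1 x
  l := ![Gb F 0 0 1, fun x => Gb F 1 0 1 x - Gb F 0 0 0 x, fun x => -Gb F 1 0 0 x]
  m := ![Gb F 0 1 1, fun x => Gb F 1 1 1 x - Gb F 0 0 1 x, fun x => -Gb F 1 0 1 x]

/-- PRS (200 lines; uses FR.FRM FR.CHR FR.COD TRG.EGG). The equations of Gauss (EGG: equal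
determinants) and Codazzi (COD for `F` and `G`, the same `Gb` by CHR; `II 1 0 = II 0 1` by FRM).
Smoothness FRM; periodicity and continuity of `Gb`: see `B_HPR.lean`. -/
def Stmt_PRS : Prop :=
  ∀ F G : E2 → V3, Imm F St → Imm G St → Iso F G → Per F → Per G → PR (datF F G)

/-- the sum of the second forms -/
noncomputable def sA (F G : E2 → V3) (x : E2) : ℝ := II F 0 0 x + II G 0 0 x

noncomputable def sD (F G : E2 → V3) (x : E2) : ℝ :=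
  sA F G x * (II F 1 1 x + II G 1 1 x) - (II F 0 1 x + II G 0 1 x) ^ 2

/-- PVN (100 lines; uses FR.FRM PRS VAN). VAN for `datF F G`; `II 1 0 = II 0 1` by FRM.  (`A = sA`,
`D = sD` by `ring`.) -/
def Stmt_PVN : Prop :=
  ∀ (F G : E2 → V3) (p q N : ℕ) (ε r M : ℝ) (u v z : E2 → ℝ), Imm F St → Imm G St → Iso F G →
    Per F → Per G → p < N → q < N + p → 2 * p ≤ q + 1 → 2 ≤ N → 0 < r → r < 1 → 0 ≤ M →
    (ε = 1 ∨ ε = -1) → LinC F p q (HS r) u v z →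
    (∀ x : E2, 0 < x 1 → x 1 ≤ r → sA F G x ≠ 0 ∧ 0 < ε * sD F G x) →
    (∀ x ∈ HS r, ∀ i j, |II G i j x - II F i j x| ≤ M * x 1 ^ N ∧
      ∀ k, |pd k (fun y => II G i j y - II F i j y) x| ≤ M * x 1 ^ (N - 1)) →
    ∀ x ∈ HS r, ∀ i j, II G i j x = II F i j x

/-- ELS (200 lines; uses FR.CHR TRG.EGG VNF PVN). Elliptic tubes, every `t`.  Fix `t`, `F = F 0`,
`G = F t`, `N = m - 2`, `r < 1`.  `dII G = dII F > 0` for `x 1 > 0` (EGG), so `II G 0 0 ≠ 0` there.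
Same sign of `II F 0 0` and `II G 0 0` for `0 < x 1 < 1`: both are continuous and `≠ 0` on the ray
`x 0` fixed, and near the line `II F 0 0 = x₁^p u`, `|II G 0 0 - II F 0 0| ≤ M x₁^N`, `p < N`,
`u ≠ 0` on the line (VNF).  So `sA ≠ 0`, and `sD = dII F + dII G + (A C' + A' C - 2 B B') > 0`: with
`A A' > 0`, `A C > B²`, `A' C' > B'²`: `A A' (A C' + A' C - 2 B B') = A² (A' C') + A'² (A C) - 2 A A'
B B' ≥ (A B' - A' B)² ≥ 0`.  PVN with `ε = 1` for all `r < 1`. -/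
def Stmt_ELS : Prop :=
  ∀ (m : ℕ) (F : ℝ → E2 → V3) (p q : ℕ) (u v z : E2 → ℝ), 4 ≤ m → SFm m F →
    (∀ t ∈ Icc (0 : ℝ) 1, ∀ x ∈ St, x 1 < 0 → ∀ i j, II (F t) i j x = II (F 0) i j x) →
    p + 2 < m → q + 2 < m + p → 2 * p ≤ q + 1 → LinC (F 0) p q HT u v z →
    (∀ x ∈ St, 0 < x 1 → II (F 0) 0 0 x ≠ 0 ∧ 0 < dII (F 0) x) →
    ∀ t ∈ Icc (0 : ℝ) 1, ∀ x ∈ HT, ∀ i j, II (F t) i j x = II (F 0) i j x

/-- NLN (200 lines; uses CPT TRG.EGG VNF). Near the line, uniformly in time.  VNF for `r = 1/2`, constant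
`M`: `sA (F s) (F t) = 2 x₁^p u + (a s + a t)`, `|a s + a t| ≤ 2 M x₁^N`, `N = m - 2 > p`, and
`|u| ≥ c` for `0 ≤ x₁ ≤ δ` (CPT).  `dII (F s) = dII (F t) = dII (F 0)` (EGG), so
`sD (F s) (F t) = 4 dII (F 0) - ((a t - a s)(w t - w s) - (b t - b s)²) ≤ 4 x₁^q z + 8 M² x₁^(2N)`,
and `z ≤ -c` for `0 ≤ x₁ ≤ δ` (`z` is continuous, does not vanish there and has the sign of
`dII (F 0)` for `x 1 > 0`), `q < 2N`. -/
def Stmt_NLN : Prop :=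
  ∀ (m : ℕ) (F : ℝ → E2 → V3) (p q : ℕ) (u v z : E2 → ℝ), 4 ≤ m → SFm m F →
    (∀ t ∈ Icc (0 : ℝ) 1, ∀ x ∈ St, x 1 < 0 → ∀ i j, II (F t) i j x = II (F 0) i j x) →
    p + 2 < m → q + 2 < m + p → 2 * p ≤ q + 1 → LinC (F 0) p q HT u v z →
    (∀ x ∈ St, 0 < x 1 → II (F 0) 0 0 x ≠ 0 ∧ dII (F 0) x < 0) →
    ∃ δ : ℝ, 0 < δ ∧ δ < 1 ∧ ∀ s ∈ Icc (0 : ℝ) 1, ∀ t ∈ Icc (0 : ℝ) 1, ∀ x : E2, 0 < x 1 →
      x 1 ≤ δ → sA (F s) (F t) x ≠ 0 ∧ sD (F s) (F t) x < 0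

/-- HYS (300 lines; uses FR.CHR VNF PVN NLN). Hyperbolic tubes, as `B_HTF.lean`.  Fix `r < 1`; `T` =
the set of the `t ∈ [0,1]` with `II (F t) = II (F 0)` on `HS r`.  `0 ∈ T`; closed: `t ↦ II (F t) i j
x` is continuous.  Open: `s ∈ T`, `δ` of NLN.  For `t` near `s` the pair `F s, F t` satisfies `sA ≠ 0`,
`sD < 0` for `0 < x 1 ≤ r`: for `x 1 ≤ δ` by NLN, for `δ ≤ x 1 ≤ r` because for `t = s` they are
`2 II (F 0) 0 0 ≠ 0`, `4 dII (F 0) < 0` and `II (F t) → II (F s)` uniformly on the compact rectangle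
(tube lemma, periodicity; `B_HTF.lean`).  PVN with `ε = -1`: `LinC (F s) p q (HS r)` because
`II (F s) = II (F 0)` on `HS r`; the estimates of the difference `II (F t) - II (F s)` by VNF for
`s` and `t` (constant `2M`).  `[0,1]` is connected. -/
def Stmt_HYS : Prop :=
  ∀ (m : ℕ) (F : ℝ → E2 → V3) (p q : ℕ) (u v z : E2 → ℝ), 4 ≤ m → SFm m F →
    (∀ t ∈ Icc (0 : ℝ) 1, ∀ x ∈ St, x 1 < 0 → ∀ i j, II (F t) i j x = II (F 0) i j x) →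
    p + 2 < m → q + 2 < m + p → 2 * p ≤ q + 1 → LinC (F 0) p q HT u v z →
    (∀ x ∈ St, 0 < x 1 → II (F 0) 0 0 x ≠ 0 ∧ dII (F 0) x < 0) →
    ∀ t ∈ Icc (0 : ℝ) 1, ∀ x ∈ HT, ∀ i j, II (F t) i j x = II (F 0) i j x

/-- STR (60 lines; uses ELS HYS). The set `0 < x 1 < 1` is convex, `dII (F 0)` is continuous and
`≠ 0` there (FRM gives the smoothness of `II`; `Imm`), so it has one sign. -/
def Stmt_STR : Prop :=
  ∀ (m : ℕ) (F : ℝ → E2 → V3) (p q : ℕ) (u v z : E2 → ℝ), 4 ≤ m → SFm m F →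
    (∀ t ∈ Icc (0 : ℝ) 1, ∀ x ∈ St, x 1 < 0 → ∀ i j, II (F t) i j x = II (F 0) i j x) →
    p + 2 < m → q + 2 < m + p → 2 * p ≤ q + 1 → LinC (F 0) p q HT u v z →
    (∀ x ∈ St, 0 < x 1 → II (F 0) 0 0 x ≠ 0 ∧ dII (F 0) x ≠ 0) →
    ∀ t ∈ Icc (0 : ℝ) 1, ∀ x ∈ HT, ∀ i j, II (F t) i j x = II (F 0) i j x

/-! ### D. Surfaces -/

/-- the second form with respect to the normal vector `u_0 ⨯₃ u_1` -/
noncomputable def sf (u : E2 → E3) (i j : Fin 2) (x : E2) : ℝ :=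
  L3 (pd i (pd j u) x) ⬝ᵥ (L3 (pd 0 u x) ⨯₃ L3 (pd 1 u x))

/-- its determinant -/
noncomputable def sd (u : E2 → E3) (x : E2) : ℝ := sf u 0 0 x * sf u 1 1 x - sf u 0 1 x ^ 2

section surface

variable {S : Type w} [TopologicalSpace S] [ChartedSpace E2 S]

/-- an isometric deformation through immersions of class `C^m`, continuous in the `C²` topology
and bounded in the `C^m` topology, in charts -/
structure DfM (m : ℕ) (f : ℝ → S → E3) : Prop where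
  smooth : ∀ t ∈ Icc (0 : ℝ) 1, ContMDiff (𝓡 2) (𝓡 3) m (f t)
  imm : ∀ t ∈ Icc (0 : ℝ) 1, ∀ p, Function.Injective (FRD.dvec (f t) p)
  iso : ∀ t ∈ Icc (0 : ℝ) 1, ∀ p v w, FRD.firstForm (f t) p v w = FRD.firstForm (f 0) p v w
  cont : ∀ (p : S) (k : ℕ), k ≤ 2 → ContinuousOn (fun z : ℝ × E2 =>
    iteratedFDeriv ℝ k (fun x => f z.1 ((extChartAt (𝓡 2) p).symm x)) z.2)
    (Icc (0 : ℝ) 1 ×ˢ (extChartAt (𝓡 2) p).target)
  bdd : ∀ p : S, ∀ x ∈ (extChartAt (𝓡 2) p).target, ∃ M : ℝ, ∀ᶠ y in 𝓝 x,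
    ∀ t ∈ Icc (0 : ℝ) 1, ∀ k ≤ m,
    ‖iteratedFDeriv ℝ k (fun z => f t ((extChartAt (𝓡 2) p).symm z)) y‖ ≤ M

/-- a tube of `f`: for `x 1 > 0` the curves `x 1 = const` have nonzero normal curvature and
`K ≠ 0`, on the line `x 1 = 0` the zeros have finite order -/
structure Tub (m : ℕ) (f : S → E3) (Φ : E2 → S) : Prop where
  ann : Ann m Φ
  reg : ∀ x ∈ St, 0 < x 1 → sf (fun y => f (Φ y)) 0 0 x ≠ 0 ∧ sd (fun y => f (Φ y)) x ≠ 0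
  lin : ∃ (p q : ℕ) (u v z : E2 → ℝ), p + 2 < m ∧ q + 2 < m + p ∧ 2 * p ≤ q + 1 ∧
    ContDiffOn ℝ 1 u St ∧ ContDiffOn ℝ 1 v St ∧ ContDiffOn ℝ 1 z St ∧
    (∀ x : ℝ, u (pt x) ≠ 0 ∧ z (pt x) ≠ 0) ∧
    ∀ x ∈ HT, sf (fun y => f (Φ y)) 0 0 x = x 1 ^ p * u x ∧
      sf (fun y => f (Φ y)) 0 1 x = x 1 ^ p * v x ∧ sd (fun y => f (Φ y)) x = x 1 ^ q * z x

end surface

/-- DFM (200 lines; uses TRG.LBC TRG.RD0 TRG.RD1). `DfM m f` implies `TRG.Dfm f` and `Ann m Φ`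
implies `Ann 4 Φ` (`4 ≤ m`), so `imm`, `iso`, `per`, `j2` by RD0, RD1; smoothness: composition;
bounds: as `B_LBM.lean` and `B_LCC.lean` with `m` in place of `4` (LBC is general). -/
def Stmt_DFM : Prop :=
  ∀ (S : Type w) [TopologicalSpace S] [ChartedSpace E2 S] (m : ℕ) [IsManifold (𝓡 2) m S]
    (f : ℝ → S → E3), 4 ≤ m → DfM m f → ∀ Φ : E2 → S, Ann m Φ → SFm m fun t x => L3 (f t (Φ x))

/-- TUC (120 lines; uses FR.FRM). `F = L3 ∘ f ∘ Φ`: `L3` commutes with `pd` (`pd_clm`), so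
`sf i j = √DD II F i j` (`WW = √DD NN`, FRM), `sd = DD dII F`, `DD > 0` is `C³`: divide `u`, `v` by
`√DD`, `z` by `DD`. -/
def Stmt_TUC : Prop :=
  ∀ (S : Type w) [TopologicalSpace S] [ChartedSpace E2 S] (m : ℕ) (f : S → E3) (Φ : E2 → S),
    Imm (fun x => L3 (f (Φ x))) St → Tub m f Φ → ∃ (p q : ℕ) (u v z : E2 → ℝ),
    p + 2 < m ∧ q + 2 < m + p ∧ 2 * p ≤ q + 1 ∧ LinC (fun x => L3 (f (Φ x))) p q HT u v z ∧
    ∀ x ∈ St, 0 < x 1 → II (fun x => L3 (f (Φ x))) 0 0 x ≠ 0 ∧ dII (fun x => L3 (f (Φ x))) x ≠ 0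

/-- TUB (250 lines; uses FR.FRM FR.MOT TRG.FOD STR DFM TUC). The tube theorem.  `F t = L3 ∘ f t ∘ Φ`
(DFM).  `A t` as a matrix `R` and a vector `b`: `motion_of` (`MP_02e829_tr/Mv.lean`):
`F t = R F 0 + b` for `x 1 < 0`, so the second forms agree there (MOT, first part, `O` = the open set
`x ∈ St`, `x 1 < 0`), so for `0 ≤ x 1` (TUC, STR).  `F t`, `pd i (F t)` are continuous, so
`F t (pt x) = R F 0 (pt x) + b`, `pd i (F t) (pt x) = R pd i (F 0) (pt x)`; FOD. -/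
def Stmt_TUB : Prop :=
  ∀ (S : Type w) [TopologicalSpace S] [ChartedSpace E2 S] (m : ℕ) [IsManifold (𝓡 2) m S]
    (f : ℝ → S → E3), 4 ≤ m → DfM m f → ∀ Φ : E2 → S, Tub m (f 0) Φ →
    ∀ A : ℝ → (E3 ≃ᵃⁱ[ℝ] E3), (∀ t ∈ Icc (0 : ℝ) 1, Proper (A t)) →
    (∀ t ∈ Icc (0 : ℝ) 1, ∀ x ∈ St, x 1 < 0 → f t (Φ x) = A t (f 0 (Φ x))) →
    ∀ t ∈ Icc (0 : ℝ) 1, ∀ x ∈ St, f t (Φ x) = A t (f 0 (Φ x))

/-- PCS (150 lines; uses nothing). `h y = inner (u y - u x) n - ‖u y - u x‖² ≥ 0` near `x`, `h x = 0`: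
a local minimum.  `pd i h x = inner (u_i) n = 0`, the second derivatives `inner (u_ij) n - 2 inner u_i
u_j` form a positive semidefinite matrix (look at the proof of `MP_02e829_sb/B_ELP.lean`, or FR.SDT).
`n` is orthogonal to `u_0, u_1`, so `L3 n = λ (u_0 ⨯₃ u_1)` and `inner u_ij n = λ sf i j`; the first
form is positive definite, so `λ (sf)` is positive definite. -/
def Stmt_PCS : Prop :=
  ∀ (U : Set E2) (u : E2 → E3), IsOpen U → ContDiffOn ℝ 2 u U → ∀ x ∈ U,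
    L3 (pd 0 u x) ⨯₃ L3 (pd 1 u x) ≠ 0 → ∀ n : E3,
    (∀ᶠ y in 𝓝 x, ‖u y - u x‖ ^ 2 ≤ inner ℝ (u y - u x) n) → sf u 0 0 x ≠ 0 ∧ 0 < sd u x

/-- PL1 (150 lines; uses nothing). Polar coordinates: `R y = r₀ exp (λ y)`, `λ = log (2ρ/r₀) > 0`,
`ψ x = c + R (x 1) (cos (x 0), sin (x 0))`; `ψ_0 = R (-sin, cos)`, `ψ_1 = λ R (cos, sin)` are
independent; `|ψ x - c| = R (x 1) < 2ρ`, `< r₀` if `x 1 < 0`; a point of `ball q ρ ⊆ ball c (2ρ)` at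
distance `≥ r₀` from `c` is `ψ x` with `x 1 = log (dist / r₀) / λ ∈ [0, 1)`, `x 0` its argument
(`Complex.arg`). -/
def Stmt_PL1 : Prop :=
  ∀ (c q : E2) (ρ r₀ : ℝ), dist c q < ρ → 0 < r₀ → r₀ < ρ → ∃ ψ : E2 → E2, ContDiff ℝ ∞ ψ ∧
    (∀ x, ψ (x + (2 * π) • ee 0) = ψ x) ∧ (∀ x, Function.Injective (fderiv ℝ ψ x)) ∧
    MapsTo ψ St (ball q (3 * ρ)) ∧ (∀ x ∈ St, x 1 < 0 → ψ x ∈ ball c r₀) ∧
    ball q ρ ⊆ ball c r₀ ∪ ψ '' St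

/-- PL2 (250 lines; uses TRG.CHN PCS PL1). A tube in a convex region.  `e = extChartAt (𝓡 2) q`,
`q' = e q`; `ρ > 0` with `closedBall q' (3ρ) ⊆ e.target`, mapped into `O` by `e.symm`; `p ∈ V` in the
source with `dist (e p) q' < ρ` (`q ∈ closure V`), `c = e p`, `r₀ < ρ` with `e.symm '' ball c r₀ ⊆ V`;
`ψ` of PL1, `Φ = e.symm ∘ ψ`: `Ann m Φ` (chain rule for `mfderiv`, `e.symm` is `C^m` on the target
with invertible derivative; outside of `St` nothing is needed).  `reg`: `PosCurv f (Φ x)` gives the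
hypothesis of PCS for `u = f ∘ Φ` (`Φ` is continuous; `u_0, u_1` independent by CHN and the
injectivity of `dvec` and `mfderiv Φ`), so `sf 0 0 ≠ 0`, `sd > 0` on `St`.  `lin`: `p = q = 0`,
`u = sf 0 0`, `v = sf 0 1`, `z = sd` (`C²` on `St`).  `e.symm '' ball q' ρ ⊆ V ∪ Φ '' St`. -/
def Stmt_PL2 : Prop :=
  ∀ (S : Type w) [TopologicalSpace S] [ChartedSpace E2 S] (m : ℕ) [IsManifold (𝓡 2) m S]
    (f : S → E3), 4 ≤ m → ContMDiff (𝓡 2) (𝓡 3) m f →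
    (∀ p, Function.Injective (FRD.dvec f p)) → ∀ O : Set S, IsOpen O → (∀ p ∈ O, PosCurv f p) →
    ∀ V : Set S, IsOpen V → ∀ q ∈ O, q ∈ closure V →
    ∃ Φ : E2 → S, Tub m f Φ ∧ (∀ x ∈ St, x 1 < 0 → Φ x ∈ V) ∧ V ∪ Φ '' St ∈ 𝓝 q

/-- ELO (120 lines; uses TUB PL2). Convex regions.  `V` = the interior of the set of the `p` with
`f t p = A t (f 0 p)` for all `t ∈ [0,1]`, `U ⊆ V`.  If `q ∈ O ∩ closure V`: PL2, TUB, so `q ∈ V`.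
`O` is preconnected: `O ⊆ V`. -/
def Stmt_ELO : Prop :=
  ∀ (S : Type w) [TopologicalSpace S] [ChartedSpace E2 S] (m : ℕ) [IsManifold (𝓡 2) m S]
    (f : ℝ → S → E3), 4 ≤ m → DfM m f → ∀ O : Set S, IsOpen O → IsPreconnected O →
    (∀ p ∈ O, PosCurv (f 0) p) → ∀ U : Set S, IsOpen U → (U ∩ O).Nonempty →
    ∀ A : ℝ → (E3 ≃ᵃⁱ[ℝ] E3), (∀ t ∈ Icc (0 : ℝ) 1, Proper (A t)) →
    (∀ t ∈ Icc (0 : ℝ) 1, ∀ p ∈ U, f t p = A t (f 0 p)) →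
    ∀ t ∈ Icc (0 : ℝ) 1, ∀ p ∈ O, f t p = A t (f 0 p)

end Pool.PGR
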