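import Pool.Agent.Work.MP_02e829_pg.Final

/-!
# MP_02e829_gt, PROPAGATION OF RIGIDITY, part 3: surfaces of revolution

Same rules as parts 1 and 2 (`import Pool.Agent.Work.MP_02e829_pg.Interface3`, file `B_X.lean`,
`theorem p_X`).  THE THEOREM.  Let `f_t` be an isometric deformation of class `C^n`, `4 ≤ n ≤ ∞`, of a
closed surface, `f_0` a surface of revolution: `f_0 (Ψ x) = c + ρ (cos x₀ e1 + sin x₀ e2) + ζ e3`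
(`ρ, ζ` at `x₁`), `Ψ` an immersion of `α < x₁ < β` with dense image.  Suppose that at every point
`ζ'` and `k = ρ' ζ'' - ρ'' ζ'` vanish to finite order (`< n - 2`; any finite order if `n = ∞`) and
that `ζ' = 0 ≠ ζ''` at one point `y0` (a parallel along which the surface touches a plane).  Then
the `f_t` are congruent to `f_0`.  PROOF.  The parallel `y0` is a trough, so the strip on its
hyperbolic side (`ρ'(y0) (y - y0) < 0`) moves rigidly (`HPiece`); the tubes `Ψ (x₀, y + δ x₁)`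
around any parallel `y` satisfy the hypotheses of `TubN`; a supremum argument.
-/

open Set Filter Manifold Matrix MeasureTheory Metric
open scoped Topology ContDiff Manifold Real

set_option autoImplicit false

universe w

namespace Pool.PGR

open Pool
open Pool.FR (pd ee gg WW DD NN II Ga Gb Imm SO3)
open Pool.SXB (E3 L3 Proper PosCurv TC)
open Pool.TRG (E2 V3 IC St pt px PerR Iso Per Ann Dfm CPiece HPiece HTube Tro Ang)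

/-- the strip `α < x 1 < β` -/
def Wd (α β : ℝ) : Set E2 := {x | α < x 1 ∧ x 1 < β}

/-- the affine map `x ↦ (x 0, y + δ x 1)` -/
noncomputable def af (y δ : ℝ) (x : E2) : E2 := px (x 0) (y + δ * x 1)

/-- the parametrized surface of revolution -/
noncomputable def rev (c e1 e2 e3 : E3) (ρ ζ : ℝ → ℝ) (x : E2) : E3 :=
  c + (ρ (x 1) * Real.cos (x 0)) • e1 + (ρ (x 1) * Real.sin (x 0)) • e2 + ζ (x 1) • e3

/-- the profile curvature (not normalized) -/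
noncomputable def kr (ρ ζ : ℝ → ℝ) (y : ℝ) : ℝ :=
  deriv ρ y * deriv (deriv ζ) y - deriv (deriv ρ) y * deriv ζ y

/-- `g` vanishes at `y` to a finite order `< n - 2` -/
def FO (n : ℕ∞) (g : ℝ → ℝ) (y : ℝ) : Prop :=
  ∃ (k : ℕ) (U : ℝ → ℝ), (k : ℕ∞) + 2 < n ∧ ContDiffAt ℝ 1 U y ∧ U y ≠ 0 ∧
    ∀ᶠ s in 𝓝 y, g s = (s - y) ^ k * U s

/-- `f ∘ Ψ` is a surface of revolution -/
structure Rot {S : Type w} [TopologicalSpace S] [ChartedSpace E2 S] (n : ℕ∞) (f : S → E3)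
    (α β : ℝ) (Ψ : E2 → S) (c e1 e2 e3 : E3) (ρ ζ : ℝ → ℝ) : Prop where
  smooth : ContMDiffOn (𝓡 2) (𝓡 2) n Ψ (Wd α β)
  inj : ∀ x ∈ Wd α β, Function.Injective (mfderiv (𝓡 2) (𝓡 2) Ψ x)
  per : ∀ x ∈ Wd α β, Ψ (x + (2 * π) • ee 0) = Ψ x
  ort : Orthonormal ℝ ![e1, e2, e3]
  sρ : ContDiffOn ℝ n ρ (Ioo α β)
  sζ : ContDiffOn ℝ n ζ (Ioo α β)
  pos : ∀ y ∈ Ioo α β, 0 < ρ y
  eq : ∀ x ∈ Wd α β, f (Ψ x) = rev c e1 e2 e3 ρ ζ x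

/-- RTP (150 lines; uses nothing). Partial derivatives of the explicit map `rev ∘ af`
(`pd i u x = fderiv u x (ee i)`: `HasFDerivAt` of the coordinates `x 0`, `x 1`, chain rule; the first
formulas hold on the open set `St`, so `pd_congr` for the second derivatives; `y + δ x₁ ∈ (α, β)`
for `x ∈ St`). -/
def Stmt_RTP : Prop :=
  ∀ (α β y δ : ℝ) (c e1 e2 e3 : E3) (ρ ζ : ℝ → ℝ), ContDiffOn ℝ 2 ρ (Ioo α β) →
    ContDiffOn ℝ 2 ζ (Ioo α β) → α ≤ y - |δ| → y + |δ| ≤ β → ∀ x ∈ St,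
    pd 0 (fun z => rev c e1 e2 e3 ρ ζ (af y δ z)) x =
      -(ρ (y + δ * x 1) * Real.sin (x 0)) • e1 + (ρ (y + δ * x 1) * Real.cos (x 0)) • e2 ∧
    pd 1 (fun z => rev c e1 e2 e3 ρ ζ (af y δ z)) x =
      (δ * deriv ρ (y + δ * x 1) * Real.cos (x 0)) • e1 +
      (δ * deriv ρ (y + δ * x 1) * Real.sin (x 0)) • e2 + (δ * deriv ζ (y + δ * x 1)) • e3 ∧
    pd 0 (pd 0 fun z => rev c e1 e2 e3 ρ ζ (af y δ z)) x =
      -(ρ (y + δ * x 1) * Real.cos (x 0)) • e1 - (ρ (y + δ * x 1) * Real.sin (x 0)) • e2 ∧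
    pd 0 (pd 1 fun z => rev c e1 e2 e3 ρ ζ (af y δ z)) x =
      -(δ * deriv ρ (y + δ * x 1) * Real.sin (x 0)) • e1 +
      (δ * deriv ρ (y + δ * x 1) * Real.cos (x 0)) • e2 ∧
    pd 1 (pd 1 fun z => rev c e1 e2 e3 ρ ζ (af y δ z)) x =
      (δ ^ 2 * deriv (deriv ρ) (y + δ * x 1) * Real.cos (x 0)) • e1 +
      (δ ^ 2 * deriv (deriv ρ) (y + δ * x 1) * Real.sin (x 0)) • e2 +
      (δ ^ 2 * deriv (deriv ζ) (y + δ * x 1)) • e3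

/-- RTS (150 lines; uses RTP). The second form.  `o = L3 e1 ⬝ᵥ (L3 e2 ⨯₃ L3 e3) = ±1` (orthonormal:
`Matrix.det_mul_self`.. or `o² =` Gram determinant `= 1`).  `u_0 ⨯₃ u_1 = o δ (ρ ζ' (cos e1 + sin e2)
- ρ ρ' e3)` (cross products of the orthonormal basis: `e1 ⨯₃ e2 = o e3` etc.), so
`sf 0 0 = -o δ ρ² ζ'`, `sf 0 1 = 0`, `sf 1 1 = -o δ³ ρ k`. -/
def Stmt_RTS : Prop :=
  ∀ (α β y δ : ℝ) (c e1 e2 e3 : E3) (ρ ζ : ℝ → ℝ), Orthonormal ℝ ![e1, e2, e3] →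
    ContDiffOn ℝ 2 ρ (Ioo α β) → ContDiffOn ℝ 2 ζ (Ioo α β) → α ≤ y - |δ| → y + |δ| ≤ β →
    ∃ o : ℝ, o ^ 2 = 1 ∧ ∀ x ∈ St,
    sf (fun z => rev c e1 e2 e3 ρ ζ (af y δ z)) 0 0 x =
      -(o * δ * ρ (y + δ * x 1) ^ 2 * deriv ζ (y + δ * x 1)) ∧
    sf (fun z => rev c e1 e2 e3 ρ ζ (af y δ z)) 0 1 x = 0 ∧
    sf (fun z => rev c e1 e2 e3 ρ ζ (af y δ z)) 1 1 x =
      -(o * δ ^ 3 * ρ (y + δ * x 1) * kr ρ ζ (y + δ * x 1))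

/-- RTA (100 lines; uses nothing). Composition with the affine map `af y δ` (derivative injective,
`δ ≠ 0`), which maps `St` into `Wd α β`. -/
def Stmt_RTA : Prop :=
  ∀ (S : Type w) [TopologicalSpace S] [ChartedSpace E2 S] (n : ℕ∞) (f : S → E3) (α β : ℝ)
    (Ψ : E2 → S) (c e1 e2 e3 : E3) (ρ ζ : ℝ → ℝ), 1 ≤ n → Rot n f α β Ψ c e1 e2 e3 ρ ζ →
    ∀ y δ : ℝ, δ ≠ 0 → α ≤ y - |δ| → y + |δ| ≤ β → Ann n (fun x => Ψ (af y δ x))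

/-- RTN (60 lines; uses nothing). Pure calculus.  `deriv ζ s = (s - y)^p U s` and
`kr ρ ζ s = (s - y)^r V s` near `y`, `U y ≠ 0 ≠ V y`: then `p ≤ r + 1`.  For `p ≥ 1`:
`deriv (deriv ζ) s = p (s-y)^(p-1) U + (s-y)^p U'` near `y` (`U` is `C¹` near `y`), so
`(s-y)^r V = (s-y)^(p-1) (p ρ' U + (s-y)(ρ' U' - ρ'' U))`; if `r < p - 1` divide by `(s-y)^r`
(`s ≠ y`), `s → y`: `V y = 0`. -/
def Stmt_RTN : Prop :=
  ∀ (α β y : ℝ) (ρ ζ U V : ℝ → ℝ) (p r : ℕ), y ∈ Ioo α β → ContDiffOn ℝ 2 ρ (Ioo α β) →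
    ContDiffOn ℝ 2 ζ (Ioo α β) → ContDiffAt ℝ 1 U y → ContDiffAt ℝ 1 V y → V y ≠ 0 →
    (∀ᶠ s in 𝓝 y, deriv ζ s = (s - y) ^ p * U s) →
    (∀ᶠ s in 𝓝 y, kr ρ ζ s = (s - y) ^ r * V s) → p ≤ r + 1

/-- RTT (250 lines; uses RTS RTA RTN). Every parallel is the line of a tube.  `deriv ζ s = (s-y)^p U`,
`kr ρ ζ s = (s-y)^r V` (FO) for `|s - y| < δ₀`, `U, V` of class `C¹` and `≠ 0` there, `(y - δ₀, y +
δ₀) ⊆ (α, β)`.  For `0 < |δ| ≤ δ₀` and `Φ x = Ψ (af y δ x)`: `f ∘ Φ = rev ∘ af y δ` on the open set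
`St` (so `sf`, `sd` agree, `pd_congr`), RTS: with `s = y + δ x₁`, `s - y = δ x₁`:
`sf 0 0 = x₁^p u`, `u x = -o δ^(p+1) ρ(s)² U(s)`, `sf 0 1 = 0 = x₁^p 0`,
`sd = δ⁴ ρ³ ζ' k = x₁^(p+r) z`, `z x = δ^(4+p+r) ρ(s)³ U(s) V(s)` (`o² = 1`).  `TubN` with `p` and
`q = p + r`: `p + 2 < n`, `q + 2 < n + p` (from `r + 2 < n`), `2 p ≤ q + 1` by RTN.  Ann: RTA. -/
def Stmt_RTT : Prop :=
  ∀ (S : Type w) [TopologicalSpace S] [ChartedSpace E2 S] (n : ℕ∞) (f : S → E3) (α β : ℝ)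
    (Ψ : E2 → S) (c e1 e2 e3 : E3) (ρ ζ : ℝ → ℝ), 4 ≤ n → Rot n f α β Ψ c e1 e2 e3 ρ ζ →
    ∀ y ∈ Ioo α β, FO n (deriv ζ) y → FO n (kr ρ ζ) y →
    ∃ δ₀ : ℝ, 0 < δ₀ ∧ ∀ δ : ℝ, 0 < |δ| → |δ| ≤ δ₀ →
      α ≤ y - |δ| ∧ y + |δ| ≤ β ∧ TubN n f (fun x => Ψ (af y δ x))

/-- RTH (250 lines; uses TRG.CHN RTP RTA). A parallel in a horizontal plane is a trough.  `ρ'(y) ≠ 0`:
otherwise `pd 1` of `rev` vanishes at `x 1 = y`, but `f ∘ Ψ` is an immersion (CHN, `dvec f` and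
`mfderiv Ψ` injective).  `δ` with `δ ρ'(y) < 0`, `|δ|` small.  `Tro 4 f Φ e1 e2 φ` for
`Φ x = Ψ (af y δ x)`, `φ x = x + π/2` (`cos φ e1 + sin φ e2 = -sin x e1 + cos x e2`): `along`: `ρ(y)`;
`across`: `0`, `-δ ρ'(y) > 0` (`ζ'(y) = 0`); `bend`: the `e3`-component of `u_11` is `δ² ζ''(y) ≠ 0`;
`Ang φ`.  `HTube`: `n ⊥ u_0, u_1`, `n ≠ 0` is a multiple `μ ≠ 0` of `ζ' (cos e1 + sin e2) - ρ' e3`
(`δ, ρ ≠ 0`, orthonormal basis), so `inner u_00 n = -μ ρ ζ'`, `inner u_11 n = -μ δ² k`, the product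
is `μ² δ² ρ ζ' k`, and `ζ' k < 0` at `s = y + δ x₁`, `0 < x₁ < 1`, for small `|δ|`: `ζ'(s)/(s-y) →
ζ''(y)`, `k(s) → ρ'(y) ζ''(y)`, so `ζ'(s) k(s) / (s-y) → ζ''(y)² ρ'(y)`, and `(s-y) ρ'(y) < 0`. -/
def Stmt_RTH : Prop :=
  ∀ (S : Type w) [TopologicalSpace S] [ChartedSpace E2 S] [IsManifold (𝓡 2) 1 S] (n : ℕ∞)
    (f : S → E3) (α β : ℝ) (Ψ : E2 → S) (c e1 e2 e3 : E3) (ρ ζ : ℝ → ℝ), 4 ≤ n →
    ContMDiff (𝓡 2) (𝓡 3) 1 f → (∀ p, Function.Injective (FRD.dvec f p)) →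
    Rot n f α β Ψ c e1 e2 e3 ρ ζ → ∀ y ∈ Ioo α β, deriv ζ y = 0 → deriv (deriv ζ) y ≠ 0 →
    ∃ δ : ℝ, δ ≠ 0 ∧ α ≤ y - |δ| ∧ y + |δ| ≤ β ∧
      HPiece f ((fun x => Ψ (af y δ x)) '' {x | x ∈ St ∧ 0 < x 1})

/-- RTI (150 lines; uses nothing). Intervals.  `b* = sup {b ≤ β | R a0 b}`; by `chain` `R a0 b*`; if
`b* < β` then `ext` at `y = b*`, monotonicity (`R (y-δ) y`) and `R a0 b*`, `R (y-δ) (y+δ)` give
`R a0 (b* + δ)` by `union`.  So `R a0 β`; in the same way to the left: `R α β`. -/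
def Stmt_RTI : Prop :=
  ∀ (α β : ℝ) (R : ℝ → ℝ → Prop),
    (∀ a a' b' b, a ≤ a' → a' < b' → b' ≤ b → R a b → R a' b') →
    (∀ a b, a < b → (∀ a' b', a < a' → a' < b' → b' < b → R a' b') → R a b) →
    (∀ a a' b b', a ≤ a' → a' < b → b ≤ b' → R a b → R a' b' → R a b') →
    (∀ y ∈ Ioo α β, ∃ δ₀ : ℝ, 0 < δ₀ ∧ ∀ δ : ℝ, 0 < δ → δ ≤ δ₀ →
      (R (y - δ) y → R (y - δ) (y + δ)) ∧ (R y (y + δ) → R (y - δ) (y + δ))) →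
    ∀ a0 b0, α ≤ a0 → a0 < b0 → b0 ≤ β → R a0 b0 → R α β

/-- RTF (250 lines; uses TRG.OPE RTT RTH RTI). `R a b` = `α ≤ a ∧ b ≤ β ∧ Reach n f (Ψ '' Wd a b)`.
`Ψ '' Wd a b` is open (OPE for `Ψ ∘ af` with `Ann` from RTA's proof, or repeat the proof of OPE) and
preconnected (image of a convex set).  Monotonicity, chain, union: `Reach.glue` (in `union` the two
strips cover; in `chain` every point of `Wd a b` is in some `Wd a' b'`).  `ext`: `Reach.tube` with `Φ x = Ψ (af y δ x)`: `Φ` maps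
`x 1 < 0` into `Ψ '' Wd (y-δ) y` and `Φ '' St = Ψ '' Wd (y-δ) (y+δ)`; for the other half `-δ`.
Start: RTH, `Reach.hyperbolic`; `Ψ (af y δ ..) '' {0 < x 1} = Ψ '' Wd y (y+δ)` or
`Ψ '' Wd (y+δ) y`. -/
def Stmt_RTF : Prop :=
  ∀ (S : Type w) [TopologicalSpace S] [ChartedSpace E2 S] [IsManifold (𝓡 2) 1 S] (n : ℕ∞)
    (f : ℝ → S → E3) (α β : ℝ) (Ψ : E2 → S) (c e1 e2 e3 : E3) (ρ ζ : ℝ → ℝ), 4 ≤ n →
    ContMDiff (𝓡 2) (𝓡 3) 1 (f 0) → (∀ p, Function.Injective (FRD.dvec (f 0) p)) →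
    Rot n (f 0) α β Ψ c e1 e2 e3 ρ ζ →
    (∀ y ∈ Ioo α β, FO n (deriv ζ) y ∧ FO n (kr ρ ζ) y) →
    (∃ y ∈ Ioo α β, deriv ζ y = 0 ∧ deriv (deriv ζ) y ≠ 0) → Reach n f (Ψ '' Wd α β)

end Pool.PGR
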